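import Mathlib
import Pool.Agent.H53.Q1.J20.Vis
import Pool.Agent.Q1.M3.Step

set_option autoImplicit false
open Finset Filter Topology

/-! # The fine cells next to the tip

`row_spec` : the row of cells of level `K` which starts behind the notch of the tip. -/

namespace Pool.Agent.H5.M7

open Pool.Agent.H75.Perc Pool.Agent.H75.TwoArm Pool.Agent.H75.Four Pool.Agent.H69.Q1
open Pool.Agent.H81.Q1 (pt)
open Pool.Agent.Q1.M3
open Pool.Agent.Q1.M3.Pg hiding Gen
open Pool.Agent.H53.Q1 (rect_sub_fat rect_sub_cfat cfat_eq fat_eq)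
open Pool.Agent.Q1.M4 (rect Om)

/-- the perpendicular direction -/
def perpd (d : ℤ × ℤ) : ℤ × ℤ := (-d.2, d.1)

lemma mem_fcK {K : ℕ} {i j : ℤ} {c : ℤ × ℤ} : c ∈ fc K (K, (i, j)) ↔
    (3 * i - 1 ≤ c.1 ∧ c.1 < 3 * i + 4) ∧ (3 * j - 1 ≤ c.2 ∧ c.2 < 3 * j + 4) := by
  rw [mem_fc]
  simp only [Nat.sub_self, lo, hi, pow_zero, one_mul]

lemma lo3 {d : ℕ} (h : 1 ≤ d) (i : ℤ) : ∃ a, lo d i = 3 * a := by
  obtain ⟨n, rfl⟩ := Nat.exists_eq_add_of_le h
  exact ⟨3 ^ n * (3 * i - 1), by unfold lo; rw [pow_add]; ring⟩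

lemma hi3 {d : ℕ} (h : 1 ≤ d) (i : ℤ) : ∃ a, hi d i = 3 * a := by
  obtain ⟨n, rfl⟩ := Nat.exists_eq_add_of_le h
  exact ⟨3 ^ n * (3 * i + 4), by unfold hi; rw [pow_add]; ring⟩

/-- **The row of fine cells behind the notch.** -/
theorem row_spec {K : ℕ} {q : Cell} (hK : q.1 < K) {c d : ℤ × ℤ} (hd : d ∈ dirs)
    (hc : c ∈ fc K q) (hcd : c + d ∉ fc K q) {S : ℕ}
    (h1 : c + (5 : ℤ) • perpd d ∈ fc K q) (h2 : c - (5 : ℤ) • perpd d ∈ fc K q)
    (h3 : c - (3 * S + 7 : ℤ) • d ∈ fc K q) :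
    ∃ r : ℕ → Cell, (∀ s, (r s).1 = K) ∧ (∀ s ≤ S, fc K (r s) ⊆ fc K q) ∧
      (∀ s ≤ S, c ∉ fc K (r s)) ∧
      ∀ (s : ℕ) (t : ℤ), 2 + 3 * s ≤ t → t ≤ 6 + 3 * s → c - t • d ∈ fc K (r s) := by
  obtain ⟨x, y⟩ := c
  rw [mem_fc] at hc hcd h1 h2 h3
  obtain ⟨A, hA⟩ := lo3 (show 1 ≤ K - q.1 by omega) q.2.1
  obtain ⟨B, hB⟩ := hi3 (show 1 ≤ K - q.1 by omega) q.2.1
  obtain ⟨A', hA'⟩ := lo3 (show 1 ≤ K - q.1 by omega) q.2.2
  obtain ⟨B', hB'⟩ := hi3 (show 1 ≤ K - q.1 by omega) q.2.2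
  rw [hA, hB, hA', hB'] at hc hcd h1 h2 h3
  unfold dirs at hd
  simp only [mem_insert, mem_singleton] at hd
  have hsub : ∀ (i j : ℤ), 3 * A ≤ 3 * i - 1 → 3 * i + 4 ≤ 3 * B → 3 * A' ≤ 3 * j - 1 →
      3 * j + 4 ≤ 3 * B' → fc K (K, (i, j)) ⊆ fc K q := by
    intro i j g1 g2 g3 g4 c hc
    rw [mem_fcK] at hc
    rw [mem_fc, hA, hB, hA', hB']
    omega
  rcases hd with rfl | rfl | rfl | rfl <;>
    simp only [perpd, Prod.mk_add_mk, Prod.mk_sub_mk, Prod.smul_mk, smul_eq_mul, mul_zero, mul_one,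
      add_zero, sub_zero, neg_zero, mul_neg, sub_neg_eq_add] at hc hcd h1 h2 h3 ⊢
  · refine ⟨fun s => (K, (B - 2 - s, y / 3)), fun _ => rfl, fun s hs => ?_, fun s hs => ?_,
      fun s t ht1 ht2 => ?_⟩
    · apply hsub <;> omega
    · rw [mem_fcK]; omega
    · rw [mem_fcK]; omega
  · refine ⟨fun s => (K, (x / 3, B' - 2 - s)), fun _ => rfl, fun s hs => ?_, fun s hs => ?_,
      fun s t ht1 ht2 => ?_⟩
    · apply hsub <;> omega
    · rw [mem_fcK]; omega
    · rw [mem_fcK]; omega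
  · refine ⟨fun s => (K, (A + 1 + s, y / 3)), fun _ => rfl, fun s hs => ?_, fun s hs => ?_,
      fun s t ht1 ht2 => ?_⟩
    · apply hsub <;> omega
    · rw [mem_fcK]; omega
    · rw [mem_fcK]; omega
  · refine ⟨fun s => (K, (x / 3, A' + 1 + s)), fun _ => rfl, fun s hs => ?_, fun s hs => ?_,
      fun s t ht1 ht2 => ?_⟩
    · apply hsub <;> omega
    · rw [mem_fcK]; omega
    · rw [mem_fcK]; omega

/-! ### Inclusions -/

lemma adj_of_fc (o : ℂ) {K : ℕ} {p q : Cell} (hp : p.1 ≤ K) (hq : q.1 ≤ K) {c : ℤ × ℤ}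
    (hcp : c ∈ fc K p) (hcq : c ∈ fc K q) : AdjC o p q := by
  have hm := mesh_pos (K + 1)
  have key : ∀ (a : ℝ) (n lo hi : ℤ), lo ≤ n → n < hi →
      gx K a lo < gx K a n + mesh (K + 1) / 2 ∧ gx K a n + mesh (K + 1) / 2 < gx K a hi := by
    intro a n lo hi h1 h2
    have e1 := (gx_mono K a).monotone h1
    have e2 := (gx_mono K a).monotone (show n + 1 ≤ hi by omega)
    have e3 : gx K a (n + 1) = gx K a n + mesh (K + 1) := by unfold gx; push_cast; ring
    constructor <;> linarith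
  rw [mem_fc] at hcp hcq
  refine ⟨⟨gx K o.re c.1 + mesh (K + 1) / 2, gx K o.im c.2 + mesh (K + 1) / 2⟩, ?_, ?_⟩
  · rw [fat_eq o hp]
    exact ⟨key _ _ _ _ hcp.1.1 hcp.1.2, key _ _ _ _ hcp.2.1 hcp.2.2⟩
  · rw [fat_eq o hq]
    exact ⟨key _ _ _ _ hcq.1.1 hcq.1.2, key _ _ _ _ hcq.2.1 hcq.2.2⟩

lemma fc_sub_lines {K : ℕ} {p q : Cell} (h : fc K p ⊆ fc K q) :
    (lo (K - q.1) q.2.1 ≤ lo (K - p.1) p.2.1 ∧ hi (K - p.1) p.2.1 ≤ hi (K - q.1) q.2.1) ∧
    (lo (K - q.1) q.2.2 ≤ lo (K - p.1) p.2.2 ∧ hi (K - p.1) p.2.2 ≤ hi (K - q.1) q.2.2) := by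
  have e1 := lo_lt_hi (K - p.1) p.2.1
  have e2 := lo_lt_hi (K - p.1) p.2.2
  have m1 : (lo (K - p.1) p.2.1, lo (K - p.1) p.2.2) ∈ fc K p := by
    rw [mem_fc]; simp only; omega
  have m2 : (hi (K - p.1) p.2.1 - 1, hi (K - p.1) p.2.2 - 1) ∈ fc K p := by
    rw [mem_fc]; simp only; omega
  have g1 := h m1
  have g2 := h m2
  rw [mem_fc] at g1 g2
  simp only at g1 g2
  omega

lemma fat_of_fc (o : ℂ) {K : ℕ} {p q : Cell} (hp : p.1 ≤ K) (hq : q.1 ≤ K)
    (h : fc K p ⊆ fc K q) : fat o p ⊆ fat o q := by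
  obtain ⟨⟨h1, h2⟩, h3, h4⟩ := fc_sub_lines h
  intro z hz
  rw [fat_eq o hp] at hz
  rw [fat_eq o hq]
  exact ⟨⟨((gx_mono K _).monotone h1).trans_lt hz.1.1, hz.1.2.trans_le ((gx_mono K _).monotone h2)⟩,
    ((gx_mono K _).monotone h3).trans_lt hz.2.1, hz.2.2.trans_le ((gx_mono K _).monotone h4)⟩

lemma cfat_of_fc (o : ℂ) {K : ℕ} {p q : Cell} (hp : p.1 ≤ K) (hq : q.1 ≤ K)
    (h : fc K p ⊆ fc K q) : cfat o p ⊆ cfat o q := by
  obtain ⟨⟨h1, h2⟩, h3, h4⟩ := fc_sub_lines h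
  intro z hz
  rw [cfat_eq o hp] at hz
  rw [cfat_eq o hq]
  exact ⟨⟨((gx_mono K _).monotone h1).trans hz.1.1, hz.1.2.trans ((gx_mono K _).monotone h2)⟩,
    ((gx_mono K _).monotone h3).trans hz.2.1, hz.2.2.trans ((gx_mono K _).monotone h4)⟩

/-- a neighbour is in the same unit cell or in the next one -/
lemma box_step {K : ℕ} {o : ℂ} {δ : ℝ} (hδ : 0 < δ) (hm : 3 * δ ≤ mesh (K + 1))
    (hg : Gen2 K o δ) {v d : ℤ × ℤ} (hd : d ∈ dirs) :
    box δ o K (v + d) = box δ o K v ∨ box δ o K (v + d) = box δ o K v + d := by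
  obtain ⟨x, y⟩ := v
  unfold dirs at hd
  simp only [mem_insert, mem_singleton] at hd
  rw [box_eq, box_eq]
  rcases hd with rfl | rfl | rfl | rfl <;> simp only [Prod.mk_add_mk, add_zero, Prod.mk.injEq]
  · rcases col_succ hδ hm hg.1 x with h | h
    · exact Or.inl ⟨h, trivial⟩
    · exact Or.inr ⟨h, trivial⟩
  · rcases col_succ hδ hm hg.2 y with h | h
    · exact Or.inl ⟨trivial, h⟩
    · exact Or.inr ⟨trivial, h⟩
  · have h := col_succ hδ hm hg.1 (x + -1)
    rw [show x + -1 + 1 = x by ring] at h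
    rcases h with h | h
    · exact Or.inl ⟨h.symm, trivial⟩
    · exact Or.inr ⟨by omega, trivial⟩
  · have h := col_succ hδ hm hg.2 (y + -1)
    rw [show y + -1 + 1 = y by ring] at h
    rcases h with h | h
    · exact Or.inl ⟨trivial, h.symm⟩
    · exact Or.inr ⟨trivial, by omega⟩

/-! ### Visibility of the row -/

section

variable {D : Set ℂ} {δ : ℝ} {o : ℂ} {qb : Cell} {K : ℕ} {E : Finset (ℤ × ℤ)}

/-- A fine cell inside the coarse cell which does not contain the tip vertex is free. -/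
lemma free_of_sub (hδ : 0 < δ) (hg : Gen2 K o δ) {q p : Cell}
    (hK : q.1 ≤ K) (hqD : cfat o q ⊆ D) {v d : ℤ × ℤ} (hvd : v + d ∉ verts δ o q)
    (hE : ∀ e ∈ star (verts δ o q), e ≠ v + (v + d) → e ∈ E) (hd : d ∈ dirs)
    (hp : p.1 = K) (hpq : fc K p ⊆ fc K q) (hv : box δ o K v ∉ fc K p) : Free D δ o E p := by
  refine ⟨(cfat_of_fc o hp.le hK hpq).trans hqD, fun e he => ?_⟩
  obtain ⟨u, hu, heu⟩ := mem_star.1 he
  have huq : u ∈ verts δ o q := by
    rw [mem_verts hδ] at hu ⊢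
    exact fat_of_fc o hp.le hK hpq hu
  refine hE e (mem_star.2 ⟨u, huq, heu⟩) fun h => ?_
  obtain ⟨g1, g2⟩ := add_dir_star1 (v := v) hd
  have ho := odd_star1 heu
  rw [h] at heu ho
  have a1 := (mem_star1_iff ho).1 heu
  have a2 := (mem_star1_iff ho).1 g1
  have a3 := (mem_star1_iff ho).1 g2
  have hne : v ≠ v + d := by
    intro h4
    have : d = 0 := by simpa using h4
    rw [this] at hd
    revert hd; decide
  have huv : u = v ∨ u = v + d := by
    rcases a1 with e1 | e1 <;> rcases a2 with e2 | e2 <;> rcases a3 with e3 | e3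
    · exact absurd (e2.trans e3.symm) hne
    · exact Or.inl (e1.trans e2.symm)
    · exact Or.inr (e1.trans e3.symm)
    · exact absurd (e2.trans e3.symm) hne
    · exact absurd (e2.trans e3.symm) hne
    · exact Or.inr (e1.trans e3.symm)
    · exact Or.inl (e1.trans e2.symm)
    · exact absurd (e2.trans e3.symm) hne
  rcases huv with rfl | rfl
  · rw [mem_verts_iff hδ hg hp.le] at hu
    exact hv hu
  · exact hvd huq

/-- **The row of fine cells at the tip.** -/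
theorem row_vis (hD : Bornology.IsBounded D) (hδ : 0 < δ) (hm : 3 * δ ≤ mesh (K + 1))
    (hg : Gen2 K o δ) {q : Cell} (hK : q.1 < K) (hqD : cfat o q ⊆ D) {v d : ℤ × ℤ}
    (hd : d ∈ dirs) (hv : v ∈ verts δ o q) (hvd : v + d ∉ verts δ o q)
    (hE : ∀ e ∈ star (verts δ o q), e ≠ v + (v + d) → e ∈ E) {S : ℕ}
    (h1 : box δ o K v + (5 : ℤ) • perpd d ∈ fc K q)
    (h2 : box δ o K v - (5 : ℤ) • perpd d ∈ fc K q)
    (h3 : box δ o K v - (3 * S + 7 : ℤ) • d ∈ fc K q) :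
    ∃ r : ℕ → Cell, (∀ s, (r s).1 = K) ∧
      (∀ (s : ℕ) (t : ℤ), 2 + 3 * s ≤ t → t ≤ 6 + 3 * s → box δ o K v - t • d ∈ fc K (r s)) ∧
      (∀ s ≤ S, fc K (r s) ⊆ fc K q) ∧
      (r S ∈ Uk D δ o qb K E → ∀ s ≤ S, r s ∈ Uk D δ o qb K E) := by
  have hc : box δ o K v ∈ fc K q := (mem_verts_iff hδ hg hK.le).1 hv
  have hcd : box δ o K v + d ∉ fc K q := by
    intro h
    rcases box_step hδ hm hg (v := v) hd with h4 | h4
    · exact hvd ((mem_verts_iff hδ hg hK.le).2 (h4 ▸ hc))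
    · exact hvd ((mem_verts_iff hδ hg hK.le).2 (h4 ▸ h))
  obtain ⟨r, r1, r2, r3, r4⟩ := row_spec hK hd hc hcd h1 h2 h3
  refine ⟨r, r1, r4, r2, fun hS => ?_⟩
  have hF : ∀ s ≤ S, Free D δ o E (r s) := fun s hs =>
    free_of_sub hδ hg hK.le hqD hvd hE hd (r1 s) (r2 s hs) (r3 s hs)
  have key : ∀ k ≤ S, r (S - k) ∈ Uk D δ o qb K E := by
    intro k
    induction k with
    | zero => intro _; exact hS
    | succ k ih =>
      intro hk
      have h4 := ih (by omega)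
      rw [mem_Uk hD] at h4 ⊢
      have e : S - k = S - (k + 1) + 1 := by omega
      rw [e] at h4
      refine ConnC.cons (r1 _) (hF _ (by omega)) ?_ h4
      have g1 := r4 (S - (k + 1)) (5 + 3 * ((S - (k + 1) : ℕ) : ℤ)) (by omega) (by omega)
      have g2 := r4 (S - (k + 1) + 1) (5 + 3 * ((S - (k + 1) : ℕ) : ℤ)) (by push_cast; omega)
        (by push_cast; omega)
      exact adj_of_fc o (r1 _).le (r1 _).le g1 g2
  intro s hs
  have := key (S - s) (by omega)
  rwa [show S - (S - s) = s by omega] at this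

end

/-! ### The room at the tip -/

section

variable {K : ℕ} {o : ℂ} {δ : ℝ} {q : Cell} {v d : ℤ × ℤ}

lemma box_bounds (hg : Gen2 K o δ) (v : ℤ × ℤ) :
    (gx K o.re (box δ o K v).1 < (pt δ v).re ∧ (pt δ v).re < gx K o.re ((box δ o K v).1 + 1)) ∧
    (gx K o.im (box δ o K v).2 < (pt δ v).im ∧ (pt δ v).im < gx K o.im ((box δ o K v).2 + 1)) := by
  have hm := mesh_pos (K + 1)
  have key : ∀ (a : ℝ) (x : ℤ), Pool.Agent.Q1.M3.Pg.Gen K a δ → gx K a (col K a δ x) < δ * x ∧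
      δ * x < gx K a (col K a δ x + 1) := by
    intro a x hga
    have h1 := Int.floor_le ((δ * x - a) / mesh (K + 1))
    have h2 := Int.lt_floor_add_one ((δ * x - a) / mesh (K + 1))
    rw [le_div_iff₀ hm] at h1
    rw [div_lt_iff₀ hm] at h2
    unfold gx col
    push_cast
    refine ⟨lt_of_le_of_ne (by linarith) ?_, by linarith⟩
    exact hga _ _
  exact ⟨key _ _ hg.1, key _ _ hg.2⟩

/-- Points at distance `m` from the boundary of the fat cell (as in Core.lean). -/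
def coreT (o : ℂ) (m : ℝ) (q : Cell) : Set ℂ :=
  {z | o.re + (q.2.1 - 1 / 3) * mesh q.1 + m ≤ z.re ∧ z.re ≤ o.re + (q.2.1 + 4 / 3) * mesh q.1 - m ∧
    o.im + (q.2.2 - 1 / 3) * mesh q.1 + m ≤ z.im ∧ z.im ≤ o.im + (q.2.2 + 4 / 3) * mesh q.1 - m}

lemma side_lo' (a : ℝ) (q : Cell) (i : ℤ) :
    a + (i - 1 / 3) * mesh q.1 = a + ((3 * i - 1 : ℤ) : ℝ) * mesh (q.1 + 1) := by
  have : mesh (q.1 + 1) = mesh q.1 / 3 := by unfold mesh; rw [pow_succ]; ring
  rw [this]; push_cast; ring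

lemma side_hi' (a : ℝ) (q : Cell) (i : ℤ) :
    a + (i + 4 / 3) * mesh q.1 = a + ((3 * i + 4 : ℤ) : ℝ) * mesh (q.1 + 1) := by
  have : mesh (q.1 + 1) = mesh q.1 / 3 := by unfold mesh; rw [pow_succ]; ring
  rw [this]; push_cast; ring

lemma tang {m η u X p Y : ℝ} (h : 2 * m < |u - X| + |p - Y|) (hu : |u - X| ≤ η)
    (hη : 10 * η ≤ m) (hη0 : 0 < η) : m ≤ |p - Y| := by linarith

lemma tang_up {m p Y : ℝ} (h : m ≤ |p - Y|) (hp : p < Y) : p ≤ Y - m := by
  rw [abs_of_neg (by linarith)] at h; linarith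

lemma tang_dn {m p Y : ℝ} (h : m ≤ |p - Y|) (hp : Y < p) : Y + m ≤ p := by
  rw [abs_of_pos (by linarith)] at h; linarith

/-- **The point behind the tip.** -/
theorem tip_point (hδ : 0 < δ) (hm3 : 3 * δ ≤ mesh (K + 1)) (hg : Gen2 K o δ) (hK : q.1 < K)
    (hd : d ∈ dirs) (hv : v ∈ verts δ o q) (hvd : v + d ∉ verts δ o q) {m : ℝ}
    (hm : 10 * mesh (K + 1) ≤ m) (hm6 : m ≤ mesh q.1 / 6)
    (hfar : ∀ k, 2 * m < dist (pt δ v) (gpt o q.1 k)) :
    ∃ (S : ℕ) (x : ℂ), x ∈ coreT o m q ∧ dist x (pt δ v) ≤ 4 * m ∧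
      (3 * S + 7 : ℝ) * mesh (K + 1) ≤ 5 * m ∧
      box δ o K v + (5 : ℤ) • perpd d ∈ fc K q ∧ box δ o K v - (5 : ℤ) • perpd d ∈ fc K q ∧
      box δ o K v - (3 * S + 7 : ℤ) • d ∈ fc K q ∧
      (gx K o.re (box δ o K v - (3 * S + 4 : ℤ) • d).1 < x.re ∧
        x.re < gx K o.re ((box δ o K v - (3 * S + 4 : ℤ) • d).1 + 1)) ∧
      (gx K o.im (box δ o K v - (3 * S + 4 : ℤ) • d).2 < x.im ∧
        x.im < gx K o.im ((box δ o K v - (3 * S + 4 : ℤ) • d).2 + 1)) := by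
  have hη := mesh_pos (K + 1)
  set η := mesh (K + 1) with hηdef
  have hm0 : 0 < m := by linarith
  -- the number of cells
  set S : ℕ := ⌈m / η⌉₊ with hS
  have hS1 : m ≤ S * η := by
    have := Nat.le_ceil (m / η)
    rwa [div_le_iff₀ hη] at this
  have hS2 : (S : ℝ) * η < m + η := by
    have h1 := Nat.ceil_lt_add_one (show 0 ≤ m / η by positivity)
    have h2 := mul_lt_mul_of_pos_right h1 hη
    rw [add_mul, div_mul_cancel₀ _ hη.ne', one_mul] at h2
    exact h2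
  set τ : ℝ := (3 * S + 4) * η with hτ
  have hτ1 : 3 * m ≤ τ := by rw [hτ]; nlinarith
  have hτ2 : τ ≤ 4 * m := by rw [hτ]; nlinarith
  have hS7 : (3 * S + 7 : ℝ) * η ≤ 5 * m := by nlinarith
  -- the unit cell
  have hc : box δ o K v ∈ fc K q := (mem_verts_iff hδ hg hK.le).1 hv
  have hcd : box δ o K v + d ∉ fc K q := by
    intro h
    rcases box_step hδ hm3 hg (v := v) hd with h4 | h4
    · exact hvd ((mem_verts_iff hδ hg hK.le).2 (h4 ▸ hc))
    · exact hvd ((mem_verts_iff hδ hg hK.le).2 (h4 ▸ h))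
  have hvf := (mem_verts hδ).1 hv
  obtain ⟨hb1, hb2⟩ := box_bounds hg v
  obtain ⟨hf1, hf2, hf3, hf4⟩ := hvf
  set L1 := o.re + (q.2.1 - 1 / 3) * mesh q.1 with hL1
  set R1 := o.re + (q.2.1 + 4 / 3) * mesh q.1 with hR1
  set L2 := o.im + (q.2.2 - 1 / 3) * mesh q.1 with hL2
  set R2 := o.im + (q.2.2 + 4 / 3) * mesh q.1 with hR2
  have gL1 : gx K o.re (lo (K - q.1) q.2.1) = L1 := Pool.Agent.H53.Q1.gx_lo hK.le _ _
  have gR1 : gx K o.re (hi (K - q.1) q.2.1) = R1 := Pool.Agent.H53.Q1.gx_hi hK.le _ _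
  have gL2 : gx K o.im (lo (K - q.1) q.2.2) = L2 := Pool.Agent.H53.Q1.gx_lo hK.le _ _
  have gR2 : gx K o.im (hi (K - q.1) q.2.2) = R2 := Pool.Agent.H53.Q1.gx_hi hK.le _ _
  have w1 : L1 + 10 * m ≤ R1 := by rw [hL1, hR1]; nlinarith
  have w2 : L2 + 10 * m ≤ R2 := by rw [hL2, hR2]; nlinarith
  -- corners
  have hcor : ∀ X Y : ℝ, (∃ k : ℤ × ℤ, gpt o q.1 k = ⟨X, Y⟩) →
      2 * m < |(pt δ v).re - X| + |(pt δ v).im - Y| := by
    rintro X Y ⟨k, hk⟩
    refine (hfar k).trans_le ?_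
    rw [hk, Complex.dist_eq]
    exact (Complex.norm_le_abs_re_add_abs_im _).trans (by simp)
  have c11 := hcor L1 L2 ⟨(3 * q.2.1 - 1, 3 * q.2.2 - 1), by
    unfold gpt; rw [hL1, hL2, side_lo', side_lo']⟩
  have c12 := hcor L1 R2 ⟨(3 * q.2.1 - 1, 3 * q.2.2 + 4), by
    unfold gpt; rw [hL1, hR2, side_lo', side_hi']⟩
  have c21 := hcor R1 L2 ⟨(3 * q.2.1 + 4, 3 * q.2.2 - 1), by
    unfold gpt; rw [hR1, hL2, side_lo', side_hi']⟩
  have c22 := hcor R1 R2 ⟨(3 * q.2.1 + 4, 3 * q.2.2 + 4), by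
    unfold gpt; rw [hR1, hR2, side_hi', side_hi']⟩
  set px := (pt δ v).re with hpx
  set py := (pt δ v).im with hpy
  obtain ⟨⟨c1, c2⟩, hcc⟩ : ∃ c : ℤ × ℤ, box δ o K v = c := ⟨_, rfl⟩
  rw [hcc] at hc hcd hb1 hb2
  rw [hcc]
  simp only at hb1 hb2
  have gadd : ∀ (a : ℝ) (N M : ℤ), gx K a (N + M) = gx K a N + M * η := by
    intro a N M; unfold gx; push_cast; ring
  have glt : ∀ (a : ℝ) (N M : ℤ), gx K a N < gx K a M → N < M := fun a N M =>
    (gx_mono K a).lt_iff_lt.1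
  rw [mem_fc] at hc hcd
  simp only at hc hcd
  unfold dirs at hd
  simp only [mem_insert, mem_singleton] at hd
  -- room in a tangential coordinate
  have room : ∀ (a : ℝ) (c l h : ℤ) (p : ℝ), gx K a c < p → p < gx K a (c + 1) →
      gx K a l + m ≤ p → p ≤ gx K a h - m → l ≤ c - 5 ∧ c + 5 < h := by
    intro a c l h p g1 g2 g3 g4
    constructor
    · have : gx K a l < gx K a (c + -4) := by
        rw [gadd] at g2 ⊢; push_cast at g2 ⊢; linarith
      have := glt _ _ _ this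
      omega
    · have : gx K a (c + 5) < gx K a h := by
        rw [gadd]; push_cast; linarith
      exact glt _ _ _ this
  have hx1 := gadd o.re c1 1
  have hy1 := gadd o.im c2 1
  push_cast at hx1 hy1
  rcases hd with rfl | rfl | rfl | rfl <;>
    simp only [perpd, Prod.mk_add_mk, Prod.mk_sub_mk, Prod.smul_mk, smul_eq_mul, mul_zero, mul_one,
      add_zero, sub_zero, neg_zero, mul_neg, sub_neg_eq_add, mem_fc] at hc hcd ⊢
  · -- right
    have e1 : c1 + 1 = hi (K - q.1) q.2.1 := by omega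
    have e2 : gx K o.re (c1 + 1) = R1 := by rw [e1, gR1]
    have hu : |px - R1| ≤ η := by rw [abs_le]; constructor <;> linarith
    have t1 := tang_dn (tang c21 hu hm hη) hf3
    have t2 := tang_up (tang c22 hu hm hη) hf4
    obtain ⟨r1, r2⟩ := room o.im c2 _ _ py hb2.1 hb2.2 (by rw [gL2]; exact t1)
      (by rw [gR2]; exact t2)
    have r3 : lo (K - q.1) q.2.1 < c1 + -(3 * S + 7) := by
      apply glt o.re
      rw [gL1, gadd]; push_cast; linarith
    refine ⟨S, ⟨px - τ, py⟩, ⟨?_, ?_, ?_, ?_⟩, ?_, hS7, ?_, ?_, ?_, ?_, ?_⟩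
    · change L1 + m ≤ px - τ; linarith
    · change px - τ ≤ R1 - m; linarith
    · exact t1
    · exact t2
    · rw [Complex.dist_eq]
      refine (Complex.norm_le_abs_re_add_abs_im _).trans ?_
      simp only [Complex.sub_re, Complex.sub_im, ← hpx, ← hpy]
      rw [show px - τ - px = -τ by ring, sub_self, abs_zero, abs_neg, abs_of_pos (by linarith)]
      linarith
    · omega
    · omega
    · omega
    · have g1 := gadd o.re c1 (-(3 * S + 4))
      have g2 := gadd o.re c1 (-(3 * S + 4) + 1)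
      rw [← sub_eq_add_neg] at g1
      rw [show c1 + (-(3 * (S : ℤ) + 4) + 1) = c1 - (3 * S + 4) + 1 by ring] at g2
      rw [g1, g2]
      push_cast
      constructor <;> linarith
    · exact hb2
  · -- up
    have e1 : c2 + 1 = hi (K - q.1) q.2.2 := by omega
    have e2 : gx K o.im (c2 + 1) = R2 := by rw [e1, gR2]
    have hu : |py - R2| ≤ η := by rw [abs_le]; constructor <;> linarith
    have t1 := tang_dn (tang (by rw [add_comm]; exact c12) hu hm hη) hf1
    have t2 := tang_up (tang (by rw [add_comm]; exact c22) hu hm hη) hf2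
    obtain ⟨r1, r2⟩ := room o.re c1 _ _ px hb1.1 hb1.2 (by rw [gL1]; exact t1)
      (by rw [gR1]; exact t2)
    have r3 : lo (K - q.1) q.2.2 < c2 + -(3 * S + 7) := by
      apply glt o.im
      rw [gL2, gadd]; push_cast; linarith
    refine ⟨S, ⟨px, py - τ⟩, ⟨?_, ?_, ?_, ?_⟩, ?_, hS7, ?_, ?_, ?_, ?_, ?_⟩
    · exact t1
    · exact t2
    · change L2 + m ≤ py - τ; linarith
    · change py - τ ≤ R2 - m; linarith
    · rw [Complex.dist_eq]
      refine (Complex.norm_le_abs_re_add_abs_im _).trans ?_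
      simp only [Complex.sub_re, Complex.sub_im, ← hpx, ← hpy]
      rw [show py - τ - py = -τ by ring, sub_self, abs_zero, abs_neg, abs_of_pos (by linarith)]
      linarith
    · omega
    · omega
    · omega
    · exact hb1
    · have g1 := gadd o.im c2 (-(3 * S + 4))
      have g2 := gadd o.im c2 (-(3 * S + 4) + 1)
      rw [← sub_eq_add_neg] at g1
      rw [show c2 + (-(3 * (S : ℤ) + 4) + 1) = c2 - (3 * S + 4) + 1 by ring] at g2
      rw [g1, g2]
      push_cast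
      constructor <;> linarith
  · -- left
    have e1 : c1 = lo (K - q.1) q.2.1 := by omega
    have e2 : gx K o.re c1 = L1 := by rw [e1, gL1]
    have hu : |px - L1| ≤ η := by rw [abs_le]; constructor <;> linarith
    have t1 := tang_dn (tang c11 hu hm hη) hf3
    have t2 := tang_up (tang c12 hu hm hη) hf4
    obtain ⟨r1, r2⟩ := room o.im c2 _ _ py hb2.1 hb2.2 (by rw [gL2]; exact t1)
      (by rw [gR2]; exact t2)
    have r3 : c1 + (3 * S + 8) < hi (K - q.1) q.2.1 := by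
      apply glt o.re
      rw [gR1, gadd]; push_cast; linarith
    refine ⟨S, ⟨px + τ, py⟩, ⟨?_, ?_, ?_, ?_⟩, ?_, hS7, ?_, ?_, ?_, ?_, ?_⟩
    · change L1 + m ≤ px + τ; linarith
    · change px + τ ≤ R1 - m; linarith
    · exact t1
    · exact t2
    · rw [Complex.dist_eq]
      refine (Complex.norm_le_abs_re_add_abs_im _).trans ?_
      simp only [Complex.sub_re, Complex.sub_im, ← hpx, ← hpy]
      rw [show px + τ - px = τ by ring, sub_self, abs_zero, abs_of_pos (by linarith)]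
      linarith
    · omega
    · omega
    · omega
    · have g1 := gadd o.re c1 (3 * S + 4)
      have g2 := gadd o.re c1 (3 * S + 4 + 1)
      rw [show c1 + (3 * (S : ℤ) + 4 + 1) = c1 + (3 * S + 4) + 1 by ring] at g2
      rw [g1, g2]
      push_cast
      constructor <;> linarith
    · exact hb2
  · -- down
    have e1 : c2 = lo (K - q.1) q.2.2 := by omega
    have e2 : gx K o.im c2 = L2 := by rw [e1, gL2]
    have hu : |py - L2| ≤ η := by rw [abs_le]; constructor <;> linarith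
    have t1 := tang_dn (tang (by rw [add_comm]; exact c11) hu hm hη) hf1
    have t2 := tang_up (tang (by rw [add_comm]; exact c21) hu hm hη) hf2
    obtain ⟨r1, r2⟩ := room o.re c1 _ _ px hb1.1 hb1.2 (by rw [gL1]; exact t1)
      (by rw [gR1]; exact t2)
    have r3 : c2 + (3 * S + 8) < hi (K - q.1) q.2.2 := by
      apply glt o.im
      rw [gR2, gadd]; push_cast; linarith
    refine ⟨S, ⟨px, py + τ⟩, ⟨?_, ?_, ?_, ?_⟩, ?_, hS7, ?_, ?_, ?_, ?_, ?_⟩
    · exact t1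
    · exact t2
    · change L2 + m ≤ py + τ; linarith
    · change py + τ ≤ R2 - m; linarith
    · rw [Complex.dist_eq]
      refine (Complex.norm_le_abs_re_add_abs_im _).trans ?_
      simp only [Complex.sub_re, Complex.sub_im, ← hpx, ← hpy]
      rw [show py + τ - py = τ by ring, sub_self, abs_zero, abs_of_pos (by linarith)]
      linarith
    · omega
    · omega
    · omega
    · exact hb1
    · have g1 := gadd o.im c2 (3 * S + 4)
      have g2 := gadd o.im c2 (3 * S + 4 + 1)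
      rw [show c2 + (3 * (S : ℤ) + 4 + 1) = c2 + (3 * S + 4) + 1 by ring] at g2
      rw [g1, g2]
      push_cast
      constructor <;> linarith

/-- a row of cells is connected -/
lemma row_comp {A : Finset (ℤ × ℤ)} {c d : ℤ × ℤ} (hd : d ∈ dirs) {t0 : ℤ} (h2 : 2 ≤ t0)
    (h : ∀ t, 2 ≤ t → t ≤ t0 → c - t • d ∈ A) : c - (2 : ℤ) • d ∈ comp A (c - t0 • d) := by
  have key : ∀ k : ℕ, (k : ℤ) ≤ t0 - 2 → c - (t0 - k) • d ∈ comp A (c - t0 • d) := by
    intro k
    induction k with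
    | zero =>
      intro _
      rw [Nat.cast_zero, sub_zero]
      exact self_mem_comp (h t0 h2 le_rfl)
    | succ k ih =>
      intro hk
      push_cast at hk
      have h1 := ih (by omega)
      refine comp_adj h1 (h _ (by push_cast; omega) (by push_cast; omega)) ?_
      have e : c - (t0 - ((k + 1 : ℕ) : ℤ)) • d = c - (t0 - k) • d + d := by
        push_cast
        rw [sub_smul, sub_smul, add_smul, one_smul]
        abel
      rw [e]
      unfold dirs at hd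
      simp only [mem_insert, mem_singleton] at hd
      generalize c - (t0 - (k : ℤ)) • d = u
      obtain ⟨u1, u2⟩ := u
      rcases hd with rfl | rfl | rfl | rfl
      · have := adj_right (u1 + 1) u2
        simpa using this
      · have := adj_up u1 (u2 + 1)
        simpa using this
      · have := adj_left u1 u2
        simpa [sub_eq_add_neg] using this
      · have := adj_down u1 u2
        simpa [sub_eq_add_neg] using this
  have := key (t0 - 2).toNat (by omega)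
  rwa [show t0 - ((t0 - 2).toNat : ℤ) = 2 by omega] at this

/-- **The fine cells behind the tip.** -/
theorem tip_row {D : Set ℂ} {qb : Cell} {E : Finset (ℤ × ℤ)} (hD : Bornology.IsBounded D)
    (hδ : 0 < δ) (hm3 : 3 * δ ≤ mesh (K + 1)) (hg : Gen2 K o δ) (hK : q.1 < K)
    (hqD : cfat o q ⊆ D) (hd : d ∈ dirs) (hv : v ∈ verts δ o q) (hvd : v + d ∉ verts δ o q)
    (hE : ∀ e ∈ star (verts δ o q), e ≠ v + (v + d) → e ∈ E) {m : ℝ}
    (hm : 10 * mesh (K + 1) ≤ m) (hm6 : m ≤ mesh q.1 / 6)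
    (hfar : ∀ k, 2 * m < dist (pt δ v) (gpt o q.1 k)) :
    ∃ (x : ℂ) (r : Cell) (t0 : ℤ), x ∈ coreT o m q ∧ dist x (pt δ v) ≤ 4 * m ∧ r.1 = K ∧
      x ∈ fat o r ∧ 2 ≤ t0 ∧ x ∈ rect (gx K o.re) (gx K o.im) (box δ o K v - t0 • d) ∧
      (∀ t, 2 ≤ t → t ≤ t0 → box δ o K v - t • d ∈ fc K q ∧
        ∀ z ∈ rect (gx K o.re) (gx K o.im) (box δ o K v - t • d), dist z (pt δ v) ≤ 5 * m) ∧
      (r ∈ Uk D δ o qb K E →
        ∀ t, 2 ≤ t → t ≤ t0 → box δ o K v - t • d ∈ flat K (Uk D δ o qb K E)) := by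
  obtain ⟨S, x, hx, hxv, hS, h1, h2, h3, hx1, hx2⟩ := tip_point hδ hm3 hg hK hd hv hvd hm hm6 hfar
  obtain ⟨r, r1, r2, r3, r4⟩ := row_vis (qb := qb) (E := E) hD hδ hm3 hg hK hqD hd hv hvd hE h1 h2 h3
  have hη := mesh_pos (K + 1)
  have idx : ∀ t : ℤ, 2 ≤ t → t ≤ 3 * S + 4 → ∃ s ≤ S, 2 + 3 * (s : ℤ) ≤ t ∧ t ≤ 6 + 3 * s := by
    intro t ht1 ht2
    refine ⟨((t - 2) / 3).toNat, ?_, ?_, ?_⟩ <;> omega
  refine ⟨x, r S, 3 * S + 4, hx, hxv, r1 S, ?_, by omega, ⟨⟨hx1.1.le, hx1.2.le⟩, hx2.1.le, hx2.2.le⟩,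
    ?_, ?_⟩
  · -- the point is inside the cell
    have h4 := r2 S (3 * S + 4) (by omega) (by omega)
    rw [mem_fc] at h4
    rw [fat_eq o (r1 S).le]
    exact ⟨⟨((gx_mono K _).monotone h4.1.1).trans_lt hx1.1,
      hx1.2.trans_le ((gx_mono K _).monotone (by omega))⟩,
      ((gx_mono K _).monotone h4.2.1).trans_lt hx2.1,
      hx2.2.trans_le ((gx_mono K _).monotone (by omega))⟩
  · intro t ht1 ht2
    obtain ⟨s, hs, hs1, hs2⟩ := idx t ht1 ht2
    refine ⟨r3 s hs (r2 s t hs1 hs2), fun z hz => ?_⟩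
    obtain ⟨hb1, hb2⟩ := box_bounds hg v
    have gadd : ∀ (a : ℝ) (N M : ℤ), gx K a (N + M) = gx K a N + M * mesh (K + 1) := by
      intro a N M; unfold gx; push_cast; ring
    obtain ⟨⟨z1, z2⟩, z3, z4⟩ := hz
    have ht1' : (2 : ℝ) ≤ t := by exact_mod_cast ht1
    have ht2' : (t : ℝ) ≤ 3 * S + 4 := by exact_mod_cast ht2
    have h5 : (t + 2) * mesh (K + 1) ≤ 5 * m := by
      refine le_trans ?_ hS
      exact mul_le_mul_of_nonneg_right (by linarith) hη.le
    rw [Complex.dist_eq]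
    refine (Complex.norm_le_abs_re_add_abs_im _).trans (le_trans ?_ h5)
    rw [Complex.sub_re, Complex.sub_im]
    generalize hc : box δ o K v = c at *
    obtain ⟨c1, c2⟩ := c
    have e1 := gadd o.re c1 1
    have e2 := gadd o.im c2 1
    push_cast at e1 e2
    simp only at hb1 hb2
    unfold dirs at hd
    simp only [mem_insert, mem_singleton] at hd
    rcases hd with rfl | rfl | rfl | rfl <;>
      simp only [Prod.mk_sub_mk, Prod.smul_mk, smul_eq_mul, mul_zero, mul_one,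
        sub_zero, mul_neg, sub_neg_eq_add] at z1 z2 z3 z4
    · have f1 := gadd o.re c1 (-t)
      have f2 := gadd o.re c1 (-t + 1)
      rw [← sub_eq_add_neg] at f1
      rw [show c1 + (-t + 1) = c1 - t + 1 by ring] at f2
      push_cast at f1 f2
      have a1 : |z.re - (pt δ v).re| ≤ (t + 1) * mesh (K + 1) := by
        rw [abs_le]; constructor <;> nlinarith
      have a2 : |z.im - (pt δ v).im| ≤ mesh (K + 1) := by
        rw [abs_le]; constructor <;> linarith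
      linarith
    · have f1 := gadd o.im c2 (-t)
      have f2 := gadd o.im c2 (-t + 1)
      rw [← sub_eq_add_neg] at f1
      rw [show c2 + (-t + 1) = c2 - t + 1 by ring] at f2
      push_cast at f1 f2
      have a1 : |z.im - (pt δ v).im| ≤ (t + 1) * mesh (K + 1) := by
        rw [abs_le]; constructor <;> nlinarith
      have a2 : |z.re - (pt δ v).re| ≤ mesh (K + 1) := by
        rw [abs_le]; constructor <;> linarith
      linarith
    · have f1 := gadd o.re c1 t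
      have f2 := gadd o.re c1 (t + 1)
      rw [show c1 + (t + 1) = c1 + t + 1 by ring] at f2
      push_cast at f1 f2
      have a1 : |z.re - (pt δ v).re| ≤ (t + 1) * mesh (K + 1) := by
        rw [abs_le]; constructor <;> nlinarith
      have a2 : |z.im - (pt δ v).im| ≤ mesh (K + 1) := by
        rw [abs_le]; constructor <;> linarith
      linarith
    · have f1 := gadd o.im c2 t
      have f2 := gadd o.im c2 (t + 1)
      rw [show c2 + (t + 1) = c2 + t + 1 by ring] at f2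
      push_cast at f1 f2
      have a1 : |z.im - (pt δ v).im| ≤ (t + 1) * mesh (K + 1) := by
        rw [abs_le]; constructor <;> nlinarith
      have a2 : |z.re - (pt δ v).re| ≤ mesh (K + 1) := by
        rw [abs_le]; constructor <;> linarith
      linarith
  · intro hr t ht1 ht2
    obtain ⟨s, hs, hs1, hs2⟩ := idx t ht1 ht2
    exact mem_flat.2 ⟨r s, r4 hr s hs, r2 s t hs1 hs2⟩

end

end Pool.Agent.H5.M7
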