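import Mathlib
import Pool.Agent.H5.M7.Tip
import Pool.Agent.H53.Q1.J20.Vis

set_option autoImplicit false
open Finset Filter Topology

/-! # The filled union is in `D`, the cells next to the tip

`fill_D` : if the unit cells of `A` are in `D` and the complement of `D` is connected and unbounded, then
the unit cells of `fill A` are in `D`. `tip_out` : the outer cell of the tip side is not in `P`. -/

namespace Pool.Agent.H5.M7

open Pool.Agent.H75.Perc Pool.Agent.H75.TwoArm Pool.Agent.H75.Four Pool.Agent.H69.Q1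
open Pool.Agent.H81.Q1 (pt)
open Pool.Agent.Q1.M3
open Pool.Agent.Q1.M3.Pg hiding Gen
open Pool.Agent.H53.Q1 (rect_sub_fat rect_sub_cfat cfat_eq fat_eq isClosed_Reg isClosed_rect)
open Pool.Agent.Q1.M4 (Adj4 rect Reg Om mem_Om Om_subset)

lemma isCompact_rect (x y : ℤ → ℝ) (c : ℤ × ℤ) : IsCompact (rect x y c) := by
  have : rect x y c = Set.Icc (x c.1) (x (c.1 + 1)) ×ℂ Set.Icc (y c.2) (y (c.2 + 1)) := by
    ext z; exact Iff.rfl
  rw [this]
  exact isCompact_Icc.reProdIm isCompact_Icc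

lemma isCompact_Reg (x y : ℤ → ℝ) (Q : Finset (ℤ × ℤ)) : IsCompact (Reg Q x y) := by
  have : Reg Q x y = ⋃ c ∈ Q, rect x y c := by
    ext z
    simp [Reg]
  rw [this]
  exact Q.isCompact_biUnion fun c _ => isCompact_rect x y c

/-- neighbours of a cell at a point -/
lemma rect_close {x : ℤ → ℝ} (hx : StrictMono x) {s : ℝ} {a b : ℤ} (h1 : x a ≤ s)
    (h2 : s ≤ x (a + 1)) (h3 : x b ≤ s) (h4 : s ≤ x (b + 1)) : b = a ∨ b = a + 1 ∨ b = a - 1 := by
  have e1 : a ≤ b + 1 := hx.le_iff_le.1 (h1.trans h4)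
  have e2 : b ≤ a + 1 := hx.le_iff_le.1 (h3.trans h2)
  omega

/-- the cells at a point which is in no cell of `A` are all in the filling or all outside -/
lemma fill_point {x y : ℤ → ℝ} (hx : StrictMono x) (hy : StrictMono y) {A : Finset (ℤ × ℤ)}
    {z : ℂ} (hA : ∀ c, z ∈ rect x y c → c ∉ A) {c d : ℤ × ℤ} (hc : z ∈ rect x y c)
    (hd : z ∈ rect x y d) (hcA : c ∈ fill A) : d ∈ fill A := by
  obtain ⟨c1, c2⟩ := c
  obtain ⟨d1, d2⟩ := d
  have k1 := rect_close hx hc.1.1 hc.1.2 hd.1.1 hd.1.2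
  have k2 := rect_close hy hc.2.1 hc.2.2 hd.2.1 hd.2.2
  simp only at k1 k2
  have hmid : z ∈ rect x y (d1, c2) := ⟨hd.1, hc.2⟩
  have s1 : (d1, c2) ∈ fill A := by
    rcases k1 with h | h | h
    · rw [h]; exact hcA
    · subst h
      have := adj_right (c1 + 1) c2
      rw [add_sub_cancel_right] at this
      exact fill_adj hcA (hA _ hc) this
    · subst h
      exact fill_adj hcA (hA _ hc) (adj_left c1 c2)
  rcases k2 with h | h | h
  · rw [h]; exact s1
  · subst h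
    have := adj_up d1 (c2 + 1)
    rw [add_sub_cancel_right] at this
    exact fill_adj s1 (hA _ hmid) this
  · subst h
    exact fill_adj s1 (hA _ hmid) (adj_down d1 c2)

/-- **The filling stays in `D`.** -/
theorem fill_D {D : Set ℂ} (hDc : IsPreconnected Dᶜ) (hDb : Bornology.IsBounded D) {x y : ℤ → ℝ}
    (hx : StrictMono x) (hy : StrictMono y) {A : Finset (ℤ × ℤ)}
    (hA : ∀ c ∈ A, rect x y c ⊆ D) : ∀ c ∈ fill A, rect x y c ⊆ D := by
  intro c hc z hz
  by_contra hzD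
  have hcov : Dᶜ ⊆ Om (fill A) x y ∪ (Reg (fill A) x y)ᶜ := by
    intro w hw
    by_cases h : w ∈ Reg (fill A) x y
    · left
      rw [mem_Om hx hy]
      obtain ⟨e, he, hwe⟩ := h
      refine ⟨⟨e, he, hwe⟩, fun d hd => ?_⟩
      exact fill_point hx hy (fun c' hc' hcA => hw (hA c' hcA hc')) hwe hd he
    · exact Or.inr h
  have hzO : z ∈ Om (fill A) x y := by
    rcases hcov hzD with h | h
    · exact h
    · exact absurd ⟨c, hc, hz⟩ h
  obtain ⟨R, hR⟩ := ((hDb.union (isCompact_Reg x y (fill A)).isBounded)).subset_closedBall 0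
  have hw : ((|R| + 1 : ℝ) : ℂ) ∉ Metric.closedBall (0 : ℂ) R := by
    rw [Metric.mem_closedBall, dist_zero_right, Complex.norm_real, Real.norm_eq_abs,
      abs_of_pos (by positivity)]
    have := le_abs_self R
    linarith
  obtain ⟨v, -, hv1, hv2⟩ := hDc (Om (fill A) x y) (Reg (fill A) x y)ᶜ isOpen_interior
    (isClosed_Reg x y _).isOpen_compl hcov ⟨z, hzD, hzO⟩
    ⟨((|R| + 1 : ℝ) : ℂ), fun h => hw (hR (Or.inl h)), fun h => hw (hR (Or.inr h))⟩
  exact hv2 (Om_subset _ _ _ hv1)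

/-- the unit cells of the filled union of cells in `D` are in `D` -/
lemma PP_D {D : Set ℂ} (hDc : IsPreconnected Dᶜ) (hDb : Bornology.IsBounded D) {K : ℕ} {o : ℂ}
    {U C : Finset Cell} (hl : ∀ q ∈ U ∪ C, q.1 ≤ K) (hD : ∀ q ∈ U ∪ C, cfat o q ⊆ D) :
    ∀ c ∈ PP K U C, rect (gx K o.re) (gx K o.im) c ⊆ D := by
  refine fill_D hDc hDb (gx_mono K o.re) (gx_mono K o.im) fun c hc => ?_
  obtain ⟨q, hq, h⟩ := mem_flat.1 hc
  exact (rect_sub_cfat (hl q hq) h).trans (hD q hq)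

/-- **The outer cell of the tip side.** -/
theorem tip_out {K : ℕ} {o : ℂ} {δ : ℝ} {q : Cell} {v d : ℤ × ℤ} (hδ : 0 < δ)
    (hm3 : 3 * δ ≤ mesh (K + 1)) (hg : Gen2 K o δ) (hK : q.1 < K) (hd : d ∈ dirs)
    (hv : v ∈ verts δ o q) (hvd : v + d ∉ verts δ o q) {U C : Finset Cell}
    (hU : ∀ p ∈ U, p.1 = K) (hC : ∀ p ∈ C, p.1 < K) (hP : box δ o K v ∉ PP K U C) :
    box δ o K v - d ∉ PP K U C := by
  intro h
  have hc : box δ o K v ∈ fc K q := (mem_verts_iff hδ hg hK.le).1 hv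
  have hcd : box δ o K v + d ∉ fc K q := by
    intro h
    rcases box_step hδ hm3 hg (v := v) hd with h4 | h4
    · exact hvd ((mem_verts_iff hδ hg hK.le).2 (h4 ▸ hc))
    · exact hvd ((mem_verts_iff hδ hg hK.le).2 (h4 ▸ h))
  have hadj : Adj4 (box δ o K v - d) (box δ o K v) := by
    generalize box δ o K v = c
    obtain ⟨u1, u2⟩ := c
    unfold dirs at hd
    simp only [mem_insert, mem_singleton] at hd
    rcases hd with rfl | rfl | rfl | rfl
    · have := adj_right u1 u2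
      simpa using this
    · have := adj_up u1 u2
      simpa using this
    · have := adj_left (u1 + 1) u2
      simpa [sub_eq_add_neg] using this
    · have := adj_down u1 (u2 + 1)
      simpa [sub_eq_add_neg] using this
  obtain ⟨p, hp, h1⟩ := mem_flat.1 (mem_of_fill h hadj hP)
  refine hP (flat_sub_PP (F := U ∪ C) subset_rfl (mem_flat.2 ⟨p, hp, ?_⟩))
  have hp1 : p.1 = K ∨ p.1 < K := by
    rcases mem_union.1 hp with h2 | h2
    · exact Or.inl (hU p h2)
    · exact Or.inr (hC p h2)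
  generalize box δ o K v = c at *
  obtain ⟨c1, c2⟩ := c
  rw [mem_fc] at hc hcd
  obtain ⟨A1, hA1⟩ := lo3 (show 1 ≤ K - q.1 by omega) q.2.1
  obtain ⟨B1, hB1⟩ := hi3 (show 1 ≤ K - q.1 by omega) q.2.1
  obtain ⟨A2, hA2⟩ := lo3 (show 1 ≤ K - q.1 by omega) q.2.2
  obtain ⟨B2, hB2⟩ := hi3 (show 1 ≤ K - q.1 by omega) q.2.2
  rw [hA1, hB1, hA2, hB2] at hc hcd
  unfold dirs at hd
  simp only [mem_insert, mem_singleton] at hd
  rcases hp1 with hp1 | hp1
  · obtain ⟨p0, i, jj⟩ := p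
    simp only at hp1
    subst hp1
    rw [mem_fcK] at h1 ⊢
    rcases hd with rfl | rfl | rfl | rfl <;>
      simp only [Prod.mk_add_mk, Prod.mk_sub_mk, add_zero, sub_zero, sub_neg_eq_add] at * <;> omega
  · rw [mem_fc] at h1 ⊢
    obtain ⟨a1, ha1⟩ := lo3 (show 1 ≤ K - p.1 by omega) p.2.1
    obtain ⟨b1, hb1⟩ := hi3 (show 1 ≤ K - p.1 by omega) p.2.1
    obtain ⟨a2, ha2⟩ := lo3 (show 1 ≤ K - p.1 by omega) p.2.2
    obtain ⟨b2, hb2⟩ := hi3 (show 1 ≤ K - p.1 by omega) p.2.2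
    rw [ha1, hb1, ha2, hb2] at h1 ⊢
    rcases hd with rfl | rfl | rfl | rfl <;>
      simp only [Prod.mk_add_mk, Prod.mk_sub_mk, add_zero, sub_zero, sub_neg_eq_add] at * <;> omega

end Pool.Agent.H5.M7
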