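import Mathlib
import Pool.Agent.H42.MJ.Main
import Pool.Agent.Q1.M3.State
import Pool.Agent.H42.Q1.Cells

set_option autoImplicit false
open Set Topology Filter

/-! # The barrier of a base

* `Jn U z w` : `z` and `w` are joined inside `U`.
* `jn_of_sep`, `jn_corridor` : consequences of Janiszewski's theorem for a set `S` in `D` which meets
  the complement of `D` only in one point.
* `Base.S` : the union of the closed cells of the barrier; it is connected and `S ∪ {b}` is compact. -/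

namespace Pool.Agent.H5.M7

open Pool.Agent.H42.MJ (jan)
open Pool.Agent.H81.Q1 (pt DDomain Approx IsJordanDomain IsArcs)
open Pool.Agent.Q1.M3

/-! ### Connections -/

/-- `z` and `w` are joined inside `U`. -/
def Jn (U : Set ℂ) (z w : ℂ) : Prop := ∃ T : Set ℂ, IsPreconnected T ∧ z ∈ T ∧ w ∈ T ∧ T ⊆ U

lemma Jn.symm {U : Set ℂ} {z w : ℂ} (h : Jn U z w) : Jn U w z := by
  obtain ⟨T, h1, h2, h3, h4⟩ := h
  exact ⟨T, h1, h3, h2, h4⟩

lemma Jn.refl {U : Set ℂ} {z : ℂ} (h : z ∈ U) : Jn U z z :=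
  ⟨{z}, isPreconnected_singleton, mem_singleton z, mem_singleton z, singleton_subset_iff.2 h⟩

lemma Jn.trans {U : Set ℂ} {x y z : ℂ} (h : Jn U x y) (h' : Jn U y z) : Jn U x z := by
  obtain ⟨T, h1, h2, h3, h4⟩ := h
  obtain ⟨T', h1', h2', h3', h4'⟩ := h'
  exact ⟨T ∪ T', h1.union y h3 h2' h1', Or.inl h2, Or.inr h3', union_subset h4 h4'⟩

lemma Jn.mono {U V : Set ℂ} (hUV : U ⊆ V) {z w : ℂ} (h : Jn U z w) : Jn V z w := by
  obtain ⟨T, h1, h2, h3, h4⟩ := h
  exact ⟨T, h1, h2, h3, h4.trans hUV⟩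

lemma Jn.of_preconnected {U T : Set ℂ} (hT : IsPreconnected T) (hTU : T ⊆ U) {z w : ℂ} (hz : z ∈ T)
    (hw : w ∈ T) : Jn U z w := ⟨T, hT, hz, hw, hTU⟩

lemma Jn.left_mem {U : Set ℂ} {z w : ℂ} (h : Jn U z w) : z ∈ U := by
  obtain ⟨T, -, h2, -, h4⟩ := h; exact h4 h2

lemma Jn.right_mem {U : Set ℂ} {z w : ℂ} (h : Jn U z w) : w ∈ U := h.symm.left_mem

/-- joined in the component -/
lemma Jn.mem_comp {U : Set ℂ} {z w : ℂ} (h : Jn U z w) : w ∈ connectedComponentIn U z := by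
  obtain ⟨T, h1, h2, h3, h4⟩ := h
  exact h1.subset_connectedComponentIn h2 h4 h3

lemma jn_of_comp {U : Set ℂ} {z w : ℂ} (hz : z ∈ U) (h : w ∈ connectedComponentIn U z) :
    Jn U z w :=
  ⟨_, isPreconnected_connectedComponentIn, mem_connectedComponentIn hz, h,
    connectedComponentIn_subset _ _⟩

/-! ### Janiszewski -/

section jan

variable {D S : Set ℂ} {b : ℂ}

/-- a preconnected set which avoids `Dᶜ` inside a large ball stays in `D` -/
lemma subset_of_ball {R : ℝ} (hDo : IsOpen D) (hR : D ⊆ Metric.closedBall 0 R) {T : Set ℂ}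
    (hT : IsPreconnected T) {z : ℂ} (hz : z ∈ T) (hzD : z ∈ D)
    (h : T ⊆ (Dᶜ ∩ Metric.closedBall 0 R)ᶜ) : T ⊆ D := by
  have ho : IsOpen (Metric.closedBall (0 : ℂ) R)ᶜ := Metric.isClosed_closedBall.isOpen_compl
  refine hT.subset_left_of_subset_union hDo ho ?_ ?_ ⟨z, hz, hzD⟩
  · rw [disjoint_left]
    exact fun x hx hx' => hx' (hR hx)
  · intro x hx
    have h1 := h hx
    rw [compl_inter, compl_compl] at h1
    exact h1

/-- **Separation.** A point of `D` which is not separated by `S ∪ {b}` from another point of `D` is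
in the same component of `D \ S`. -/
theorem jn_of_sep (hDo : IsOpen D) (hDc : IsPreconnected D) (hDb : Bornology.IsBounded D)
    (hSD : S ⊆ D) (hS : IsCompact (insert b S)) {z w : ℂ} (hz : z ∈ D) (hw : w ∈ D)
    (h : Jn (insert b S)ᶜ z w) : Jn (D \ S) z w := by
  obtain ⟨R, hR⟩ := hDb.subset_closedBall 0
  have hB : IsCompact (Dᶜ ∩ Metric.closedBall (0 : ℂ) R) :=
    (isCompact_closedBall 0 R).inter_left hDo.isClosed_compl
  have hAB : IsPreconnected (insert b S ∩ (Dᶜ ∩ Metric.closedBall (0 : ℂ) R)) := by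
    refine Subsingleton.isPreconnected ?_
    have key : ∀ x ∈ insert b S ∩ (Dᶜ ∩ Metric.closedBall (0 : ℂ) R), x = b := by
      rintro x ⟨hx | hx, hx'⟩
      · exact hx
      · exact absurd (hSD hx) hx'.1
    intro x hx y hy
    rw [key x hx, key y hy]
  obtain ⟨T, h1, h2, h3, h4⟩ := jan _ _ hS hB hAB z w h
    ⟨D, hDc, hz, hw, fun x hx hx' => hx'.1 hx⟩
  have h5 : T ⊆ D := subset_of_ball hDo hR h1 h2 hz fun x hx hx' => h4 hx (Or.inr hx')
  exact ⟨T, h1, h2, h3, fun x hx => ⟨h5 hx, fun hxS => h4 hx (Or.inl (Or.inr hxS))⟩⟩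

/-- **Corridor.** Two points of one component of `D \ S`, joined to `S` near `S`, are joined in `D \ S`
near `S`. -/
theorem jn_corridor (hDo : IsOpen D) (hDb : Bornology.IsBounded D)
    (hSD : S ⊆ D) (hbD : b ∉ D) (hSc : IsPreconnected S) (hS : IsCompact (insert b S)) {ρ : ℝ}
    (hρ : 0 < ρ) {z w : ℂ} (h : Jn (D \ S) z w)
    (hz : ∃ s ∈ S, Jn (D ∩ {x | Metric.infDist x S < ρ}) z s)
    (hw : ∃ s ∈ S, Jn (D ∩ {x | Metric.infDist x S < ρ}) w s) :
    Jn ((D \ S) ∩ {x | Metric.infDist x S < ρ}) z w := by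
  obtain ⟨R, hR⟩ := hDb.subset_closedBall 0
  set B : Set ℂ := (D ∩ {x | Metric.infDist x S < ρ})ᶜ ∩ Metric.closedBall (0 : ℂ) R with hBdef
  have hWo : IsOpen (D ∩ {x | Metric.infDist x S < ρ}) :=
    hDo.inter (isOpen_lt (Metric.continuous_infDist_pt S) continuous_const)
  have hSW : S ⊆ D ∩ {x | Metric.infDist x S < ρ} := fun x hx => ⟨hSD hx, by
    change Metric.infDist x S < ρ
    rw [Metric.infDist_zero_of_mem hx]; exact hρ⟩
  have hB : IsCompact B := (isCompact_closedBall 0 R).inter_left hWo.isClosed_compl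
  have hAB : IsPreconnected (insert b S ∩ B) := by
    refine Subsingleton.isPreconnected ?_
    have key : ∀ x ∈ insert b S ∩ B, x = b := by
      rintro x ⟨hx | hx, hx'⟩
      · exact hx
      · exact absurd (hSW hx) hx'.1
    intro x hx y hy
    rw [key x hx, key y hy]
  obtain ⟨s, hs, h1⟩ := hz
  obtain ⟨s', hs', h2⟩ := hw
  have h3 : Jn Bᶜ z w := by
    have h4 : Jn (D ∩ {x | Metric.infDist x S < ρ}) z w :=
      (h1.trans (Jn.of_preconnected hSc hSW hs hs')).trans h2.symm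
    refine h4.mono ?_
    intro x hx hx'
    exact hx'.1 hx
  have h5 : Jn (insert b S)ᶜ z w := by
    refine h.mono ?_
    intro x hx hx'
    rcases hx' with rfl | hx'
    · exact hbD hx.1
    · exact hx.2 hx'
  obtain ⟨T, g1, g2, g3, g4⟩ := jan _ _ hS hB hAB z w h5 h3
  have hWR : D ∩ {x | Metric.infDist x S < ρ} ⊆ Metric.closedBall 0 R := inter_subset_left.trans hR
  have g5 : T ⊆ D ∩ {x | Metric.infDist x S < ρ} :=
    subset_of_ball hWo hWR g1 g2 h1.left_mem fun x hx hx' => g4 hx (Or.inr hx')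
  exact ⟨T, g1, g2, g3, fun x hx => ⟨⟨(g5 hx).1, fun hxS => g4 hx (Or.inl (Or.inr hxS))⟩, (g5 hx).2⟩⟩

end jan

/-! ### Barriers -/

/-- A barrier: a connected set `S` in `D`, closed up to the boundary point `b`. -/
structure Barr (D S : Set ℂ) (a b : ℂ) : Prop where
  openD : IsOpen D
  connD : IsPreconnected D
  bdD : Bornology.IsBounded D
  sub : S ⊆ D
  conn : IsPreconnected S
  ne : S.Nonempty
  comp : IsCompact (insert b S)
  hb : b ∉ D
  ha : a ∉ D
  hab : a ≠ b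
  cla : a ∈ closure D

/-- The component of `D \ S` at `a`. -/
def D2 (D S : Set ℂ) (a b : ℂ) : Set ℂ := {z | z ∈ D ∧ Jn (insert b S)ᶜ a z}

section barr

variable {D S : Set ℂ} {a b : ℂ}

lemma Barr.a_mem (h : Barr D S a b) : a ∈ (insert b S)ᶜ := by
  rintro (h1 | h1)
  · exact h.hab h1
  · exact h.ha (h.sub h1)

lemma Barr.isOpen_compl (h : Barr D S a b) : IsOpen (insert b S)ᶜ := h.comp.isClosed.isOpen_compl

lemma Barr.isOpen_diff (h : Barr D S a b) : IsOpen (D \ S) := by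
  have e : D \ S = D ∩ (insert b S)ᶜ := by
    ext x
    constructor
    · rintro ⟨h1, h2⟩
      refine ⟨h1, ?_⟩
      rintro (h3 | h3)
      · exact h.hb (h3 ▸ h1)
      · exact h2 h3
    · rintro ⟨h1, h2⟩
      exact ⟨h1, fun h3 => h2 (Or.inr h3)⟩
  rw [e]
  exact h.openD.inter h.isOpen_compl

lemma D2_sub (h : Barr D S a b) : D2 D S a b ⊆ D \ S := fun _ hz =>
  ⟨hz.1, fun h1 => hz.2.right_mem (Or.inr h1)⟩

lemma D2_sub_D : D2 D S a b ⊆ D := fun _ hz => hz.1

/-- a point not separated from a point of `D2` -/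
lemma D2_of_sep {z w : ℂ} (hz : z ∈ D2 D S a b) (hw : w ∈ D) (h : Jn (insert b S)ᶜ z w) :
    w ∈ D2 D S a b := ⟨hw, hz.2.trans h⟩

lemma D2_of_jn {z w : ℂ} (h : Barr D S a b) (hz : z ∈ D2 D S a b) (hw : Jn (D \ S) z w) :
    w ∈ D2 D S a b := by
  refine D2_of_sep hz hw.right_mem.1 (hw.mono ?_)
  intro x hx hx'
  rcases hx' with h1 | h1
  · exact h.hb (h1 ▸ hx.1)
  · exact hx.2 h1

/-- **`D2` is connected.** -/
theorem D2_jn (h : Barr D S a b) {z w : ℂ} (hz : z ∈ D2 D S a b) (hw : w ∈ D2 D S a b) :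
    Jn (D \ S) z w :=
  jn_of_sep h.openD h.connD h.bdD h.sub h.comp hz.1 hw.1 (hz.2.symm.trans hw.2)

lemma D2_eq (h : Barr D S a b) {z : ℂ} (hz : z ∈ D2 D S a b) :
    D2 D S a b = connectedComponentIn (D \ S) z := by
  ext w
  constructor
  · intro hw
    exact (D2_jn h hz hw).mem_comp
  · intro hw
    exact D2_of_jn h hz (jn_of_comp (D2_sub h hz) hw)

/-- points of `D` close to `a` -/
lemma D2_near (h : Barr D S a b) : ∃ r > 0, Metric.ball a r ∩ D ⊆ D2 D S a b := by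
  obtain ⟨r, hr, h1⟩ := Metric.isOpen_iff.1 h.isOpen_compl a h.a_mem
  exact ⟨r, hr, fun z hz => ⟨hz.2, Jn.of_preconnected
    (convex_ball a r).isPreconnected h1 (Metric.mem_ball_self hr) hz.1⟩⟩

lemma D2_nonempty (h : Barr D S a b) : (D2 D S a b).Nonempty := by
  obtain ⟨r, hr, h1⟩ := D2_near h
  obtain ⟨z, hz, hz'⟩ := Metric.mem_closure_iff.1 h.cla r hr
  exact ⟨z, h1 ⟨by rw [Metric.mem_ball, dist_comm]; exact hz', hz⟩⟩

lemma D2_open (h : Barr D S a b) : IsOpen (D2 D S a b) := by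
  obtain ⟨z, hz⟩ := D2_nonempty h
  rw [D2_eq h hz]
  exact h.isOpen_diff.connectedComponentIn

lemma D2_preconnected (h : Barr D S a b) : IsPreconnected (D2 D S a b) := by
  obtain ⟨z, hz⟩ := D2_nonempty h
  rw [D2_eq h hz]
  exact isPreconnected_connectedComponentIn

/-- `D2` is closed in `D \ S` -/
lemma D2_isClosed_inter (h : Barr D S a b) {F : Set ℂ} (hF : IsClosed F) (hFD : F ⊆ D \ S) :
    IsClosed (F ∩ D2 D S a b) := by
  rw [← isOpen_compl_iff, Metric.isOpen_iff]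
  intro z hz
  by_cases hzF : z ∈ F
  · have h1 : z ∉ D2 D S a b := fun h2 => hz ⟨hzF, h2⟩
    obtain ⟨r, hr, h2⟩ := Metric.isOpen_iff.1 h.isOpen_diff z (hFD hzF)
    refine ⟨r, hr, fun w hw hw' => h1 ?_⟩
    exact D2_of_jn h hw'.2 (Jn.of_preconnected (convex_ball z r).isPreconnected h2 hw
      (Metric.mem_ball_self hr))
  · obtain ⟨r, hr, h2⟩ := Metric.isOpen_iff.1 hF.isOpen_compl z hzF
    exact ⟨r, hr, fun w hw hw' => h2 hw hw'.1⟩

/-- a point of `D` with a segment to `S` -/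
lemma jn_seg (hS : S.Nonempty) {z : ℂ} {ρ' ρ : ℝ} (hb : Metric.ball z ρ' ⊆ D)
    (hz : Metric.infDist z S < ρ') (hρ : ρ' ≤ ρ) :
    ∃ s ∈ S, Jn (D ∩ {x | Metric.infDist x S < ρ}) z s := by
  obtain ⟨s, hs, h1⟩ := (Metric.infDist_lt_iff hS).1 hz
  have hρ' : 0 < ρ' := Metric.infDist_nonneg.trans_lt hz
  refine ⟨s, hs, segment ℝ z s, (convex_segment z s).isPreconnected, left_mem_segment ℝ z s,
    right_mem_segment ℝ z s, fun x hx => ?_⟩
  have h2 : segment ℝ z s ⊆ Metric.ball z ρ' := (convex_ball z ρ').segment_subset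
    (Metric.mem_ball_self hρ') (by rw [Metric.mem_ball, dist_comm]; exact h1)
  have h3 : dist x s ≤ dist z s := by
    have h4 : segment ℝ z s ⊆ Metric.closedBall s (dist z s) :=
      (convex_closedBall s _).segment_subset (by rw [Metric.mem_closedBall])
        (Metric.mem_closedBall_self dist_nonneg)
    exact h4 hx
  exact ⟨hb (h2 hx), (Metric.infDist_le_dist_of_mem hs).trans_lt
    (h3.trans_lt (h1.trans_le hρ))⟩

/-- **Corridor set.** A compact set of points of `D2` joined to `S` near `S` lies in a compact connected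
subset of `D2` near `S`. -/
theorem corridor_set (h : Barr D S a b) {ρ : ℝ} (hρ : 0 < ρ) {Z : Set ℂ} (hZ : IsCompact Z)
    (hZD : Z ⊆ D2 D S a b) (hZS : ∀ z ∈ Z, ∃ s ∈ S, Jn (D ∩ {x | Metric.infDist x S < ρ}) z s) :
    ∃ K', IsCompact K' ∧ IsPreconnected K' ∧ Z ⊆ K' ∧
      K' ⊆ D2 D S a b ∩ {x | Metric.infDist x S < ρ} := by
  rcases Z.eq_empty_or_nonempty with rfl | ⟨z0, hz0⟩
  · exact ⟨∅, isCompact_empty, isPreconnected_empty, subset_rfl, empty_subset _⟩
  set W : Set ℂ := (D \ S) ∩ {x | Metric.infDist x S < ρ} with hW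
  have hWo : IsOpen W :=
    h.isOpen_diff.inter (isOpen_lt (Metric.continuous_infDist_pt S) continuous_const)
  have h1 : ∀ z ∈ Z, Jn W z0 z := fun z hz =>
    jn_corridor h.openD h.bdD h.sub h.hb h.conn h.comp hρ (D2_jn h (hZD hz0) (hZD hz))
      (hZS z0 hz0) (hZS z hz)
  obtain ⟨K', hK', hc', hZK', hK'U⟩ := Pool.Agent.H42.Q1.exists_connected_compact
    (hWo.connectedComponentIn (x := z0)) isPreconnected_connectedComponentIn hZ
    (fun z hz => (h1 z hz).mem_comp)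
  refine ⟨K', hK', hc', hZK', fun x hx => ?_⟩
  have h2 : Jn W z0 x := jn_of_comp (h1 z0 hz0).left_mem (hK'U hx)
  exact ⟨D2_of_jn h (hZD hz0) (h2.mono inter_subset_left), h2.right_mem.2⟩

end barr

end Pool.Agent.H5.M7
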