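import Mathlib
import Pool.Agent.H5.M7.Barrier
import Pool.Agent.H14.NB.Cells

set_option autoImplicit false
open Set Topology Filter

/-! # The barrier of a base

`SS B` = the union of the closed cells of all families `Q M`; it is a barrier (`barr`), outside the ball
of radius `r M` around `b` it is the union of the cells of `Q M` (`SS_loc`). -/

namespace Pool.Agent.H5.M7

open Pool.Agent.H81.Q1 (pt DDomain Approx IsJordanDomain IsArcs)
open Pool.Agent.Q1.M3
open Pool.Agent.H14.NB (cun isCompact_cun isCompact_cfat)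

/-- a point of the closed cell is a limit of points of the open cell -/
lemma cfat_sub_closure (o : ℂ) (q : Cell) : cfat o q ⊆ closure (fat o q) := by
  intro z hz
  obtain ⟨h1, h2, h3, h4⟩ := hz
  have hm := mesh_pos q.1
  set c : ℂ := ⟨o.re + (q.2.1 + 1 / 2) * mesh q.1, o.im + (q.2.2 + 1 / 2) * mesh q.1⟩ with hc
  have hlim : Tendsto (fun n : ℕ => z + ((1 / ((n : ℝ) + 1) : ℝ) : ℂ) * (c - z)) atTop (𝓝 z) := by
    have h5 : Tendsto (fun n : ℕ => ((1 / ((n : ℝ) + 1) : ℝ) : ℂ)) atTop (𝓝 0) := by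
      have := (Complex.continuous_ofReal.tendsto 0).comp (tendsto_one_div_add_atTop_nhds_zero_nat (𝕜 := ℝ))
      simpa [Function.comp_def] using this
    have h6 := (tendsto_const_nhds (x := z)).add (h5.mul_const (c - z))
    simpa using h6
  refine mem_closure_of_tendsto hlim (Eventually.of_forall fun n => ?_)
  set t : ℝ := 1 / ((n : ℝ) + 1) with ht
  have ht0 : 0 < t := by rw [ht]; positivity
  have ht1 : t ≤ 1 := by
    rw [ht, div_le_one (by positivity)]; linarith [Nat.cast_nonneg (α := ℝ) n]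
  have e1 : (z + (t : ℂ) * (c - z)).re = z.re + t * (c.re - z.re) := by
    simp
  have e2 : (z + (t : ℂ) * (c - z)).im = z.im + t * (c.im - z.im) := by
    simp
  have c1 : c.re = o.re + (q.2.1 + 1 / 2) * mesh q.1 := rfl
  have c2 : c.im = o.im + (q.2.2 + 1 / 2) * mesh q.1 := rfl
  refine ⟨?_, ?_, ?_, ?_⟩
  · rw [e1, c1]; nlinarith [mul_nonneg (sub_nonneg.2 ht1) (sub_nonneg.2 h1), mul_pos ht0 hm]
  · rw [e1, c1]; nlinarith [mul_nonneg (sub_nonneg.2 ht1) (sub_nonneg.2 h2), mul_pos ht0 hm]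
  · rw [e2, c2]; nlinarith [mul_nonneg (sub_nonneg.2 ht1) (sub_nonneg.2 h3), mul_pos ht0 hm]
  · rw [e2, c2]; nlinarith [mul_nonneg (sub_nonneg.2 ht1) (sub_nonneg.2 h4), mul_pos ht0 hm]

lemma convex_cfat (o : ℂ) (q : Cell) : Convex ℝ (cfat o q) := by
  have h : cfat o q = Complex.re ⁻¹' Set.Icc (o.re + (q.2.1 - 1 / 3) * mesh q.1)
      (o.re + (q.2.1 + 4 / 3) * mesh q.1) ∩ Complex.im ⁻¹' Set.Icc
      (o.im + (q.2.2 - 1 / 3) * mesh q.1) (o.im + (q.2.2 + 4 / 3) * mesh q.1) := by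
    ext z
    simp only [cfat, Set.mem_ofPred_eq, Set.mem_inter_iff, Set.mem_preimage, Set.mem_Icc]
    tauto
  rw [h]
  exact ((convex_Icc _ _).linear_preimage Complex.reLm).inter
    ((convex_Icc _ _).linear_preimage Complex.imLm)

lemma mem_cun {o : ℂ} {C : Finset Cell} {z : ℂ} : z ∈ cun o C ↔ ∃ q ∈ C, z ∈ cfat o q := by
  unfold cun
  simp only [mem_iUnion, exists_prop]

lemma cun_mono {o : ℂ} {C C' : Finset Cell} (h : C ⊆ C') : cun o C ⊆ cun o C' := fun z hz => by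
  rw [mem_cun] at hz ⊢
  obtain ⟨q, hq, h1⟩ := hz
  exact ⟨q, h hq, h1⟩

/-- chains of cells are connected -/
lemma jn_chain {o : ℂ} {C : Finset Cell} {q q' : Cell} (hq : q ∈ C)
    (h : Relation.ReflTransGen (fun x y => AdjC o x y ∧ x ∈ C ∧ y ∈ C) q q') :
    ∀ z ∈ cfat o q, ∀ z' ∈ cfat o q', Jn (cun o C) z z' := by
  intro z hz
  induction h with
  | refl =>
    intro z' hz'
    exact ⟨cfat o q, (convex_cfat o q).isPreconnected, hz, hz', fun x hx => mem_cun.2 ⟨q, hq, hx⟩⟩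
  | @tail y w _ hyw ih =>
    intro z' hz'
    obtain ⟨⟨x, hx1, hx2⟩, hy, hw⟩ := hyw
    exact (ih x (Pool.Agent.Q1.M3.fat_sub_cfat _ _ hx1)).trans
      ⟨cfat o w, (convex_cfat o w).isPreconnected, Pool.Agent.Q1.M3.fat_sub_cfat _ _ hx2, hz',
        fun u hu => mem_cun.2 ⟨w, hw, hu⟩⟩

section

variable {D : Set ℂ} {a b : ℂ} {A₁ A₂ : Set ℂ} {A : Approx D a b A₁ A₂} {r0 : ℝ} (B : Base A r0)

/-- The barrier. -/
def SS : Set ℂ := ⋃ M, cun B.o (B.Q M)

lemma mem_SS {z : ℂ} : z ∈ SS B ↔ ∃ M, ∃ q ∈ B.Q M, z ∈ cfat B.o q := by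
  unfold SS
  simp only [mem_iUnion, mem_cun]

lemma Q_mono {M M' : ℕ} (h : M ≤ M') : B.Q M ⊆ B.Q M' :=
  monotone_nat_of_le_succ (f := B.Q) B.mono h

lemma cun_sub_SS (M : ℕ) : cun B.o (B.Q M) ⊆ SS B := subset_iUnion (fun M => cun B.o (B.Q M)) M

lemma SS_sub : SS B ⊆ D ∩ Metric.ball b r0 := by
  intro z hz
  obtain ⟨M, q, hq, h⟩ := (mem_SS B).1 hz
  exact B.subQ M q hq h

lemma SS_ne : (SS B).Nonempty :=
  ⟨_, (mem_SS B).2 ⟨0, B.qb, B.qb_mem, center_mem B.o B.qb⟩⟩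

lemma SS_conn : IsPreconnected (SS B) := by
  refine isPreconnected_of_forall_pair fun z hz z' hz' => ?_
  obtain ⟨M, q, hq, h⟩ := (mem_SS B).1 hz
  obtain ⟨M', q', hq', h'⟩ := (mem_SS B).1 hz'
  have h1 := Q_mono B (le_max_left M M') hq
  have h2 := Q_mono B (le_max_right M M') hq'
  obtain ⟨T, g1, g2, g3, g4⟩ := jn_chain h1 (B.connQ _ q h1 q' h2) z h z' h'
  exact ⟨T, g4.trans (cun_sub_SS B _), g2, g3, g1⟩

/-- **Outside the ball of radius `r M` the barrier is the union of the cells of `Q M`.** -/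
theorem SS_loc (M : ℕ) : SS B ⊆ cun B.o (B.Q M) ∪ Metric.closedBall b (B.r M) := by
  intro z hz
  obtain ⟨M', q, hq, h⟩ := (mem_SS B).1 hz
  by_contra hcon
  have hcl : IsClosed (cun B.o (B.Q M) ∪ Metric.closedBall b (B.r M)) :=
    (isCompact_cun _ _).isClosed.union Metric.isClosed_closedBall
  have h1 := cfat_sub_closure B.o q h
  rw [mem_closure_iff] at h1
  obtain ⟨y, hy, hyf⟩ := h1 _ hcl.isOpen_compl hcon
  have hopen : IsOpen (fat B.o q ∩ (cun B.o (B.Q M) ∪ Metric.closedBall b (B.r M))ᶜ) :=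
    (Pool.Agent.H42.Q1.isOpen_fat _ _).inter hcl.isOpen_compl
  obtain ⟨s, hs, hball⟩ := Metric.isOpen_iff.1 hopen y ⟨hyf, hy⟩
  have e1 : ∀ᶠ n in atTop, A.δ n < s / 3 := A.lim.eventually_lt_const (by linarith)
  obtain ⟨n, h2, ⟨N', h3, h4⟩, N'', h5, h6⟩ := (e1.and ((B.hN M).and (B.hN M'))).exists
  obtain ⟨v, hv⟩ := Pool.Agent.H42.MJ.exists_pt (A.pos n) y
  have hv' : pt (A.δ n) v ∈ Metric.ball y s := by
    rw [Metric.mem_ball, dist_eq_norm]; linarith
  obtain ⟨hvf, hvn⟩ := hball hv'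
  have h7 : v ∈ B.N n := by
    rw [h5]
    exact Finset.mem_union_left _ (mem_Vn.2 ⟨q, hq, (mem_verts (A.pos n)).2 hvf⟩)
  rw [h3, Finset.mem_union] at h7
  apply hvn
  rcases h7 with h7 | h7
  · obtain ⟨q', hq', h8⟩ := mem_Vn.1 h7
    left
    exact mem_cun.2 ⟨q', hq', Pool.Agent.Q1.M3.fat_sub_cfat _ _ ((mem_verts (A.pos n)).1 h8)⟩
  · right
    exact Metric.ball_subset_closedBall (h4 v h7)

lemma SS_bounded : Bornology.IsBounded (SS B) :=
  Metric.isBounded_ball.subset ((SS_sub B).trans inter_subset_right)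

lemma SS_compact : IsCompact (insert b (SS B)) := by
  refine Metric.isCompact_of_isClosed_isBounded ?_ ((SS_bounded B).insert b)
  rw [← isOpen_compl_iff, Metric.isOpen_iff]
  intro z hz
  have hzb : z ≠ b := fun h => hz (Or.inl h)
  have hd : 0 < dist z b := dist_pos.2 hzb
  obtain ⟨M, hM⟩ := (B.rlim.eventually_lt_const (show (0 : ℝ) < dist z b / 2 by linarith)).exists
  have hcl : IsClosed (cun B.o (B.Q M)) := (isCompact_cun _ _).isClosed
  have hz2 : z ∉ cun B.o (B.Q M) := fun h => hz (Or.inr (cun_sub_SS B M h))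
  obtain ⟨s, hs, hball⟩ := Metric.isOpen_iff.1 hcl.isOpen_compl z hz2
  refine ⟨min s (dist z b / 2), lt_min hs (by linarith), ?_⟩
  intro x hx hx'
  have hx1 := Metric.mem_ball.1 hx
  have hx2 : dist x z < dist z b / 2 := hx1.trans_le (min_le_right _ _)
  have htri := dist_triangle z x b
  rw [dist_comm z x] at htri
  rcases hx' with rfl | hx'
  · rw [dist_self] at htri; linarith
  · rcases SS_loc B M hx' with h1 | h1
    · exact hball (Metric.mem_ball.2 (hx1.trans_le (min_le_left _ _))) h1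
    · rw [Metric.mem_closedBall] at h1; linarith

/-- The closed set `S` near a point different from `b`. -/
theorem barr (hD : IsOpen D) (hDc : IsPreconnected D) (hDb : Bornology.IsBounded D) (hab : a ≠ b)
    (ha : a ∈ closure D) (ha' : a ∉ D) (hb : b ∉ D) : Barr D (SS B) a b where
  openD := hD
  connD := hDc
  bdD := hDb
  sub := (SS_sub B).trans inter_subset_left
  conn := SS_conn B
  ne := SS_ne B
  comp := SS_compact B
  hb := hb
  ha := ha'
  hab := hab
  cla := ha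

end

end Pool.Agent.H5.M7
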