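import Mathlib
import Pool.Agent.H5.M7.BaseS
import Pool.Agent.H82.Q1.M7.Iface

set_option autoImplicit false
open Set Topology Filter

/-! # The barrier near a point of first contact

`exists_flat` : a point `p` of the barrier which is not a grid vertex and is a limit of points outside
the barrier lies inside a side of a cell; near `p` the barrier is a half disc. -/

namespace Pool.Agent.H5.M7

open Pool.Agent.H81.Q1 (pt DDomain Approx IsJordanDomain IsArcs)
open Pool.Agent.Q1.M3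
open Pool.Agent.H14.NB (cun isCompact_cun isCompact_cfat)
open Pool.Agent.H82.Q1.M7 (Sbar uv Win IsEnd)

/-- `p` is not a grid vertex. -/
def NoV (o p : ℂ) : Prop := ∀ (k : ℕ) (m : ℤ × ℤ), p ≠ gpt o k m

/-- Outward normal vectors. -/
def IsNu (ν : ℂ) : Prop := ν = 1 ∨ ν = -1 ∨ ν = Complex.I ∨ ν = -Complex.I

/-- The component of `z - p` in direction `ν`. -/
noncomputable def nrm (ν p z : ℂ) : ℝ := ((z - p) * (starRingEnd ℂ) ν).re

lemma nrm_one (p z : ℂ) : nrm 1 p z = z.re - p.re := by simp [nrm]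
lemma nrm_neg_one (p z : ℂ) : nrm (-1) p z = p.re - z.re := by simp [nrm]
lemma nrm_I (p z : ℂ) : nrm Complex.I p z = z.im - p.im := by simp [nrm]
lemma nrm_neg_I (p z : ℂ) : nrm (-Complex.I) p z = p.im - z.im := by simp [nrm]

/-- Sides of a fat cell are grid lines. -/
lemma side_lo (o : ℝ) (q : Cell) (i : ℤ) :
    o + (i - 1 / 3) * mesh q.1 = o + ((3 * i - 1 : ℤ) : ℝ) * mesh (q.1 + 1) := by
  have : mesh (q.1 + 1) = mesh q.1 / 3 := by unfold mesh; rw [pow_succ]; ring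
  rw [this]; push_cast; ring

lemma side_hi (o : ℝ) (q : Cell) (i : ℤ) :
    o + (i + 4 / 3) * mesh q.1 = o + ((3 * i + 4 : ℤ) : ℝ) * mesh (q.1 + 1) := by
  have : mesh (q.1 + 1) = mesh q.1 / 3 := by unfold mesh; rw [pow_succ]; ring
  rw [this]; push_cast; ring

/-- grid lines of a level are grid lines of the finer levels -/
lemma line_fine {j k : ℕ} (h : j ≤ k) (o : ℝ) (N : ℤ) :
    o + (N : ℝ) * mesh (j + 1) = o + ((N * 3 ^ (k - j) : ℤ) : ℝ) * mesh (k + 1) := by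
  have h1 : mesh (j + 1) = 3 ^ (k - j) * mesh (k + 1) := by
    unfold mesh
    have h2 : k + 1 = (k - j) + (j + 1) := by omega
    have h4 : (1 / 3 : ℝ) ^ (k + 1) = (1 / 3) ^ (k - j) * (1 / 3) ^ (j + 1) := by
      rw [← pow_add, ← h2]
    rw [h4]
    have h3 : (3 : ℝ) ^ (k - j) * (1 / 3) ^ (k - j) = 1 := by rw [← mul_pow]; norm_num
    calc (1 / 3 : ℝ) ^ (j + 1) = (3 ^ (k - j) * (1 / 3) ^ (k - j)) * (1 / 3) ^ (j + 1) := by
          rw [h3, one_mul]
      _ = _ := by ring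
  rw [h1]; push_cast; ring

/-- A coordinate on a vertical and a horizontal grid line: grid vertex. -/
lemma NoV.lines {o p : ℂ} (h : NoV o p) {j k : ℕ} {N M : ℤ}
    (h1 : p.re = o.re + (N : ℝ) * mesh (j + 1)) : p.im ≠ o.im + (M : ℝ) * mesh (k + 1) := by
  intro h2
  refine h (max j k) (N * 3 ^ (max j k - j), M * 3 ^ (max j k - k)) ?_
  unfold gpt
  rw [line_fine (le_max_left j k)] at h1
  rw [line_fine (le_max_right j k)] at h2
  exact Complex.ext h1 h2

/-- The four cases of a point of the closed cell which is not interior. -/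
lemma cfat_cases {o p : ℂ} {q : Cell} (h : p ∈ cfat o q) (h' : p ∉ fat o q) :
    p.re = o.re + (q.2.1 - 1 / 3) * mesh q.1 ∨ p.re = o.re + (q.2.1 + 4 / 3) * mesh q.1 ∨
    p.im = o.im + (q.2.2 - 1 / 3) * mesh q.1 ∨ p.im = o.im + (q.2.2 + 4 / 3) * mesh q.1 := by
  obtain ⟨h1, h2, h3, h4⟩ := h
  by_contra hcon
  push Not at hcon
  obtain ⟨c1, c2, c3, c4⟩ := hcon
  exact h' ⟨lt_of_le_of_ne h1 (Ne.symm c1), lt_of_le_of_ne h2 c2, lt_of_le_of_ne h3 (Ne.symm c3),
    lt_of_le_of_ne h4 c4⟩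

/-- `p` is on a grid line of level `k` orthogonal to `ν`. -/
def Line (o ν p : ℂ) (k : ℕ) : Prop :=
  ((ν = 1 ∨ ν = -1) ∧ ∃ N : ℤ, p.re = o.re + (N : ℝ) * mesh (k + 1)) ∨
  ((ν = Complex.I ∨ ν = -Complex.I) ∧ ∃ N : ℤ, p.im = o.im + (N : ℝ) * mesh (k + 1))

/-- Near `p` the cell `q` is `{nrm ≤ 0}`. -/
def Half (o ν p : ℂ) (q : Cell) : Prop :=
  ∀ᶠ z in 𝓝 p, (z ∈ cfat o q ↔ nrm ν p z ≤ 0)

lemma ev_lt {f : ℂ → ℝ} (hf : Continuous f) {p : ℂ} {c : ℝ} (h : c < f p) :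
    ∀ᶠ z in 𝓝 p, c < f z := hf.continuousAt.eventually_const_lt h

lemma ev_gt {f : ℂ → ℝ} (hf : Continuous f) {p : ℂ} {c : ℝ} (h : f p < c) :
    ∀ᶠ z in 𝓝 p, f z < c := hf.continuousAt.eventually_lt_const h

lemma mesh_lt_side (o : ℝ) (q : Cell) (i : ℤ) :
    o + (i - 1 / 3) * mesh q.1 < o + (i + 4 / 3) * mesh q.1 := by
  have := mesh_pos q.1; nlinarith

/-- **Local form of a cell.** -/
lemma half_of {o p : ℂ} (hp : NoV o p) {q : Cell} (h : p ∈ cfat o q) (h' : p ∉ fat o q) :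
    ∃ ν, Line o ν p q.1 ∧ Half o ν p q := by
  obtain ⟨h1, h2, h3, h4⟩ := h
  rcases cfat_cases ⟨h1, h2, h3, h4⟩ h' with e | e | e | e
  · -- left side
    refine ⟨-1, Or.inl ⟨Or.inr rfl, _, by rw [e, side_lo]⟩, ?_⟩
    have a1 := mesh_lt_side o.re q q.2.1
    have b1 : p.im ≠ o.im + (q.2.2 - 1 / 3) * mesh q.1 := by
      rw [side_lo] at e ⊢; exact hp.lines e
    have b2 : p.im ≠ o.im + (q.2.2 + 4 / 3) * mesh q.1 := by
      rw [side_lo] at e; rw [side_hi]; exact hp.lines e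
    filter_upwards [ev_gt Complex.continuous_re (show p.re < _ by rw [e]; exact a1),
      ev_lt Complex.continuous_im (lt_of_le_of_ne h3 (Ne.symm b1)),
      ev_gt Complex.continuous_im (lt_of_le_of_ne h4 b2)] with z c1 c2 c3
    rw [nrm_neg_one, e]
    constructor
    · rintro ⟨g1, -, -, -⟩; linarith
    · intro g; exact ⟨by linarith, c1.le, c2.le, c3.le⟩
  · -- right side
    refine ⟨1, Or.inl ⟨Or.inl rfl, _, by rw [e, side_hi]⟩, ?_⟩
    have a1 := mesh_lt_side o.re q q.2.1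
    have b1 : p.im ≠ o.im + (q.2.2 - 1 / 3) * mesh q.1 := by
      rw [side_hi] at e; rw [side_lo]; exact hp.lines e
    have b2 : p.im ≠ o.im + (q.2.2 + 4 / 3) * mesh q.1 := by
      rw [side_hi] at e ⊢; exact hp.lines e
    filter_upwards [ev_lt Complex.continuous_re (show _ < p.re by rw [e]; exact a1),
      ev_lt Complex.continuous_im (lt_of_le_of_ne h3 (Ne.symm b1)),
      ev_gt Complex.continuous_im (lt_of_le_of_ne h4 b2)] with z c1 c2 c3
    rw [nrm_one, e]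
    constructor
    · rintro ⟨-, g1, -, -⟩; linarith
    · intro g; exact ⟨c1.le, by linarith, c2.le, c3.le⟩
  · -- lower side
    refine ⟨-Complex.I, Or.inr ⟨Or.inr rfl, _, by rw [e, side_lo]⟩, ?_⟩
    have a1 := mesh_lt_side o.im q q.2.2
    have b1 : p.re ≠ o.re + (q.2.1 - 1 / 3) * mesh q.1 := by
      intro e'; rw [side_lo] at e e'; exact hp.lines e' e
    have b2 : p.re ≠ o.re + (q.2.1 + 4 / 3) * mesh q.1 := by
      intro e'; rw [side_lo] at e; rw [side_hi] at e'; exact hp.lines e' e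
    filter_upwards [ev_gt Complex.continuous_im (show p.im < _ by rw [e]; exact a1),
      ev_lt Complex.continuous_re (lt_of_le_of_ne h1 (Ne.symm b1)),
      ev_gt Complex.continuous_re (lt_of_le_of_ne h2 b2)] with z c1 c2 c3
    rw [nrm_neg_I, e]
    constructor
    · rintro ⟨-, -, g1, -⟩; linarith
    · intro g; exact ⟨c2.le, c3.le, by linarith, c1.le⟩
  · -- upper side
    refine ⟨Complex.I, Or.inr ⟨Or.inl rfl, _, by rw [e, side_hi]⟩, ?_⟩
    have a1 := mesh_lt_side o.im q q.2.2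
    have b1 : p.re ≠ o.re + (q.2.1 - 1 / 3) * mesh q.1 := by
      intro e'; rw [side_hi] at e; rw [side_lo] at e'; exact hp.lines e' e
    have b2 : p.re ≠ o.re + (q.2.1 + 4 / 3) * mesh q.1 := by
      intro e'; rw [side_hi] at e e'; exact hp.lines e' e
    filter_upwards [ev_lt Complex.continuous_im (show _ < p.im by rw [e]; exact a1),
      ev_lt Complex.continuous_re (lt_of_le_of_ne h1 (Ne.symm b1)),
      ev_gt Complex.continuous_re (lt_of_le_of_ne h2 b2)] with z c1 c2 c3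
    rw [nrm_I, e]
    constructor
    · rintro ⟨-, -, -, g1⟩; linarith
    · intro g; exact ⟨c2.le, c3.le, c1.le, by linarith⟩

/-- Two lines through `p` have the same or opposite normal vectors. -/
lemma line_eq {o p : ℂ} (hp : NoV o p) {ν ν' : ℂ} {k k' : ℕ} (h : Line o ν p k)
    (h' : Line o ν' p k') : ν' = ν ∨ ν' = -ν := by
  rcases h with ⟨h1, N, h2⟩ | ⟨h1, N, h2⟩ <;> rcases h' with ⟨g1, M, g2⟩ | ⟨g1, M, g2⟩
  · rcases h1 with rfl | rfl <;> rcases g1 with rfl | rfl <;> simp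
  · exact absurd g2 (hp.lines h2)
  · exact absurd h2 (hp.lines g2)
  · rcases h1 with rfl | rfl <;> rcases g1 with rfl | rfl <;> simp

lemma nrm_neg (ν p z : ℂ) : nrm (-ν) p z = -nrm ν p z := by
  simp [nrm, map_neg]

/-- **The barrier near a point of first contact.** -/
theorem exists_flat {o p : ℂ} (hp : NoV o p) {C : Finset Cell} {S : Set ℂ}
    (hS : ∀ᶠ z in 𝓝 p, z ∈ S ↔ z ∈ cun o C) (hpS : p ∈ S) (hout : ∃ᶠ z in 𝓝 p, z ∉ S) :
    ∃ ν, ∃ q ∈ C, Line o ν p q.1 ∧ ∀ᶠ z in 𝓝 p, (z ∈ S ↔ nrm ν p z ≤ 0) ∧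
      (z ∈ cfat o q ↔ nrm ν p z ≤ 0) := by
  have hpC : p ∈ cun o C := hS.self_of_nhds.1 hpS
  obtain ⟨q, hq, hpq⟩ := mem_cun.1 hpC
  have hnf : ∀ q' ∈ C, p ∉ fat o q' := by
    intro q' hq' hf
    apply hout
    have h1 : ∀ᶠ z in 𝓝 p, z ∈ fat o q' := (Pool.Agent.H42.Q1.isOpen_fat o q').mem_nhds hf
    filter_upwards [h1, hS] with z h2 h3
    rw [not_not]
    exact h3.2 (mem_cun.2 ⟨q', hq', Pool.Agent.Q1.M3.fat_sub_cfat _ _ h2⟩)
  obtain ⟨ν, hl, hh⟩ := half_of hp hpq (hnf q hq)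
  refine ⟨ν, q, hq, hl, ?_⟩
  have key : ∀ q' ∈ C, ∀ᶠ z in 𝓝 p, z ∈ cfat o q' → nrm ν p z ≤ 0 := by
    intro q' hq'
    by_cases hp' : p ∈ cfat o q'
    · obtain ⟨ν', hl', hh'⟩ := half_of hp hp' (hnf q' hq')
      rcases line_eq hp hl hl' with e | e
      · subst e
        filter_upwards [hh'] with z h1 h2
        exact h1.1 h2
      · exfalso
        subst e
        apply hout
        filter_upwards [hh, hh', hS] with z h1 h2 h3
        rw [not_not]
        apply h3.2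
        rw [nrm_neg] at h2
        rcases le_total (nrm ν p z) 0 with h4 | h4
        · exact mem_cun.2 ⟨q, hq, h1.2 h4⟩
        · exact mem_cun.2 ⟨q', hq', h2.2 (by linarith)⟩
    · have h1 : ∀ᶠ z in 𝓝 p, z ∈ (cfat o q')ᶜ :=
        (isClosed_cfat o q').isOpen_compl.mem_nhds hp'
      filter_upwards [h1] with z h2 h3
      exact absurd h3 h2
  have hall : ∀ᶠ z in 𝓝 p, ∀ q' ∈ C, z ∈ cfat o q' → nrm ν p z ≤ 0 :=
    (Finset.eventually_all C).2 key
  filter_upwards [hall, hh, hS] with z h1 h2 h3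
  refine ⟨⟨fun h => ?_, fun h => h3.2 (mem_cun.2 ⟨q, hq, h2.2 h⟩)⟩, h2⟩
  obtain ⟨q', hq', h4⟩ := mem_cun.1 (h3.1 h)
  exact h1 q' hq' h4

/-! ### The window -/

lemma Line.isNu {o ν p : ℂ} {k : ℕ} (h : Line o ν p k) : IsNu ν := by
  rcases h with ⟨rfl | rfl, -⟩ | ⟨rfl | rfl, -⟩
  · exact Or.inl rfl
  · exact Or.inr (Or.inl rfl)
  · exact Or.inr (Or.inr (Or.inl rfl))
  · exact Or.inr (Or.inr (Or.inr rfl))

lemma IsNu.norm {ν : ℂ} (h : IsNu ν) : ‖ν‖ = 1 := by
  rcases h with rfl | rfl | rfl | rfl <;> simp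

lemma IsNu.mul_conj {ν : ℂ} (h : IsNu ν) : ν * (starRingEnd ℂ) ν = 1 := by
  rcases h with rfl | rfl | rfl | rfl <;> simp

/-- the direction of the side -/
lemma IsNu.exists_k {ν : ℂ} (h : IsNu ν) : ∃ k : ℤ, uv k = -Complex.I * ν := by
  rcases h with rfl | rfl | rfl | rfl
  · refine ⟨3, ?_⟩
    have : Pool.Agent.H75.Perc.dir 3 = (0, -1) := by decide
    unfold uv; rw [this]; apply Complex.ext <;> simp
  · refine ⟨1, ?_⟩
    have : Pool.Agent.H75.Perc.dir 1 = (0, 1) := by decide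
    unfold uv; rw [this]; apply Complex.ext <;> simp
  · refine ⟨0, ?_⟩
    have : Pool.Agent.H75.Perc.dir 0 = (1, 0) := by decide
    unfold uv; rw [this]; apply Complex.ext <;> simp
  · refine ⟨2, ?_⟩
    have : Pool.Agent.H75.Perc.dir 2 = (-1, 0) := by decide
    unfold uv; rw [this]; apply Complex.ext <;> simp

lemma nrm_add {ν : ℂ} (h : IsNu ν) (p g : ℂ) (s t : ℝ) :
    nrm ν p (g + (s + t * Complex.I) * (-Complex.I * ν)) = nrm ν p g + t := by
  unfold nrm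
  have e : (g + (s + t * Complex.I) * (-Complex.I * ν) - p) * (starRingEnd ℂ) ν =
      (g - p) * (starRingEnd ℂ) ν + (s + t * Complex.I) * (-Complex.I) := by
    have h1 := h.mul_conj
    linear_combination ((s + t * Complex.I) * (-Complex.I)) * h1
  rw [e, Complex.add_re]
  simp

lemma norm_add_le' {ν : ℂ} (h : IsNu ν) (p g : ℂ) (s t : ℝ) :
    ‖g + (s + t * Complex.I) * (-Complex.I * ν) - p‖ ≤ ‖g - p‖ + |s| + |t| := by
  have e : g + (s + t * Complex.I) * (-Complex.I * ν) - p =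
      (g - p) + (s + t * Complex.I) * (-Complex.I * ν) := by ring
  rw [e]
  refine (norm_add_le _ _).trans ?_
  have h1 : ‖((s : ℂ) + t * Complex.I) * (-Complex.I * ν)‖ ≤ |s| + |t| := by
    rw [norm_mul, norm_mul, h.norm, norm_neg, Complex.norm_I, mul_one, mul_one]
    refine (norm_add_le _ _).trans ?_
    rw [norm_mul, Complex.norm_I, mul_one, Complex.norm_real, Complex.norm_real, Real.norm_eq_abs,
      Real.norm_eq_abs]
  linarith

/-- a grid vertex of a fine level on the line, near `p` -/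
lemma exists_gpt {o ν p : ℂ} {k : ℕ} (h : Line o ν p k) {k1 : ℕ} (hk : k ≤ k1) :
    ∃ m : ℤ × ℤ, nrm ν p (gpt o k1 m) = 0 ∧ ‖gpt o k1 m - p‖ ≤ mesh (k1 + 1) := by
  have hm := mesh_pos (k1 + 1)
  have hfl : ∀ x y : ℝ, |y + ((⌊(x - y) / mesh (k1 + 1)⌋ : ℤ) : ℝ) * mesh (k1 + 1) - x| ≤
      mesh (k1 + 1) := by
    intro x y
    have h1 := Int.floor_le ((x - y) / mesh (k1 + 1))
    have h2 := Int.lt_floor_add_one ((x - y) / mesh (k1 + 1))
    rw [le_div_iff₀ hm] at h1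
    rw [div_lt_iff₀ hm] at h2
    rw [abs_le]
    constructor <;> nlinarith
  rcases h with ⟨hν, N, hN⟩ | ⟨hν, N, hN⟩
  · rw [line_fine hk] at hN
    refine ⟨(N * 3 ^ (k1 - k), ⌊(p.im - o.im) / mesh (k1 + 1)⌋), ?_, ?_⟩
    · rcases hν with rfl | rfl
      · rw [nrm_one]; unfold gpt; simp only; rw [hN]; ring
      · rw [nrm_neg_one]; unfold gpt; simp only; rw [hN]; ring
    · have e : (gpt o k1 (N * 3 ^ (k1 - k), ⌊(p.im - o.im) / mesh (k1 + 1)⌋) - p).re = 0 := by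
        rw [Complex.sub_re, hN]; unfold gpt; simp only; ring
      refine (Complex.norm_le_abs_re_add_abs_im _).trans ?_
      rw [e, abs_zero, zero_add, Complex.sub_im]
      exact hfl p.im o.im
  · rw [line_fine hk] at hN
    refine ⟨(⌊(p.re - o.re) / mesh (k1 + 1)⌋, N * 3 ^ (k1 - k)), ?_, ?_⟩
    · rcases hν with rfl | rfl
      · rw [nrm_I]; unfold gpt; simp only; rw [hN]; ring
      · rw [nrm_neg_I]; unfold gpt; simp only; rw [hN]; ring
    · have e : (gpt o k1 (⌊(p.re - o.re) / mesh (k1 + 1)⌋, N * 3 ^ (k1 - k)) - p).im = 0 := by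
        rw [Complex.sub_im, hN]; unfold gpt; simp only; ring
      refine (Complex.norm_le_abs_re_add_abs_im _).trans ?_
      rw [e, abs_zero, add_zero, Complex.sub_re]
      exact hfl p.re o.re

lemma exists_mesh_lt {η : ℝ} (h : 0 < η) (k : ℕ) : ∃ k1, k < k1 ∧ mesh (k1 + 1) < η := by
  have h1 : Tendsto (fun n : ℕ => (1 / 3 : ℝ) ^ n) atTop (𝓝 0) :=
    tendsto_pow_atTop_nhds_zero_of_lt_one (by norm_num) (by norm_num)
  obtain ⟨n, hn⟩ := (h1.eventually_lt_const h).exists_forall_of_atTop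
  refine ⟨max n (k + 1), by omega, ?_⟩
  exact hn _ (by omega)

section

variable {D : Set ℂ} {a b : ℂ} {A₁ A₂ : Set ℂ} {A : Approx D a b A₁ A₂} {r0 : ℝ} (B : Base A r0)

lemma SS_eq : SS B = Sbar B := rfl

/-- near a point different from `b` the barrier is a finite union of cells -/
lemma SS_near {p : ℂ} (hp : p ≠ b) : ∃ M, ∀ᶠ z in 𝓝 p, z ∈ Sbar B ↔ z ∈ cun B.o (B.Q M) := by
  have hd : 0 < dist p b := dist_pos.2 hp
  obtain ⟨M, hM⟩ := (B.rlim.eventually_lt_const (show (0 : ℝ) < dist p b / 2 by linarith)).exists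
  refine ⟨M, ?_⟩
  filter_upwards [Metric.ball_mem_nhds p (show (0 : ℝ) < dist p b / 2 by linarith)] with z hz
  constructor
  · intro h
    rcases SS_loc B M (show z ∈ SS B from h) with h1 | h1
    · exact h1
    · have h2 := Metric.mem_ball.1 hz
      have h3 := Metric.mem_closedBall.1 h1
      have h4 := dist_triangle p z b
      rw [dist_comm p z] at h4
      linarith
  · exact fun h => cun_sub_SS B M h

/-- **Window at a point of first contact.** -/
theorem exists_win (hDo : IsOpen D) (hb : b ∉ D) {p : ℂ} (hp : NoV B.o p) (hpS : p ∈ Sbar B)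
    (hout : ∃ᶠ z in 𝓝 p, z ∉ Sbar B) {U : Set ℂ} (hU : U ∈ 𝓝 p) {l1 : ℝ} (hl1 : 0 < l1) :
    ∃ (w : Win B) (ν : ℂ) (η : ℝ), 0 < η ∧ w.l ≤ l1 ∧ IsNu ν ∧ Metric.ball p η ⊆ U ∩ D ∧
      (∀ z ∈ Metric.ball p η, z ∈ Sbar B ↔ nrm ν p z ≤ 0) ∧
      (∀ s t : ℝ, |s| < 2 * w.l → 0 < t → t < 2 * w.l →
        gpt B.o w.k1 w.m + (s + t * Complex.I) * uv w.k ∈ Metric.ball p η ∩ {z | 0 < nrm ν p z}) ∧
      (∀ s t : ℝ, |s| < 2 * w.l → 0 ≤ t → t < 2 * w.l →
        gpt B.o w.k1 w.m + (s - t * Complex.I) * uv w.k ∈ cfat B.o w.q) := by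
  have hpD : p ∈ D := ((SS_sub B) hpS).1
  have hpb : p ≠ b := fun h => hb (h ▸ hpD)
  obtain ⟨M, hM⟩ := SS_near B hpb
  obtain ⟨ν, q, hq, hl, hev⟩ := exists_flat hp hM hpS hout
  have hν := hl.isNu
  obtain ⟨η0, hη0, hball0⟩ := Metric.eventually_nhds_iff_ball.1
    (hev.and ((Filter.eventually_of_mem hU fun z hz => hz).and (hDo.mem_nhds hpD)))
  set η := min η0 l1 with hηd
  have hη : 0 < η := lt_min hη0 hl1
  have hηl : η ≤ l1 := min_le_right _ _
  have hball := fun z (hz : z ∈ Metric.ball p η) =>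
    hball0 z (Metric.ball_subset_ball (min_le_left _ _) hz)
  obtain ⟨k1, hk1, hmk⟩ := exists_mesh_lt (show 0 < η / 4 by linarith) q.1
  obtain ⟨m, hm0, hmn⟩ := exists_gpt hl hk1.le
  obtain ⟨k, hk⟩ := hν.exists_k
  have up : ∀ s t : ℝ, |s| < 2 * (η / 8) → 0 < t → t < 2 * (η / 8) →
      gpt B.o k1 m + (s + t * Complex.I) * uv k ∈ Metric.ball p η ∩ {z | 0 < nrm ν p z} := by
    intro s t hs ht0 ht
    rw [hk]
    constructor
    · rw [Metric.mem_ball, dist_eq_norm]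
      have := norm_add_le' hν p (gpt B.o k1 m) s t
      rw [abs_of_pos ht0] at this
      linarith
    · rw [Set.mem_ofPred_eq, nrm_add hν, hm0]; linarith
  have dn : ∀ s t : ℝ, |s| < 2 * (η / 8) → 0 ≤ t → t < 2 * (η / 8) →
      gpt B.o k1 m + (s - t * Complex.I) * uv k ∈ cfat B.o q := by
    intro s t hs ht0 ht
    have e : (s : ℂ) - t * Complex.I = s + ((-t : ℝ) : ℂ) * Complex.I := by push_cast; ring
    rw [e, hk]
    have h1 : gpt B.o k1 m + (s + ((-t : ℝ) : ℂ) * Complex.I) * (-Complex.I * ν) ∈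
        Metric.ball p η := by
      rw [Metric.mem_ball, dist_eq_norm]
      have := norm_add_le' hν p (gpt B.o k1 m) s (-t)
      rw [abs_neg, abs_of_nonneg ht0] at this
      linarith
    refine (hball _ h1).1.2.2 ?_
    rw [nrm_add hν, hm0]; linarith
  refine ⟨⟨M, q, hq, k, k1, hk1, m, η / 8, by linarith, ?_, ?_⟩, ν, η, hη,
    show η / 8 ≤ l1 by linarith, hν,
    fun z hz => ⟨(hball z hz).2.1, (hball z hz).2.2⟩, fun z hz => (hball z hz).1.1, up, dn⟩
  · intro s t hs ht0 ht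
    have h1 := up s t (by linarith) ht0 (by linarith)
    refine ⟨(hball _ h1.1).2.2, fun h2 => ?_⟩
    have h3 := (hball _ h1.1).1.1.1 h2
    have h4 : 0 < nrm ν p _ := h1.2
    linarith
  · intro s t hs ht0 ht
    exact dn s t (by linarith) ht0 (by linarith)

end

end Pool.Agent.H5.M7
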