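import Mathlib
import Pool.Agent.H5.M7.Flat
import Pool.Agent.H91.M7.StartD

set_option autoImplicit false
open Set Topology Filter

/-! # The window on a generic ray

`stWin` : there is a window joined to `a` and to `φ (i Y)` off the barrier. -/

namespace Pool.Agent.H5.M7

open Pool.Agent.H81.Q1 (pt DDomain Approx IsJordanDomain IsArcs)
open Pool.Agent.Q1.M3
open Pool.Agent.H82.Q1 (IsChart HH cHH)
open Pool.Agent.H82.Q1.M7 (Sbar uv Win IsEnd)

section chart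

variable {D : Set ℂ} {a b : ℂ} {φ : ℂ → ℂ}

lemma HH_sub : HH ⊆ cHH := fun z hz => le_of_lt (show 0 < z.im from hz)

lemma chart_mem (hφ : IsChart D a b φ) {z : ℂ} (hz : 0 < z.im) : φ z ∈ D :=
  hφ.image ▸ ⟨z, hz, rfl⟩

lemma chart_ne (hφ : IsChart D a b φ) {z : ℂ} (hz : 0 ≤ z.im) : φ z ≠ b :=
  fun h => hφ.ne ⟨z, hz, h⟩

lemma chart_b (hφ : IsChart D a b φ) : b ∉ D := by
  intro h
  rw [← hφ.image] at h
  obtain ⟨z, hz, h1⟩ := h
  exact hφ.ne ⟨z, HH_sub hz, h1⟩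

lemma chart_a (hφ : IsChart D a b φ) : a ∉ D := by
  intro h
  rw [← hφ.image] at h
  obtain ⟨z, hz, h1⟩ := h
  have h2 := hφ.inj (HH_sub hz) (show (0 : ℂ) ∈ cHH by change (0 : ℝ) ≤ (0 : ℂ).im; simp)
    (h1.trans hφ.zero.symm)
  have h3 : 0 < z.im := hz
  rw [h2] at h3
  simp at h3

lemma chart_ab (hφ : IsChart D a b φ) : a ≠ b := by
  intro h
  exact hφ.ne ⟨0, by change (0 : ℝ) ≤ (0 : ℂ).im; simp, hφ.zero.trans h⟩

/-- the ray through `z` -/
lemma cont_ray (hφ : IsChart D a b φ) {z : ℂ} (hz : 0 < z.im) :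
    ContinuousOn (fun t : ℝ => φ (t * z)) (Ici 0) := by
  refine hφ.cont.comp (by fun_prop) ?_
  intro t ht
  change 0 ≤ ((t : ℂ) * z).im
  simp only [Complex.mul_im, Complex.ofReal_re, Complex.ofReal_im, zero_mul, add_zero]
  exact mul_nonneg ht hz.le

lemma ray_im {t : ℝ} {z : ℂ} : ((t : ℂ) * z).im = t * z.im := by simp

lemma chart_cla (hφ : IsChart D a b φ) : a ∈ closure D := by
  have h1 : Tendsto (fun n : ℕ => φ (((1 / ((n : ℝ) + 1) : ℝ) : ℂ) * Complex.I)) atTop (𝓝 a) := by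
    have h2 : ContinuousWithinAt (fun t : ℝ => φ (t * Complex.I)) (Ici 0) 0 :=
      cont_ray hφ (by simp) 0 (by simp)
    have h3 : Tendsto (fun n : ℕ => (1 / ((n : ℝ) + 1) : ℝ)) atTop (𝓝[Ici 0] 0) := by
      rw [tendsto_nhdsWithin_iff]
      exact ⟨tendsto_one_div_add_atTop_nhds_zero_nat, Eventually.of_forall fun n => by
        change (0 : ℝ) ≤ 1 / ((n : ℝ) + 1); positivity⟩
    have h4 := h2.tendsto.comp h3
    have e : φ (((0 : ℝ) : ℂ) * Complex.I) = a := by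
      rw [Complex.ofReal_zero, zero_mul]; exact hφ.zero
    rw [e] at h4
    exact h4
  refine mem_closure_of_tendsto h1 (Eventually.of_forall fun n => chart_mem hφ ?_)
  rw [ray_im, Complex.I_im, mul_one]
  positivity

end chart

section

variable {D : Set ℂ} {a b : ℂ} {A₁ A₂ : Set ℂ} {A : Approx D a b A₁ A₂} {r0 : ℝ} (B : Base A r0)
  {φ : ℂ → ℂ}

/-- The barrier of a base in a Jordan domain. -/
theorem barrB (hJ : IsJordanDomain D) (hφ : IsChart D a b φ) : Barr D (Sbar B) a b :=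
  barr B hJ.1 hJ.2.1.isPreconnected hJ.2.2.1 (chart_ab hφ) (chart_cla hφ) (chart_a hφ)
    (chart_b hφ)

lemma center_fat (o : ℂ) (q : Cell) :
    (⟨o.re + (q.2.1 + 1 / 2) * mesh q.1, o.im + (q.2.2 + 1 / 2) * mesh q.1⟩ : ℂ) ∈ fat o q := by
  have hm := mesh_pos q.1
  refine ⟨?_, ?_, ?_, ?_⟩ <;> simp only <;> nlinarith

/-- a generic direction -/
lemma exists_dir (hφ : IsChart D a b φ) :
    ∃ z : ℂ, 0 < z.im ∧ φ z ∈ Sbar B ∧ ∀ t : ℝ, 0 < t → NoV B.o (φ (t * z)) := by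
  -- a point of the base cell
  have hc : (⟨B.o.re + (B.qb.2.1 + 1 / 2) * mesh B.qb.1,
      B.o.im + (B.qb.2.2 + 1 / 2) * mesh B.qb.1⟩ : ℂ) ∈ fat B.o B.qb :=
    center_fat B.o B.qb
  set c : ℂ := ⟨B.o.re + (B.qb.2.1 + 1 / 2) * mesh B.qb.1,
      B.o.im + (B.qb.2.2 + 1 / 2) * mesh B.qb.1⟩ with hcdef
  have hfS : fat B.o B.qb ⊆ Sbar B := fun z hz =>
    (mem_SS B).2 ⟨0, B.qb, B.qb_mem, Pool.Agent.Q1.M3.fat_sub_cfat _ _ hz⟩
  have hcD : c ∈ D := ((SS_sub B) (hfS hc)).1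
  obtain ⟨z0, hz0, hz0c⟩ : c ∈ φ '' HH := by rw [hφ.image]; exact hcD
  -- a neighbourhood
  have hcont : ContinuousAt φ z0 :=
    (hφ.diff.differentiableAt (Pool.Agent.H91.M7.isOpen_HH.mem_nhds hz0)).continuousAt
  have hnb : ∀ᶠ z in 𝓝 z0, φ z ∈ fat B.o B.qb := by
    apply hcont
    rw [hz0c]
    exact (Pool.Agent.H42.Q1.isOpen_fat _ _).mem_nhds hc
  obtain ⟨s, hs, hball⟩ := Metric.eventually_nhds_iff_ball.1 hnb
  -- the bad directions
  have hz0' : 0 < z0.im := hz0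
  set bad : ℕ × (ℤ × ℤ) → Set ℝ := fun km =>
    {x | ∃ t : ℝ, 0 < t ∧ φ (t * (z0 + x)) = gpt B.o km.1 km.2} with hbad
  have hsub : ∀ km, (bad km).Subsingleton := by
    rintro km x ⟨t, ht, h1⟩ y ⟨u, hu, h2⟩
    have him : ∀ x : ℝ, (z0 + x).im = z0.im := fun x => by simp
    have h3 : (t : ℂ) * (z0 + x) = u * (z0 + y) := by
      refine hφ.inj ?_ ?_ (h1.trans h2.symm)
      · change 0 ≤ ((t : ℂ) * (z0 + x)).im
        rw [ray_im, him]; positivity
      · change 0 ≤ ((u : ℂ) * (z0 + y)).im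
        rw [ray_im, him]; positivity
    have h4 : t = u := by
      have := congrArg Complex.im h3
      rw [ray_im, ray_im, him, him] at this
      exact mul_right_cancel₀ hz0'.ne' this
    rw [h4] at h3
    have h5 : (u : ℂ) ≠ 0 := by exact_mod_cast hu.ne'
    have h6 := mul_left_cancel₀ h5 h3
    have h7 := congrArg Complex.re h6
    simpa using h7
  have hcount : (⋃ km, bad km).Countable := countable_iUnion fun km => (hsub km).countable
  obtain ⟨x, hx, hxb⟩ := (hcount.dense_compl ℝ).exists_mem_open (isOpen_Ioo (a := (0 : ℝ)) (b := s))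
    ⟨s / 2, by constructor <;> linarith⟩
  refine ⟨z0 + x, by simpa using hz0', hfS (hball _ ?_), ?_⟩
  · rw [Metric.mem_ball, dist_eq_norm, add_sub_cancel_left, Complex.norm_real, Real.norm_eq_abs,
      abs_of_pos hxb.1]
    exact hxb.2
  · intro t ht k m h
    exact hx (mem_iUnion.2 ⟨(k, m), t, ht, h⟩)

/-- **First contact** of a generic ray with the barrier. -/
theorem first_contact (hJ : IsJordanDomain D) (hφ : IsChart D a b φ) :
    ∃ (z : ℂ) (c : ℝ), 0 < z.im ∧ 0 < c ∧ NoV B.o (φ (c * z)) ∧ φ (c * z) ∈ Sbar B ∧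
      ∀ t : ℝ, 0 ≤ t → t < c → φ (t * z) ∉ Sbar B := by
  obtain ⟨z, hz, hzS, hgen⟩ := exists_dir B hφ
  have hbar := barrB B hJ hφ
  set Λ : Set ℝ := Icc 0 1 ∩ (fun t : ℝ => φ (t * z)) ⁻¹' (insert b (Sbar B)) with hΛ
  have hcl : IsClosed Λ :=
    ((cont_ray hφ hz).mono Icc_subset_Ici_self).preimage_isClosed_of_isClosed isClosed_Icc
      hbar.comp.isClosed
  have hΛc : IsCompact Λ := isCompact_Icc.of_isClosed_subset hcl inter_subset_left
  have h1 : (1 : ℝ) ∈ Λ := ⟨⟨zero_le_one, le_rfl⟩, Or.inr (by simpa using hzS)⟩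
  obtain ⟨c, hc, hmin⟩ := hΛc.exists_isLeast ⟨1, h1⟩
  have him : ∀ t : ℝ, 0 ≤ t → 0 ≤ ((t : ℂ) * z).im := fun t ht => by
    rw [ray_im]; exact mul_nonneg ht hz.le
  have hcS : φ (c * z) ∈ Sbar B := by
    rcases hc.2 with h | h
    · exact absurd h (chart_ne hφ (him c hc.1.1))
    · exact h
  have hc0 : 0 < c := by
    refine lt_of_le_of_ne hc.1.1 fun h => ?_
    rw [← h, Complex.ofReal_zero, zero_mul, hφ.zero] at hcS
    exact chart_a hφ ((SS_sub B) hcS).1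
  refine ⟨z, c, hz, hc0, hgen c hc0, hcS, fun t ht htc h => ?_⟩
  exact absurd (hmin ⟨⟨ht, (htc.trans_le hc.1.2).le⟩, Or.inr h⟩) (not_le.2 htc)

/-- Points of the ray before the first contact are joined to `a`. -/
lemma ray_D2 (hφ : IsChart D a b φ) {z : ℂ} (hz : 0 < z.im) {c : ℝ}
    (hc : ∀ t : ℝ, 0 ≤ t → t < c → φ (t * z) ∉ Sbar B) {t : ℝ} (ht : 0 < t) (htc : t < c) :
    φ (t * z) ∈ D2 D (Sbar B) a b := by
  refine ⟨chart_mem hφ (by rw [ray_im]; positivity), (fun s : ℝ => φ (s * z)) '' Icc 0 t, ?_, ?_,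
    ⟨t, ⟨ht.le, le_rfl⟩, rfl⟩, ?_⟩
  · exact isPreconnected_Icc.image _ ((cont_ray hφ hz).mono Icc_subset_Ici_self)
  · exact ⟨0, ⟨le_rfl, ht.le⟩, by simp [hφ.zero]⟩
  · rintro _ ⟨s, hs, rfl⟩ (h | h)
    · exact chart_ne hφ (by rw [ray_im]; exact mul_nonneg hs.1 hz.le) h
    · exact hc s hs.1 (hs.2.trans_lt htc) h

/-- The point at height `w.l / 2` above `b''`. -/
noncomputable def wpt {B : Base A r0} (w : Win B) : ℂ := w.p + (w.l / 2 : ℝ) * Complex.I * uv w.k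

/-- the circular arc from `i Y` to the ray -/
lemma arc_facts {z : ℂ} (hz : 0 < z.im) {Y : ℝ} (hY : 0 < Y) :
    ∃ Γ : Set ℂ, IsCompact Γ ∧ IsPreconnected Γ ∧ (Y : ℂ) * Complex.I ∈ Γ ∧
      ((Y / ‖z‖ : ℝ) : ℂ) * z ∈ Γ ∧ ∀ x ∈ Γ, 0 < x.im ∧ ‖x‖ = Y := by
  have hseg : ∀ v ∈ segment ℝ Complex.I z, 0 < v.im := by
    intro v hv
    have hconv : Convex ℝ {v : ℂ | 0 < v.im} := convex_halfSpace_im_gt 0
    exact hconv.segment_subset (by simp) hz hv
  have hne : ∀ v ∈ segment ℝ Complex.I z, ‖v‖ ≠ 0 := by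
    intro v hv h
    have := hseg v hv
    rw [norm_eq_zero] at h
    rw [h] at this
    simp at this
  have hcont : ContinuousOn (fun v : ℂ => ((Y / ‖v‖ : ℝ) : ℂ) * v) (segment ℝ Complex.I z) := by
    refine ContinuousOn.mul ?_ continuousOn_id
    exact Complex.continuous_ofReal.comp_continuousOn
      (continuousOn_const.div continuous_norm.continuousOn hne)
  refine ⟨(fun v : ℂ => ((Y / ‖v‖ : ℝ) : ℂ) * v) '' segment ℝ Complex.I z, ?_, ?_, ?_, ?_, ?_⟩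
  · refine IsCompact.image_of_continuousOn ?_ hcont
    rw [segment_eq_image]
    exact isCompact_Icc.image (by fun_prop)
  · exact (convex_segment _ _).isPreconnected.image _ hcont
  · exact ⟨Complex.I, left_mem_segment _ _ _, by simp⟩
  · exact ⟨z, right_mem_segment _ _ _, rfl⟩
  · rintro _ ⟨v, hv, rfl⟩
    have h1 := hseg v hv
    have h2 : 0 < ‖v‖ := lt_of_le_of_ne (norm_nonneg v) (Ne.symm (hne v hv))
    constructor
    · change 0 < (((Y / ‖v‖ : ℝ) : ℂ) * v).im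
      rw [ray_im]; positivity
    · change ‖((Y / ‖v‖ : ℝ) : ℂ) * v‖ = Y
      rw [norm_mul, Complex.norm_real, Real.norm_eq_abs, abs_of_pos (div_pos hY h2)]
      field_simp

lemma convex_half (ν p : ℂ) : Convex ℝ {z | 0 < nrm ν p z} := by
  have h : {z | 0 < nrm ν p z} = {z : ℂ | (p * (starRingEnd ℂ) ν).re <
      ((Complex.reLm : ℂ →ₗ[ℝ] ℝ) ∘ₗ (LinearMap.mulRight ℝ ((starRingEnd ℂ) ν))) z} := by
    ext z
    simp only [Set.mem_ofPred_eq, nrm, LinearMap.comp_apply, LinearMap.mulRight_apply,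
      Complex.reLm_coe, sub_mul, Complex.sub_re, sub_pos]
  rw [h]
  exact (convex_Ioi _).linear_preimage
    ((Complex.reLm : ℂ →ₗ[ℝ] ℝ) ∘ₗ (LinearMap.mulRight ℝ ((starRingEnd ℂ) ν)))

/-- **[WIN]** -/
theorem exists_window (hJ : IsJordanDomain D) (hφ : IsChart D a b φ) {l1 : ℝ} (hl1 : 0 < l1) :
    ∃ w : Win B, w.l ≤ l1 ∧ IsEnd φ B w ∧ wpt w ∈ D2 D (Sbar B) a b ∧
      (∀ s t : ℝ, |s| < 2 * w.l → 0 < t → t < 2 * w.l →
        gpt B.o w.k1 w.m + (s + t * Complex.I) * uv w.k ∈ D \ Sbar B) ∧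
      (∀ s t : ℝ, |s| < 2 * w.l → 0 ≤ t → t < 2 * w.l →
        gpt B.o w.k1 w.m + (s - t * Complex.I) * uv w.k ∈ cfat B.o w.q) := by
  obtain ⟨z, c, hz, hc0, hNoV, hcS, hfirst⟩ := first_contact B hJ hφ
  have hbar := barrB B hJ hφ
  set p := φ (c * z) with hp
  have hcontc : ContinuousAt (fun t : ℝ => φ (t * z)) c :=
    (cont_ray hφ hz).continuousAt (Ici_mem_nhds hc0)
  have htend : Tendsto (fun t : ℝ => φ (t * z)) (𝓝[<] c) (𝓝 p) :=
    hcontc.tendsto.mono_left nhdsWithin_le_nhds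
  have hev0 : ∀ᶠ t : ℝ in 𝓝[<] c, 0 < t ∧ t < c := by
    filter_upwards [self_mem_nhdsWithin, nhdsWithin_le_nhds (Ioi_mem_nhds hc0)] with t h1 h2
    exact ⟨h2, h1⟩
  have hout : ∃ᶠ x in 𝓝 p, x ∉ Sbar B := by
    refine htend.frequently ?_
    exact (hev0.mono fun t ht => hfirst t ht.1.le ht.2).frequently
  have hpr : p ∈ Metric.ball b r0 := ((SS_sub B) hcS).2
  obtain ⟨w, ν, η, hη, hwl, hν, hballU, hballS, hup, hdn⟩ := exists_win B hJ.1 hbar.hb hNoV hcS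
    hout (Metric.isOpen_ball.mem_nhds hpr) hl1
  set Hd : Set ℂ := Metric.ball p η ∩ {z | 0 < nrm ν p z} with hHd
  have hHconv : Convex ℝ Hd := (convex_ball p η).inter (convex_half ν p)
  have hHsub : Hd ⊆ D \ Sbar B := by
    rintro x ⟨h1, h2⟩
    refine ⟨(hballU h1).2, fun h3 => ?_⟩
    have h4 := (hballS x h1).1 h3
    have h5 : 0 < nrm ν p x := h2
    linarith
  have hHr : Hd ⊆ Metric.ball b r0 := fun x hx => (hballU hx.1).1
  have hw : wpt w ∈ Hd := by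
    have h1 := hup 0 (w.l / 2) (by rw [abs_zero]; linarith [w.l0]) (by linarith [w.l0])
      (by linarith [w.l0])
    have e : wpt w = gpt B.o w.k1 w.m + ((0 : ℝ) + ((w.l / 2 : ℝ) : ℂ) * Complex.I) * uv w.k := by
      unfold wpt Win.p; push_cast; ring
    rw [e]; exact h1
  -- points of the ray close to the contact
  have hray : ∀ t0 < c, ∃ t, t0 < t ∧ 0 < t ∧ t < c ∧ φ (t * z) ∈ Hd := by
    intro t0 ht0
    have h1 : ∀ᶠ t : ℝ in 𝓝[<] c, φ (t * z) ∈ Metric.ball p η :=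
      htend (Metric.ball_mem_nhds p hη)
    have h2 : ∀ᶠ t : ℝ in 𝓝[<] c, t0 < t := nhdsWithin_le_nhds (Ioi_mem_nhds ht0)
    obtain ⟨t, ⟨h3, h4⟩, h5, h6⟩ := (hev0.and (h1.and h2)).exists
    refine ⟨t, h6, h3, h4, h5, ?_⟩
    by_contra h7
    exact hfirst t h3.le h4 ((hballS _ h5).2 (not_lt.1 h7))
  refine ⟨w, hwl, ?_, ?_, fun s t hs ht0 ht => hHsub (hup s t hs ht0 ht), hdn⟩
  · intro r hr Y hY h1 h2
    have hzn : 0 < ‖z‖ := by
      rw [norm_pos_iff]; rintro rfl; simp at hz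
    have hcz : Y < c * ‖z‖ := by
      by_contra h3
      refine h2 (c * z) (by rw [ray_im]; positivity) ?_ hpr
      rw [norm_mul, Complex.norm_real, Real.norm_eq_abs, abs_of_pos hc0]
      exact not_lt.1 h3
    have hYc : Y / ‖z‖ < c := by rw [div_lt_iff₀ hzn]; exact hcz
    obtain ⟨t1, ht1, ht1p, ht1c, ht1H⟩ := hray _ hYc
    have hYz : 0 < Y / ‖z‖ := div_pos hY hzn
    obtain ⟨Γ, hΓ, hΓc, hΓ1, hΓ2, hΓ3⟩ := arc_facts hz hY
    have hΓcH : Γ ⊆ cHH := fun x hx => le_of_lt (hΓ3 x hx).1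
    have hcI : ContinuousOn (fun t : ℝ => φ (t * z)) (Icc (Y / ‖z‖) t1) :=
      (cont_ray hφ hz).mono fun t ht => hYz.le.trans ht.1
    have hseg : segment ℝ (φ (t1 * z)) (wpt w) ⊆ Hd := hHconv.segment_subset ht1H hw
    refine ⟨φ '' Γ ∪ (fun t : ℝ => φ (t * z)) '' Icc (Y / ‖z‖) t1 ∪
      segment ℝ (φ (t1 * z)) (wpt w), ?_, ?_, ?_, ?_, ?_⟩
    · refine ((hΓ.image_of_continuousOn (hφ.cont.mono hΓcH)).union
        (isCompact_Icc.image_of_continuousOn hcI)).union ?_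
      rw [segment_eq_image]
      exact isCompact_Icc.image (by fun_prop)
    · refine IsPreconnected.union (φ (t1 * z)) (Or.inr ⟨t1, ⟨ht1.le, le_rfl⟩, rfl⟩)
        (left_mem_segment _ _ _) ?_ (convex_segment _ _).isPreconnected
      refine IsPreconnected.union (φ (((Y / ‖z‖ : ℝ) : ℂ) * z)) ⟨_, hΓ2, rfl⟩
        ⟨Y / ‖z‖, ⟨le_rfl, ht1.le⟩, rfl⟩ ?_ ?_
      · exact hΓc.image _ (hφ.cont.mono hΓcH)
      · exact isPreconnected_Icc.image _ hcI
    · rintro x ((⟨v, hv, rfl⟩ | ⟨t, ht, rfl⟩) | hx)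
      · obtain ⟨g1, g2⟩ := hΓ3 v hv
        refine ⟨⟨chart_mem hφ g1, fun h3 => h2 v g1 g2.le ((SS_sub B) h3).2⟩, h1 v g1 g2.ge⟩
      · have htp : 0 < t := hYz.trans_le ht.1
        have him : 0 < ((t : ℂ) * z).im := by rw [ray_im]; positivity
        refine ⟨⟨chart_mem hφ him, hfirst t htp.le (ht.2.trans_lt ht1c)⟩, h1 _ him ?_⟩
        rw [norm_mul, Complex.norm_real, Real.norm_eq_abs, abs_of_pos htp]
        rw [← div_le_iff₀ hzn]
        exact ht.1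
      · have h3 := hseg hx
        refine ⟨hHsub h3, ?_⟩
        have h4 : x ∈ φ '' HH := by rw [hφ.image]; exact (hHsub h3).1
        obtain ⟨v, hv, rfl⟩ := h4
        refine h1 v hv ?_
        by_contra h5
        exact h2 v hv (not_le.1 h5).le (hHr h3)
    · exact Or.inl (Or.inl ⟨_, hΓ1, rfl⟩)
    · exact Or.inr (right_mem_segment _ _ _)
  · obtain ⟨t1, -, ht1p, ht1c, ht1H⟩ := hray 0 hc0
    exact D2_of_jn hbar (ray_D2 B hφ hz hfirst ht1p ht1c)
      (Jn.of_preconnected hHconv.isPreconnected hHsub ht1H hw)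

end

end Pool.Agent.H5.M7
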