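import Mathlib
import Pool.Agent.H5.M7.BaseS

set_option autoImplicit false
open Set Topology Filter

/-! # Paths from a visible cell to the window

`core o m q` : points of the fat cell `q` at distance `m` from its boundary.
`core_path` : a point of a coarse cell joined by free cells to the base cell is joined to the window by
a set which stays in the cores of free cells, or close to the barrier. -/

namespace Pool.Agent.H5.M7

open Pool.Agent.Q1.M3

/-- Points at distance `m` from the boundary of the fat cell (a closed rectangle). -/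
def core (o : ℂ) (m : ℝ) (q : Cell) : Set ℂ :=
  {z | o.re + (q.2.1 - 1 / 3) * mesh q.1 + m ≤ z.re ∧ z.re ≤ o.re + (q.2.1 + 4 / 3) * mesh q.1 - m ∧
    o.im + (q.2.2 - 1 / 3) * mesh q.1 + m ≤ z.im ∧ z.im ≤ o.im + (q.2.2 + 4 / 3) * mesh q.1 - m}

lemma abs_re_lt {z w : ℂ} {r : ℝ} (h : dist z w < r) : |z.re - w.re| < r := by
  rw [Complex.dist_eq] at h
  calc |z.re - w.re| = |(z - w).re| := by rw [Complex.sub_re]
    _ ≤ ‖z - w‖ := Complex.abs_re_le_norm _
    _ < r := h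

lemma abs_im_lt {z w : ℂ} {r : ℝ} (h : dist z w < r) : |z.im - w.im| < r := by
  rw [Complex.dist_eq] at h
  calc |z.im - w.im| = |(z - w).im| := by rw [Complex.sub_im]
    _ ≤ ‖z - w‖ := Complex.abs_im_le_norm _
    _ < r := h

lemma core_ball {o : ℂ} {m : ℝ} {q : Cell} {z : ℂ} (h : z ∈ core o m q) :
    Metric.ball z m ⊆ fat o q := by
  intro w hw
  have h1 := abs_lt.1 (abs_re_lt (Metric.mem_ball.1 hw))
  have h2 := abs_lt.1 (abs_im_lt (Metric.mem_ball.1 hw))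
  obtain ⟨h3, h4, h5, h6⟩ := h
  refine ⟨?_, ?_, ?_, ?_⟩ <;> linarith [h1.1, h1.2, h2.1, h2.2]

lemma convex_core (o : ℂ) (m : ℝ) (q : Cell) : Convex ℝ (core o m q) := by
  have h : core o m q = Complex.re ⁻¹' Set.Icc (o.re + (q.2.1 - 1 / 3) * mesh q.1 + m)
      (o.re + (q.2.1 + 4 / 3) * mesh q.1 - m) ∩ Complex.im ⁻¹' Set.Icc
      (o.im + (q.2.2 - 1 / 3) * mesh q.1 + m) (o.im + (q.2.2 + 4 / 3) * mesh q.1 - m) := by
    ext z
    simp only [core, Set.mem_ofPred_eq, Set.mem_inter_iff, Set.mem_preimage, Set.mem_Icc]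
    tauto
  rw [h]
  exact ((convex_Icc _ _).linear_preimage Complex.reLm).inter
    ((convex_Icc _ _).linear_preimage Complex.imLm)

/-- One coordinate, same level. -/
lemma adj_coord {μ x o : ℝ} (hμ : 0 < μ) {i j : ℤ} (h1 : o + (i - 1 / 3) * μ < x)
    (h2 : x < o + (i + 4 / 3) * μ) (h3 : o + (j - 1 / 3) * μ < x) (h4 : x < o + (j + 4 / 3) * μ) :
    (i : ℝ) ≤ j + 1 ∧ (j : ℝ) ≤ i + 1 := by
  have h5 : ((i : ℝ) - 1 / 3) * μ < (j + 4 / 3) * μ := by linarith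
  have h6 : ((j : ℝ) - 1 / 3) * μ < (i + 4 / 3) * μ := by linarith
  have h7 := lt_of_mul_lt_mul_right h5 hμ.le
  have h8 := lt_of_mul_lt_mul_right h6 hμ.le
  have h9 : (i : ℝ) < ((j + 2 : ℤ) : ℝ) := by push_cast; linarith
  have h10 : (j : ℝ) < ((i + 2 : ℤ) : ℝ) := by push_cast; linarith
  have h11 : i < j + 2 := by exact_mod_cast h9
  have h12 : j < i + 2 := by exact_mod_cast h10
  constructor
  · exact_mod_cast (by omega : i ≤ j + 1)
  · exact_mod_cast (by omega : j ≤ i + 1)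

/-- cores of adjacent cells of the same level intersect -/
lemma core_inter {o : ℂ} {m : ℝ} {q q' : Cell} (hm : m ≤ mesh q.1 / 6) (hl : q'.1 = q.1)
    (h : AdjC o q q') : (core o m q ∩ core o m q').Nonempty := by
  obtain ⟨x, ⟨h1, h2, h3, h4⟩, g1, g2, g3, g4⟩ := h
  have hμ := mesh_pos q.1
  rw [hl] at g1 g2 g3 g4
  obtain ⟨e1, e2⟩ := adj_coord hμ h1 h2 g1 g2
  obtain ⟨e3, e4⟩ := adj_coord hμ h3 h4 g3 g4
  refine ⟨⟨o.re + ((q.2.1 + q'.2.1 + 1) / 2) * mesh q.1,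
    o.im + ((q.2.2 + q'.2.2 + 1) / 2) * mesh q.1⟩, ⟨?_, ?_, ?_, ?_⟩, ?_, ?_, ?_, ?_⟩ <;>
    simp only [hl] <;> nlinarith

/-- One coordinate, coarse cell. -/
lemma base_coord {μ x o : ℝ} (hμ : 0 < μ) {i I : ℤ} {n : ℕ} (h1 : o + (i - 1 / 3) * μ < x)
    (h2 : x < o + (i + 4 / 3) * μ) (h3 : o + (I - 1 / 3) * (3 ^ n * μ) < x)
    (h4 : x < o + (I + 4 / 3) * (3 ^ n * μ)) :
    ∃ y, o + (i - 1 / 3) * μ + μ / 6 ≤ y ∧ y ≤ o + (i + 4 / 3) * μ - μ / 6 ∧
      o + (I - 1 / 3) * (3 ^ n * μ) < y ∧ y < o + (I + 4 / 3) * (3 ^ n * μ) := by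
  set a : ℤ := 3 * i - 1 with ha
  set b : ℤ := 3 * i + 4 with hb
  set c : ℤ := (3 * I - 1) * 3 ^ n with hc
  set d : ℤ := (3 * I + 4) * 3 ^ n with hd
  set ν := μ / 3 with hν
  have hν0 : 0 < ν := by positivity
  have ea : o + (i - 1 / 3) * μ = o + a * ν := by rw [ha, hν]; push_cast; ring
  have eb : o + (i + 4 / 3) * μ = o + b * ν := by rw [hb, hν]; push_cast; ring
  have ec : o + (I - 1 / 3) * (3 ^ n * μ) = o + c * ν := by rw [hc, hν]; push_cast; ring
  have ed : o + (I + 4 / 3) * (3 ^ n * μ) = o + d * ν := by rw [hd, hν]; push_cast; ring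
  rw [ea] at h1
  rw [eb] at h2
  rw [ec] at h3
  rw [ed] at h4
  have k1 : (a : ℝ) < b := lt_of_mul_lt_mul_right (by linarith : (a : ℝ) * ν < b * ν) hν0.le
  have k2 : (a : ℝ) < d := lt_of_mul_lt_mul_right (by linarith : (a : ℝ) * ν < d * ν) hν0.le
  have k3 : (c : ℝ) < b := lt_of_mul_lt_mul_right (by linarith : (c : ℝ) * ν < b * ν) hν0.le
  have k4 : (c : ℝ) < d := lt_of_mul_lt_mul_right (by linarith : (c : ℝ) * ν < d * ν) hν0.le
  have k1' : a + 1 ≤ b := by exact_mod_cast k1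
  have k2' : a + 1 ≤ d := by exact_mod_cast k2
  have k3' : c + 1 ≤ b := by exact_mod_cast k3
  have k4' : c + 1 ≤ d := by exact_mod_cast k4
  set N := max a c with hN
  have l1 : (a : ℝ) ≤ N := by exact_mod_cast le_max_left a c
  have l2 : (c : ℝ) ≤ N := by exact_mod_cast le_max_right a c
  have l3 : (N : ℝ) + 1 ≤ b := by exact_mod_cast (by omega : N + 1 ≤ b)
  have l4 : (N : ℝ) + 1 ≤ d := by exact_mod_cast (by omega : N + 1 ≤ d)
  refine ⟨o + (N + 1 / 2) * ν, ?_, ?_, ?_, ?_⟩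
  · rw [ea]; nlinarith
  · rw [eb]; nlinarith
  · rw [ec]; nlinarith
  · rw [ed]; nlinarith

/-- the core of a cell adjacent to the coarse cell `b` meets it -/
lemma core_base {o : ℂ} {m : ℝ} {q b : Cell} (hm : m ≤ mesh q.1 / 6) (hl : b.1 ≤ q.1)
    (h : AdjC o q b) : (core o m q ∩ fat o b).Nonempty := by
  obtain ⟨x, ⟨h1, h2, h3, h4⟩, g1, g2, g3, g4⟩ := h
  have hμ := mesh_pos q.1
  have e : mesh b.1 = 3 ^ (q.1 - b.1) * mesh q.1 := by
    have h5 := mesh_le hl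
    have h6 : mesh (q.1 + 1) = mesh q.1 / 3 := by unfold mesh; rw [pow_succ]; ring
    rw [h5, h6]; ring
  rw [e] at g1 g2 g3 g4
  obtain ⟨y, a1, a2, a3, a4⟩ := base_coord hμ h1 h2 g1 g2
  obtain ⟨y', b1, b2, b3, b4⟩ := base_coord hμ h3 h4 g3 g4
  refine ⟨⟨y, y'⟩, ⟨?_, ?_, ?_, ?_⟩, ?_, ?_, ?_, ?_⟩ <;> simp only [e] <;> linarith

/-- The cores of the cells with property `P` of level `k`. -/
def Reg (o : ℂ) (m : ℝ) (P : Cell → Prop) (k : ℕ) : Set ℂ :=
  {z | ∃ q, P q ∧ q.1 = k ∧ z ∈ core o m q}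

/-- **Chains of cells.** -/
theorem chain_path {o : ℂ} {m : ℝ} {P : Cell → Prop} {b q0 : Cell} {k : ℕ}
    (hm : m ≤ mesh k / 6) (hb : b.1 ≤ k) (hc : ConnC o P b k q0) :
    ∀ x ∈ core o m q0, ∃ y ∈ fat o b, JoinedIn (Reg o m P k) x y := by
  refine ConnC.induct (P := fun q => ∀ x ∈ core o m q, ∃ y ∈ fat o b,
    JoinedIn (Reg o m P k) x y) ?_ ?_ hc
  · intro q hq hP ha x hx
    obtain ⟨y, hy, hyb⟩ := core_base (m := m) (by rw [hq]; exact hm) (by rw [hq]; exact hb) ha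
    exact ⟨y, hyb, ((convex_core o m q).isPathConnected ⟨x, hx⟩).joinedIn x hx y hy |>.mono
      fun z hz => ⟨q, hP, hq, hz⟩⟩
  · intro q q' hq hP ha hc' ih x hx
    obtain ⟨y, hy, hy'⟩ := core_inter (m := m) (by rw [hq]; exact hm)
      (by rw [hq]; exact hc'.head.1) ha
    obtain ⟨z, hz, hz'⟩ := ih y hy'
    have h1 : JoinedIn (Reg o m P k) x y :=
      (((convex_core o m q).isPathConnected ⟨x, hx⟩).joinedIn x hx y hy).mono
        fun z hz => ⟨q, hP, hq, hz⟩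
    exact ⟨z, hz, h1.trans hz'⟩

/-- **First time.** -/
theorem first_time {T : Set ℂ} {x y : ℂ} (h : JoinedIn T x y) {f : ℂ → ℝ} (hf : ContinuousOn f T)
    {c : ℝ} (hx : c ≤ f x) (hy : f y ≤ c) :
    ∃ z T', IsPreconnected T' ∧ T' ⊆ T ∧ (∀ w ∈ T', c ≤ f w) ∧ x ∈ T' ∧ z ∈ T' ∧ f z = c := by
  obtain ⟨γ, hγ⟩ := h
  set g : unitInterval → ℝ := fun t => f (γ t) with hg
  have hgc : Continuous g := hf.comp_continuous γ.continuous hγ
  set F : Set unitInterval := {t | g t ≤ c} with hF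
  have hFc : IsClosed F := isClosed_le hgc continuous_const
  have hFn : F.Nonempty := ⟨1, by change f (γ 1) ≤ c; rw [γ.target]; exact hy⟩
  obtain ⟨t0, ht0, hmin⟩ := hFc.isCompact.exists_isLeast hFn
  have hlt : ∀ t < t0, c < g t := fun t ht => by
    by_contra hcon
    exact absurd (hmin (show t ∈ F from not_lt.1 hcon)) (not_le.2 ht)
  have hge : c ≤ g t0 := by
    by_cases h0 : t0 = 0
    · rw [h0]; change c ≤ f (γ 0); rw [γ.source]; exact hx
    · have hpos : 0 < t0 := lt_of_le_of_ne t0.2.1 (fun h => h0 (Subtype.ext (congrArg Subtype.val h).symm))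
      have hcl : t0 ∈ closure (Set.Iio t0) := by
        have : (𝓝[<] t0).NeBot := nhdsLT_neBot_of_exists_lt ⟨0, hpos⟩
        exact mem_closure_iff_nhdsWithin_neBot.2 this
      have hsub : Set.Iio t0 ⊆ {t | c ≤ g t} := fun t ht => (hlt t ht).le
      exact (isClosed_le continuous_const hgc).closure_subset_iff.2 hsub hcl
  refine ⟨γ t0, γ '' Set.Icc 0 t0, ?_, ?_, ?_, ?_, ?_, ?_⟩
  · exact (isPreconnected_Icc).image _ γ.continuous.continuousOn
  · rintro _ ⟨t, -, rfl⟩; exact hγ t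
  · rintro _ ⟨t, ht, rfl⟩
    rcases lt_or_eq_of_le ht.2 with h1 | h1
    · exact (hlt t h1).le
    · rw [h1]; exact hge
  · exact ⟨0, ⟨le_rfl, t0.2.1⟩, γ.source⟩
  · exact ⟨t0, ⟨t0.2.1, le_rfl⟩, rfl⟩
  · exact le_antisymm ht0 hge

/-! ### The core lemma -/

section

variable {D S : Set ℂ} {a b : ℂ}

lemma isClosed_inner (D : Set ℂ) (m : ℝ) : IsClosed {z : ℂ | Metric.ball z m ⊆ D} := by
  have h : {z : ℂ | Metric.ball z m ⊆ D} = ⋂ w ∈ Dᶜ, {z | m ≤ dist w z} := by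
    ext z
    simp only [Set.mem_ofPred_eq, mem_iInter]
    constructor
    · intro h1 w hw
      by_contra h2
      exact hw (h1 (Metric.mem_ball.2 (not_le.1 h2)))
    · intro h1 w hw
      by_contra h2
      exact absurd (Metric.mem_ball.1 hw) (not_lt.2 (h1 w h2))
  rw [h]
  exact isClosed_biInter fun w _ => isClosed_le continuous_const (continuous_const.dist continuous_id)

/-- The set of the points from which one continues in the corridor. -/
lemma compact_start (h : Barr D S a b) {m ρ' : ℝ} (hm : 0 < m) (hρ : 0 < ρ') :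
    IsCompact (({z : ℂ | Metric.ball z m ⊆ D} ∩ {z | Metric.infDist z S = ρ'}) ∩ D2 D S a b) := by
  have hF : IsClosed ({z : ℂ | Metric.ball z m ⊆ D} ∩ {z | Metric.infDist z S = ρ'}) :=
    (isClosed_inner D m).inter
      (isClosed_eq (Metric.continuous_infDist_pt S) continuous_const)
  have hFD : ({z : ℂ | Metric.ball z m ⊆ D} ∩ {z | Metric.infDist z S = ρ'}) ⊆ D \ S := by
    rintro z ⟨h1, h2⟩
    refine ⟨h1 (Metric.mem_ball_self hm), fun h3 => ?_⟩
    rw [Set.mem_ofPred_eq, Metric.infDist_zero_of_mem h3] at h2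
    exact absurd h2 hρ.ne
  exact Metric.isCompact_of_isClosed_isBounded (D2_isClosed_inter h hF hFD)
    (h.bdD.subset (inter_subset_right.trans D2_sub_D))

/-- **Core lemma.** -/
theorem core_path (h : Barr D S a b) {o : ℂ} {qb : Cell} {k0 : ℕ} (hqb : fat o qb ⊆ S)
    (hk : qb.1 ≤ k0) {ρ m : ℝ} (hρ : 0 < ρ) (hm0 : 0 < m) (hm : m ≤ mesh k0 / 6) {xw : ℂ}
    (hxw : xw ∈ D2 D S a b)
    (hxs : ∃ s ∈ S, Jn (D ∩ {x | Metric.infDist x S < ρ}) xw s) :
    ∃ ε > 0, ∀ P : Cell → Prop, (∀ q, P q → cfat o q ⊆ D) → ∀ q0, ConnC o P qb k0 q0 →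
      ∀ x ∈ core o m q0, x ∈ D2 D S a b → ρ ≤ Metric.infDist x S →
        ∃ T : Set ℂ, IsPreconnected T ∧ x ∈ T ∧ xw ∈ T ∧ ∀ z ∈ T, Metric.ball z ε ⊆ D \ S ∧
          z ∈ D2 D S a b ∧
          ((∃ q, P q ∧ q.1 = k0 ∧ z ∈ core o m q) ∨ Metric.infDist z S < ρ) := by
  set ρ' := min m ρ / 2 with hρ'
  have hmin : 0 < min m ρ := lt_min hm0 hρ
  have hρ'0 : 0 < ρ' := by rw [hρ']; linarith
  have hρm : ρ' < m := by rw [hρ']; linarith [min_le_left m ρ]
  have hρρ : ρ' < ρ := by rw [hρ']; linarith [min_le_right m ρ]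
  set Z : Set ℂ := ({z : ℂ | Metric.ball z m ⊆ D} ∩ {z | Metric.infDist z S = ρ'}) ∩ D2 D S a b
    with hZ
  have hZc : IsCompact (insert xw Z) := (compact_start h hm0 hρ'0).insert xw
  obtain ⟨K', hK', hKc, hZK, hK'D⟩ := corridor_set h hρ hZc
    (insert_subset hxw inter_subset_right) (by
      rintro z (rfl | hz)
      · exact hxs
      · refine jn_seg (ρ' := min m ρ) h.ne ((Metric.ball_subset_ball (min_le_left _ _)).trans
          hz.1.1) ?_ (min_le_right _ _)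
        have h1 : Metric.infDist z S = ρ' := hz.1.2
        rw [h1, hρ']; linarith)
  obtain ⟨ε1, hε1, hth⟩ := hK'.exists_thickening_subset_open h.isOpen_diff
    (hK'D.trans (inter_subset_left.trans (D2_sub h)))
  refine ⟨min ρ' ε1, lt_min hρ'0 hε1, fun P hP q0 hc x hx hxD hxρ => ?_⟩
  obtain ⟨y, hy, hj⟩ := chain_path hm hk hc x hx
  obtain ⟨z, T', hT', hTR, hTf, hxT, hzT, hzf⟩ := first_time hj
    (f := fun z => Metric.infDist z S) (Metric.continuous_infDist_pt S).continuousOn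
    (c := ρ') (hρρ.le.trans hxρ) (by
      rw [Metric.infDist_zero_of_mem (hqb hy)]; exact hρ'0.le)
  have hball : ∀ w ∈ T', Metric.ball w ρ' ⊆ D \ S := by
    intro w hw v hv
    obtain ⟨q, hq, -, hwq⟩ := hTR hw
    refine ⟨hP q hq (fat_sub_cfat o q (core_ball hwq (Metric.ball_subset_ball hρm.le hv))), ?_⟩
    intro hvS
    have h1 := Metric.infDist_le_dist_of_mem (x := w) hvS
    have h2 := hTf w hw
    rw [dist_comm] at h1
    exact absurd (Metric.mem_ball.1 hv) (not_lt.2 (h2.trans h1))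
  have hTDS : T' ⊆ D \ S := fun w hw => hball w hw (Metric.mem_ball_self hρ'0)
  have hTD : ∀ w ∈ T', w ∈ D2 D S a b := fun w hw =>
    D2_of_jn h hxD (Jn.of_preconnected hT' hTDS hxT hw)
  have hzZ : z ∈ K' := by
    refine hZK (Or.inr ⟨⟨?_, hzf⟩, hTD z hzT⟩)
    obtain ⟨q, hq, -, hwq⟩ := hTR hzT
    exact (core_ball hwq).trans ((fat_sub_cfat o q).trans (hP q hq))
  refine ⟨T' ∪ K', hT'.union z hzT hzZ hKc, Or.inl hxT, Or.inr (hZK (mem_insert xw Z)), ?_⟩
  rintro w (hw | hw)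
  · refine ⟨(Metric.ball_subset_ball (min_le_left _ _)).trans (hball w hw), hTD w hw, Or.inl ?_⟩
    obtain ⟨q, hq, hql, hwq⟩ := hTR hw
    exact ⟨q, hq, hql, hwq⟩
  · refine ⟨?_, (hK'D hw).1, Or.inr (hK'D hw).2⟩
    refine Subset.trans ?_ hth
    intro v hv
    rw [Metric.mem_thickening_iff]
    exact ⟨w, hw, (Metric.mem_ball.1 hv).trans_le (min_le_right _ _)⟩

end

end Pool.Agent.H5.M7
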