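import Mathlib
import Pool.Agent.H5.M7.Flat

set_option autoImplicit false
open Finset Filter Topology

/-! # Parameters of the polygons near `b`

`stPar` : small boxes around `b` which meet a cell of the barrier. -/

namespace Pool.Agent.H5.M7

open Pool.Agent.H75.Perc Pool.Agent.H75.TwoArm Pool.Agent.H75.Four Pool.Agent.H69.Q1
open Pool.Agent.H81.Q1 (pt DDomain Approx IsJordanDomain IsArcs)
open Pool.Agent.Q1.M3
open Pool.Agent.H82.Q1.M7 (Sbar uv Win IsEnd Par StPar)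

/-- the ends of a step in `kap N` -/
lemma ad_kap {N L : Finset (ℤ × ℤ)} {u v : ℤ × ℤ} (h : Ad (kap N ∩ L) u v) : u ∈ N ∧ v ∈ N := by
  obtain ⟨h1, h2⟩ := h
  have h3 := (mem_inter.1 h2).1
  have h4 : u + v ∈ star N := (mem_filter.1 h3).1
  obtain ⟨h5, h6⟩ := (mem_kap_iff (odd_star h4)).1 h3
  obtain ⟨u1, u2⟩ := u
  obtain ⟨v1, v2⟩ := v
  unfold eu at h5
  unfold ev at h6
  simp only [IsUnit4, Prod.mk_sub_mk, Prod.mk.injEq] at h1
  simp only [Prod.mk_add_mk] at h5 h6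
  rcases h1 with ⟨e1, e2⟩ | ⟨e1, e2⟩ | ⟨e1, e2⟩ | ⟨e1, e2⟩
  · have a1 : (u1 + v1) / 2 = u1 := by omega
    have a2 : (u2 + v2) / 2 = u2 := by omega
    have a3 : (u1 + v1 + 1) / 2 = v1 := by omega
    have a4 : (u2 + v2 + 1) / 2 = v2 := by omega
    rw [a1, a2] at h5; rw [a3, a4] at h6; exact ⟨h5, h6⟩
  · have a1 : (u1 + v1) / 2 = u1 := by omega
    have a2 : (u2 + v2) / 2 = u2 := by omega
    have a3 : (u1 + v1 + 1) / 2 = v1 := by omega
    have a4 : (u2 + v2 + 1) / 2 = v2 := by omega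
    rw [a1, a2] at h5; rw [a3, a4] at h6; exact ⟨h5, h6⟩
  · have a1 : (u1 + v1) / 2 = v1 := by omega
    have a2 : (u2 + v2) / 2 = v2 := by omega
    have a3 : (u1 + v1 + 1) / 2 = u1 := by omega
    have a4 : (u2 + v2 + 1) / 2 = u2 := by omega
    rw [a1, a2] at h5; rw [a3, a4] at h6; exact ⟨h6, h5⟩
  · have a1 : (u1 + v1) / 2 = v1 := by omega
    have a2 : (u2 + v2) / 2 = v2 := by omega
    have a3 : (u1 + v1 + 1) / 2 = u1 := by omega
    have a4 : (u2 + v2 + 1) / 2 = u2 := by omega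
    rw [a1, a2] at h5; rw [a3, a4] at h6; exact ⟨h6, h5⟩

/-- the points of neighbours are at distance `δ` -/
lemma dist_unit {δ : ℝ} (hδ : 0 < δ) {u v : ℤ × ℤ} (h : IsUnit4 (v - u)) :
    dist (pt δ u) (pt δ v) ≤ δ := by
  obtain ⟨u1, u2⟩ := u
  obtain ⟨v1, v2⟩ := v
  simp only [IsUnit4, Prod.mk_sub_mk, Prod.mk.injEq] at h
  rw [Complex.dist_eq]
  refine (Complex.norm_le_abs_re_add_abs_im _).trans ?_
  simp only [Complex.sub_re, Complex.sub_im, pt]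
  have key : ∀ (x y : ℤ), |δ * (x : ℝ) - δ * (y : ℝ)| = δ * |((y - x : ℤ) : ℝ)| := by
    intro x y
    rw [← mul_sub, abs_mul, abs_of_pos hδ, abs_sub_comm]; push_cast; rfl
  rw [key, key]
  rcases h with ⟨e1, e2⟩ | ⟨e1, e2⟩ | ⟨e1, e2⟩ | ⟨e1, e2⟩ <;> rw [e1, e2] <;> simp

/-- discrete intermediate value -/
lemma exists_step {R : ℤ × ℤ → ℤ × ℤ → Prop} {P : ℤ × ℤ → Prop} {u v : ℤ × ℤ}
    (h : Relation.ReflTransGen R u v) (hu : P u) (hv : ¬ P v) :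
    ∃ x y, R x y ∧ P x ∧ ¬ P y := by
  induction h with
  | refl => exact absurd hu hv
  | @tail y z h1 h2 ih =>
    by_cases hy : P y
    · exact ⟨y, z, h2, hy, hv⟩
    · exact ih hy

lemma center_fat' (o : ℂ) (q : Cell) :
    (⟨o.re + (q.2.1 + 1 / 2) * mesh q.1, o.im + (q.2.2 + 1 / 2) * mesh q.1⟩ : ℂ) ∈ fat o q := by
  have hm := mesh_pos q.1
  refine ⟨?_, ?_, ?_, ?_⟩ <;> simp only <;> nlinarith

section

variable {D : Set ℂ} {a b : ℂ} {A₁ A₂ : Set ℂ} {A : Approx D a b A₁ A₂} {r0 : ℝ} (B : Base A r0)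

lemma vx_beta (n : ℕ) : vx (X0 A n).β = (A.X n).β.1 := by
  change vx (A.X n).toDEnv.β = _
  rw [Pool.Agent.H81.Q1.toDEnv_β, vx_cor]

/-- the barrier comes close to `b` -/
lemma near_b {s d : ℝ} (hdq : ∀ z ∈ cfat B.o B.qb, d ≤ dist z b) (M : ℕ)
    (hM : B.r M < s) (hM' : B.r M < d) :
    ∃ z, z ∈ Metric.ball b s ∧ ∃ q ∈ B.Q M, z ∈ fat B.o q := by
  have hc := center_fat' B.o B.qb
  set c : ℂ := ⟨B.o.re + (B.qb.2.1 + 1 / 2) * mesh B.qb.1,
      B.o.im + (B.qb.2.2 + 1 / 2) * mesh B.qb.1⟩ with hcdef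
  obtain ⟨t, ht, hball⟩ := Metric.isOpen_iff.1 (Pool.Agent.H42.Q1.isOpen_fat B.o B.qb) c hc
  have e1 : ∀ᶠ n in atTop, A.δ n < s - B.r M := A.lim.eventually_lt_const (by linarith)
  have e2 : ∀ᶠ n in atTop, A.δ n < t / 3 := A.lim.eventually_lt_const (by linarith)
  have e3 := Metric.tendsto_nhds.1 A.limβ (B.r M) (B.rpos M)
  obtain ⟨n, h1, h2, h3, ⟨N', h4, h5⟩, h6, h7⟩ :=
    (e1.and (e2.and (e3.and ((B.hN M).and (B.conn.and B.beta))))).exists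
  obtain ⟨u0, hu0⟩ := Pool.Agent.H42.MJ.exists_pt (A.pos n) c
  have hu0f : pt (A.δ n) u0 ∈ fat B.o B.qb := hball (by
    rw [Metric.mem_ball, dist_eq_norm]; linarith)
  have hqM : B.qb ∈ B.Q M := Q_mono B (Nat.zero_le M) B.qb_mem
  have hu0N : u0 ∈ B.N n := by
    rw [h4]
    exact mem_union_left _ (mem_Vn.2 ⟨_, hqM, (mem_verts (A.pos n)).2 hu0f⟩)
  obtain ⟨x, y, hxy, hx, hy⟩ := exists_step (h6 u0 hu0N _ h7)
    (P := fun v => B.r M ≤ dist (pt (A.δ n) v) b)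
    (hM'.le.trans (hdq _ (fat_sub_cfat _ _ hu0f))) (by
      rw [vx_beta]; exact not_le.2 h3)
  have hxN := (ad_kap hxy).1
  have hdist := dist_unit (A.pos n) hxy.1
  have htri := dist_triangle (pt (A.δ n) x) (pt (A.δ n) y) b
  rw [not_le] at hy
  refine ⟨pt (A.δ n) x, Metric.mem_ball.2 (by linarith), ?_⟩
  rw [h4, mem_union] at hxN
  rcases hxN with h8 | h8
  · obtain ⟨q, hq, h9⟩ := mem_Vn.1 h8
    exact ⟨q, hq, (mem_verts (A.pos n)).1 h9⟩
  · exact absurd (Metric.mem_ball.1 (h5 x h8)) (not_lt.2 hx)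

/-- **[PAR]** -/
theorem stPar (hb : b ∉ D) : StPar B := by
  intro r hr M0
  obtain ⟨d, hd, hdq⟩ := exists_dist (D := D) (o := B.o) {B.qb} (fun q hq => by
    rw [Finset.mem_singleton] at hq; rw [hq]
    exact (B.subQ 0 B.qb B.qb_mem).trans Set.inter_subset_left) hb
  obtain ⟨k1, -, hk1⟩ := exists_mesh_lt (show 0 < r / 5 by linarith) 0
  obtain ⟨BB, hBB, hbB⟩ := Pool.Agent.H42.Q1.exists_fat B.o b (k1 + 1)
  obtain ⟨s, hs, hball⟩ := Metric.isOpen_iff.1 (Pool.Agent.H42.Q1.isOpen_fat B.o BB) b hbB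
  obtain ⟨M, hM1, hM2⟩ := ((eventually_ge_atTop M0).and
    (B.rlim.eventually_lt_const (lt_min hs hd))).exists
  obtain ⟨z, hz, hzq⟩ := near_b B (fun z hz => hdq B.qb (Finset.mem_singleton_self _) z hz) M
    (hM2.trans_le (min_le_left _ _)) (hM2.trans_le (min_le_right _ _))
  refine ⟨⟨M, BB, z, ⟨hball hz, hzq⟩, ?_⟩, ?_, hM1⟩
  · exact (Metric.ball_subset_ball (hM2.le.trans (min_le_left _ _))).trans hball
  · intro w hw
    have h1 := Pool.Agent.H42.Q1.dist_cfat hw (fat_sub_cfat _ _ hbB)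
    rw [hBB] at h1
    rw [Metric.mem_ball]
    linarith

end

end Pool.Agent.H5.M7
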