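import Mathlib
import Pool.Agent.H5.M7.Param
import Pool.Agent.H5.M7.Ray
import Pool.Agent.H5.M7.Core
import Pool.Agent.Q1.M3.FreeEv
import Pool.Agent.Q1.M3.Count

set_option autoImplicit false
open Finset Filter Topology

/-! # Facts on the admissible states

`nfin` : admissible states are not finished; `exists_tipF` : the tip vertex, its cell of level `k0` and
the labels around; `jn_vert` : visited vertices are joined to `a` off the barrier; `free_state` : the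
labels at vertices away from the path are free. -/

namespace Pool.Agent.H5.M7

open Pool.Agent.H75.Perc Pool.Agent.H75.TwoArm Pool.Agent.H75.Four Pool.Agent.H69.Q1
open Pool.Agent.H81.Q1 (pt DDomain Approx IsJordanDomain IsArcs)
open Pool.Agent.Q1.M3
open Pool.Agent.H82.Q1.M7 (Sbar uv Win IsEnd Par StPar FarS Adm)

section

variable {D : Set ℂ} {a b : ℂ} {A₁ A₂ : Set ℂ} {A : Approx D a b A₁ A₂} {r0 : ℝ} {B : Base A r0}
  {k0 n j : ℕ} {ω : Finset (ℤ × ℤ)} {ρ : ℝ}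

lemma mem_Sbar {z : ℂ} : z ∈ Sbar B ↔ ∃ M, ∃ q ∈ B.Q M, z ∈ cfat B.o q := mem_SS B

variable (B) in
/-- `b` is a limit of points of the barrier. -/
lemma b_closure (hb : b ∉ D) : b ∈ closure (Sbar B) := by
  obtain ⟨d, hd, hdq⟩ := exists_dist (D := D) (o := B.o) {B.qb} (fun q hq => by
    rw [Finset.mem_singleton] at hq; rw [hq]
    exact (B.subQ 0 B.qb B.qb_mem).trans Set.inter_subset_left) hb
  rw [Metric.mem_closure_iff]
  intro s hs
  obtain ⟨M, hM2⟩ := (B.rlim.eventually_lt_const (lt_min hs hd)).exists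
  obtain ⟨z, hz, q, hq, hzq⟩ := near_b B (fun z hz => hdq B.qb (Finset.mem_singleton_self _) z hz) M
    (hM2.trans_le (min_le_left _ _)) (hM2.trans_le (min_le_right _ _))
  exact ⟨z, mem_Sbar.2 ⟨M, q, hq, fat_sub_cfat _ _ hzq⟩, by rw [dist_comm]; exact hz⟩

/-- points far from the barrier are far from `b` -/
lemma far_b (hb : b ∉ D) {x : ℂ} (h : ∀ z ∈ Sbar B, ρ ≤ dist x z) : ρ ≤ dist x b := by
  by_contra hcon
  rw [not_le] at hcon
  obtain ⟨z, hz, hz2⟩ := Metric.mem_closure_iff.1 (b_closure B hb) (ρ - dist x b) (by linarith)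
  have := h z hz
  have := dist_triangle x b z
  linarith

lemma ball_compl (hb : b ∉ D) {x : ℂ} (h : ∀ z ∈ Sbar B, ρ ≤ dist x z) :
    Metric.ball x ρ ⊆ (insert b (Sbar B))ᶜ := by
  intro y hy hy'
  rw [Metric.mem_ball, dist_comm] at hy
  rcases hy' with rfl | h1
  · exact absurd (far_b hb h) (not_le.2 hy)
  · exact absurd (h y h1) (not_le.2 hy)

/-- **Admissible states are not finished.** -/
theorem nfin (hb : b ∉ D) (hρ : 0 < ρ) : ∀ᶠ n in atTop, ∀ (k0 j : ℕ) (ω : Finset (ℤ × ℤ)),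
    ω ⊆ (X0 A n).E → FarS B n ρ k0 j ω → ¬ B.Fin n (B.X k0 n j ω) := by
  obtain ⟨M, hM⟩ := (B.rlim.eventually_lt_const (show 0 < ρ / 3 by linarith)).exists
  have e1 : ∀ᶠ n in atTop, A.δ n < ρ / 3 := A.lim.eventually_lt_const (by linarith)
  filter_upwards [B.hN M, e1] with n h1 h2 k0 j ω hω hF h3
  obtain ⟨N', h4, h5⟩ := h1
  obtain ⟨u, hu, h6⟩ := mem_star.1 h3
  have h7 := dist_of_star1 (A.pos n) (lab_star1 (B.X k0 n j ω).α) h6
  have h8 := hF (B.T k0 n j ω) le_rfl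
  rw [← B.X_α hω] at h8
  rw [h4, mem_union] at hu
  rcases hu with hu | hu
  · obtain ⟨q, hq, hq2⟩ := mem_Vn.1 hu
    have := h8 _ (mem_Sbar.2 ⟨M, q, hq, fat_sub_cfat _ _ ((mem_verts (A.pos n)).1 hq2)⟩)
    linarith
  · have h9 := far_b hb h8
    have h10 := Metric.mem_ball.1 (h5 u hu)
    have := dist_triangle (pt (A.δ n) (vx (B.X k0 n j ω).α)) (pt (A.δ n) u) b
    linarith

lemma FarS.zero {k0 j : ℕ} (h : FarS B n ρ k0 j ω) : FarS B n ρ k0 0 ω := by
  intro t ht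
  have h1 : B.T k0 n 0 ω = 0 := rfl
  rw [h1] at ht
  exact h t (by omega)

/-- regularity of the index, without condition on `r0` -/
theorem reg_ev (hD : Bornology.IsBounded D) (ha : a ∉ D) (hb : b ∉ D) (hρ : 0 < ρ) (k0 : ℕ) :
    ∀ᶠ n in atTop, ∀ (j : ℕ) (ω : Finset (ℤ × ℤ)), ω ⊆ (X0 A n).E → FarS B n ρ k0 j ω →
      B.Reg k0 k0 n := by
  obtain ⟨s, hs, h1⟩ := exists_dist (cellsLe D B.o k0 k0)
    (fun q hq => ((mem_cellsLe hD).1 hq).2.2) ha
  filter_upwards [B.beta, Metric.tendsto_nhds.1 A.limα s hs, nfin (B := B) hb hρ]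
    with n h2 h4 h5 j ω hω hF
  refine ⟨h2, h5 k0 0 ω hω (FarS.zero hF), ?_⟩
  have hα : vx (X0 A n).α = (A.X n).α.1 := by
    change vx (A.X n).toDEnv.α = _
    rw [Pool.Agent.H81.Q1.toDEnv_α, vx_cor]
  intro h6
  obtain ⟨q, hq, h7⟩ := mem_Vn.1 h6
  rw [mem_verts (A.pos n), hα] at h7
  have h8 := h1 q hq _ (fat_sub_cfat _ _ h7)
  exact absurd h4 (not_lt.2 h8)

/-- Facts on the state `j + 1`: tip vertex `v`, direction `d`, cell `q0`. -/
structure TipF (B : Base A r0) (k0 n j : ℕ) (ω : Finset (ℤ × ℤ)) (v d : ℤ × ℤ) (q0 : Cell) :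
    Prop where
  hq0 : q0 ∈ Uk D (A.δ n) B.o B.qb k0 (B.X k0 n j ω).E
  hv : v ∈ verts (A.δ n) B.o q0
  hd : d ∈ dirs
  out : ∀ q ∈ Uk D (A.δ n) B.o B.qb k0 (B.X k0 n j ω).E, v + d ∉ verts (A.δ n) B.o q
  free : ∀ q ∈ Uk D (A.δ n) B.o B.qb k0 (B.X k0 n j ω).E, ∀ e ∈ star (verts (A.δ n) B.o q),
    e ≠ v + (v + d) → e ∈ (B.X k0 n (j + 1) ω).E
  e0 : v + (v + d) ∉ (B.X k0 n (j + 1) ω).E
  hlab : lab (B.X k0 n (j + 1) ω).α = v + (v + d)
  tv : tipv (B.F k0 n (B.X k0 n j ω).E) (lab (B.X k0 n (j + 1) ω).α) = v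
  td : tipd (B.F k0 n (B.X k0 n j ω).E) (lab (B.X k0 n (j + 1) ω).α) = d
  near : dist (pt (A.δ n) v) (pt (A.δ n) (vx (B.X k0 n (j + 1) ω).α)) ≤ A.δ n

/-- **The tip of a state which is not finished.** -/
theorem exists_tipF (hD : Bornology.IsBounded D) (hR : B.Reg k0 k0 n) (hω : ω ⊆ (X0 A n).E)
    (h : ¬ B.Fin n (B.X k0 n (j + 1) ω)) : ∃ v d q0, TipF B k0 n j ω v d q0 := by
  have hst : B.X k0 n (j + 1) ω =
      (B.rules k0 n).nenv (B.X k0 n j ω) ((B.rules k0 n).cf j (X0 A n) ω) :=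
    Rules.st_last _ _ _ _
  have h1 : ¬ B.Fin n (B.X k0 n j ω) := by
    intro h2
    apply h
    rw [hst, B.nenv_fin h2]
    exact h2
  obtain ⟨h2, -, h3⟩ := B.tip_spec hD le_rfl hR hω j h1
  have h4 : vx (B.X k0 n j ω).α ∉ B.F k0 n (B.X k0 n j ω).E := by
    intro h5
    apply h2
    rcases Finset.mem_union.1 h5 with h6 | h6
    · refine Finset.mem_union_left _ (Vn_mono ?_ h6)
      rw [Uk_eq_filter hD le_rfl]
      exact Finset.filter_subset _ _
    · exact Finset.mem_union_right _ h6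
  have hcf := (B.rules k0 n).cf_sub hω j
  obtain ⟨m, -, v, hv, h5, h6, h7, h8, h9, h10, h11, h12, -, h13, h14⟩ :=
    B.step_spec (k0 := k0) (X := B.X k0 n j ω) h1 hcf h3 (by rw [B.X_beta]; exact hR.beta) h4
  rw [← hst] at h13 h14
  set w := vx ((B.X k0 n j ω).cor ((B.rules k0 n).cf j (X0 A n) ω) m) with hw
  have hvN : v ∉ B.N n := by
    intro h15
    apply h
    unfold Base.Fin
    rw [h13]
    exact star1_sub_star h15 h8
  have hvU : v ∈ Vn (A.δ n) B.o (Uk D (A.δ n) B.o B.qb k0 (B.X k0 n j ω).E) :=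
    (Finset.mem_union.1 hv).resolve_right hvN
  obtain ⟨q0, hq0, hvq⟩ := mem_Vn.1 hvU
  have hwd : v + (w - v) = w := by abel
  refine ⟨v, w - v, q0, hq0, hvq, by rw [← h11]; exact h12, ?_, ?_, ?_, ?_, ?_, ?_, ?_⟩
  · intro q hq h15
    rw [hwd] at h15
    exact h7 (Finset.mem_union_left _ (mem_Vn.2 ⟨q, hq, h15⟩))
  · intro q hq e he hne
    rw [hwd, ← h9] at hne
    rw [h14]
    have hF : Free D (A.δ n) B.o (B.X k0 n j ω).E q := by
      rw [mem_Uk hD] at hq; exact hq.head.2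
    refine ⟨hF.2 he, fun i hi h15 => ?_⟩
    rcases hi.lt_or_eq with hi | hi
    · refine h6 i hi ?_
      rw [h15]
      exact star_mono (K := verts (A.δ n) B.o q) (fun u hu =>
        Finset.mem_union_left _ (mem_Vn.2 ⟨q, hq, hu⟩)) he
    · subst hi
      exact hne h15.symm
  · rw [hwd, ← h9, h14]
    rintro ⟨-, h15⟩
    exact h15 m le_rfl rfl
  · rw [hwd, h13, h9]
  · rw [h13]; exact h10
  · rw [h13]; exact h11
  · refine dist_of_star1 (A.pos n) h8 ?_
    rw [← h13]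
    exact lab_star1 _

/-- **Visited vertices are joined to `a` off the barrier.** -/
theorem jn_vert (hb : b ∉ D) (ha : a ∉ D) (hab : a ≠ b) (hρ : 0 < ρ) :
    ∀ᶠ n in atTop, ∀ (k0 j : ℕ) (ω : Finset (ℤ × ℤ)), FarS B n ρ k0 j ω →
      ∀ t ≤ B.T k0 n j ω, Jn (insert b (Sbar B))ᶜ a (pt (A.δ n) (vx ((X0 A n).cor ω t))) := by
  have hamem : a ∈ (insert b (Sbar B))ᶜ := by
    rintro (h1 | h1)
    · exact hab h1
    · exact ha ((SS_sub B) h1).1
  obtain ⟨r, hr, hball⟩ := Metric.isOpen_iff.1 (SS_compact B).isClosed.isOpen_compl a hamem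
  have e1 : ∀ᶠ n in atTop, A.δ n < ρ := A.lim.eventually_lt_const hρ
  filter_upwards [e1, Metric.tendsto_nhds.1 A.limα r hr] with n h1 h2 k0 j ω hF t ht
  induction t with
  | zero =>
    have h3 : vx ((X0 A n).cor ω 0) = (A.X n).α.1 := by
      change vx (A.X n).toDEnv.α = _
      rw [Pool.Agent.H81.Q1.toDEnv_α, vx_cor]
    rw [h3]
    exact Jn.of_preconnected (convex_ball a r).isPreconnected hball (Metric.mem_ball_self hr) h2
  | succ t ih =>
    refine (ih (by omega)).trans ?_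
    refine Jn.of_preconnected (convex_ball (pt (A.δ n) (vx ((X0 A n).cor ω t))) ρ).isPreconnected
      (ball_compl hb (hF t (by omega))) (Metric.mem_ball_self hρ) ?_
    rw [Metric.mem_ball]
    refine lt_of_le_of_lt ?_ h1
    have h4 : plab ((X0 A n).cor ω t) ∈ star1 (vx ((X0 A n).cor ω (t + 1))) := by
      rw [(X0 A n).cor_succ]; exact plab_star1_pv _ _
    exact dist_of_star1 (A.pos n) h4 (plab_star1 _)

/-! ### Free labels -/

/-- a label which is not free any more is next to the path -/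
lemma near_met (hω : ω ⊆ (X0 A n).E) {u : ℤ × ℤ} (h1 : star1 u ⊆ (X0 A n).E)
    (h2 : ¬ star1 u ⊆ (B.X k0 n j ω).E) :
    ∃ t < B.T k0 n j ω, dist (pt (A.δ n) (vx ((X0 A n).cor ω t))) (pt (A.δ n) u) ≤ A.δ n := by
  obtain ⟨e, he, h3⟩ := Finset.not_subset.1 h2
  have h4 : (B.X k0 n j ω).E = (X0 A n).E \ Rules.metE (X0 A n) ω (B.T k0 n j ω) :=
    Rules.st_E _ hω j
  rw [h4, Finset.mem_sdiff, not_and, not_not] at h3
  obtain ⟨-, t, ht, h5⟩ := Rules.mem_metE.1 (h3 (h1 he))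
  refine ⟨t, ht, dist_of_star1 (A.pos n) (plab_star1 _) ?_⟩
  rw [h5]; exact he

/-- the labels at vertices away from the complement are free at the beginning -/
lemma free_init (hDo : IsOpen D) (hDb : Bornology.IsBounded D) (hA : A₁ ⊆ frontier D)
    (hne : A₁.Nonempty) (A : Approx D a b A₁ A₂) {ε : ℝ} (hε : 0 < ε) :
    ∀ᶠ n in atTop, ∀ z, Metric.ball z ε ⊆ D → ∀ u : ℤ × ℤ, dist (pt (A.δ n) u) z < ε / 2 →
      star1 u ⊆ (X0 A n).E := by
  have hsub : {z : ℂ | Metric.ball z (ε / 2) ⊆ D} ⊆ D := fun z hz =>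
    hz (Metric.mem_ball_self (by positivity))
  have hK : IsCompact {z : ℂ | Metric.ball z (ε / 2) ⊆ D} :=
    Metric.isCompact_of_isClosed_isBounded (isClosed_inner D (ε / 2)) (hDb.subset hsub)
  filter_upwards [free_ev_compact hDo hA hne A hK hsub] with n h1 z hz u hu
  refine h1 u ?_
  intro y hy
  refine hz ?_
  rw [Metric.mem_ball] at hy ⊢
  have := dist_triangle y (pt (A.δ n) u) z
  linarith

/-- **Labels at vertices away from the complement and from the path are free.** -/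
theorem free_state (hDo : IsOpen D) (hDb : Bornology.IsBounded D) (hA : A₁ ⊆ frontier D)
    (hne : A₁.Nonempty) (B : Base A r0) {ε : ℝ} (hε : 0 < ε) :
    ∀ᶠ n in atTop, ∀ (k0 j : ℕ) (ω : Finset (ℤ × ℤ)), ω ⊆ (X0 A n).E →
      ∀ z, Metric.ball z ε ⊆ D →
      (∀ t < B.T k0 n j ω, ε ≤ dist (pt (A.δ n) (vx ((X0 A n).cor ω t))) z) →
      ∀ u : ℤ × ℤ, dist (pt (A.δ n) u) z < ε / 2 → star1 u ⊆ (B.X k0 n j ω).E := by
  have e1 : ∀ᶠ n in atTop, A.δ n < ε / 2 := A.lim.eventually_lt_const (by positivity)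
  filter_upwards [free_init hDo hDb hA hne A hε, e1] with n h1 h2 k0 j ω hω z hz hT u hu
  by_contra hcon
  obtain ⟨t, ht, h3⟩ := near_met hω (h1 z hz u hu) hcon
  have h4 := hT t ht
  have := dist_triangle (pt (A.δ n) (vx ((X0 A n).cor ω t))) (pt (A.δ n) u) z
  linarith

/-- **The labels at the cells of the barrier are free.** -/
theorem free_bar (hDo : IsOpen D) (hA : A₁ ⊆ frontier D)
    (hne : A₁.Nonempty) (B : Base A r0) (M : ℕ) (hρ : 0 < ρ) :
    ∀ᶠ n in atTop, ∀ (k0 j : ℕ) (ω : Finset (ℤ × ℤ)), ω ⊆ (X0 A n).E → FarS B n ρ k0 j ω →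
      star (Vn (A.δ n) B.o (B.Q M)) ⊆ (B.X k0 n j ω).E := by
  have e1 : ∀ᶠ n in atTop, A.δ n < ρ := A.lim.eventually_lt_const hρ
  have hsub : Pool.Agent.H14.NB.cun B.o (B.Q M) ⊆ D :=
    (cun_sub_SS B M).trans ((SS_sub B).trans Set.inter_subset_left)
  filter_upwards [free_ev_compact hDo hA hne A (Pool.Agent.H14.NB.isCompact_cun _ _) hsub, e1]
    with n h1 h2 k0 j ω hω hF e he
  obtain ⟨u, hu, heu⟩ := mem_star.1 he
  obtain ⟨q, hq, huq⟩ := mem_Vn.1 hu
  have h3 : pt (A.δ n) u ∈ cfat B.o q := fat_sub_cfat _ _ ((mem_verts (A.pos n)).1 huq)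
  have h4 := h1 u (mem_cun.2 ⟨q, hq, h3⟩)
  by_contra hcon
  obtain ⟨t, ht, h5⟩ := near_met hω h4 (fun h6 => hcon (h6 heu))
  have h6 := hF t ht.le _ (mem_Sbar.2 ⟨M, q, hq, h3⟩)
  linarith

/-- a visible cell is joined to the base cell by visible cells -/
lemma connC_uk (hD : Bornology.IsBounded D) {δ : ℝ} {o : ℂ} {qb q : Cell} {k : ℕ}
    {E : Finset (ℤ × ℤ)} (h : q ∈ Uk D δ o qb k E) :
    ConnC o (fun x => x ∈ Uk D δ o qb k E) qb k q := by
  rw [mem_Uk hD] at h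
  refine ConnC.induct (P := fun x => ConnC o (fun y => y ∈ Uk D δ o qb k E) qb k x) ?_ ?_ h
  · intro x hx hS ha
    exact ConnC.single hx ((mem_Uk hD).2 (ConnC.single hx hS ha)) ha
  · intro x y hx hS ha hc ih
    exact ConnC.cons hx ((mem_Uk hD).2 (ConnC.cons hx hS ha hc)) ha ih

end

end Pool.Agent.H5.M7
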