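import Mathlib
import Pool.Agent.H5.M7.StateA
import Pool.Agent.H53.Q1.J20.Vis

set_option autoImplicit false
open Finset Filter Topology

/-! # Facts on a window

`wseg w` : the segment through the window from `wpt w` into the barrier cell; `win_vis` : the fine cells
meeting it are visible. -/

namespace Pool.Agent.H5.M7

open Pool.Agent.H75.Perc Pool.Agent.H75.TwoArm Pool.Agent.H75.Four Pool.Agent.H69.Q1
open Pool.Agent.H81.Q1 (pt DDomain Approx IsJordanDomain IsArcs)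
open Pool.Agent.Q1.M3
open Pool.Agent.H82.Q1.M7 (Sbar uv Win IsEnd Par StPar FarS Adm)
open Pool.Agent.H53.Q1 (conn_cells start_mem)

lemma norm_uv (k : ℤ) : ‖uv k‖ = 1 := by
  unfold uv
  rcases Pool.Agent.H75.Perc.dir_cases k with ⟨-, h⟩ | ⟨-, h⟩ | ⟨-, h⟩ | ⟨-, h⟩ <;> rw [h] <;>
    simp [Complex.norm_def, Complex.normSq_apply]

lemma uv_ne (k : ℤ) : uv k ≠ 0 := by
  intro h
  have := norm_uv k
  rw [h, norm_zero] at this
  exact zero_ne_one this

/-- an open ball in a closed cell is in the open cell -/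
lemma ball_fat {o : ℂ} {q : Cell} {z : ℂ} {r : ℝ} (h : Metric.ball z r ⊆ cfat o q) :
    Metric.ball z r ⊆ fat o q := by
  intro y hy
  rw [Metric.mem_ball] at hy
  set η := (r - dist y z) / 2 with hη
  have hη0 : 0 < η := by rw [hη]; linarith
  have key : ∀ w : ℂ, ‖w‖ ≤ η → y + w ∈ cfat o q := by
    intro w hw
    refine h ?_
    rw [Metric.mem_ball]
    have h1 := dist_triangle (y + w) y z
    have h2 : dist (y + w) y = ‖w‖ := by rw [dist_eq_norm]; simp
    rw [h2] at h1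
    linarith
  have e1 : ‖((η : ℝ) : ℂ)‖ ≤ η := by
    rw [Complex.norm_real, Real.norm_eq_abs, abs_of_pos hη0]
  have e2 : ‖((η : ℝ) : ℂ) * Complex.I‖ ≤ η := by
    rw [norm_mul, Complex.norm_I, mul_one]; exact e1
  have k1 := key _ e1
  have k2 := key (-((η : ℝ) : ℂ)) (by rw [norm_neg]; exact e1)
  have k3 := key _ e2
  have k4 := key (-(((η : ℝ) : ℂ) * Complex.I)) (by rw [norm_neg]; exact e2)
  obtain ⟨-, a2, -, -⟩ := k1
  obtain ⟨a1, -, -, -⟩ := k2
  obtain ⟨-, -, -, a4⟩ := k3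
  obtain ⟨-, -, a3, -⟩ := k4
  simp at a1 a2 a3 a4
  exact ⟨by linarith, by linarith, by linarith, by linarith⟩

section

variable {D : Set ℂ} {a b : ℂ} {A₁ A₂ : Set ℂ} {A : Approx D a b A₁ A₂} {r0 : ℝ} {B : Base A r0}
  {k0 n j K : ℕ} {ω : Finset (ℤ × ℤ)} {ρ : ℝ} (w : Win B)

lemma win_pos : 0 < w.l := w.l0

/-- the points of the window box -/
lemma win_box (s t : ℝ) (hs : |s| < 2 * w.l) (ht : |t| < 2 * w.l) :
    w.p + (s + t * Complex.I) * uv w.k ∈ D := by
  rcases lt_or_ge 0 t with h | h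
  · rw [abs_of_pos h] at ht
    exact (w.up s t hs h ht).1
  · rw [abs_of_nonpos h] at ht
    have h1 := w.dn s (-t) hs (by linarith) (by linarith)
    have e : (s : ℂ) + t * Complex.I = s - ((-t : ℝ) : ℂ) * Complex.I := by push_cast; ring
    unfold Win.p
    rw [e]
    exact (B.subQ w.M0 w.q w.hq h1).1

lemma win_p_cfat : w.p ∈ cfat B.o w.q := by
  have h1 := w.dn 0 0 (by rw [abs_zero]; linarith [w.l0]) le_rfl (by linarith [w.l0])
  simpa [Win.p] using h1

lemma win_p_S : w.p ∈ Sbar B := mem_Sbar.2 ⟨w.M0, w.q, w.hq, win_p_cfat w⟩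

/-- The segment through the window. -/
def wseg : Set ℂ := (fun t : ℝ => w.p + (t * Complex.I) * uv w.k) '' Set.Icc (-(w.l / 2)) (w.l / 2)

lemma wseg_pre : IsPreconnected (wseg w) :=
  isPreconnected_Icc.image _ (by fun_prop)

lemma wseg_compact : IsCompact (wseg w) := isCompact_Icc.image (by fun_prop)

lemma wpt_mem : wpt w ∈ wseg w := by
  refine ⟨w.l / 2, ⟨by linarith [w.l0], le_rfl⟩, ?_⟩
  unfold wpt
  ring

lemma wseg_D : wseg w ⊆ D := by
  rintro z ⟨t, ⟨h1, h2⟩, rfl⟩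
  have := win_box w 0 t (by rw [abs_zero]; linarith [w.l0]) (by rw [abs_lt]; constructor <;>
    linarith [w.l0])
  simpa using this

lemma wseg_dist {z : ℂ} (hz : z ∈ wseg w) : dist z w.p ≤ w.l / 2 := by
  obtain ⟨t, ⟨h1, h2⟩, rfl⟩ := hz
  rw [dist_eq_norm, add_sub_cancel_left, norm_mul, norm_mul, norm_uv, Complex.norm_I,
    Complex.norm_real, Real.norm_eq_abs, mul_one, mul_one]
  exact abs_le.2 ⟨h1, h2⟩

/-- coordinates of the window -/
lemma win_coord (z : ℂ) : ∃ s t : ℝ, z = w.p + (s + t * Complex.I) * uv w.k ∧ |s| ≤ dist z w.p ∧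
    |t| ≤ dist z w.p := by
  set u := (z - w.p) / uv w.k with hu
  have e : z = w.p + u * uv w.k := by
    rw [hu, div_mul_cancel₀ _ (uv_ne _)]; ring
  have hn : ‖u‖ = dist z w.p := by
    rw [hu, norm_div, norm_uv, div_one, dist_eq_norm]
  refine ⟨u.re, u.im, ?_, ?_, ?_⟩
  · rw [Complex.re_add_im]; exact e
  · rw [← hn]; exact Complex.abs_re_le_norm _
  · rw [← hn]; exact Complex.abs_im_le_norm _

/-- the end of the segment in the barrier cell -/
lemma win_end_ball : Metric.ball (w.p + (((-(w.l / 2) : ℝ) : ℂ) * Complex.I) * uv w.k) (w.l / 2) ⊆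
    cfat B.o w.q := by
  intro z hz
  set u := (z - w.p) / uv w.k with hu
  have e : z = w.p + u * uv w.k := by
    rw [hu, div_mul_cancel₀ _ (uv_ne _)]; ring
  have hn : ‖u - (((-(w.l / 2) : ℝ) : ℂ) * Complex.I)‖ < w.l / 2 := by
    rw [Metric.mem_ball, dist_eq_norm, e] at hz
    have e2 : w.p + u * uv w.k - (w.p + (((-(w.l / 2) : ℝ) : ℂ) * Complex.I) * uv w.k) =
        (u - (((-(w.l / 2) : ℝ) : ℂ) * Complex.I)) * uv w.k := by ring
    rw [e2, norm_mul, norm_uv, mul_one] at hz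
    exact hz
  have h1 := (Complex.abs_re_le_norm _).trans_lt hn
  have h2 := (Complex.abs_im_le_norm _).trans_lt hn
  have g1 : (u - (((-(w.l / 2) : ℝ) : ℂ) * Complex.I)).re = u.re := by simp
  have g2 : (u - (((-(w.l / 2) : ℝ) : ℂ) * Complex.I)).im = u.im + w.l / 2 := by simp
  rw [g1] at h1
  rw [g2, abs_lt] at h2
  have h3 := w.dn u.re (-u.im) (by linarith [w.l0]) (by linarith) (by linarith [w.l0])
  have e3 : (u.re : ℂ) - ((-u.im : ℝ) : ℂ) * Complex.I = u := by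
    push_cast
    rw [neg_mul, sub_neg_eq_add, Complex.re_add_im]
  rw [e3] at h3
  rw [e]
  exact h3

/-- a margin for compact sets in an open set -/
lemma exists_margin {U Z : Set ℂ} (hU : IsOpen U) (hZ : IsCompact Z) (h : Z ⊆ U) :
    ∃ ε > 0, ∀ z ∈ Z, Metric.ball z ε ⊆ U := by
  obtain ⟨ε, hε, h1⟩ := hZ.exists_thickening_subset_open hU h
  exact ⟨ε, hε, fun z hz => (Metric.ball_subset_thickening hz ε).trans h1⟩

/-- **The fine cells meeting the segment of the window are visible.** -/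
theorem win_vis (hDo : IsOpen D) (hDb : Bornology.IsBounded D) (hA : A₁ ⊆ frontier D)
    (hne : A₁.Nonempty) (hρ : 2 * w.l ≤ ρ) : ∃ K0, ∀ M, w.M0 ≤ M → ∀ K, K0 ≤ K →
    (∀ q ∈ B.Q M, q.1 + 3 ≤ K) → ∀ᶠ n in atTop, ∀ (k0 j : ℕ) (ω : Finset (ℤ × ℤ)),
      ω ⊆ (X0 A n).E → FarS B n ρ k0 j ω → ∀ p : Cell, p.1 = K → (fat B.o p ∩ wseg w).Nonempty →
        p ∈ Uk D (A.δ n) B.o B.qb K (B.X k0 n j ω).E := by
  obtain ⟨ε0, hε0, hm⟩ := exists_margin hDo (wseg_compact w) (wseg_D w)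
  have hl := w.l0
  set ε := min ε0 w.l with hε
  have hεp : 0 < ε := lt_min hε0 hl
  obtain ⟨K0, -, hK0⟩ := exists_mesh_lt (show 0 < ε / 8 by positivity) 0
  refine ⟨K0 + 1, fun M hM K hK hlev => ?_⟩
  have hmesh : 4 * mesh K < ε / 2 := by
    have h1 : mesh K ≤ mesh (K0 + 1) := by
      unfold mesh
      exact pow_le_pow_of_le_one (by norm_num) (by norm_num) hK
    linarith
  filter_upwards [free_state hDo hDb hA hne B hεp, free_bar hDo hA hne B M
    (show 0 < ρ by linarith)] with n h1 h2 k0 j ω hω hF p hp hpT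
  set z1 := w.p + (((-(w.l / 2) : ℝ) : ℂ) * Complex.I) * uv w.k with hz1
  have hz1s : z1 ∈ wseg w := ⟨-(w.l / 2), ⟨le_rfl, by linarith⟩, rfl⟩
  obtain ⟨p0, hp0, hzp0⟩ := Pool.Agent.H42.Q1.exists_fat B.o z1 K
  have hsub : cfat B.o p0 ⊆ fat B.o w.q := by
    intro y hy
    refine ball_fat (win_end_ball w) ?_
    rw [Metric.mem_ball]
    have h3 := Pool.Agent.H42.Q1.dist_cfat hy (fat_sub_cfat _ _ hzp0)
    rw [hp0] at h3
    have h4 : ε ≤ w.l := min_le_right _ _
    have h5 := mesh_pos K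
    linarith
  have hvis0 : p0 ∈ Uk D (A.δ n) B.o B.qb K (B.X k0 n j ω).E :=
    start_mem (C := B.Q M) hDb (A.pos n) hlev
      (fun q hq => (B.subQ M q hq).trans Set.inter_subset_left) (h2 k0 j ω hω hF)
      (Q_mono B (Nat.zero_le M) B.qb_mem) (B.connQ M) (Q_mono B hM w.hq) hp0 hsub
  refine conn_cells hDb (A.pos n) hmesh (wseg_pre w) ?_ ?_ ⟨p0, hvis0, z1, hzp0, hz1s⟩ p hp hpT
  · intro z hz
    exact (Metric.ball_subset_ball ((half_le_self hεp.le).trans (min_le_left _ _))).trans (hm z hz)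
  · intro z hz u hu
    refine h1 k0 j ω hω z ((Metric.ball_subset_ball (min_le_left _ _)).trans (hm z hz)) ?_ u hu
    intro t ht
    have h3 := hF t ht.le w.p (win_p_S w)
    have h4 := wseg_dist w hz
    have h5 := dist_triangle (pt (A.δ n) (vx ((X0 A n).cor ω t))) z w.p
    have h6 : ε ≤ w.l := min_le_right _ _
    linarith

end

end Pool.Agent.H5.M7
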