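import Mathlib
import Pool.Agent.H5.M7.StateA
import Pool.Agent.H5.M7.Tip
import Pool.Agent.H5.M7.WinF
import Pool.Agent.H53.Q1.J20.Expl
import Pool.Agent.H53.Q1.J20.Mono

set_option autoImplicit false
open Finset Filter Topology

/-! # The region of a state at the tip and at the window

`tip_local` : a preconnected set starting behind the tip is in the region of the tip. -/

namespace Pool.Agent.H5.M7

open Pool.Agent.H75.Perc Pool.Agent.H75.TwoArm Pool.Agent.H75.Four Pool.Agent.H69.Q1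
open Pool.Agent.H81.Q1 (pt DDomain Approx IsJordanDomain IsArcs)
open Pool.Agent.Q1.M3
open Pool.Agent.Q1.M3.Pg hiding Gen
open Pool.Agent.H82.Q1.M7 (Sbar uv Win IsEnd Par StPar FarS Adm tside SDX SDj GX ucell)
open Pool.Agent.H53.Q1 (rect_sub_fat rect_sub_cfat cfat_eq fat_eq comp_eq conn_subset conn_cells
  start_mem)
open Pool.Agent.Q1.M4 (rect Om mem_Om)

/-- **The region at the tip**, local part. -/
theorem tip_local {K : ℕ} {o : ℂ} {δ : ℝ} {q : Cell} {v d : ℤ × ℤ} {D : Set ℂ} {qb : Cell}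
    {E : Finset (ℤ × ℤ)} (hD : Bornology.IsBounded D)
    (hδ : 0 < δ) (hm3 : 3 * δ ≤ mesh (K + 1)) (hg : Gen2 K o δ) (hK : q.1 < K)
    (hqD : cfat o q ⊆ D) (hd : d ∈ dirs) (hv : v ∈ verts δ o q) (hvd : v + d ∉ verts δ o q)
    (hE : ∀ e ∈ star (verts δ o q), e ≠ v + (v + d) → e ∈ E) {m : ℝ}
    (hm : 10 * mesh (K + 1) ≤ m) (hm6 : m ≤ mesh q.1 / 6)
    (hfar : ∀ k, 2 * m < dist (pt δ v) (gpt o q.1 k))
    {C : Finset Cell} {BB : Cell} (hC : ∀ q ∈ C, q.1 ≤ K) (hB : BB.1 ≤ K)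
    (hCf : ∀ q' ∈ C, ∀ z ∈ cfat o q', 5 * m < dist z (pt δ v))
    (hBf : ∀ z ∈ cfat o BB, 5 * m < dist z (pt δ v)) :
    ∃ (x : ℂ) (t0 : ℤ), x ∈ core o m q ∧ dist x (pt δ v) ≤ 4 * m ∧ 2 ≤ t0 ∧
      x ∈ rect (gx K o.re) (gx K o.im) (box δ o K v - t0 • d) ∧
      (∀ t, 2 ≤ t → t ≤ t0 →
        ∀ z ∈ rect (gx K o.re) (gx K o.im) (box δ o K v - t • d), dist z (pt δ v) ≤ 5 * m) ∧
      ∀ (T : Set ℂ) (ε : ℝ), IsPreconnected T → x ∈ T → 4 * mesh K < ε →
        (∀ z ∈ T, Metric.ball z ε ⊆ D) →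
        (∀ z ∈ T, ∀ u : ℤ × ℤ, dist (pt δ u) z < ε → star1 u ⊆ E) →
        (∀ z ∈ T, (∀ q ∈ C, z ∉ cfat o q) ∧ z ∉ cfat o BB) →
        (∃ p ∈ Uk D δ o qb K E, (fat o p ∩ T).Nonempty) →
        ∀ (b0 : ℤ × ℤ) (κ : ℤ),
          (box δ o K v - (2 : ℤ) • d) ∈ PP K (Uk D δ o qb K E) C \ HH K (Uk D δ o qb K E) C BB ∧
          (∀ t, 2 ≤ t → t ≤ t0 → box δ o K v - t • d ∈
            (SD.mk K (Uk D δ o qb K E) C BB b0 (box δ o K v - (2 : ℤ) • d, κ)).R) ∧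
          T ⊆ Om (SD.mk K (Uk D δ o qb K E) C BB b0 (box δ o K v - (2 : ℤ) • d, κ)).R
            (gx K o.re) (gx K o.im) := by
  obtain ⟨x, r, t0, hx, hxv, hr1, hxr, ht0, hxc, hrow, hvis⟩ :=
    tip_row (qb := qb) (E := E) hD hδ hm3 hg hK hqD hd hv hvd hE hm hm6 hfar
  refine ⟨x, t0, hx, hxv, ht0, hxc, fun t h1 h2 => (hrow t h1 h2).2, ?_⟩
  intro T ε hT hxT hε h1 h2 h3 h4 b0 κ
  have hr : r ∈ Uk D δ o qb K E :=
    conn_cells hD hδ hε hT h1 h2 h4 r hr1 ⟨x, hxr, hxT⟩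
  have hA : ∀ t, 2 ≤ t → t ≤ t0 → box δ o K v - t • d ∈
      PP K (Uk D δ o qb K E) C \ HH K (Uk D δ o qb K E) C BB := by
    intro t g1 g2
    rw [Finset.mem_sdiff]
    refine ⟨flat_sub_PP (F := Uk D δ o qb K E) subset_union_left (hvis hr t g1 g2), fun h => ?_⟩
    obtain ⟨z, hz⟩ : (rect (gx K o.re) (gx K o.im) (box δ o K v - t • d)).Nonempty :=
      ⟨⟨gx K o.re (box δ o K v - t • d).1, gx K o.im (box δ o K v - t • d).2⟩,
        ⟨le_rfl, ((gx_mono K _) (by omega)).le⟩, le_rfl, ((gx_mono K _) (by omega)).le⟩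
    have h5 := (hrow t g1 g2).2 z hz
    rcases mem_union.1 h with h | h
    · obtain ⟨q', hq', h6⟩ := mem_flat.1 h
      exact absurd (hCf q' hq' z (rect_sub_cfat (hC q' hq') h6 hz)) (not_lt.2 h5)
    · exact absurd (hBf z (rect_sub_cfat hB (mem_inter.1 h).1 hz)) (not_lt.2 h5)
  have h2A := hA 2 le_rfl ht0
  have hct := row_comp (A := PP K (Uk D δ o qb K E) C \ HH K (Uk D δ o qb K E) C BB)
    (c := box δ o K v) hd ht0 hA
  have hxA := hA t0 ht0 le_rfl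
  have e1 : comp (PP K (Uk D δ o qb K E) C \ HH K (Uk D δ o qb K E) C BB)
      (box δ o K v - (2 : ℤ) • d) =
      comp (PP K (Uk D δ o qb K E) C \ HH K (Uk D δ o qb K E) C BB)
      (box δ o K v - t0 • d) := comp_eq hxA hct
  have eR : (SD.mk K (Uk D δ o qb K E) C BB b0 (box δ o K v - (2 : ℤ) • d, κ)).R =
      comp (PP K (Uk D δ o qb K E) C \ HH K (Uk D δ o qb K E) C BB)
      (box δ o K v - t0 • d) := e1
  refine ⟨h2A, fun t g1 g2 => ?_, ?_⟩
  · rw [eR]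
    have := row_comp (A := PP K (Uk D δ o qb K E) C \ HH K (Uk D δ o qb K E) C BB)
      (c := box δ o K v - (t - 2) • d) (t0 := t0 - t + 2) hd (by omega) (fun s g3 g4 => by
        have e : box δ o K v - (t - 2) • d - s • d = box δ o K v - (t - 2 + s) • d := by
          rw [add_smul]; abel
        rw [e]; exact hA _ (by omega) (by omega))
    have e2 : box δ o K v - (t - 2) • d - (2 : ℤ) • d = box δ o K v - t • d := by
      have : t • d = (t - 2) • d + (2 : ℤ) • d := by rw [← add_smul]; congr 1; ring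
      rw [this]; abel
    have e3 : box δ o K v - (t - 2) • d - (t0 - t + 2) • d = box δ o K v - t0 • d := by
      have : t0 • d = (t - 2) • d + (t0 - t + 2) • d := by rw [← add_smul]; congr 1; ring
      rw [this]; abel
    rwa [e2, e3] at this
  · rw [eR]
    exact conn_subset hD hδ hε hT h1 h2 hC hB h3 h4 ⟨x, hxc, hxT⟩

/-! ### The states -/

section

variable {D : Set ℂ} {a b : ℂ} {A₁ A₂ : Set ℂ} {A : Approx D a b A₁ A₂} {r0 : ℝ} {B : Base A r0}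
  {k0 n j K : ℕ} {ω : Finset (ℤ × ℤ)} {ρ : ℝ}

lemma arcs_facts (hJ : IsJordanDomain D) (hA : IsArcs D a b A₁ A₂) :
    a ∉ D ∧ b ∉ D ∧ a ∈ closure D ∧ A₁ ⊆ frontier D ∧ A₁.Nonempty := by
  have ha : a ∈ A₁ ∩ A₂ := by rw [hA.inter]; exact Or.inl rfl
  have hb : b ∈ A₁ ∩ A₂ := by rw [hA.inter]; exact Or.inr rfl
  have hsub : A₁ ⊆ frontier D := by rw [← hA.union]; exact Set.subset_union_left
  have hfa := hsub ha.1
  have hfb := hsub hb.1
  rw [hJ.1.frontier_eq] at hfa hfb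
  exact ⟨hfa.2, hfb.2, hfa.1, hsub, ⟨a, ha.1⟩⟩

variable (B) in
lemma barrA (hJ : IsJordanDomain D) (hab : a ≠ b) (hA : IsArcs D a b A₁ A₂) :
    Barr D (Sbar B) a b := by
  obtain ⟨h1, h2, h3, -, -⟩ := arcs_facts hJ hA
  exact barr B hJ.1 hJ.2.1.isPreconnected hJ.2.2.1 hab h3 h1 h2

/-- the side of the tip -/
def kapd (d : ℤ × ℤ) : ℤ :=
  if d = (0, -1) then 0 else if d = (1, 0) then 1 else if d = (0, 1) then 2 else 3

lemma sdj_eq {v d : ℤ × ℤ} {q0 : Cell} (h : TipF B k0 n j ω v d q0) (P : Par B) (K : ℕ) :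
    SDj B P k0 K n j ω = SD.mk K (Uk D (A.δ n) B.o B.qb K (B.X k0 n (j + 1) ω).E) (B.Q P.M) P.BB
      (ucell B.o K P.z) (box (A.δ n) B.o K v - (2 : ℤ) • d, kapd d) := by
  unfold SDj SDX
  rw [h.tv, h.td]
  rfl

/-- labels at vertices near a core are free -/
lemma free_core {v d : ℤ × ℤ} {q0 : Cell} (h : TipF B k0 n j ω v d q0) {m : ℝ}
    (hδ : A.δ n < m / 2) {q : Cell} (hq : q ∈ Uk D (A.δ n) B.o B.qb k0 (B.X k0 n j ω).E) {z : ℂ}
    (hz : z ∈ core B.o m q) {u : ℤ × ℤ} (hu : dist (pt (A.δ n) u) z < m / 2) :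
    star1 u ⊆ (B.X k0 n (j + 1) ω).E := by
  have hm : 0 < m := by have := A.pos n; linarith
  have huq : u ∈ verts (A.δ n) B.o q := by
    rw [mem_verts (A.pos n)]
    exact core_ball hz (Metric.mem_ball.2 (by linarith))
  intro e he
  refine h.free q hq e (mem_star.2 ⟨u, huq, he⟩) fun h1 => ?_
  obtain ⟨g1, g2⟩ := add_dir_star1 (v := v) h.hd
  have hne : v ≠ v + d := by
    intro h4
    have : d = 0 := by simpa using h4
    have h5 := h.hd
    rw [this] at h5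
    revert h5; decide
  have huv : u = v ∨ u = v + d := by
    by_contra hcon
    rw [not_or] at hcon
    rw [h1] at he
    have ho := odd_star1 he
    have a1 := (mem_star1_iff ho).1 he
    have a2 := (mem_star1_iff ho).1 g1
    have a3 := (mem_star1_iff ho).1 g2
    rcases a1 with e1 | e1 <;> rcases a2 with e2 | e2 <;> rcases a3 with e3 | e3
    · exact absurd (e2.trans e3.symm) hne
    · exact hcon.1 (e1.trans e2.symm)
    · exact hcon.2 (e1.trans e3.symm)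
    · exact absurd (e2.trans e3.symm) hne
    · exact absurd (e2.trans e3.symm) hne
    · exact hcon.2 (e1.trans e3.symm)
    · exact hcon.1 (e1.trans e2.symm)
    · exact absurd (e2.trans e3.symm) hne
  rcases huv with rfl | rfl
  · refine h.out q hq ?_
    rw [mem_verts (A.pos n)]
    refine core_ball hz (Metric.mem_ball.2 ?_)
    have h2 := dist_of_star1 (A.pos n) g2 g1
    have := dist_triangle (pt (A.δ n) (u + d)) (pt (A.δ n) u) z
    linarith
  · exact h.out q hq huq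

/-- **The tip vertex**: distances. -/
lemma tip_far {v d : ℤ × ℤ} {q0 : Cell} (hb : b ∉ D) (h : TipF B k0 n j ω v d q0)
    (hω : ω ⊆ (X0 A n).E) {ρ' : ℝ} (hF : FarS B n ρ k0 (j + 1) ω)
    (hG : B.Good k0 n ρ' (B.X k0 n (j + 1) ω)) :
    (∀ z ∈ Sbar B, ρ - A.δ n ≤ dist z (pt (A.δ n) v)) ∧ ρ - A.δ n ≤ dist b (pt (A.δ n) v) ∧
    ∀ k, ρ' - A.δ n ≤ dist (pt (A.δ n) v) (gpt B.o k0 k) := by
  have h1 : ∀ z ∈ Sbar B, ρ ≤ dist (pt (A.δ n) (vx (B.X k0 n (j + 1) ω).α)) z := by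
    rw [B.X_α hω]
    exact hF _ le_rfl
  have h2 := far_b hb h1
  have h3 := h.near
  refine ⟨fun z hz => ?_, ?_, fun k => ?_⟩
  · have h4 := h1 z hz
    have h5 := dist_triangle (pt (A.δ n) (vx (B.X k0 n (j + 1) ω).α)) (pt (A.δ n) v) z
    rw [dist_comm (pt (A.δ n) (vx (B.X k0 n (j + 1) ω).α)) (pt (A.δ n) v),
      dist_comm (pt (A.δ n) v) z] at h5
    linarith
  · have h5 := dist_triangle (pt (A.δ n) (vx (B.X k0 n (j + 1) ω).α)) (pt (A.δ n) v) b
    rw [dist_comm (pt (A.δ n) (vx (B.X k0 n (j + 1) ω).α)) (pt (A.δ n) v),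
      dist_comm (pt (A.δ n) v) b] at h5
    linarith
  · have h4 := hG k
    have h5 := dist_triangle (pt (A.δ n) (vx (B.X k0 n (j + 1) ω).α)) (pt (A.δ n) v)
      (gpt B.o k0 k)
    rw [dist_comm (pt (A.δ n) (vx (B.X k0 n (j + 1) ω).α)) (pt (A.δ n) v)] at h5
    linarith

lemma mesh_anti {k K : ℕ} (h : k ≤ K) : mesh K ≤ mesh k := by
  unfold mesh
  exact pow_le_pow_of_le_one (by norm_num) (by norm_num) h

lemma exists_mesh {η : ℝ} (h : 0 < η) : ∃ K0, ∀ K, K0 ≤ K → mesh K < η := by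
  obtain ⟨k, -, hk⟩ := exists_mesh_lt h 0
  exact ⟨k + 1, fun K hK => (mesh_anti hK).trans_lt hk⟩

lemma exists_lev (C : Finset Cell) : ∃ K0, ∀ q ∈ C, q.1 + 3 ≤ K0 := by
  refine ⟨(C.sup fun q => q.1) + 3, fun q hq => ?_⟩
  have := Finset.le_sup (f := fun q : Cell => q.1) hq
  omega

/-- The conclusions at the tip and at the window. -/
structure CoreAt (B : Base A r0) (w : Win B) (P : Par B) (k0 K n j : ℕ) (ω : Finset (ℤ × ℤ)) :
    Prop where
  mem : (SDj B P k0 K n j ω).s.1 ∈ (SDj B P k0 K n j ω).P \ (SDj B P k0 K n j ω).H2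
  win : wpt w ∈ GX B (SDj B P k0 K n j ω)

/-- **CORE**: the window is in the region of the tip. -/
theorem core_state (hJ : IsJordanDomain D) (hab : a ≠ b) (hA : IsArcs D a b A₁ A₂) (w : Win B)
    (hw : w.Side) (hk : B.qb.1 ≤ k0) {ρ' : ℝ} (hρ' : 0 < ρ') :
    ∃ r > 0, ∀ P : Par B, cfat B.o P.BB ⊆ Metric.ball b r → w.M0 ≤ P.M →
      ∃ K1, ∀ K, K1 ≤ K → ∀ᶠ n in atTop, ∀ ω, ω ⊆ (X0 A n).E → ∀ j,
        Adm w n ρ' k0 (j + 1) ω → CoreAt B w P k0 K n j ω := by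
  obtain ⟨haD, hbD, -, hA1, hne⟩ := arcs_facts hJ hA
  have hbar := barrA B hJ hab hA
  have hDb := hJ.2.2.1
  have hl := w.l0
  obtain ⟨ρ, hρdef⟩ : ∃ ρ, ρ = 2 * w.l := ⟨_, rfl⟩
  have hρ : 2 * w.l ≤ ρ := hρdef.ge
  have hρ0 : 0 < ρ := by linarith
  have hfar : ∀ {n j ω}, Adm w n ρ' k0 (j + 1) ω → FarS B n ρ k0 (j + 1) ω := by
    intro n j ω h
    rw [hρdef]; exact h.far
  set m := min (mesh k0 / 6) (min (ρ / 40) (ρ' / 4)) with hm
  have hm6 : m ≤ mesh k0 / 6 := min_le_left _ _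
  have hmρ : m ≤ ρ / 40 := (min_le_right _ _).trans (min_le_left _ _)
  have hmρ' : m ≤ ρ' / 4 := (min_le_right _ _).trans (min_le_right _ _)
  have hm0 : 0 < m := lt_min (by have := mesh_pos k0; positivity) (lt_min (by positivity) (by positivity))
  -- the path
  have hxs : ∃ s ∈ Sbar B, Jn (D ∩ {x | Metric.infDist x (Sbar B) < ρ / 2}) (wpt w) s := by
    have hsub : wseg w ⊆ D ∩ {x | Metric.infDist x (Sbar B) < ρ / 2} := by
      intro z hz
      refine ⟨wseg_D w hz, ?_⟩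
      have h1 := Metric.infDist_le_dist_of_mem (x := z) (win_p_S w)
      have h2 := wseg_dist w hz
      change Metric.infDist z (Sbar B) < ρ / 2
      linarith
    exact ⟨w.p, win_p_S w, Jn.of_preconnected (wseg_pre w) hsub
      (wpt_mem w) ⟨0, ⟨by linarith, by linarith⟩, by simp⟩⟩
  obtain ⟨ε1, hε1, hpath⟩ := core_path hbar (o := B.o) (qb := B.qb) (k0 := k0)
    (fun z hz => mem_Sbar.2 ⟨0, B.qb, B.qb_mem, fat_sub_cfat _ _ hz⟩) hk
    (show 0 < ρ / 2 by linarith) hm0 hm6 (show wpt w ∈ D2 D (Sbar B) a b from hw) hxs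
  set ε := min ε1 (min (ρ / 2) m) with hε
  have hε0 : 0 < ε := lt_min hε1 (lt_min (by linarith) hm0)
  have hεε : ε ≤ ε1 := min_le_left _ _
  have hερ : ε ≤ ρ / 2 := (min_le_right _ _).trans (min_le_left _ _)
  have hεm : ε ≤ m := (min_le_right _ _).trans (min_le_right _ _)
  refine ⟨min ε (ρ / 4), lt_min hε0 (by linarith), fun P hP hM => ?_⟩
  have hBr : ∀ z ∈ cfat B.o P.BB, dist z b < ε ∧ dist z b < ρ / 4 := fun z hz => by
    have := Metric.mem_ball.1 (hP hz)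
    exact ⟨this.trans_le (min_le_left _ _), this.trans_le (min_le_right _ _)⟩
  obtain ⟨Kw, hKw⟩ := win_vis w hJ.1 hDb hA1 hne hρ
  obtain ⟨K2, hK2⟩ := exists_mesh (show 0 < ε / 8 by positivity)
  obtain ⟨K3, hK3⟩ := exists_lev (B.Q P.M)
  refine ⟨Kw + K2 + K3 + P.BB.1 + k0 + 1, fun K hK => ?_⟩
  have hmesh : mesh K < ε / 8 := hK2 K (by omega)
  have hmesh1 : mesh (K + 1) = mesh K / 3 := by unfold mesh; rw [pow_succ]; ring
  have hlev : ∀ q ∈ B.Q P.M, q.1 + 3 ≤ K := fun q hq => (hK3 q hq).trans (by omega)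
  have e1 : ∀ᶠ n in atTop, A.δ n < min (m / 2) (mesh (K + 1) / 3) :=
    A.lim.eventually_lt_const (lt_min (by positivity) (by have := mesh_pos (K + 1); positivity))
  filter_upwards [e1, reg_ev (B := B) hDb haD hbD hρ0 k0, nfin (B := B) hbD hρ0, jn_vert (B := B) hbD haD hab hρ0,
    free_state hJ.1 hDb hA1 hne B hε0, hKw P.M hM K (by omega) hlev]
    with n g1 g2 g3 g4 g5 g6 ω hω j hAd
  have hδ := A.pos n
  have hδm : A.δ n < m / 2 := g1.trans_le (min_le_left _ _)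
  have hδ3 : 3 * A.δ n ≤ mesh (K + 1) := by
    have := g1.trans_le (min_le_right _ _)
    linarith
  have hR := g2 (j + 1) ω hω (hfar hAd)
  obtain ⟨v, d, q0, hT⟩ := exists_tipF hDb hR hω (g3 k0 (j + 1) ω hω (hfar hAd))
  obtain ⟨f1, f2, f3⟩ := tip_far hbD hT hω (hfar hAd) hAd.good
  have hq0 := (mem_Uk hDb).1 hT.hq0
  have hq0l : q0.1 = k0 := hq0.head.1
  have h5m : 5 * m < ρ - A.δ n := by linarith
  obtain ⟨x, t0, hx, hxv, ht0, -, -, hloc⟩ := tip_local (qb := B.qb)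
    (E := (B.X k0 n (j + 1) ω).E) (K := K) hDb hδ hδ3 (Pool.Agent.H53.Q1.Base_gen2 B K n)
    (q := q0) (by omega) hq0.head.2.1 hT.hd hT.hv (hT.out q0 hT.hq0) (hT.free q0 hT.hq0) (m := m)
    (by rw [hmesh1]; linarith) (by rw [hq0l]; exact hm6)
    (fun k => by rw [hq0l]; have := f3 k; linarith) (C := B.Q P.M) (BB := P.BB)
    (fun q hq => by have := hlev q hq; omega) (by omega)
    (fun q' hq' z hz => lt_of_lt_of_le h5m (f1 z (mem_Sbar.2 ⟨P.M, q', hq', hz⟩)))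
    (fun z hz => by
      have h1 := (hBr z hz).2
      have h2 := dist_triangle b z (pt (A.δ n) v)
      rw [dist_comm b z] at h2
      linarith)
  -- the point behind the tip
  have hxq : x ∈ fat B.o q0 := core_ball hx (Metric.mem_ball_self hm0)
  have hxD : x ∈ D := hq0.head.2.1 (fat_sub_cfat _ _ hxq)
  have hxt : dist x (pt (A.δ n) (vx (B.X k0 n (j + 1) ω).α)) ≤ 4 * m + A.δ n := by
    have h1 := dist_triangle x (pt (A.δ n) v) (pt (A.δ n) (vx (B.X k0 n (j + 1) ω).α))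
    have h2 := hT.near
    linarith
  have hfarT : ∀ z ∈ Sbar B, ρ ≤ dist (pt (A.δ n) (vx (B.X k0 n (j + 1) ω).α)) z := by
    rw [B.X_α hω]
    exact (hfar hAd) _ le_rfl
  have hxD2 : x ∈ D2 D (Sbar B) a b := by
    refine ⟨hxD, ?_⟩
    have h1 := g4 k0 (j + 1) ω (hfar hAd) _ le_rfl
    rw [← B.X_α hω] at h1
    refine h1.trans (Jn.of_preconnected (convex_ball _ ρ).isPreconnected (ball_compl hbD hfarT)
      (Metric.mem_ball_self hρ0) ?_)
    rw [Metric.mem_ball]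
    linarith
  have hxinf : ρ / 2 ≤ Metric.infDist x (Sbar B) := by
    refine (Metric.le_infDist (SS_ne B)).2 fun z hz => ?_
    have h1 := hfarT z hz
    have h2 := dist_triangle (pt (A.δ n) (vx (B.X k0 n (j + 1) ω).α)) x z
    rw [dist_comm _ x] at h2
    linarith
  obtain ⟨T, hTc, hxT, hwT, hTz⟩ := hpath
    (fun q => q ∈ Uk D (A.δ n) B.o B.qb k0 (B.X k0 n j ω).E)
    (fun q hq => ((mem_Uk hDb).1 hq).head.2.1) q0 (connC_uk hDb hT.hq0) x hx hxD2 hxinf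
  -- the hypotheses of `tip_local`
  have t1 : ∀ z ∈ T, Metric.ball z (ε / 2) ⊆ D := fun z hz =>
    (Metric.ball_subset_ball (by linarith)).trans ((hTz z hz).1.trans Set.sdiff_subset)
  have t2 : ∀ z ∈ T, ∀ u : ℤ × ℤ, dist (pt (A.δ n) u) z < ε / 2 →
      star1 u ⊆ (B.X k0 n (j + 1) ω).E := by
    intro z hz u hu
    rcases (hTz z hz).2.2 with ⟨q, hq, -, hzq⟩ | hz3
    · exact free_core hT hδm hq hzq (by linarith)
    · refine g5 k0 (j + 1) ω hω z
        ((Metric.ball_subset_ball hεε).trans ((hTz z hz).1.trans Set.sdiff_subset)) ?_ u hu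
      intro t ht
      obtain ⟨s, hs, hs2⟩ := (Metric.infDist_lt_iff (SS_ne B)).1 hz3
      have h1 := (hfar hAd) t ht.le s hs
      have h2 := dist_triangle (pt (A.δ n) (vx ((X0 A n).cor ω t))) z s
      linarith
  have t3 : ∀ z ∈ T, (∀ q ∈ B.Q P.M, z ∉ cfat B.o q) ∧ z ∉ cfat B.o P.BB := by
    intro z hz
    refine ⟨fun q hq h1 => ?_, fun h1 => ?_⟩
    · exact ((hTz z hz).1 (Metric.mem_ball_self hε1)).2 (mem_Sbar.2 ⟨P.M, q, hq, h1⟩)
    · have h2 := (hBr z h1).1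
      rw [dist_comm] at h2
      exact hbD ((hTz z hz).1 (Metric.mem_ball.2 (h2.trans_le hεε))).1
  have t4 : ∃ p ∈ Uk D (A.δ n) B.o B.qb K (B.X k0 n (j + 1) ω).E, (fat B.o p ∩ T).Nonempty := by
    obtain ⟨p, hp, hwp⟩ := Pool.Agent.H42.Q1.exists_fat B.o (wpt w) K
    exact ⟨p, g6 k0 (j + 1) ω hω (hfar hAd) p hp ⟨wpt w, hwp, wpt_mem w⟩, wpt w, hwp, hwT⟩
  obtain ⟨k1, -, k3⟩ := hloc T (ε / 2) hTc hxT (by linarith) t1 t2 t3 t4 (ucell B.o K P.z) (kapd d)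
  rw [← sdj_eq hT P K] at k3
  refine ⟨?_, k3 hwT⟩
  rw [sdj_eq hT P K]
  exact k1

end

end Pool.Agent.H5.M7
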