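import Mathlib
import Pool.Agent.H5.M7.FillD
import Pool.Agent.H5.M7.StateB

set_option autoImplicit false
open Finset Filter Topology

/-! # Regularity of the data of a state with target `Q M`

`flat_conn` : chains of adjacent cells have connected unions of unit cells; `ok_state` : `SD.Ok`. -/

namespace Pool.Agent.H5.M7

open Pool.Agent.H75.Perc (dir dir_cases)
open Pool.Agent.H75.Perc Pool.Agent.H75.TwoArm Pool.Agent.H75.Four Pool.Agent.H69.Q1
open Pool.Agent.H81.Q1 (pt DDomain Approx IsJordanDomain IsArcs)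
open Pool.Agent.Q1.M3
open Pool.Agent.Q1.M3.Pg hiding Gen
open Pool.Agent.H82.Q1.M7 (Sbar uv Win IsEnd Par StPar FarS Adm tside SDX SDj GX ucell)
open Pool.Agent.H53.Q1 (rect_sub_fat rect_sub_cfat cfat_eq fat_eq comp_eq exists_rect)
open Pool.Agent.Q1.M4 (Adj4 Conn4 rect Reg Om mem_Om Om_subset)

/-- adjacent cells share a unit cell -/
lemma fc_of_adj {o : ℂ} {K : ℕ} {p q : Cell} (hp : p.1 ≤ K) (hq : q.1 ≤ K) (h : AdjC o p q) :
    ∃ c, c ∈ fc K p ∧ c ∈ fc K q := by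
  obtain ⟨z, hz, hz'⟩ := h
  rw [fat_eq o hp] at hz
  rw [fat_eq o hq] at hz'
  have hm := mesh_pos (K + 1)
  have key : ∀ (a s : ℝ) (l h l' h' : ℤ), gx K a l < s → s < gx K a h → gx K a l' < s →
      s < gx K a h' → ∃ N : ℤ, (l ≤ N ∧ N < h) ∧ (l' ≤ N ∧ N < h') := by
    intro a s l h l' h' h1 h2 h3 h4
    have e1 : l < h := (gx_mono K a).lt_iff_lt.1 (h1.trans h2)
    have e2 : l' < h := (gx_mono K a).lt_iff_lt.1 (h3.trans h2)
    have e3 : l < h' := (gx_mono K a).lt_iff_lt.1 (h1.trans h4)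
    have e4 : l' < h' := (gx_mono K a).lt_iff_lt.1 (h3.trans h4)
    exact ⟨max l l', by omega, by omega⟩
  obtain ⟨N, hN, hN'⟩ := key _ _ _ _ _ _ hz.1.1 hz.1.2 hz'.1.1 hz'.1.2
  obtain ⟨M, hM, hM'⟩ := key _ _ _ _ _ _ hz.2.1 hz.2.2 hz'.2.1 hz'.2.2
  exact ⟨(N, M), mem_fc.2 ⟨hN, hM⟩, mem_fc.2 ⟨hN', hM'⟩⟩

/-- unit cells of cells joined by a chain of adjacent cells of `F` are joined -/
lemma j4_chain {o : ℂ} {K : ℕ} {F : Finset Cell} (hl : ∀ q ∈ F, q.1 ≤ K) {q q' : Cell}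
    (hq : q ∈ F)
    (h : Relation.ReflTransGen (fun x y => AdjC o x y ∧ x ∈ F ∧ y ∈ F) q q') :
    ∀ c ∈ fc K q, ∀ c' ∈ fc K q', J4 (flat K F : Set (ℤ × ℤ)) c c' := by
  have sub : ∀ {p : Cell}, p ∈ F → (fc K p : Set (ℤ × ℤ)) ⊆ (flat K F : Set (ℤ × ℤ)) := by
    intro p hp
    exact_mod_cast fc_subset_flat hp
  intro c hc
  induction h with
  | refl =>
    intro c' hc'
    exact J4.mono (sub hq) (fc_conn K q c hc c' hc')
  | @tail y w _ hyw ih =>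
    intro c' hc'
    obtain ⟨ha, hy, hw⟩ := hyw
    obtain ⟨e, he, he'⟩ := fc_of_adj (hl y hy) (hl w hw) ha
    exact (ih e he).trans (J4.mono (sub hw) (fc_conn K w e he' c' hc'))

/-- **Connected families.** -/
theorem flat_conn {o : ℂ} {K : ℕ} {F : Finset Cell} (hl : ∀ q ∈ F, q.1 ≤ K)
    (h : ∀ q ∈ F, ∀ q' ∈ F,
      Relation.ReflTransGen (fun x y => AdjC o x y ∧ x ∈ F ∧ y ∈ F) q q') :
    Conn4 (flat K F : Set (ℤ × ℤ)) := by
  intro c hc c' hc'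
  obtain ⟨q, hq, h1⟩ := mem_flat.1 (by exact_mod_cast hc)
  obtain ⟨q', hq', h2⟩ := mem_flat.1 (by exact_mod_cast hc')
  exact j4_chain hl hq (h q hq q' hq') c h1 c' h2

lemma adjC_symm {o : ℂ} {p q : Cell} (h : AdjC o p q) : AdjC o q p := by
  obtain ⟨z, h1, h2⟩ := h
  exact ⟨z, h2, h1⟩

lemma chain_symm {o : ℂ} {F : Finset Cell} {q q' : Cell}
    (h : Relation.ReflTransGen (fun x y => AdjC o x y ∧ x ∈ F ∧ y ∈ F) q q') :
    Relation.ReflTransGen (fun x y => AdjC o x y ∧ x ∈ F ∧ y ∈ F) q' q := by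
  induction h with
  | refl => exact Relation.ReflTransGen.refl
  | tail _ h ih => exact Relation.ReflTransGen.head ⟨adjC_symm h.1, h.2.2, h.2.1⟩ ih

/-- The visible cells together with a connected family containing the base cell are connected. -/
theorem uk_union_conn {D : Set ℂ} (hD : Bornology.IsBounded D) {δ : ℝ} {o : ℂ} {qb : Cell} {K : ℕ}
    {E : Finset (ℤ × ℤ)} {C : Finset Cell} (hqb : qb ∈ C)
    (h : ∀ q ∈ C, ∀ q' ∈ C,
      Relation.ReflTransGen (fun x y => AdjC o x y ∧ x ∈ C ∧ y ∈ C) q q') :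
    ∀ q ∈ Uk D δ o qb K E ∪ C, ∀ q' ∈ Uk D δ o qb K E ∪ C,
      Relation.ReflTransGen (fun x y => AdjC o x y ∧ x ∈ Uk D δ o qb K E ∪ C ∧
        y ∈ Uk D δ o qb K E ∪ C) q q' := by
  have key : ∀ q ∈ Uk D δ o qb K E ∪ C,
      Relation.ReflTransGen (fun x y => AdjC o x y ∧ x ∈ Uk D δ o qb K E ∪ C ∧
        y ∈ Uk D δ o qb K E ∪ C) q qb := by
    intro q hq
    rcases mem_union.1 hq with h1 | h1
    · refine ConnC.induct (P := fun x => Relation.ReflTransGen (fun x y => AdjC o x y ∧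
        x ∈ Uk D δ o qb K E ∪ C ∧ y ∈ Uk D δ o qb K E ∪ C) x qb) ?_ ?_ ((mem_Uk hD).1 h1)
      · intro x hx hS ha
        exact Relation.ReflTransGen.single ⟨ha, mem_union_left _
          ((mem_Uk hD).2 (ConnC.single hx hS ha)), mem_union_right _ hqb⟩
      · intro x y hx hS ha hc ih
        exact Relation.ReflTransGen.head ⟨ha, mem_union_left _
          ((mem_Uk hD).2 (ConnC.cons hx hS ha hc)), mem_union_left _ ((mem_Uk hD).2 hc)⟩ ih
    · exact Relation.ReflTransGen.mono (fun x y hxy => ⟨hxy.1, mem_union_right _ hxy.2.1,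
        mem_union_right _ hxy.2.2⟩) _ _ (h q h1 qb hqb)
  intro q hq q' hq'
  exact (key q hq).trans (chain_symm (key q' hq'))

/-- the unit cell of a point of an open cell -/
lemma ucell_mem {o : ℂ} {K : ℕ} {q : Cell} (hq : q.1 ≤ K) {z : ℂ} (hz : z ∈ fat o q) :
    ucell o K z ∈ fc K q := by
  rw [fat_eq o hq] at hz
  have hm := mesh_pos (K + 1)
  have key : ∀ (a s : ℝ) (l h : ℤ), gx K a l < s → s < gx K a h →
      l ≤ ⌊(s - a) / mesh (K + 1)⌋ ∧ ⌊(s - a) / mesh (K + 1)⌋ < h := by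
    intro a s l h h1 h2
    unfold gx at h1 h2
    constructor
    · rw [Int.le_floor, le_div_iff₀ hm]; linarith
    · rw [Int.floor_lt, div_lt_iff₀ hm]; linarith
  rw [mem_fc]
  exact ⟨key _ _ _ _ hz.1.1 hz.1.2, key _ _ _ _ hz.2.1 hz.2.2⟩

/-- the point is in its unit cell -/
lemma mem_rect_ucell (o : ℂ) (K : ℕ) (z : ℂ) : z ∈ rect (gx K o.re) (gx K o.im) (ucell o K z) := by
  have hm := mesh_pos (K + 1)
  have e : ∀ x y : ℝ, gx K y ⌊(x - y) / mesh (K + 1)⌋ ≤ x ∧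
      x ≤ gx K y (⌊(x - y) / mesh (K + 1)⌋ + 1) := by
    intro x y
    have h1 := Int.floor_le ((x - y) / mesh (K + 1))
    have h2 := Int.lt_floor_add_one ((x - y) / mesh (K + 1))
    rw [le_div_iff₀ hm] at h1
    rw [div_lt_iff₀ hm] at h2
    unfold gx
    push_cast
    constructor <;> nlinarith
  exact ⟨e _ _, e _ _⟩

section

variable {D : Set ℂ} {a b : ℂ} {A₁ A₂ : Set ℂ} {A : Approx D a b A₁ A₂} {r0 : ℝ} {B : Base A r0}
  {k0 n j K : ℕ} {ω : Finset (ℤ × ℤ)} {ρ : ℝ}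

lemma kapd_dir {d : ℤ × ℤ} (hd : d ∈ dirs) : dir (kapd d - 1) = d := by
  unfold dirs at hd
  simp only [mem_insert, mem_singleton] at hd
  rcases hd with rfl | rfl | rfl | rfl <;> decide

/-- **The data of the state with target `Q M` are regular.** -/
theorem ok_state (hJ : IsJordanDomain D) (hA : IsArcs D a b A₁ A₂) (P : Par B)
    (hk : k0 < K) (hK : ∀ q ∈ B.Q P.M, q.1 < K) (hB : P.BB.1 < K) (hρ : 0 < ρ) :
    ∀ᶠ n in atTop, ∀ ω, ω ⊆ (X0 A n).E → ∀ j, FarS B n ρ k0 (j + 1) ω →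
      (SDj B P k0 K n j ω).s.1 ∈ (SDj B P k0 K n j ω).P \ (SDj B P k0 K n j ω).H2 →
      (SDj B P k0 K n j ω).Ok := by
  obtain ⟨haD, hbD, -, hA1, hne⟩ := arcs_facts hJ hA
  have hDb := hJ.2.2.1
  have hDc : IsPreconnected Dᶜ := (Pool.Agent.H42.MJ.jTop hJ).compl
  have e1 : ∀ᶠ n in atTop, A.δ n < mesh (K + 1) / 3 :=
    A.lim.eventually_lt_const (by have := mesh_pos (K + 1); positivity)
  filter_upwards [e1, reg_ev (B := B) hDb haD hbD hρ k0, nfin (B := B) hbD hρ,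
    free_bar hJ.1 hA1 hne B P.M hρ] with n g1 g2 g3 g4 ω hω j hAd hmem
  obtain ⟨v, d, q0, hT⟩ := exists_tipF hDb (g2 (j + 1) ω hω hAd) hω
    (g3 k0 (j + 1) ω hω hAd)
  rw [sdj_eq hT P K] at hmem ⊢
  have hq0 := (mem_Uk hDb).1 hT.hq0
  have hq0l : q0.1 = k0 := hq0.head.1
  have hδ3 : 3 * A.δ n ≤ mesh (K + 1) := by linarith
  have hbar := g4 k0 (j + 1) ω hω hAd
  have hUK : ∀ q ∈ Uk D (A.δ n) B.o B.qb K (B.X k0 n (j + 1) ω).E, q.1 = K := fun q hq =>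
    ((mem_Uk hDb).1 hq).head.1
  have hUle : ∀ q ∈ Uk D (A.δ n) B.o B.qb K (B.X k0 n (j + 1) ω).E ∪ B.Q P.M, q.1 ≤ K := by
    intro q hq
    rcases mem_union.1 hq with h | h
    · exact (hUK q h).le
    · exact (hK q h).le
  have hUD : ∀ q ∈ Uk D (A.δ n) B.o B.qb K (B.X k0 n (j + 1) ω).E ∪ B.Q P.M, cfat B.o q ⊆ D := by
    intro q hq
    rcases mem_union.1 hq with h | h
    · exact ((mem_Uk hDb).1 h).head.2.1
    · exact (B.subQ P.M q h).trans Set.inter_subset_left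
  have hqb : B.qb ∈ B.Q P.M := Q_mono B (Nat.zero_le _) B.qb_mem
  obtain ⟨hz1, qz, hqz, hz2⟩ := P.hz
  refine ⟨⟨hUK, hK, hB⟩, ?_, ?_, ?_, ?_, ?_, (Finset.mem_sdiff.1 hmem).1,
    (Finset.mem_sdiff.1 hmem).2, ?_⟩
  · exact fill_conn (flat_conn hUle (uk_union_conn hDb hqb (B.connQ P.M)))
  · exact flat_conn (fun q hq => (hK q hq).le) (B.connQ P.M)
  · exact mem_flat.2 ⟨qz, hqz, ucell_mem (hK qz hqz).le hz2⟩
  · exact ucell_mem hB.le hz1
  · refine ⟨ucell B.o K b, ucell_mem hB.le (P.ball (Metric.mem_ball_self (B.rpos _))), fun h => ?_⟩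
    exact hbD (PP_D hDc hDb hUle hUD _ h (mem_rect_ucell B.o K b))
  · have h1 : outc (box (A.δ n) B.o K v - (2 : ℤ) • d, kapd d) = box (A.δ n) B.o K v - d := by
      unfold outc
      simp only
      rw [kapd_dir hT.hd, two_smul]
      abel
    change outc (box (A.δ n) B.o K v - (2 : ℤ) • d, kapd d) ∉
      PP K (Uk D (A.δ n) B.o B.qb K (B.X k0 n (j + 1) ω).E) (B.Q P.M)
    rw [h1]
    refine tip_out (A.pos n) hδ3 (Pool.Agent.H53.Q1.Base_gen2 B K n) (q := q0) (by omega) hT.hd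
      hT.hv (hT.out q0 hT.hq0) hUK hK ?_
    have hE := Pool.Agent.H53.Q1.Base_E_eq (k0 := k0) B hω (j + 1)
    have hnf : Pool.Agent.H53.Q1.NF (B.X k0 n (j + 1) ω).E v := fun h2 =>
      hT.e0 (h2 (add_dir_star1 hT.hd).1)
    rw [hE] at hbar hnf ⊢
    exact Pool.Agent.H53.Q1.Base_notMem_P B hDb hδ3 (fun q hq => (hK q hq).le) hbar hnf

end

end Pool.Agent.H5.M7
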