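import Mathlib
import Pool.Agent.H5.M7.OkC

set_option autoImplicit false
open Finset Filter Topology

/-! # The index of the window vertex on the boundary walk -/

namespace Pool.Agent.H5.M7

open Pool.Agent.H75.Perc (dir dir_cases)
open Pool.Agent.H75.Perc Pool.Agent.H75.TwoArm Pool.Agent.H75.Four Pool.Agent.H69.Q1
open Pool.Agent.H81.Q1 (pt DDomain Approx IsJordanDomain IsArcs)
open Pool.Agent.Q1.M3
open Pool.Agent.Q1.M3.Pg hiding Gen
open Pool.Agent.H82.Q1.M7 (Sbar uv Win IsEnd Par StPar FarS Adm tside SDX SDj GX ucell IsB nGX)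
open Pool.Agent.Q1.M4 (Adj4 Conn4 rect Reg Om mem_Om Om_subset nextSide IsSide tail dir_congr)

/-- **The index of a flat vertex of the run.** -/
theorem exists_nb {d : SD} (h : d.Ok) {c : ℤ × ℤ} {k : ℤ} (h1 : c ∈ d.R) (h2 : c - dir k ∈ d.R)
    (h3 : c + dir (k - 1) ∈ d.H) (h4 : c - dir k + dir (k - 1) ∈ d.H) :
    ∃ nb, d.n1 < nb ∧ nb < d.n2 ∧ d.n2 ≤ d.N ∧ ((nextSide d.R)^[nb] d.s).1 = c ∧
      (((nextSide d.R)^[nb] d.s).2 - k) % 4 = 0 ∧
      (((nextSide d.R)^[nb - 1] d.s).2 - k) % 4 = 0 := by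
  have hM := h.mark
  have hHR : ∀ c ∈ d.H, c ∉ d.R := fun c hc hcR =>
    (Finset.mem_sdiff.1 (SD.R_sub hcR)).2 (SD.H_sub_H2 hc)
  have s1 : IsSide d.R (c, k) := ⟨h1, hHR _ h3⟩
  have s0 : IsSide d.R (c - dir k, k) := ⟨h2, hHR _ h4⟩
  obtain ⟨n, hn, n1, n2⟩ := hM.walk.all _ s1
  obtain ⟨n', hn', n1', n2'⟩ := hM.walk.all _ s0
  simp only at n1 n2 n1' n2'
  have o1 : outc ((nextSide d.R)^[n] d.s) = c + dir (k - 1) := by
    unfold outc
    rw [n1, dir_congr (k := ((nextSide d.R)^[n] d.s).2 - 1) (k' := k - 1) (by omega)]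
  have o0 : outc ((nextSide d.R)^[n'] d.s) = c - dir k + dir (k - 1) := by
    unfold outc
    rw [n1', dir_congr (k := ((nextSide d.R)^[n'] d.s).2 - 1) (k' := k - 1) (by omega)]
  have r1 := (hM.run n hn).1 (by rw [o1]; exact h3)
  have r0 := (hM.run n' hn').1 (by rw [o0]; exact h4)
  -- the next side
  have e1 : dir ((nextSide d.R)^[n'] d.s).2 = dir k := dir_congr n2'
  have e2 : dir (((nextSide d.R)^[n'] d.s).2 - 1) = dir (k - 1) := dir_congr (by omega)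
  have hnext : (nextSide d.R)^[n' + 1] d.s = (c, ((nextSide d.R)^[n'] d.s).2) := by
    have hdef : ∀ t : (ℤ × ℤ) × ℤ, nextSide d.R t =
        if t.1 + dir t.2 + dir (t.2 - 1) ∈ d.R then (t.1 + dir t.2 + dir (t.2 - 1), t.2 - 1)
        else if t.1 + dir t.2 ∈ d.R then (t.1 + dir t.2, t.2) else (t.1, t.2 + 1) := fun t => rfl
    rw [Function.iterate_succ_apply', hdef, n1', e1, e2, sub_add_cancel, if_neg (hHR _ h3),
      if_pos h1]
  rcases Nat.lt_or_ge (n' + 1) d.N with h5 | h5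
  · have e3 : n = n' + 1 := by
      refine hM.walk.inj n hn (n' + 1) h5 ?_ ?_
      · rw [n1, hnext]
      · rw [hnext]; simp only; omega
    subst e3
    exact ⟨n' + 1, by omega, r1.2, hM.le', n1, n2, by rw [Nat.add_sub_cancel]; exact n2'⟩
  · exfalso
    have e3 : n' + 1 = d.N := by omega
    rw [e3, hM.walk.period] at hnext
    have e4 : d.s.1 = c := (Prod.mk.inj hnext).1
    have e5 : d.s.2 + 4 = ((nextSide d.R)^[n'] d.s).2 := (Prod.mk.inj hnext).2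
    have e6 : outc d.s = c + dir (k - 1) := by
      unfold outc
      rw [e4, dir_congr (k := d.s.2 - 1) (k' := k - 1) (by omega)]
    refine h.tipO ?_
    rw [e6]
    exact h.typed.sub (SD.H_sub_H2 h3)

/-! ### The cells at the window vertex -/

/-- strictly inside the unit cell -/
def SI (K : ℕ) (o : ℂ) (c : ℤ × ℤ) (z : ℂ) : Prop :=
  (gx K o.re c.1 < z.re ∧ z.re < gx K o.re (c.1 + 1)) ∧
    (gx K o.im c.2 < z.im ∧ z.im < gx K o.im (c.2 + 1))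

lemma SI.rect {K : ℕ} {o : ℂ} {c : ℤ × ℤ} {z : ℂ} (h : SI K o c z) :
    z ∈ rect (gx K o.re) (gx K o.im) c := ⟨⟨h.1.1.le, h.1.2.le⟩, h.2.1.le, h.2.2.le⟩

lemma SI.ucell {K : ℕ} {o : ℂ} {c : ℤ × ℤ} {z : ℂ} (h : SI K o c z) : ucell o K z = c := by
  have hm := mesh_pos (K + 1)
  have key : ∀ (a s : ℝ) (N : ℤ), gx K a N < s → s < gx K a (N + 1) →
      ⌊(s - a) / mesh (K + 1)⌋ = N := by
    intro a s N h1 h2
    unfold gx at h1 h2
    push_cast at h2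
    rw [Int.floor_eq_iff]
    constructor
    · rw [le_div_iff₀ hm]; linarith
    · rw [div_lt_iff₀ hm]; linarith
  exact Prod.ext (key _ _ _ h.1.1 h.1.2) (key _ _ _ h.2.1 h.2.2)

/-- the cell on the left of the side with tail `g` and direction `k` -/
def lcell (g : ℤ × ℤ) (k : ℤ) : ℤ × ℤ :=
  if k % 4 = 0 then g else if k % 4 = 1 then g - (1, 0)
  else if k % 4 = 2 then g - (1, 1) else g - (0, 1)

lemma tail_lcell (g : ℤ × ℤ) {k k' : ℤ} (h : (k' - k) % 4 = 0) : tail (lcell g k, k') = g := by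
  have e : k' % 4 = k % 4 := by omega
  unfold tail lcell
  simp only [e]
  split_ifs <;> simp

lemma uv_cases (k : ℤ) : (k % 4 = 0 ∧ uv k = 1) ∨ (k % 4 = 1 ∧ uv k = Complex.I) ∨
    (k % 4 = 2 ∧ uv k = -1) ∨ (k % 4 = 3 ∧ uv k = -Complex.I) := by
  unfold uv
  rcases dir_cases k with ⟨a, e⟩ | ⟨a, e⟩ | ⟨a, e⟩ | ⟨a, e⟩ <;> rw [e]
  · exact Or.inl ⟨a, by apply Complex.ext <;> simp⟩
  · exact Or.inr (Or.inl ⟨a, by apply Complex.ext <;> simp⟩)
  · exact Or.inr (Or.inr (Or.inl ⟨a, by apply Complex.ext <;> simp⟩))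
  · exact Or.inr (Or.inr (Or.inr ⟨a, by apply Complex.ext <;> simp⟩))

lemma gx_add1 (K : ℕ) (a : ℝ) (N : ℤ) : gx K a (N + 1) = gx K a N + mesh (K + 1) := by
  unfold gx; push_cast; ring

lemma gx_sub1 (K : ℕ) (a : ℝ) (N : ℤ) : gx K a (N - 1) = gx K a N - mesh (K + 1) := by
  unfold gx; push_cast; ring

lemma gx_neg1 (K : ℕ) (a : ℝ) (N : ℤ) : gx K a (N + -1) = gx K a N - mesh (K + 1) := by
  unfold gx; push_cast; ring

/-- **The four cells at a grid vertex**, in the coordinates of direction `k`. -/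
lemma cells_at (K : ℕ) (o : ℂ) (g : ℤ × ℤ) (k : ℤ) {s t : ℝ} (hs : 0 < s) (hs' : s < mesh (K + 1))
    (ht : 0 < t) (ht' : t < mesh (K + 1)) :
    SI K o (lcell g k) (gpt o K g + ((s : ℂ) + t * Complex.I) * uv k) ∧
    SI K o (lcell g k - dir k) (gpt o K g + (-(s : ℂ) + t * Complex.I) * uv k) ∧
    SI K o (lcell g k + dir (k - 1)) (gpt o K g + ((s : ℂ) - t * Complex.I) * uv k) ∧
    SI K o (lcell g k - dir k + dir (k - 1)) (gpt o K g + (-(s : ℂ) - t * Complex.I) * uv k) := by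
  obtain ⟨g1, g2⟩ := g
  have hg1 : (gpt o K (g1, g2)).re = gx K o.re g1 := rfl
  have hg2 : (gpt o K (g1, g2)).im = gx K o.im g2 := rfl
  rcases dir_cases k with ⟨a, e⟩ | ⟨a, e⟩ | ⟨a, e⟩ | ⟨a, e⟩ <;>
  rcases dir_cases (k - 1) with ⟨b, f⟩ | ⟨b, f⟩ | ⟨b, f⟩ | ⟨b, f⟩ <;>
  first
  | (exfalso; omega)
  | (rcases uv_cases k with ⟨c, u⟩ | ⟨c, u⟩ | ⟨c, u⟩ | ⟨c, u⟩ <;>
     first
     | (exfalso; omega)
     | (rw [e, f, u]
        unfold SI lcell
        simp only [a, Prod.mk_sub_mk, Prod.mk_add_mk, Complex.add_re, Complex.add_im, hg1, hg2]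
        norm_num
        simp only [gx_add1, gx_sub1, gx_neg1]
        refine ⟨⟨⟨?_, ?_⟩, ?_, ?_⟩, ⟨⟨?_, ?_⟩, ?_, ?_⟩, ⟨⟨?_, ?_⟩, ?_, ?_⟩, ⟨?_, ?_⟩, ?_, ?_⟩ <;>
          linarith))

end Pool.Agent.H5.M7
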