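import Mathlib
import Pool.Agent.H5.M7.NbIdx

set_option autoImplicit false
open Finset Filter Topology

/-! # Geometry of the polygons: the statement `GeoAt` -/

namespace Pool.Agent.H5.M7

open Pool.Agent.H75.Perc (dir dir_cases)
open Pool.Agent.H75.Perc Pool.Agent.H75.TwoArm Pool.Agent.H75.Four Pool.Agent.H69.Q1
open Pool.Agent.H81.Q1 (pt DDomain Approx IsJordanDomain IsArcs)
open Pool.Agent.Q1.M3
open Pool.Agent.Q1.M3.Pg hiding Gen
open Pool.Agent.H82.Q1.M7 (Sbar uv Win IsEnd Par StPar FarS Adm tside SDX SDj GX ucell IsB nGX GeoAt)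
open Pool.Agent.H53.Q1 (rect_sub_fat rect_sub_cfat cfat_eq fat_eq comp_eq conn_R)
open Pool.Agent.Q1.M4 (Adj4 Conn4 rect Reg Om mem_Om Om_subset nextSide IsSide tail dir_congr)

/-! ### General facts -/

/-- a point of a closed cell is in one of its unit cells -/
lemma cfat_cell {o : ℂ} {K : ℕ} {q : Cell} (hq : q.1 ≤ K) {z : ℂ} (hz : z ∈ cfat o q) :
    ∃ c ∈ fc K q, z ∈ rect (gx K o.re) (gx K o.im) c := by
  have hm := mesh_pos (K + 1)
  have key : ∀ (a s : ℝ) (l h : ℤ), l < h → gx K a l ≤ s → s ≤ gx K a h →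
      ∃ N, (l ≤ N ∧ N < h) ∧ (gx K a N ≤ s ∧ s ≤ gx K a (N + 1)) := by
    intro a s l h hlh h1 h2
    rcases eq_or_lt_of_le h2 with h3 | h3
    · refine ⟨h - 1, by omega, ?_, ?_⟩
      · rw [h3]; exact ((gx_mono K a) (by omega)).le
      · rw [h3, sub_add_cancel]
    · refine ⟨⌊(s - a) / mesh (K + 1)⌋, ⟨?_, ?_⟩, ?_, ?_⟩
      · unfold gx at h1
        rw [Int.le_floor, le_div_iff₀ hm]; linarith
      · unfold gx at h3
        rw [Int.floor_lt, div_lt_iff₀ hm]; linarith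
      · have h4 := Int.floor_le ((s - a) / mesh (K + 1))
        rw [le_div_iff₀ hm] at h4
        unfold gx; linarith
      · have h4 := Int.lt_floor_add_one ((s - a) / mesh (K + 1))
        rw [div_lt_iff₀ hm] at h4
        unfold gx; push_cast; linarith
  rw [cfat_eq o hq] at hz
  obtain ⟨N, hN, hN'⟩ := key _ _ _ _ (lo_lt_hi _ _) hz.1.1 hz.1.2
  obtain ⟨M, hM, hM'⟩ := key _ _ _ _ (lo_lt_hi _ _) hz.2.1 hz.2.2
  exact ⟨(N, M), mem_fc.2 ⟨hN, hM⟩, hN', hM'⟩

lemma gpt_fine {o : ℂ} {k K : ℕ} (h : k ≤ K) (m : ℤ × ℤ) :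
    gpt o K ((3 : ℤ) ^ (K - k) • m) = gpt o k m := by
  have e : mesh (k + 1) = 3 ^ (K - k) * mesh (K + 1) := by
    have h1 := mesh_le h
    have h2 : mesh (k + 1) = mesh k / 3 := by unfold mesh; rw [pow_succ]; ring
    rw [h2, h1]; ring
  obtain ⟨x, y⟩ := m
  unfold gpt
  simp only [Prod.smul_mk, smul_eq_mul]
  push_cast
  rw [e]
  apply Complex.ext <;> simp only <;> ring

section

variable {D : Set ℂ} {a b : ℂ} {A₁ A₂ : Set ℂ} {A : Approx D a b A₁ A₂} {r0 : ℝ} {B : Base A r0}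
  {k0 n j K : ℕ} {ω : Finset (ℤ × ℤ)} {ρ : ℝ} (w : Win B)

lemma gpt_gv (h : w.k1 ≤ K) : gpt B.o K (w.gv K 0) = w.p := by
  unfold Win.gv Win.p
  rw [gpt_fine h, zero_smul, add_zero]

/-- points inside the barrier cell -/
lemma win_fat {s t : ℝ} (hs : |s| < 2 * w.l) (ht : 0 < t) (ht' : t < 2 * w.l) :
    w.p + ((s : ℂ) - t * Complex.I) * uv w.k ∈ fat B.o w.q := by
  set r := min (2 * w.l - |s|) (min t (2 * w.l - t)) with hr
  have hr0 : 0 < r := lt_min (by linarith) (lt_min ht (by linarith))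
  have r1 : r ≤ 2 * w.l - |s| := min_le_left _ _
  have r2 : r ≤ t := (min_le_right _ _).trans (min_le_left _ _)
  have r3 : r ≤ 2 * w.l - t := (min_le_right _ _).trans (min_le_right _ _)
  refine ball_fat (o := B.o) (q := w.q) (r := r) ?_ (Metric.mem_ball_self hr0)
  intro z hz
  set u := (z - w.p) / uv w.k with hu
  have e : z = w.p + u * uv w.k := by
    rw [hu, div_mul_cancel₀ _ (uv_ne _)]; ring
  have hn : ‖u - ((s : ℂ) - t * Complex.I)‖ < r := by
    rw [Metric.mem_ball, dist_eq_norm, e] at hz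
    have e2 : w.p + u * uv w.k - (w.p + ((s : ℂ) - t * Complex.I) * uv w.k) =
        (u - ((s : ℂ) - t * Complex.I)) * uv w.k := by ring
    rw [e2, norm_mul, norm_uv, mul_one] at hz
    exact hz
  have h1 := (Complex.abs_re_le_norm _).trans_lt hn
  have h2 := (Complex.abs_im_le_norm _).trans_lt hn
  have g1 : (u - ((s : ℂ) - t * Complex.I)).re = u.re - s := by simp
  have g2 : (u - ((s : ℂ) - t * Complex.I)).im = u.im + t := by simp
  rw [g1] at h1
  rw [g2, abs_lt] at h2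
  have h4 : |u.re| < 2 * w.l := by
    have := abs_add_le (u.re - s) s
    rw [sub_add_cancel] at this
    linarith
  have h3 := w.dn u.re (-u.im) h4 (by linarith) (by linarith)
  have e3 : (u.re : ℂ) - ((-u.im : ℝ) : ℂ) * Complex.I = u := by
    push_cast
    rw [neg_mul, sub_neg_eq_add, Complex.re_add_im]
  rw [e3] at h3
  rw [e]
  exact h3

/-- The closed disc of the window. -/
def wdisc : Set ℂ := (fun u : ℂ => w.p + uv w.k * u) '' Metric.closedBall 0 w.l

lemma wdisc_compact : IsCompact (wdisc w) := (isCompact_closedBall _ _).image (by fun_prop)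

lemma wdisc_D : wdisc w ⊆ D := by
  rintro z ⟨u, hu, rfl⟩
  rw [Metric.mem_closedBall, dist_zero_right] at hu
  have hl := w.l0
  have h1 := Complex.abs_re_le_norm u
  have h2 := Complex.abs_im_le_norm u
  have := win_box w u.re u.im (by linarith) (by linarith)
  rw [Complex.re_add_im, mul_comm] at this
  exact this

/-- The open half disc of the window. -/
def whalf : Set ℂ := (fun u : ℂ => w.p + uv w.k * u) '' {u | ‖u‖ < w.l ∧ 0 < u.im}

lemma whalf_pre : IsPreconnected (whalf w) := by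
  have h : {u : ℂ | ‖u‖ < w.l ∧ 0 < u.im} = Metric.ball 0 w.l ∩ {u : ℂ | 0 < u.im} := by
    ext u
    simp
  have hc : Convex ℝ {u : ℂ | ‖u‖ < w.l ∧ 0 < u.im} := by
    rw [h]
    exact (convex_ball _ _).inter ((convex_Ioi (0 : ℝ)).linear_preimage Complex.imLm)
  exact hc.isPreconnected.image _ (by fun_prop)

lemma whalf_sub : whalf w ⊆ wdisc w := by
  rintro z ⟨u, hu, rfl⟩
  exact ⟨u, by rw [Metric.mem_closedBall, dist_zero_right]; exact hu.1.le, rfl⟩

lemma whalf_up : whalf w ⊆ D \ Sbar B := by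
  rintro z ⟨u, hu, rfl⟩
  have hl := w.l0
  have h1 := Complex.abs_re_le_norm u
  have h2 := Complex.abs_im_le_norm u
  rw [abs_of_pos hu.2] at h2
  have := w.up u.re u.im (by linarith [hu.1]) hu.2 (by linarith [hu.1])
  rw [Complex.re_add_im, mul_comm] at this
  exact this

lemma wpt_half : wpt w ∈ whalf w := by
  have hl := w.l0
  refine ⟨((w.l / 2 : ℝ) : ℂ) * Complex.I, ⟨?_, ?_⟩, ?_⟩
  · rw [norm_mul, Complex.norm_I, mul_one, Complex.norm_real, Real.norm_eq_abs,
      abs_of_pos (by positivity)]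
    linarith
  · simp; linarith
  · unfold wpt; ring

lemma wdisc_dist {z : ℂ} (hz : z ∈ wdisc w) : dist z w.p ≤ w.l := by
  obtain ⟨u, hu, rfl⟩ := hz
  rw [Metric.mem_closedBall, dist_zero_right] at hu
  rw [dist_eq_norm, add_sub_cancel_left, norm_mul, norm_uv, one_mul]
  exact hu

/-- the tail of the tip side is near the tip -/
lemma tip_dist {δ : ℝ} (hg : Gen2 K B.o δ) {v d : ℤ × ℤ} (hd : d ∈ dirs)
    (κ : ℤ) : dist (gpt B.o K (tail (box δ B.o K v - (2 : ℤ) • d, κ))) (pt δ v) ≤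
      6 * mesh (K + 1) := by
  have hm := mesh_pos (K + 1)
  obtain ⟨hb1, hb2⟩ := box_bounds hg v
  obtain ⟨e1, e2, he, h1, h2, h3, h4⟩ : ∃ e1 e2 : ℤ,
      tail (box δ B.o K v - (2 : ℤ) • d, κ) = box δ B.o K v + (e1, e2) ∧ -2 ≤ e1 ∧ e1 ≤ 3 ∧
      -2 ≤ e2 ∧ e2 ≤ 3 := by
    obtain ⟨f1, f2, hf, hf1, hf2, hf3, hf4⟩ : ∃ f1 f2 : ℤ,
        tail (box δ B.o K v - (2 : ℤ) • d, κ) = box δ B.o K v - (2 : ℤ) • d + (f1, f2) ∧
        0 ≤ f1 ∧ f1 ≤ 1 ∧ 0 ≤ f2 ∧ f2 ≤ 1 := by
      unfold tail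
      split_ifs
      · exact ⟨0, 0, by simp, by norm_num⟩
      · exact ⟨1, 0, by simp, by norm_num⟩
      · exact ⟨1, 1, by simp, by norm_num⟩
      · exact ⟨0, 1, by simp, by norm_num⟩
    rw [hf]
    unfold dirs at hd
    simp only [mem_insert, mem_singleton] at hd
    rcases hd with rfl | rfl | rfl | rfl
    · exact ⟨f1 - 2, f2, by ext <;> simp <;> ring, by omega, by omega, by omega,
        by omega⟩
    · exact ⟨f1, f2 - 2, by ext <;> simp <;> ring, by omega, by omega, by omega,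
        by omega⟩
    · exact ⟨f1 + 2, f2, by ext <;> simp <;> ring, by omega, by omega, by omega,
        by omega⟩
    · exact ⟨f1, f2 + 2, by ext <;> simp <;> ring, by omega, by omega, by omega,
        by omega⟩
  rw [he]
  generalize box δ B.o K v = c at *
  obtain ⟨c1, c2⟩ := c
  have gadd : ∀ (a : ℝ) (N M : ℤ), gx K a (N + M) = gx K a N + M * mesh (K + 1) := by
    intro a N M; unfold gx; push_cast; ring
  have hre : (gpt B.o K ((c1, c2) + (e1, e2))).re = gx K B.o.re c1 + e1 * mesh (K + 1) := by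
    rw [← gadd]; rfl
  have him : (gpt B.o K ((c1, c2) + (e1, e2))).im = gx K B.o.im c2 + e2 * mesh (K + 1) := by
    rw [← gadd]; rfl
  have f1 : (-2 : ℝ) ≤ e1 := by exact_mod_cast h1
  have f2 : (e1 : ℝ) ≤ 3 := by exact_mod_cast h2
  have f3 : (-2 : ℝ) ≤ e2 := by exact_mod_cast h3
  have f4 : (e2 : ℝ) ≤ 3 := by exact_mod_cast h4
  have g1 := gadd B.o.re c1 1
  have g2 := gadd B.o.im c2 1
  push_cast at g1 g2
  simp only at hb1 hb2
  rw [Complex.dist_eq]
  refine (Complex.norm_le_abs_re_add_abs_im _).trans ?_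
  rw [Complex.sub_re, Complex.sub_im, hre, him]
  have a1 : |gx K B.o.re c1 + e1 * mesh (K + 1) - (pt δ v).re| ≤ 3 * mesh (K + 1) := by
    rw [abs_le]; constructor <;> nlinarith
  have a2 : |gx K B.o.im c2 + e2 * mesh (K + 1) - (pt δ v).im| ≤ 3 * mesh (K + 1) := by
    rw [abs_le]; constructor <;> nlinarith
  linarith

end

end Pool.Agent.H5.M7
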