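import Mathlib
import Pool.Agent.H5.M7.StateB
import Pool.Agent.H5.M7.GeoW
import Pool.Agent.H96.M7.Chart

set_option autoImplicit false
open Finset Filter Topology

/-! # The first state: the tip is joined to `φ (i e)`

`tip_state` : every preconnected set containing the point behind the tip, which keeps a distance from
the complement of `D`, the explored part and the barrier, is in the region. `stTip` : **[TIP]**. -/

namespace Pool.Agent.H5.M7

open Pool.Agent.H75.Perc Pool.Agent.H75.TwoArm Pool.Agent.H75.Four Pool.Agent.H69.Q1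
open Pool.Agent.H81.Q1 (pt DDomain Approx IsJordanDomain IsArcs)
open Pool.Agent.Q1.M3
open Pool.Agent.Q1.M3.Pg hiding Gen
open Pool.Agent.H82.Q1 (IsChart HH cHH)
open Pool.Agent.H82.Q1.M7 (Sbar uv Win IsEnd Par StPar FarS Adm tside SDX SDj GX ucell)
open Pool.Agent.H53.Q1 (rect_sub_fat rect_sub_cfat cfat_eq fat_eq comp_eq conn_subset conn_cells
  start_mem Om_mono)
open Pool.Agent.Q1.M4 (rect Om mem_Om tail closure_Om isPreconnected_Om)

/-! ### The row of cells behind the tip -/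

/-- **The row.** The region contains a connected open set with the point `x` and the tail of the tip
side in its closure. -/
lemma row_set {X Y : ℤ → ℝ} (hX : StrictMono X) (hY : StrictMono Y) {c d : ℤ × ℤ} (hd : d ∈ dirs)
    {t0 : ℤ} (ht0 : 2 ≤ t0) {R : Finset (ℤ × ℤ)} (hR : ∀ t, 2 ≤ t → t ≤ t0 → c - t • d ∈ R) :
    ∃ U : Set ℂ, IsPreconnected U ∧ U ⊆ Om R X Y ∧
      (∀ z ∈ U, ∃ t, 2 ≤ t ∧ t ≤ t0 ∧ z ∈ rect X Y (c - t • d)) ∧
      rect X Y (c - t0 • d) ⊆ closure U ∧ rect X Y (c - (2 : ℤ) • d) ⊆ closure U := by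
  classical
  set A : Finset (ℤ × ℤ) := (Finset.Icc 2 t0).image fun t => c - t • d with hA
  have hmem : ∀ t, 2 ≤ t → t ≤ t0 → c - t • d ∈ A := fun t h1 h2 =>
    mem_image.2 ⟨t, mem_Icc.2 ⟨h1, h2⟩, rfl⟩
  have h0 := hmem t0 ht0 le_rfl
  have h2 := row_comp hd ht0 hmem
  have h1 := self_mem_comp h0
  have hsub : comp A (c - t0 • d) ⊆ R := by
    intro u hu
    obtain ⟨t, ht, rfl⟩ := mem_image.1 (comp_subset _ _ hu)
    rw [mem_Icc] at ht
    exact hR t ht.1 ht.2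
  refine ⟨Om (comp A (c - t0 • d)) X Y, isPreconnected_Om hX hY (comp_conn h0),
    Om_mono hsub X Y, ?_, ?_, ?_⟩
  · intro z hz
    obtain ⟨u, hu, hz2⟩ := Pool.Agent.Q1.M4.Om_subset _ _ _ hz
    obtain ⟨t, ht, rfl⟩ := mem_image.1 (comp_subset _ _ hu)
    rw [mem_Icc] at ht
    exact ⟨t, ht.1, ht.2, hz2⟩
  · rw [closure_Om hX hY]
    exact fun z hz => ⟨_, h1, hz⟩
  · rw [closure_Om hX hY]
    exact fun z hz => ⟨_, h2, hz⟩

/-- the tail of a side is in the closed cell -/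
lemma tail_rect {X Y : ℤ → ℝ} (hX : StrictMono X) (hY : StrictMono Y) (s : (ℤ × ℤ) × ℤ) :
    (⟨X (tail s).1, Y (tail s).2⟩ : ℂ) ∈ rect X Y s.1 := by
  obtain ⟨⟨c1, c2⟩, κ⟩ := s
  have h1 := (hX (show c1 < c1 + 1 by omega)).le
  have h2 := (hY (show c2 < c2 + 1 by omega)).le
  unfold tail
  split_ifs <;> simp only [Prod.mk_add_mk, add_zero]
  · exact ⟨⟨le_rfl, h1⟩, le_rfl, h2⟩
  · exact ⟨⟨h1, le_rfl⟩, le_rfl, h2⟩
  · exact ⟨⟨h1, le_rfl⟩, h2, le_rfl⟩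
  · exact ⟨⟨le_rfl, h1⟩, h2, le_rfl⟩

/-! ### The states -/

section

variable {D : Set ℂ} {a b : ℂ} {A₁ A₂ : Set ℂ} {A : Approx D a b A₁ A₂} {r0 : ℝ} {B : Base A r0}
  {k0 n j K : ℕ} {ω : Finset (ℤ × ℤ)} {ρ : ℝ}

/-- The point behind the tip and the row of cells at the tip. -/
structure TipAt (B : Base A r0) (P : Par B) (k0 K n j : ℕ) (ω : Finset (ℤ × ℤ)) (m : ℝ)
    (v d : ℤ × ℤ) (q0 : Cell) (x : ℂ) (t0 : ℤ) : Prop where
  tip : TipF B k0 n j ω v d q0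
  mcore : x ∈ core B.o m q0
  near : dist x (pt (A.δ n) v) ≤ 4 * m
  two : 2 ≤ t0
  cell : x ∈ rect (gx K B.o.re) (gx K B.o.im) (box (A.δ n) B.o K v - t0 • d)
  row : ∀ t, 2 ≤ t → t ≤ t0 → ∀ z ∈ rect (gx K B.o.re) (gx K B.o.im)
    (box (A.δ n) B.o K v - t • d), dist z (pt (A.δ n) v) ≤ 5 * m
  mem : ∀ t, 2 ≤ t → t ≤ t0 → box (A.δ n) B.o K v - t • d ∈ (SDj B P k0 K n j ω).R
  grow : ∀ (T : Set ℂ) (ε : ℝ), IsPreconnected T → x ∈ T → 4 * mesh K < ε →
    (∀ z ∈ T, Metric.ball z ε ⊆ D) →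
    (∀ z ∈ T, ∀ u : ℤ × ℤ, dist (pt (A.δ n) u) z < ε → star1 u ⊆ (B.X k0 n (j + 1) ω).E) →
    (∀ z ∈ T, z ∉ Sbar B ∧ z ∉ cfat B.o P.BB) → T ⊆ GX B (SDj B P k0 K n j ω)

/-- **The tip.** -/
theorem tip_state (hJ : IsJordanDomain D) (hab : a ≠ b) (hA : IsArcs D a b A₁ A₂) (w : Win B)
    (hw : w.Side) (hk : B.qb.1 ≤ k0) {ρ' : ℝ} {m : ℝ} (hm0 : 0 < m)
    (hm6 : m ≤ mesh k0 / 6) (hmρ : m ≤ w.l / 20) (hmρ' : m ≤ ρ' / 4) :
    ∃ r > 0, ∀ P : Par B, cfat B.o P.BB ⊆ Metric.ball b r → w.M0 ≤ P.M →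
      ∃ K1, ∀ K, K1 ≤ K → ∀ᶠ n in atTop, ∀ ω, ω ⊆ (X0 A n).E → ∀ j,
        Adm w n ρ' k0 (j + 1) ω → ∃ v d q0 x t0, TipAt B P k0 K n j ω m v d q0 x t0 := by
  obtain ⟨haD, hbD, -, hA1, hne⟩ := arcs_facts hJ hA
  have hbar := barrA B hJ hab hA
  have hDb := hJ.2.2.1
  have hl := w.l0
  obtain ⟨ρ, hρdef⟩ : ∃ ρ, ρ = 2 * w.l := ⟨_, rfl⟩
  have hρ : 2 * w.l ≤ ρ := hρdef.ge
  have hρ0 : 0 < ρ := by linarith
  have hfar : ∀ {n j ω}, Adm w n ρ' k0 (j + 1) ω → FarS B n ρ k0 (j + 1) ω := by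
    intro n j ω h
    rw [hρdef]; exact h.far
  have hmρ : m ≤ ρ / 40 := by rw [hρdef]; linarith
  -- the path
  have hxs : ∃ s ∈ Sbar B, Jn (D ∩ {x | Metric.infDist x (Sbar B) < ρ / 2}) (wpt w) s := by
    have hsub : wseg w ⊆ D ∩ {x | Metric.infDist x (Sbar B) < ρ / 2} := by
      intro z hz
      refine ⟨wseg_D w hz, ?_⟩
      have h1 := Metric.infDist_le_dist_of_mem (x := z) (win_p_S w)
      have h2 := wseg_dist w hz
      change Metric.infDist z (Sbar B) < ρ / 2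
      linarith
    exact ⟨w.p, win_p_S w, Jn.of_preconnected (wseg_pre w) hsub
      (wpt_mem w) ⟨0, ⟨by linarith, by linarith⟩, by simp⟩⟩
  obtain ⟨ε1, hε1, hpath⟩ := core_path hbar (o := B.o) (qb := B.qb) (k0 := k0)
    (fun z hz => mem_Sbar.2 ⟨0, B.qb, B.qb_mem, fat_sub_cfat _ _ hz⟩) hk
    (show 0 < ρ / 2 by linarith) hm0 hm6 (show wpt w ∈ D2 D (Sbar B) a b from hw) hxs
  set ε := min ε1 (min (ρ / 2) m) with hε
  have hε0 : 0 < ε := lt_min hε1 (lt_min (by linarith) hm0)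
  have hεε : ε ≤ ε1 := min_le_left _ _
  have hερ : ε ≤ ρ / 2 := (min_le_right _ _).trans (min_le_left _ _)
  have hεm : ε ≤ m := (min_le_right _ _).trans (min_le_right _ _)
  refine ⟨min ε (ρ / 4), lt_min hε0 (by linarith), fun P hP hM => ?_⟩
  have hBr : ∀ z ∈ cfat B.o P.BB, dist z b < ε ∧ dist z b < ρ / 4 := fun z hz => by
    have := Metric.mem_ball.1 (hP hz)
    exact ⟨this.trans_le (min_le_left _ _), this.trans_le (min_le_right _ _)⟩
  obtain ⟨Kw, hKw⟩ := win_vis w hJ.1 hDb hA1 hne hρ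
  obtain ⟨K2, hK2⟩ := exists_mesh (show 0 < ε / 8 by positivity)
  obtain ⟨K3, hK3⟩ := exists_lev (B.Q P.M)
  refine ⟨Kw + K2 + K3 + P.BB.1 + k0 + 1, fun K hK => ?_⟩
  have hmesh : mesh K < ε / 8 := hK2 K (by omega)
  have hmesh1 : mesh (K + 1) = mesh K / 3 := by unfold mesh; rw [pow_succ]; ring
  have hlev : ∀ q ∈ B.Q P.M, q.1 + 3 ≤ K := fun q hq => (hK3 q hq).trans (by omega)
  have e1 : ∀ᶠ n in atTop, A.δ n < min (m / 2) (mesh (K + 1) / 3) :=
    A.lim.eventually_lt_const (lt_min (by positivity) (by have := mesh_pos (K + 1); positivity))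
  filter_upwards [e1, reg_ev (B := B) hDb haD hbD hρ0 k0, nfin (B := B) hbD hρ0, jn_vert (B := B) hbD haD hab hρ0,
    free_state hJ.1 hDb hA1 hne B hε0, hKw P.M hM K (by omega) hlev]
    with n g1 g2 g3 g4 g5 g6 ω hω j hAd
  have hδ := A.pos n
  have hδm : A.δ n < m / 2 := g1.trans_le (min_le_left _ _)
  have hδ3 : 3 * A.δ n ≤ mesh (K + 1) := by
    have := g1.trans_le (min_le_right _ _)
    linarith
  have hR := g2 (j + 1) ω hω (hfar hAd)
  obtain ⟨v, d, q0, hT⟩ := exists_tipF hDb hR hω (g3 k0 (j + 1) ω hω (hfar hAd))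
  obtain ⟨f1, f2, f3⟩ := tip_far hbD hT hω (hfar hAd) hAd.good
  have hq0 := (mem_Uk hDb).1 hT.hq0
  have hq0l : q0.1 = k0 := hq0.head.1
  have h5m : 5 * m < ρ - A.δ n := by linarith
  obtain ⟨x, t0, hx, hxv, ht0, hrect, hrow, hloc⟩ := tip_local (qb := B.qb)
    (E := (B.X k0 n (j + 1) ω).E) (K := K) hDb hδ hδ3 (Pool.Agent.H53.Q1.Base_gen2 B K n)
    (q := q0) (by omega) hq0.head.2.1 hT.hd hT.hv (hT.out q0 hT.hq0) (hT.free q0 hT.hq0) (m := m)
    (by rw [hmesh1]; linarith) (by rw [hq0l]; exact hm6)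
    (fun k => by rw [hq0l]; have := f3 k; linarith) (C := B.Q P.M) (BB := P.BB)
    (fun q hq => by have := hlev q hq; omega) (by omega)
    (fun q' hq' z hz => lt_of_lt_of_le h5m (f1 z (mem_Sbar.2 ⟨P.M, q', hq', hz⟩)))
    (fun z hz => by
      have h1 := (hBr z hz).2
      have h2 := dist_triangle b z (pt (A.δ n) v)
      rw [dist_comm b z] at h2
      linarith)
  -- the point behind the tip
  have hxq : x ∈ fat B.o q0 := core_ball hx (Metric.mem_ball_self hm0)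
  have hxD : x ∈ D := hq0.head.2.1 (fat_sub_cfat _ _ hxq)
  have hxt : dist x (pt (A.δ n) (vx (B.X k0 n (j + 1) ω).α)) ≤ 4 * m + A.δ n := by
    have h1 := dist_triangle x (pt (A.δ n) v) (pt (A.δ n) (vx (B.X k0 n (j + 1) ω).α))
    have h2 := hT.near
    linarith
  have hfarT : ∀ z ∈ Sbar B, ρ ≤ dist (pt (A.δ n) (vx (B.X k0 n (j + 1) ω).α)) z := by
    rw [B.X_α hω]
    exact (hfar hAd) _ le_rfl
  have hxD2 : x ∈ D2 D (Sbar B) a b := by
    refine ⟨hxD, ?_⟩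
    have h1 := g4 k0 (j + 1) ω (hfar hAd) _ le_rfl
    rw [← B.X_α hω] at h1
    refine h1.trans (Jn.of_preconnected (convex_ball _ ρ).isPreconnected (ball_compl hbD hfarT)
      (Metric.mem_ball_self hρ0) ?_)
    rw [Metric.mem_ball]
    linarith
  have hxinf : ρ / 2 ≤ Metric.infDist x (Sbar B) := by
    refine (Metric.le_infDist (SS_ne B)).2 fun z hz => ?_
    have h1 := hfarT z hz
    have h2 := dist_triangle (pt (A.δ n) (vx (B.X k0 n (j + 1) ω).α)) x z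
    rw [dist_comm _ x] at h2
    linarith
  obtain ⟨T, hTc, hxT, hwT, hTz⟩ := hpath
    (fun q => q ∈ Uk D (A.δ n) B.o B.qb k0 (B.X k0 n j ω).E)
    (fun q hq => ((mem_Uk hDb).1 hq).head.2.1) q0 (connC_uk hDb hT.hq0) x hx hxD2 hxinf
  -- the hypotheses of `tip_local`
  have t1 : ∀ z ∈ T, Metric.ball z (ε / 2) ⊆ D := fun z hz =>
    (Metric.ball_subset_ball (by linarith)).trans ((hTz z hz).1.trans Set.sdiff_subset)
  have t2 : ∀ z ∈ T, ∀ u : ℤ × ℤ, dist (pt (A.δ n) u) z < ε / 2 →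
      star1 u ⊆ (B.X k0 n (j + 1) ω).E := by
    intro z hz u hu
    rcases (hTz z hz).2.2 with ⟨q, hq, -, hzq⟩ | hz3
    · exact free_core hT hδm hq hzq (by linarith)
    · refine g5 k0 (j + 1) ω hω z
        ((Metric.ball_subset_ball hεε).trans ((hTz z hz).1.trans Set.sdiff_subset)) ?_ u hu
      intro t ht
      obtain ⟨s, hs, hs2⟩ := (Metric.infDist_lt_iff (SS_ne B)).1 hz3
      have h1 := (hfar hAd) t ht.le s hs
      have h2 := dist_triangle (pt (A.δ n) (vx ((X0 A n).cor ω t))) z s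
      linarith
  have t3 : ∀ z ∈ T, (∀ q ∈ B.Q P.M, z ∉ cfat B.o q) ∧ z ∉ cfat B.o P.BB := by
    intro z hz
    refine ⟨fun q hq h1 => ?_, fun h1 => ?_⟩
    · exact ((hTz z hz).1 (Metric.mem_ball_self hε1)).2 (mem_Sbar.2 ⟨P.M, q, hq, h1⟩)
    · have h2 := (hBr z h1).1
      rw [dist_comm] at h2
      exact hbD ((hTz z hz).1 (Metric.mem_ball.2 (h2.trans_le hεε))).1
  have t4 : ∃ p ∈ Uk D (A.δ n) B.o B.qb K (B.X k0 n (j + 1) ω).E, (fat B.o p ∩ T).Nonempty := by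
    obtain ⟨p, hp, hwp⟩ := Pool.Agent.H42.Q1.exists_fat B.o (wpt w) K
    exact ⟨p, g6 k0 (j + 1) ω hω (hfar hAd) p hp ⟨wpt w, hwp, wpt_mem w⟩, wpt w, hwp, hwT⟩
  have hmain := hloc T (ε / 2) hTc hxT (by linarith) t1 t2 t3 t4 (ucell B.o K P.z) (kapd d)
  rw [← sdj_eq hT P K] at hmain
  obtain ⟨-, k2, -⟩ := hmain
  refine ⟨v, d, q0, x, t0, hT, hx, hxv, ht0, hrect, hrow, k2, ?_⟩
  intro T' ε' hT' hxT' hε' s1 s2 s3
  have hmin : 4 * mesh K < min ε' (ε / 2) := lt_min hε' (by linarith)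
  have hmain := hloc (T' ∪ T) (min ε' (ε / 2)) (hT'.union x hxT' hxT hTc) (Or.inl hxT') hmin
    (by
      rintro z (hz | hz)
      · exact (Metric.ball_subset_ball (min_le_left _ _)).trans (s1 z hz)
      · exact (Metric.ball_subset_ball (min_le_right _ _)).trans (t1 z hz))
    (by
      rintro z (hz | hz) u hu
      · exact s2 z hz u (hu.trans_le (min_le_left _ _))
      · exact t2 z hz u (hu.trans_le (min_le_right _ _)))
    (by
      rintro z (hz | hz)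
      · exact ⟨fun q hq h => (s3 z hz).1 (mem_Sbar.2 ⟨P.M, q, hq, h⟩), (s3 z hz).2⟩
      · exact t3 z hz)
    (by
      obtain ⟨p, hp, y, hy, hy'⟩ := t4
      exact ⟨p, hp, y, hy, Or.inr hy'⟩) (ucell B.o K P.z) (kapd d)
  rw [← sdj_eq hT P K] at hmain
  exact Set.subset_union_left.trans hmain.2.2

/-! ### The arc -/

/-- the arc of the circle between the top and `z` -/
lemma arc2 {z : ℂ} (hz : 0 < z.im) : ∃ Γ : Set ℂ, IsPreconnected Γ ∧
    ((‖z‖ : ℝ) : ℂ) * Complex.I ∈ Γ ∧ z ∈ Γ ∧ ∀ x ∈ Γ, z.im ≤ x.im ∧ ‖x‖ = ‖z‖ := by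
  have hzn : z.im ≤ ‖z‖ := (le_abs_self _).trans (Complex.abs_im_le_norm z)
  have hz0 : 0 < ‖z‖ := hz.trans_le hzn
  have hn : ‖((‖z‖ : ℝ) : ℂ) * Complex.I‖ = ‖z‖ := by
    rw [norm_mul, Complex.norm_I, mul_one, Complex.norm_real, norm_norm]
  have hseg : ∀ v ∈ segment ℝ (((‖z‖ : ℝ) : ℂ) * Complex.I) z, z.im ≤ v.im ∧ ‖v‖ ≤ ‖z‖ := by
    intro v hv
    constructor
    · have hconv : Convex ℝ {v : ℂ | z.im ≤ v.im} := convex_halfSpace_im_ge z.im
      exact hconv.segment_subset (by simpa using hzn) (le_refl z.im) hv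
    · have h1 := (convex_closedBall (0 : ℂ) ‖z‖).segment_subset
        (by rw [Metric.mem_closedBall, dist_zero_right, hn])
        (by rw [Metric.mem_closedBall, dist_zero_right]) hv
      rwa [Metric.mem_closedBall, dist_zero_right] at h1
  have hne : ∀ v ∈ segment ℝ (((‖z‖ : ℝ) : ℂ) * Complex.I) z, ‖v‖ ≠ 0 := by
    intro v hv h
    have := (hseg v hv).1
    rw [norm_eq_zero] at h
    rw [h] at this
    simp at this
    linarith
  have hcont : ContinuousOn (fun v : ℂ => ((‖z‖ / ‖v‖ : ℝ) : ℂ) * v)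
      (segment ℝ (((‖z‖ : ℝ) : ℂ) * Complex.I) z) := by
    refine ContinuousOn.mul ?_ continuousOn_id
    exact Complex.continuous_ofReal.comp_continuousOn
      (continuousOn_const.div continuous_norm.continuousOn hne)
  refine ⟨(fun v : ℂ => ((‖z‖ / ‖v‖ : ℝ) : ℂ) * v) '' segment ℝ (((‖z‖ : ℝ) : ℂ) * Complex.I) z,
    (convex_segment _ _).isPreconnected.image _ hcont,
    ⟨_, left_mem_segment _ _ _, ?_⟩, ⟨z, right_mem_segment _ _ _, ?_⟩, ?_⟩
  · simp only [hn]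
    rw [div_self hz0.ne', Complex.ofReal_one, one_mul]
  · simp only
    rw [div_self hz0.ne', Complex.ofReal_one, one_mul]
  · rintro _ ⟨v, hv, rfl⟩
    obtain ⟨h1, h2⟩ := hseg v hv
    have h3 : 0 < ‖v‖ := lt_of_le_of_ne (norm_nonneg v) (Ne.symm (hne v hv))
    constructor
    · change z.im ≤ (((‖z‖ / ‖v‖ : ℝ) : ℂ) * v).im
      rw [ray_im]
      have h4 : 1 ≤ ‖z‖ / ‖v‖ := by rw [le_div_iff₀ h3]; linarith
      have h5 : 0 ≤ v.im := hz.le.trans h1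
      nlinarith
    · change ‖((‖z‖ / ‖v‖ : ℝ) : ℂ) * v‖ = ‖z‖
      rw [norm_mul, Complex.norm_real, Real.norm_eq_abs, abs_of_pos (div_pos hz0 h3)]
      field_simp

/-- close to `a` the chart is small -/
lemma psi_near {φ : ℂ → ℂ} (hφ : IsChart D a b φ) {e : ℝ} (he : 0 < e) :
    ∃ s > 0, ∀ z ∈ D, dist z a < s → ‖Pool.Agent.H96.M7.psi φ z‖ < e := by
  have h0 : (0 : ℂ) ∈ cHH := by change (0 : ℝ) ≤ (0 : ℂ).im; simp
  have ha : a ∈ φ '' cHH := ⟨0, h0, hφ.zero⟩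
  have h1 := Pool.Agent.H96.M7.psi_cont hφ a ha
  have h2 : Pool.Agent.H96.M7.psi φ a = 0 := by
    rw [← hφ.zero, Pool.Agent.H96.M7.psi_left hφ h0]
  rw [Metric.continuousWithinAt_iff] at h1
  obtain ⟨s, hs, h3⟩ := h1 e he
  refine ⟨s, hs, fun z hz hza => ?_⟩
  have h4 := h3 (Pool.Agent.H96.M7.chart_sub hφ hz) hza
  rwa [h2, dist_zero_right] at h4

/-- the imaginary part of the chart on a compact part of the domain -/
lemma psi_im {φ : ℂ → ℂ} (hDb : Bornology.IsBounded D) (hφ : IsChart D a b φ) {m : ℝ}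
    (hm : 0 < m) : ∃ η > 0, ∀ z, Metric.ball z m ⊆ D → η ≤ (Pool.Agent.H96.M7.psi φ z).im := by
  have hsub : {z : ℂ | Metric.ball z m ⊆ D} ⊆ D := fun z hz => hz (Metric.mem_ball_self hm)
  have hK : IsCompact {z : ℂ | Metric.ball z m ⊆ D} :=
    Metric.isCompact_of_isClosed_isBounded (isClosed_inner D m) (hDb.subset hsub)
  rcases Set.eq_empty_or_nonempty {z : ℂ | Metric.ball z m ⊆ D} with h | h
  · refine ⟨1, one_pos, fun z hz => ?_⟩
    have : z ∈ {z : ℂ | Metric.ball z m ⊆ D} := hz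
    rw [h] at this
    exact absurd this (Set.notMem_empty _)
  · have hc : ContinuousOn (fun z => (Pool.Agent.H96.M7.psi φ z).im)
        {z : ℂ | Metric.ball z m ⊆ D} := by
      refine Complex.continuous_im.comp_continuousOn ?_
      exact (Pool.Agent.H96.M7.psi_cont hφ).mono (hsub.trans (Pool.Agent.H96.M7.chart_sub hφ))
    obtain ⟨z0, hz0, hmin⟩ := hK.exists_isMinOn h hc
    exact ⟨_, Pool.Agent.H96.M7.psi_UH hφ (hsub hz0), fun z hz => hmin hz⟩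

/-- margin of the arcs -/
lemma arc_margin {φ : ℂ → ℂ} (hDo : IsOpen D) (hφ : IsChart D a b φ) {e η : ℝ} (hη : 0 < η) :
    ∃ ε > 0, ∀ x : ℂ, ‖x‖ = e → η ≤ x.im → Metric.ball (φ x) ε ⊆ D := by
  have hC : IsCompact {x : ℂ | ‖x‖ = e ∧ η ≤ x.im} := by
    refine Metric.isCompact_of_isClosed_isBounded ?_ ?_
    · exact (isClosed_eq continuous_norm continuous_const).inter
        (isClosed_le continuous_const Complex.continuous_im)
    · refine (Metric.isBounded_closedBall (x := (0 : ℂ)) (r := e)).subset fun x hx => ?_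
      rw [Metric.mem_closedBall, dist_zero_right]
      exact hx.1.le
  have hsub : {x : ℂ | ‖x‖ = e ∧ η ≤ x.im} ⊆ cHH := fun x hx => hη.le.trans hx.2
  have hi := hC.image_of_continuousOn (hφ.cont.mono hsub)
  obtain ⟨ε, hε, h⟩ := hi.exists_thickening_subset_open hDo (by
    rintro _ ⟨x, hx, rfl⟩
    exact chart_mem hφ (hη.trans_le hx.2))
  refine ⟨ε, hε, fun x h1 h2 y hy => h ?_⟩
  rw [Metric.mem_thickening_iff]
  exact ⟨φ x, ⟨x, ⟨h1, h2⟩, rfl⟩, Metric.mem_ball.1 hy⟩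

open Pool.Agent.H96.M7 (psi psi_right psi_UH chart_sub psi_cont psi_left) in
/-- **[TIP]** -/
theorem stTip (φ : ℂ → ℂ) (B : Base A r0) (w : Win B) : Pool.Agent.H82.Q1.M7.StTip φ B w := by
  intro hJ hab hA hw hφ r hr e he hball
  obtain ⟨haD, hbD, -, hA1, hne⟩ := arcs_facts hJ hA
  have hDb := hJ.2.2.1
  have hr0 : 0 < r0 := by
    obtain ⟨z, hz⟩ := SS_ne B
    exact dist_nonneg.trans_lt (Metric.mem_ball.1 ((SS_sub B) hz).2)
  obtain ⟨s, hs, hnear⟩ := psi_near hφ he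
  have hS : ∀ z ∈ Metric.ball b r0, z ∈ D → e < ‖psi φ z‖ := by
    intro z hz hzD
    by_contra h1
    have h2 := hball (psi φ z) (psi_UH hφ hzD) (not_lt.1 h1)
    rw [psi_right (chart_sub hφ hzD)] at h2
    exact h2.2 hz
  have hS' : ∀ z ∈ D, ‖psi φ z‖ ≤ e → z ∈ Metric.ball a r ∧ z ∉ Metric.ball b r0 := by
    intro z hzD h1
    have h2 := hball (psi φ z) (psi_UH hφ hzD) h1
    rw [psi_right (chart_sub hφ hzD)] at h2
    exact h2
  obtain ⟨ρ1, hρ1, hρs, hρr⟩ : ∃ ρ1 > 0, 3 * ρ1 ≤ s ∧ 3 * ρ1 ≤ r :=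
    ⟨min s r / 3, by have := lt_min hs hr; positivity, by have := min_le_left s r; linarith,
      by have := min_le_right s r; linarith⟩
  refine ⟨ρ1, hρ1, fun k0 hk hkq ρ hρ => ?_⟩
  have hl := w.l0
  have hmk := mesh_pos k0
  obtain ⟨m, hm0, hm6, hml, hmρ, hm1⟩ : ∃ m > 0, m ≤ mesh k0 / 6 ∧ m ≤ w.l / 20 ∧ m ≤ ρ / 4 ∧
      m ≤ ρ1 / 6 := by
    refine ⟨min (min (mesh k0 / 6) (w.l / 20)) (min (ρ / 4) (ρ1 / 6)), ?_, ?_, ?_, ?_, ?_⟩
    · exact lt_min (lt_min (by positivity) (by positivity)) (lt_min (by positivity) (by positivity))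
    · exact (min_le_left _ _).trans (min_le_left _ _)
    · exact (min_le_left _ _).trans (min_le_right _ _)
    · exact (min_le_right _ _).trans (min_le_left _ _)
    · exact (min_le_right _ _).trans (min_le_right _ _)
  obtain ⟨η, hη, him⟩ := psi_im hDb hφ hm0
  obtain ⟨ε2, hε2, harc⟩ := arc_margin (e := e) hJ.1 hφ hη
  obtain ⟨ε, hε, hεm, hεε, hε1⟩ : ∃ ε > 0, ε ≤ m ∧ ε ≤ ε2 ∧ ε ≤ ρ1 :=
    ⟨min m (min ε2 ρ1), lt_min hm0 (lt_min hε2 hρ1), min_le_left _ _,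
      (min_le_right _ _).trans (min_le_left _ _), (min_le_right _ _).trans (min_le_right _ _)⟩
  obtain ⟨r', hr', htip⟩ := tip_state (k0 := k0) hJ hab hA w hw hk (ρ' := ρ) hm0 hm6 hml hmρ
  refine ⟨min r' r0, lt_min hr' hr0, fun P hP hM => ?_⟩
  obtain ⟨K1, hK1⟩ := htip P (hP.trans (Metric.ball_subset_ball (min_le_left _ _))) hM
  obtain ⟨K2, hK2⟩ := exists_mesh (show 0 < ε / 8 by positivity)
  refine ⟨K1 + K2, fun K hK => ?_⟩
  have hmesh : mesh K < ε / 8 := hK2 K (by omega)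
  have e1 : ∀ᶠ n in atTop, A.δ n < min (m / 2) ρ1 :=
    A.lim.eventually_lt_const (lt_min (by positivity) hρ1)
  filter_upwards [e1, hK1 K (by omega), free_state hJ.1 hDb hA1 hne B hε] with n g1 g2 g3 ω hω
    hAd hclose
  have hδ := A.pos n
  have hδm : A.δ n < m / 2 := g1.trans_le (min_le_left _ _)
  have hδ1 : A.δ n < ρ1 := g1.trans_le (min_le_right _ _)
  obtain ⟨v, d, q0, x, t0, hT⟩ := g2 ω hω 0 hAd
  have hq0 := (mem_Uk hDb).1 hT.tip.hq0
  have hva : dist (pt (A.δ n) v) a < A.δ n + ρ1 := by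
    have h1 := hclose _ le_rfl
    rw [← B.X_α hω] at h1
    have h2 := hT.tip.near
    have h3 := dist_triangle (pt (A.δ n) v) (pt (A.δ n) (vx (B.X k0 n (0 + 1) ω).α)) a
    rw [zero_add] at h2 h3
    linarith
  have hxa : dist x a < 3 * ρ1 := by
    have h1 := hT.near
    have h2 := dist_triangle x (pt (A.δ n) v) a
    linarith
  have hcoreD : ∀ q ∈ Uk D (A.δ n) B.o B.qb k0 (B.X k0 n 0 ω).E, ∀ z ∈ core B.o m q,
      Metric.ball z m ⊆ D := fun q hq z hz =>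
    (core_ball hz).trans ((fat_sub_cfat _ _).trans ((mem_Uk hDb).1 hq).head.2.1)
  have hxD : x ∈ D := hcoreD q0 hT.tip.hq0 x hT.mcore (Metric.mem_ball_self hm0)
  have hxe := hnear x hxD (hxa.trans_le hρs)
  obtain ⟨y, hy, hj⟩ := chain_path hm6 hk (connC_uk hDb hT.tip.hq0) x hT.mcore
  have hyD : y ∈ D ∩ Metric.ball b r0 := B.subQ 0 B.qb B.qb_mem (fat_sub_cfat _ _ hy)
  have hRD : Reg B.o m (fun q => q ∈ Uk D (A.δ n) B.o B.qb k0 (B.X k0 n 0 ω).E) k0 ⊆ D := by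
    rintro z ⟨q, hq, -, hz⟩
    exact hcoreD q hq z hz (Metric.mem_ball_self hm0)
  obtain ⟨z, T', hT'c, hT'R, hT'f, hxT', hzT', hzf⟩ := first_time hj
    (f := fun z => -‖psi φ z‖) (by
      refine ContinuousOn.neg (continuous_norm.comp_continuousOn ?_)
      exact (psi_cont hφ).mono (hRD.trans (chart_sub hφ))) (c := -e)
    (by linarith) (by have := hS y hyD.2 hyD.1; linarith)
  have hze : ‖psi φ z‖ = e := by linarith
  have hT'e : ∀ u ∈ T', ‖psi φ u‖ ≤ e := fun u hu => by have := hT'f u hu; linarith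
  have hzD : z ∈ D := hRD (hT'R hzT')
  have hzim : η ≤ (psi φ z).im := by
    obtain ⟨q, hq, -, hzq⟩ := hT'R hzT'
    exact him z (hcoreD q hq z hzq)
  obtain ⟨Γ, hΓc, hΓ1, hΓ2, hΓ3⟩ := arc2 (hη.trans_le hzim)
  rw [hze] at hΓ1 hΓ3
  have hΓ4 : ∀ u ∈ Γ, ‖u‖ = e ∧ η ≤ u.im := fun u hu => ⟨(hΓ3 u hu).2, hzim.trans (hΓ3 u hu).1⟩
  have hΓH : Γ ⊆ cHH := fun u hu => hη.le.trans (hΓ4 u hu).2
  have hΓD : φ '' Γ ⊆ D := by
    rintro _ ⟨u, hu, rfl⟩
    exact chart_mem hφ (hη.trans_le (hΓ4 u hu).2)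
  have hΓpsi : ∀ u ∈ φ '' Γ, ‖psi φ u‖ = e := by
    rintro _ ⟨u, hu, rfl⟩
    rw [psi_left hφ (hΓH hu)]
    exact (hΓ4 u hu).1
  -- the set
  have hTc : IsPreconnected (T' ∪ φ '' Γ) := hT'c.union z hzT'
    ⟨_, hΓ2, psi_right (chart_sub hφ hzD)⟩ (hΓc.image _ (hφ.cont.mono hΓH))
  have hTD : ∀ u ∈ T' ∪ φ '' Γ, u ∈ D ∧ ‖psi φ u‖ ≤ e := by
    rintro u (hu | hu)
    · exact ⟨hRD (hT'R hu), hT'e u hu⟩
    · exact ⟨hΓD hu, (hΓpsi u hu).le⟩
  have hgrow := hT.grow (T' ∪ φ '' Γ) (ε / 2) hTc (Or.inl hxT') (by linarith) (by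
      rintro u (hu | ⟨u, hu, rfl⟩)
      · obtain ⟨q, hq, -, hzq⟩ := hT'R hu
        exact (Metric.ball_subset_ball (by linarith)).trans (hcoreD q hq u hzq)
      · exact (Metric.ball_subset_ball (by linarith)).trans
          (harc u (hΓ4 u hu).1 (hΓ4 u hu).2)) (by
      rintro u (hu | hu) y' hy'
      · obtain ⟨q, hq, -, hzq⟩ := hT'R hu
        exact free_core hT.tip hδm hq hzq (by linarith)
      · refine g3 k0 (0 + 1) ω hω u ?_ ?_ y' hy'
        · obtain ⟨u', hu', rfl⟩ := hu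
          exact (Metric.ball_subset_ball hεε).trans (harc u' (hΓ4 u' hu').1 (hΓ4 u' hu').2)
        · intro t ht
          rw [zero_add] at ht
          have h1 := hclose t ht.le
          have h2 : ¬ dist u a < s := fun h3 => by
            have h4 := hnear u (hΓD hu) h3
            rw [hΓpsi u hu] at h4
            exact lt_irrefl _ h4
          have h3 := dist_triangle u (pt (A.δ n) (vx ((X0 A n).cor ω t))) a
          rw [dist_comm u (pt (A.δ n) (vx ((X0 A n).cor ω t)))] at h3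
          linarith) (by
      intro u hu
      obtain ⟨h1, h2⟩ := hTD u hu
      have h3 := (hS' u h1 h2).2
      refine ⟨fun h4 => h3 ((SS_sub B) h4).2, fun h4 => h3 ?_⟩
      exact Metric.ball_subset_ball (min_le_right _ _) (hP h4))
  obtain ⟨U, hUc, hUR, hUrow, hU1, hU2⟩ := row_set (gx_mono K B.o.re) (gx_mono K B.o.im) hT.tip.hd
    hT.two hT.mem
  have hUx : IsPreconnected (insert x U) := hUc.subset_closure (Set.subset_insert _ _)
    (Set.insert_subset (hU1 hT.cell) subset_closure)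
  refine ⟨T' ∪ φ '' Γ ∪ insert x U, ?_, ?_, ?_, ?_⟩
  · refine Set.union_subset (Set.subset_inter hgrow fun u hu => ?_) (Set.insert_subset ?_ ?_)
    · exact (hS' u (hTD u hu).1 (hTD u hu).2).1
    · exact ⟨hgrow (Or.inl hxT'), Metric.mem_ball.2 (hxa.trans_le hρr)⟩
    · refine Set.subset_inter hUR fun u hu => ?_
      obtain ⟨t, h1, h2, h3⟩ := hUrow u hu
      have h4 := hT.row t h1 h2 u h3
      have h5 := dist_triangle u (pt (A.δ n) v) a
      rw [Metric.mem_ball]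
      linarith
  · exact hTc.union x (Or.inl hxT') (Set.mem_insert _ _) hUx
  · exact Or.inl (Or.inr ⟨_, hΓ1, rfl⟩)
  · rw [sdj_eq hT.tip P K]
    refine closure_mono (Set.subset_union_right.trans' (Set.subset_insert x U)) (hU2 ?_)
    exact tail_rect (gx_mono K B.o.re) (gx_mono K B.o.im)
      (box (A.δ n) B.o K v - (2 : ℤ) • d, kapd d)

end

end Pool.Agent.H5.M7
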