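import Mathlib
import Pool.Agent.H5.M7.GeoW

set_option autoImplicit false
open Finset Filter Topology

/-! # Geometry of the polygons: `GeoAt` for admissible states -/

namespace Pool.Agent.H5.M7

open Pool.Agent.H75.Perc (dir dir_cases)
open Pool.Agent.H75.Perc Pool.Agent.H75.TwoArm Pool.Agent.H75.Four Pool.Agent.H69.Q1
open Pool.Agent.H81.Q1 (pt DDomain Approx IsJordanDomain IsArcs)
open Pool.Agent.Q1.M3
open Pool.Agent.Q1.M3.Pg hiding Gen
open Pool.Agent.H82.Q1.M7 (Sbar uv Win IsEnd Par StPar FarS Adm tside SDX SDj GX ucell IsB nGX GeoAt)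
open Pool.Agent.H53.Q1 (rect_sub_fat rect_sub_cfat cfat_eq fat_eq comp_eq conn_R Om_R_mono
  Base_X_notMem_Om Base_nf_tip Base_gen2 NF)
open Pool.Agent.Q1.M4 (Adj4 Conn4 rect Reg Om mem_Om Om_subset nextSide IsSide tail dir_congr)

section

variable {D : Set ℂ} {a b : ℂ} {A₁ A₂ : Set ℂ} {A : Approx D a b A₁ A₂} {r0 : ℝ} {B : Base A r0}
  {k0 n j K : ℕ} {ω : Finset (ℤ × ℤ)} {ρ : ℝ}

variable (B) in
/-- the free labels decrease -/
lemma E_anti (k0 n j : ℕ) (ω : Finset (ℤ × ℤ)) :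
    (B.X k0 n (j + 1) ω).E ⊆ (B.X k0 n j ω).E := by
  have hst : B.X k0 n (j + 1) ω =
      (B.rules k0 n).nenv (B.X k0 n j ω) ((B.rules k0 n).cf j (X0 A n) ω) :=
    Rules.st_last _ _ _ _
  rw [hst, Rules.nenv_E]
  exact Finset.sdiff_subset

/-- the visited vertices are not free -/
lemma nf_visited (hω : ω ⊆ (X0 A n).E) {t : ℕ} (ht : t ≤ B.T k0 n j ω) :
    NF (B.X k0 n j ω).E (vx ((X0 A n).cor ω t)) := by
  rcases ht.lt_or_eq with h | h
  · intro h1
    rw [Pool.Agent.H53.Q1.Base_E_eq B hω] at h1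
    exact Pool.Agent.H53.Q1.plab_notMem_Et (X0 A n) h (h1 (plab_star1 _))
  · rw [h, ← B.X_α hω]
    exact Base_nf_tip B hω j

/-- a point of the region: all its unit cells are in `R` -/
lemma mem_GX_cell {d : SD} {z : ℂ} (h : z ∈ GX B d) {c : ℤ × ℤ}
    (hc : z ∈ rect (gx d.K B.o.re) (gx d.K B.o.im) c) : c ∈ d.R :=
  ((mem_Om (gx_mono _ _) (gx_mono _ _)).1 h).2 c hc

/-- the cells of the barrier are not in the region -/
lemma bar_notMem_GX {P : Par B} {q : Cell} (hq : q ∈ B.Q P.M) (hK : q.1 ≤ K) {z : ℂ}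
    (hz : z ∈ cfat B.o q) : z ∉ GX B (SDj B P k0 K n j ω) := by
  intro h
  obtain ⟨c, hc, hzc⟩ := cfat_cell (K := K) hK hz
  have h1 := mem_GX_cell h hzc
  exact (Finset.mem_sdiff.1 (SD.R_sub h1)).2 (mem_union_left _ (fc_subset_flat hq hc))

/-- **Geometry of the polygons.** -/
theorem geo_state (hJ : IsJordanDomain D) (hab : a ≠ b) (hA : IsArcs D a b A₁ A₂) (w : Win B)
    (hw : w.Side) (hk : B.qb.1 ≤ k0) {ρ' : ℝ} (hρ' : 0 < ρ') :
    ∃ r > 0, ∀ P : Par B, cfat B.o P.BB ⊆ Metric.ball b r → w.M0 ≤ P.M →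
      ∃ K1, ∀ K, K1 ≤ K → ∀ᶠ n in atTop, ∀ ω, ω ⊆ (X0 A n).E → ∀ j,
        Adm w n ρ' k0 (j + 1) ω → GeoAt B w P k0 K n ρ' ω j := by
  obtain ⟨haD, hbD, -, hA1, hne⟩ := arcs_facts hJ hA
  have hDb := hJ.2.2.1
  have hDc : IsPreconnected Dᶜ := (Pool.Agent.H42.MJ.jTop hJ).compl
  have hl := w.l0
  obtain ⟨ρ, hρdef⟩ : ∃ ρ, ρ = 2 * w.l := ⟨_, rfl⟩
  have hρ : 2 * w.l ≤ ρ := hρdef.ge
  have hρ0 : 0 < ρ := by linarith
  have hfar : ∀ {n j ω}, Adm w n ρ' k0 (j + 1) ω → FarS B n ρ k0 (j + 1) ω := by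
    intro n j ω h
    rw [hρdef]; exact h.far
  obtain ⟨rc, hrc, hcore⟩ := core_state (k0 := k0) hJ hab hA w hw hk hρ'
  obtain ⟨ε1, hε1, hmar⟩ := exists_margin hJ.1 (wdisc_compact w) (wdisc_D w)
  set ε := min ε1 w.l with hε
  have hε0 : 0 < ε := lt_min hε1 hl
  have hεl : ε ≤ w.l := min_le_right _ _
  have hεε : ε ≤ ε1 := min_le_left _ _
  refine ⟨min rc ε, lt_min hrc hε0, fun P hP hM => ?_⟩
  obtain ⟨K1, hK1⟩ := hcore P (hP.trans (Metric.ball_subset_ball (min_le_left _ _))) hM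
  have hBr : ∀ z ∈ cfat B.o P.BB, dist z b < ε := fun z hz =>
    (Metric.mem_ball.1 (hP hz)).trans_le (min_le_right _ _)
  obtain ⟨Kw, hKw⟩ := win_vis w hJ.1 hDb hA1 hne hρ
  obtain ⟨K2, hK2⟩ := exists_mesh (show 0 < ε / 10 by positivity)
  obtain ⟨K3, hK3⟩ := exists_lev (B.Q P.M)
  refine ⟨K1 + Kw + K2 + K3 + P.BB.1 + k0 + w.k1 + 1, fun K hK => ?_⟩
  have hmesh : mesh K < ε / 10 := hK2 K (by omega)
  have hmesh1 : mesh (K + 1) = mesh K / 3 := by unfold mesh; rw [pow_succ]; ring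
  have hm1 := mesh_pos (K + 1)
  have hlev : ∀ q ∈ B.Q P.M, q.1 + 3 ≤ K := fun q hq => (hK3 q hq).trans (by omega)
  have hlev' : ∀ q ∈ B.Q P.M, q.1 ≤ K := fun q hq => by have := hlev q hq; omega
  have hlev'' : ∀ q ∈ B.Q P.M, q.1 < K := fun q hq => by have := hlev q hq; omega
  have e1 : ∀ᶠ n in atTop, A.δ n < mesh (K + 1) / 3 :=
    A.lim.eventually_lt_const (by positivity)
  filter_upwards [e1, hK1 K (by omega), ok_state (k0 := k0) (K := K) hJ hA P (by omega) hlev''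
    (by omega) hρ0, reg_ev (B := B) hDb haD hbD hρ0 k0, nfin (B := B) hbD hρ0,
    free_state hJ.1 hDb hA1 hne B hε0, free_bar hJ.1 hA1 hne B P.M hρ0,
    hKw P.M hM K (by omega) hlev] with n g1 g2 g3 g4 g5 g6 g7 g8 ω hω j hAd
  have hδ := A.pos n
  have hδ3 : 3 * A.δ n ≤ mesh (K + 1) := by linarith
  have hcj := g2 ω hω j hAd
  have hok := g3 ω hω j (hfar hAd) hcj.mem
  have hbar := g7 k0 (j + 1) ω hω (hfar hAd)
  obtain ⟨v, d, q0, hT⟩ := exists_tipF hDb (g4 (j + 1) ω hω (hfar hAd)) hω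
    (g5 k0 (j + 1) ω hω (hfar hAd))
  -- the half disc
  have hhalf : whalf w ⊆ GX B (SDj B P k0 K n j ω) := by
    obtain ⟨p, hp, hwp⟩ := Pool.Agent.H42.Q1.exists_fat B.o (wpt w) K
    have hmr := mem_rect_ucell B.o K (wpt w)
    refine conn_R (D := D) (δ := A.δ n) (o := B.o) (qb := B.qb) (K := K)
      (E := (B.X k0 n (j + 1) ω).E) (C := B.Q P.M) (BB := P.BB) (ε := ε / 2) hDb hδ
      (by linarith) (whalf_pre w) ?_ ?_ hlev' (by omega) ?_ ?_ hcj.mem
      (c := ucell B.o K (wpt w)) ⟨wpt w, hmr, wpt_half w⟩ (mem_GX_cell hcj.win hmr)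
    · intro z hz
      exact (Metric.ball_subset_ball (by linarith)).trans (hmar z (whalf_sub w hz))
    · intro z hz u hu
      refine g6 k0 (j + 1) ω hω z ((Metric.ball_subset_ball hεε).trans
        (hmar z (whalf_sub w hz))) ?_ u hu
      intro t ht
      have h3 := (hfar hAd) t ht.le w.p (win_p_S w)
      have h4 := wdisc_dist w (whalf_sub w hz)
      have h5 := dist_triangle (pt (A.δ n) (vx ((X0 A n).cor ω t))) z w.p
      linarith
    · intro z hz
      refine ⟨fun q hq h1 => (whalf_up w hz).2 (mem_Sbar.2 ⟨P.M, q, hq, h1⟩), fun h1 => ?_⟩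
      have h2 := hBr z h1
      rw [dist_comm] at h2
      exact hbD (hmar z (whalf_sub w hz) (Metric.mem_ball.2 (h2.trans_le hεε)))
    · exact ⟨p, g8 k0 (j + 1) ω hω (hfar hAd) p hp ⟨wpt w, hwp, wpt_mem w⟩, wpt w, hwp, wpt_half w⟩
  have hgv : gpt B.o K (w.gv K 0) = w.p := gpt_gv w (by omega)
  have htip : dist (gpt B.o K (tail (SDj B P k0 K n j ω).s))
      (pt (A.δ n) (vx (B.X k0 n (j + 1) ω).α)) ≤ 10 * mesh K := by
    rw [sdj_eq hT P K]
    have h1 := tip_dist (B := B) (K := K) (Base_gen2 B K n) (v := v) hT.hd (kapd d)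
    have h2 := hT.near
    have h3 := dist_triangle (gpt B.o K (tail (box (A.δ n) B.o K v - (2 : ℤ) • d, kapd d)))
      (pt (A.δ n) v) (pt (A.δ n) (vx (B.X k0 n (j + 1) ω).α))
    simp only
    have := mesh_pos K
    linarith
  refine ⟨?_, ?_, ?_, ?_, ?_, htip, ?_⟩
  · -- the index
    have hη2 : mesh (K + 1) / 2 < w.l := by linarith
    obtain ⟨c1, c2, c3, c4⟩ := cells_at K B.o (w.gv K 0) w.k (s := mesh (K + 1) / 2)
      (t := mesh (K + 1) / 2) (by linarith) (by linarith) (by linarith) (by linarith)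
    rw [hgv] at c1 c2 c3 c4
    have inR : ∀ (s : ℝ) (c : ℤ × ℤ), |s| = mesh (K + 1) / 2 →
        SI K B.o c (w.p + ((s : ℂ) + ((mesh (K + 1) / 2 : ℝ) : ℂ) * Complex.I) * uv w.k) →
        c ∈ (SDj B P k0 K n j ω).R := by
      intro s c hs hc
      refine mem_GX_cell (hhalf ?_) hc.rect
      refine ⟨(s : ℂ) + ((mesh (K + 1) / 2 : ℝ) : ℂ) * Complex.I, ⟨?_, ?_⟩, by ring⟩
      · refine (norm_add_le _ _).trans_lt ?_
        rw [norm_mul, Complex.norm_I, mul_one, Complex.norm_real, Complex.norm_real,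
          Real.norm_eq_abs, Real.norm_eq_abs, hs, abs_of_pos (by linarith)]
        linarith
      · simp; linarith
    have inH : ∀ (s : ℝ) (c : ℤ × ℤ), |s| = mesh (K + 1) / 2 →
        SI K B.o c (w.p + ((s : ℂ) - ((mesh (K + 1) / 2 : ℝ) : ℂ) * Complex.I) * uv w.k) →
        c ∈ (SDj B P k0 K n j ω).H := by
      intro s c hs hc
      refine hok.flat_sub ?_
      have h1 := win_fat w (s := s) (t := mesh (K + 1) / 2) (by linarith) (by linarith)
        (by linarith)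
      have hqM := Q_mono B hM w.hq
      have h2 := ucell_mem (K := K) (hlev' _ hqM) h1
      rw [hc.ucell] at h2
      exact mem_flat.2 ⟨w.q, hqM, h2⟩
    have hs1 : |mesh (K + 1) / 2| = mesh (K + 1) / 2 := abs_of_pos (by linarith)
    have hs2 : |-(mesh (K + 1) / 2)| = mesh (K + 1) / 2 := by rw [abs_neg]; exact hs1
    obtain ⟨nb, n1, n2, n3, n4, n5, n6⟩ := exists_nb hok (k := w.k)
      (inR _ _ hs1 c1) (inR _ _ hs2 (by push_cast at c2 ⊢; exact c2))
      (inH _ _ hs1 c3) (inH _ _ hs2 (by push_cast at c4 ⊢; exact c4))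
    refine ⟨nb, hok, n1, n2, n3, ?_, by omega, by omega⟩
    have h5 : (nextSide (SDj B P k0 K n j ω).R)^[nb] (SDj B P k0 K n j ω).s =
        (lcell (w.gv K 0) w.k, ((nextSide (SDj B P k0 K n j ω).R)^[nb]
          (SDj B P k0 K n j ω).s).2) := Prod.ext n4 rfl
    rw [h5]
    exact tail_lcell _ n5
  · -- the box
    intro u hu
    constructor
    · intro h1
      by_contra h2
      rw [not_lt] at h2
      refine bar_notMem_GX (Q_mono B hM w.hq) (hlev' _ (Q_mono B hM w.hq)) ?_ h1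
      have h3 := Complex.abs_re_le_norm u
      have h4 := Complex.abs_im_le_norm u
      rw [abs_of_nonpos h2] at h4
      have h5 := w.dn u.re (-u.im) (by linarith) (by linarith) (by linarith)
      have e3 : (u.re : ℂ) - ((-u.im : ℝ) : ℂ) * Complex.I = u := by
        push_cast
        rw [neg_mul, sub_neg_eq_add, Complex.re_add_im]
      rw [e3, mul_comm] at h5
      exact h5
    · intro h1
      exact hhalf ⟨u, ⟨hu, h1⟩, rfl⟩
  · -- inside `D`
    intro z hz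
    obtain ⟨c, hc, hzc⟩ := Om_subset _ _ _ hz
    have hcP := (Finset.mem_sdiff.1 (SD.R_sub hc)).1
    refine PP_D (K := K) (o := B.o) (U := Uk D (A.δ n) B.o B.qb K (B.X k0 n (j + 1) ω).E)
      (C := B.Q P.M) hDc hDb ?_ ?_ c hcP hzc
    · intro q hq
      rcases mem_union.1 hq with h | h
      · exact ((mem_Uk hDb).1 h).head.1.le
      · exact hlev' q h
    · intro q hq
      rcases mem_union.1 hq with h | h
      · exact ((mem_Uk hDb).1 h).head.2.1
      · exact (B.subQ P.M q h).trans Set.inter_subset_left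
  · -- decreasing
    intro hAd2
    have hcj2 := g2 ω hω (j + 1) hAd2
    have hmr := mem_rect_ucell B.o K (wpt w)
    exact Om_R_mono (D := D) (δ := A.δ n) (o := B.o) (qb := B.qb) (K := K) hDb
      (E_anti B k0 n (j + 1) ω) hcj.mem hcj2.mem (h0 := ucell B.o K (wpt w))
      (mem_GX_cell hcj.win hmr) (mem_GX_cell hcj2.win hmr) _ _
  · -- visited vertices
    intro t ht
    exact Base_X_notMem_Om B hDb hδ3 hω hlev' hbar _ _ (nf_visited hω ht)
  · -- the mark is outside the window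
    have h1 := (hfar hAd) _ le_rfl w.p (win_p_S w)
    rw [← B.X_α hω] at h1
    have h2 := dist_triangle (pt (A.δ n) (vx (B.X k0 n (j + 1) ω).α))
      (gpt B.o K (tail (SDj B P k0 K n j ω).s)) w.p
    rw [dist_comm (pt (A.δ n) (vx (B.X k0 n (j + 1) ω).α))
      (gpt B.o K (tail (SDj B P k0 K n j ω).s))] at h2
    linarith

end

end Pool.Agent.H5.M7
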