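import Mathlib
import Pool.Agent.H5.M7.GeoF

set_option autoImplicit false
open Finset Filter Topology

/-! # Visible sets are in the polygon -/

namespace Pool.Agent.H5.M7

open Pool.Agent.H75.Perc (dir dir_cases)
open Pool.Agent.H75.Perc Pool.Agent.H75.TwoArm Pool.Agent.H75.Four Pool.Agent.H69.Q1
open Pool.Agent.H81.Q1 (pt DDomain Approx IsJordanDomain IsArcs)
open Pool.Agent.Q1.M3
open Pool.Agent.Q1.M3.Pg hiding Gen
open Pool.Agent.H82.Q1.M7 (Sbar uv Win IsEnd Par StPar FarS Adm tside SDX SDj GX ucell IsB nGX GeoAt)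
open Pool.Agent.H53.Q1 (conn_R)
open Pool.Agent.Q1.M4 (rect Om mem_Om)

section

variable {D : Set ℂ} {a b : ℂ} {A₁ A₂ : Set ℂ} {A : Approx D a b A₁ A₂} {r0 : ℝ} {B : Base A r0}
  {k0 n j K : ℕ} {ω : Finset (ℤ × ℤ)} {ρ : ℝ}

/-- **Visibility**, uniform in the set `Pi`. -/
theorem vis_state (hJ : IsJordanDomain D) (hab : a ≠ b) (hA : IsArcs D a b A₁ A₂) (w : Win B)
    (hw : w.Side) (hk : B.qb.1 ≤ k0) {ρ' : ℝ} (hρ' : 0 < ρ') {e : ℝ} (he : 0 < e) {P0 : Set ℂ}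
    (hP0 : IsCompact P0) (hP0c : IsPreconnected P0) (hP0s : P0 ⊆ D \ Sbar B) (hw0 : wpt w ∈ P0) :
    ∃ r > 0, ∀ P : Par B, cfat B.o P.BB ⊆ Metric.ball b r → w.M0 ≤ P.M →
      ∃ K1, ∀ K, K1 ≤ K → ∀ᶠ n in atTop, ∀ ω, ω ⊆ (X0 A n).E → ∀ j,
        Adm w n ρ' k0 (j + 1) ω →
        (∀ t, t ≤ B.T k0 n (j + 1) ω → ∀ z ∈ P0,
          e ≤ dist (pt (A.δ n) (vx ((X0 A n).cor ω t))) z) →
        ∀ Pi : Set ℂ, IsPreconnected Pi → (Pi ∩ P0).Nonempty →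
          (∀ z ∈ Pi, Metric.ball z e ⊆ D \ Sbar B ∧
            ∀ t, t ≤ B.T k0 n (j + 1) ω → e ≤ dist (pt (A.δ n) (vx ((X0 A n).cor ω t))) z) →
          P0 ∪ Pi ⊆ GX B (SDj B P k0 K n j ω) := by
  obtain ⟨haD, hbD, -, hA1, hne⟩ := arcs_facts hJ hA
  have hDb := hJ.2.2.1
  have hl := w.l0
  obtain ⟨ρ, hρdef⟩ : ∃ ρ, ρ = 2 * w.l := ⟨_, rfl⟩
  have hρ : 2 * w.l ≤ ρ := hρdef.ge
  have hρ0 : 0 < ρ := by linarith
  have hfar' : ∀ {n j ω}, Adm w n ρ' k0 (j + 1) ω → FarS B n ρ k0 (j + 1) ω := by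
    intro n j ω h
    rw [hρdef]; exact h.far
  obtain ⟨rc, hrc, hcore⟩ := core_state (k0 := k0) hJ hab hA w hw hk hρ'
  obtain ⟨ε1, hε1, hmar⟩ := exists_margin hJ.1 hP0 (fun z hz => (hP0s hz).1)
  set ε := min ε1 e with hε
  have hε0 : 0 < ε := lt_min hε1 he
  have hεe : ε ≤ e := min_le_right _ _
  have hεε : ε ≤ ε1 := min_le_left _ _
  refine ⟨min rc ε, lt_min hrc hε0, fun P hP hM => ?_⟩
  obtain ⟨K1, hK1⟩ := hcore P (hP.trans (Metric.ball_subset_ball (min_le_left _ _))) hM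
  have hBr : ∀ z ∈ cfat B.o P.BB, dist z b < ε := fun z hz =>
    (Metric.mem_ball.1 (hP hz)).trans_le (min_le_right _ _)
  obtain ⟨Kw, hKw⟩ := win_vis w hJ.1 hDb hA1 hne hρ
  obtain ⟨K2, hK2⟩ := exists_mesh (show 0 < ε / 10 by positivity)
  obtain ⟨K3, hK3⟩ := exists_lev (B.Q P.M)
  refine ⟨K1 + Kw + K2 + K3 + P.BB.1 + 1, fun K hK => ?_⟩
  have hmesh : mesh K < ε / 10 := hK2 K (by omega)
  have hlev : ∀ q ∈ B.Q P.M, q.1 + 3 ≤ K := fun q hq => (hK3 q hq).trans (by omega)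
  have hlev' : ∀ q ∈ B.Q P.M, q.1 ≤ K := fun q hq => by have := hlev q hq; omega
  filter_upwards [hK1 K (by omega), free_state hJ.1 hDb hA1 hne B hε0,
    hKw P.M hM K (by omega) hlev] with n g2 g6 g8 ω hω j hAd hfar Pi hPi hPiP0 hPi2
  have hδ := A.pos n
  have hcj := g2 ω hω j hAd
  obtain ⟨p, hp, hwp⟩ := Pool.Agent.H42.Q1.exists_fat B.o (wpt w) K
  have hmr := mem_rect_ucell B.o K (wpt w)
  obtain ⟨y, hy1, hy2⟩ := hPiP0
  have hball : ∀ z ∈ P0 ∪ Pi, Metric.ball z ε ⊆ D := by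
    rintro z (hz | hz)
    · exact (Metric.ball_subset_ball hεε).trans (hmar z hz)
    · exact (Metric.ball_subset_ball hεe).trans ((hPi2 z hz).1.trans Set.sdiff_subset)
  have hTS : ∀ z ∈ P0 ∪ Pi, z ∉ Sbar B := by
    rintro z (hz | hz)
    · exact (hP0s hz).2
    · exact ((hPi2 z hz).1 (Metric.mem_ball_self he)).2
  refine conn_R (D := D) (δ := A.δ n) (o := B.o) (qb := B.qb) (K := K)
    (E := (B.X k0 n (j + 1) ω).E) (C := B.Q P.M) (BB := P.BB) (ε := ε / 2) hDb hδ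
    (by linarith) (hP0c.union y hy2 hy1 hPi) ?_ ?_ hlev' (by omega) ?_ ?_ hcj.mem
    (c := ucell B.o K (wpt w)) ⟨wpt w, hmr, Or.inl hw0⟩ (mem_GX_cell hcj.win hmr)
  · intro z hz
    exact (Metric.ball_subset_ball (by linarith)).trans (hball z hz)
  · intro z hz u hu
    refine g6 k0 (j + 1) ω hω z (hball z hz) ?_ u hu
    intro t ht
    rcases hz with hz | hz
    · exact hεe.trans (hfar t ht.le z hz)
    · exact hεe.trans ((hPi2 z hz).2 t ht.le)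
  · intro z hz
    refine ⟨fun q hq h1 => hTS z hz (mem_Sbar.2 ⟨P.M, q, hq, h1⟩), fun h1 => ?_⟩
    have h2 := hBr z h1
    rw [dist_comm] at h2
    exact hbD (hball z hz (Metric.mem_ball.2 h2))
  · exact ⟨p, g8 k0 (j + 1) ω hω (hfar' hAd) p hp ⟨wpt w, hwp, wpt_mem w⟩, wpt w, hwp, Or.inl hw0⟩

end

end Pool.Agent.H5.M7
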