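import Mathlib
import Pool.Agent.H5.M7.VisF
import Pool.Agent.H5.M7.Ray
import Pool.Agent.H5.M7.TipS

set_option autoImplicit false
open Finset Filter Topology

/-! # J20: the statements of the geometry of M7

`stGeo`, `stVis`, `stWin` here, `stTip` in TipS.lean, `stPar` in Param.lean. -/

namespace Pool.Agent.H5.M7

open Pool.Agent.H81.Q1 (pt DDomain Approx IsJordanDomain IsArcs)
open Pool.Agent.Q1.M3
open Pool.Agent.H82.Q1.M7 (Win StGeo StVis StWin)

section

variable {D : Set ℂ} {a b : ℂ} {A₁ A₂ : Set ℂ} {A : Approx D a b A₁ A₂} {r0 : ℝ}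

/-- **[GEO]** -/
theorem stGeo (B : Base A r0) (w : Win B) : StGeo B w := fun hJ hab hA hw _ hk _ _ hρ =>
  geo_state hJ hab hA w hw hk hρ

/-- **[VIS]** -/
theorem stVis (B : Base A r0) (w : Win B) : StVis B w := fun hJ hab hA hw _ hk _ _ hρ _ he _ hP0
    hP0c hP0s hw0 => vis_state hJ hab hA w hw hk hρ he hP0 hP0c hP0s hw0

/-- **[WIN]** -/
theorem stWin (φ : ℂ → ℂ) (A : Approx D a b A₁ A₂) : StWin φ A := fun hJ _ _ hφ _ _ B l1 hl1 => by
  obtain ⟨w, h1, h2, h3, -⟩ := exists_window B hJ hφ hl1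
  exact ⟨w, h1, h2, h3⟩

end

end Pool.Agent.H5.M7
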