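import Mathlib
import Pool.Agent.H39.Q1.Sides

set_option autoImplicit false
open Finset

/-! # Cyclic order on interfaces

* `Bef p x y z` : the orbit of `x` under `p` meets `y` before `z`.
* `Sw p p' u v` : the injective maps `p`, `p'` with finite orbits differ by exchanging the images of
  `u` and `v`.
* `Sw.bef` : the order of points which are on one orbit of `p` and on one orbit of `p'` is the same.
* `bef_mono` : **order lemma** for the interfaces `pv M`, `pv T`, `T ⊆ M`. -/

namespace Pool.Agent.H5.M7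

open Pool.Agent.H75.Perc

section generic

variable {α : Type*}

/-- The orbit of `x` meets `y` before `z`. -/
def Bef (p : α → α) (x y z : α) : Prop := ∃ i, p^[i] x = y ∧ ∀ k ≤ i, p^[k] x ≠ z

lemma Bef.inOrb {p : α → α} {x y z : α} (h : Bef p x y z) : InOrb p x y := by
  obtain ⟨i, hi, -⟩ := h
  exact ⟨i, hi⟩

lemma Bef.ne {p : α → α} {x y z : α} (h : Bef p x y z) : y ≠ z := by
  obtain ⟨i, hi, h⟩ := h
  rw [← hi]
  exact h i le_rfl

lemma bef_or {p : α → α} {x y z : α} (hy : InOrb p x y) (hz : InOrb p x z) (hne : y ≠ z) :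
    Bef p x y z ∨ Bef p x z y := by
  classical
  have hi := Nat.find_spec hy
  have hj := Nat.find_spec hz
  have hi' := fun k => Nat.find_min hy (m := k)
  have hj' := fun k => Nat.find_min hz (m := k)
  rcases lt_trichotomy (Nat.find hy) (Nat.find hz) with h | h | h
  · exact Or.inl ⟨_, hi, fun k hk => hj' k (by omega)⟩
  · exfalso; apply hne; rw [← hi, ← hj, h]
  · exact Or.inr ⟨_, hj, fun k hk => hi' k (by omega)⟩

lemma Bef.not {p : α → α} {x y z : α} (h : Bef p x y z) : ¬ Bef p x z y := by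
  rintro ⟨j, hj, hj'⟩
  obtain ⟨i, hi, hi'⟩ := h
  rcases le_total i j with h1 | h1
  · exact hj' i h1 hi
  · exact hi' j h1 hj

/-- The injective maps `p`, `p'` differ by exchanging the images of `u` and `v`. -/
structure Sw (p p' : α → α) (u v : α) : Prop where
  inj : Function.Injective p
  inj' : Function.Injective p'
  per : ∀ x, ∃ T, 0 < T ∧ p^[T] x = x
  per' : ∀ x, ∃ T, 0 < T ∧ p'^[T] x = x
  off : ∀ w, w ≠ u → w ≠ v → p' w = p w
  hu : p' u = p v
  hv : p' v = p u

lemma Sw.symm {p p' : α → α} {u v : α} (h : Sw p p' u v) : Sw p' p u v :=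
  ⟨h.inj', h.inj, h.per', h.per, fun w h1 h2 => (h.off w h1 h2).symm, h.hv.symm, h.hu.symm⟩

lemma Sw.swap {p p' : α → α} {u v : α} (h : Sw p p' u v) : Sw p p' v u :=
  ⟨h.inj, h.inj', h.per, h.per', fun w h1 h2 => h.off w h2 h1, h.hv, h.hu⟩

/-- minimal period -/
lemma exists_minper {p : α → α} (hp : ∀ x, ∃ T, 0 < T ∧ p^[T] x = x) (hi : Function.Injective p)
    (x : α) : ∃ T, 0 < T ∧ p^[T] x = x ∧
      (∀ i j, i < T → j < T → p^[i] x = p^[j] x → i = j) ∧
      ∀ y, InOrb p x y → ∃ i < T, p^[i] x = y := by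
  classical
  have hex := hp x
  obtain ⟨h0, h1⟩ := Nat.find_spec hex
  have hmin := fun k => Nat.find_min hex (m := k)
  set T := Nat.find hex
  have key : ∀ i j, i < j → j < T → p^[i] x ≠ p^[j] x := by
    intro i j hij hj h
    have h2 : p^[i] x = p^[i] (p^[j - i] x) := by
      rw [← Function.iterate_add_apply, h]
      congr 1
      omega
    have h3 : x = p^[j - i] x := hi.iterate i h2
    exact hmin (j - i) (by omega) ⟨by omega, h3.symm⟩
  refine ⟨T, h0, h1, ?_, ?_⟩
  · intro i j h2 h3 h4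
    rcases lt_trichotomy i j with h5 | h5 | h5
    · exact absurd h4 (key i j h5 h3)
    · exact h5
    · exact absurd h4.symm (key j i h5 h2)
  · rintro y ⟨n, rfl⟩
    refine ⟨n % T, Nat.mod_lt _ h0, ?_⟩
    have hper : ∀ q i, p^[i + T * q] x = p^[i] x := by
      intro q
      induction q with
      | zero => intro i; simp
      | succ q ih =>
        intro i
        have h2 : i + T * (q + 1) = (i + T * q) + T := by ring
        rw [h2, Function.iterate_add_apply, h1, ih]
    rw [← hper (n / T) (n % T), Nat.mod_add_div]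

/-- as long as neither `u` nor `v` is met the orbits are the same -/
lemma Sw.agree {p p' : α → α} {u v : α} (h : Sw p p' u v) {x : α} {n : ℕ}
    (hn : ∀ k < n, p^[k] x ≠ u ∧ p^[k] x ≠ v) : ∀ k ≤ n, p'^[k] x = p^[k] x := by
  intro k
  induction k with
  | zero => intro _; rfl
  | succ k ih =>
    intro hk
    rw [Function.iterate_succ_apply', Function.iterate_succ_apply', ih (by omega)]
    exact h.off _ (hn k (by omega)).1 (hn k (by omega)).2

/-- **Split.** `u` at time `a`, `v` at a later time `b` of the orbit of `x` under `p`. -/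
lemma Sw.split {p p' : α → α} {u v : α} (h : Sw p p' u v) {x : α} {T a b : ℕ}
    (hT : p^[T] x = x) (hab : a < b) (hb : b < T) (ha : p^[a] x = u) (hb' : p^[b] x = v)
    (hinj : ∀ i j, i < T → j < T → p^[i] x = p^[j] x → i = j) (n : ℕ) :
    ∃ k, (k ≤ a ∨ (b < k ∧ k < T)) ∧ p'^[n] x = p^[k] x := by
  induction n with
  | zero => exact ⟨0, Or.inl (Nat.zero_le _), rfl⟩
  | succ n ih =>
    obtain ⟨k, hk, h1⟩ := ih
    rw [Function.iterate_succ_apply', h1]
    have hkT : k < T := by omega
    by_cases hka : k = a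
    · subst hka
      rw [ha, h.hu, ← hb', ← Function.iterate_succ_apply' (f := p)]
      by_cases h2 : b + 1 = T
      · exact ⟨0, Or.inl (Nat.zero_le _), by rw [Nat.succ_eq_add_one, h2, hT]; rfl⟩
      · exact ⟨b + 1, Or.inr ⟨by omega, by omega⟩, rfl⟩
    · have h2 : p^[k] x ≠ u := by
        rw [← ha]
        intro h3
        exact hka (hinj _ _ hkT (by omega) h3)
      have h3 : p^[k] x ≠ v := by
        rw [← hb']
        intro h3
        have := hinj _ _ hkT hb h3
        omega
      rw [h.off _ h2 h3, ← Function.iterate_succ_apply' (f := p)]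
      by_cases h4 : k + 1 = T
      · exact ⟨0, Or.inl (Nat.zero_le _), by rw [Nat.succ_eq_add_one, h4, hT]; rfl⟩
      · refine ⟨k + 1, ?_, rfl⟩
        omega

/-- the times of the points of the orbit of `p'` in the split case -/
lemma Sw.split_time {p p' : α → α} {u v : α} (h : Sw p p' u v) {x : α} {T a b : ℕ}
    (hT : p^[T] x = x) (hab : a < b) (hb : b < T) (ha : p^[a] x = u) (hb' : p^[b] x = v)
    (hinj : ∀ i j, i < T → j < T → p^[i] x = p^[j] x → i = j) {y : α} (hy : InOrb p' x y)
    {i : ℕ} (hi : i < T) (hiy : p^[i] x = y) : i ≤ a ∨ b < i := by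
  obtain ⟨n, hn⟩ := hy
  obtain ⟨k, hk, h1⟩ := h.split hT hab hb ha hb' hinj n
  rw [hn, ← hiy] at h1
  have := hinj _ _ hi (by omega) h1
  omega

/-- **Split, times of the orbit of `p'`.** -/
lemma Sw.split_iter {p p' : α → α} {u v : α} (h : Sw p p' u v) {x : α} {T a b : ℕ}
    (hab : a < b) (hb : b < T) (ha : p^[a] x = u) (hb' : p^[b] x = v)
    (hinj : ∀ i j, i < T → j < T → p^[i] x = p^[j] x → i = j) :
    (∀ k ≤ a, p'^[k] x = p^[k] x) ∧ ∀ m, b + 1 + m < T → p'^[a + 1 + m] x = p^[b + 1 + m] x := by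
  have hno : ∀ k < a, p^[k] x ≠ u ∧ p^[k] x ≠ v := by
    intro k hk
    constructor
    · rw [← ha]
      intro h1
      have := hinj _ _ (by omega) (by omega) h1
      omega
    · rw [← hb']
      intro h1
      have := hinj _ _ (by omega) (by omega) h1
      omega
  have hag := h.agree hno
  refine ⟨hag, ?_⟩
  intro m
  induction m with
  | zero =>
    intro _
    rw [Nat.add_zero, Nat.add_zero, Function.iterate_succ_apply', hag a le_rfl, ha, h.hu, ← hb',
      ← Function.iterate_succ_apply' (f := p)]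
  | succ m ih =>
    intro hm
    rw [← Nat.add_assoc, ← Nat.add_assoc, Function.iterate_succ_apply',
      Function.iterate_succ_apply' (f := p), ih (by omega)]
    refine h.off _ ?_ ?_
    · rw [← ha]
      intro h2
      have := hinj _ _ (by omega) (by omega) h2
      omega
    · rw [← hb']
      intro h2
      have := hinj _ _ (by omega) (by omega) h2
      omega

/-- the points of the orbit of `p` outside the excursion are on the orbit of `p'` -/
lemma Sw.split_mem {p p' : α → α} {u v : α} (h : Sw p p' u v) {x : α} {T a b : ℕ}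
    (hab : a < b) (hb : b < T) (ha : p^[a] x = u) (hb' : p^[b] x = v)
    (hinj : ∀ i j, i < T → j < T → p^[i] x = p^[j] x → i = j) {i : ℕ} (hi : i < T)
    (hi' : i ≤ a ∨ b < i) : InOrb p' x (p^[i] x) := by
  obtain ⟨h1, h2⟩ := h.split_iter hab hb ha hb' hinj
  rcases hi' with h3 | h3
  · exact ⟨i, h1 i h3⟩
  · refine ⟨a + 1 + (i - (b + 1)), ?_⟩
    rw [h2 _ (by omega)]
    congr 2
    omega

/-- order in the split case, `u` first -/
lemma Sw.bef_split {p p' : α → α} {u v : α} (h : Sw p p' u v) {x : α} {T a b : ℕ}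
    (hT : p^[T] x = x) (hab : a < b) (hb : b < T) (ha : p^[a] x = u) (hb' : p^[b] x = v)
    (hinj : ∀ i j, i < T → j < T → p^[i] x = p^[j] x → i = j)
    (hmod : ∀ y, InOrb p x y → ∃ i < T, p^[i] x = y) {y z : α} (hy : InOrb p' x y)
    (hyz : Bef p x y z) : Bef p' x y z := by
  obtain ⟨i0, hi0, hi0'⟩ := hyz
  obtain ⟨i, hiT, hi⟩ := hmod y ⟨i0, hi0⟩
  have hi' : ∀ k ≤ i, p^[k] x ≠ z := by
    by_cases h1 : i ≤ i0
    · exact fun k hk => hi0' k (by omega)
    · exfalso
      have := hinj i i0 hiT (by omega) (hi.trans hi0.symm)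
      omega
  obtain ⟨hag, hjump⟩ := h.split_iter hab hb ha hb' hinj
  rcases h.split_time hT hab hb ha hb' hinj hy hiT hi with h1 | h1
  · exact ⟨i, by rw [hag i h1, hi], fun k hk => by rw [hag k (by omega)]; exact hi' k hk⟩
  · refine ⟨a + 1 + (i - (b + 1)), ?_, ?_⟩
    · rw [hjump _ (by omega), ← hi]
      congr 2
      omega
    · intro k hk
      by_cases hka : k ≤ a
      · rw [hag k hka]
        exact hi' k (by omega)
      · have h2 : k = a + 1 + (k - (a + 1)) := by omega
        rw [h2, hjump _ (by omega)]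
        exact hi' _ (by omega)

/-- order in the split case -/
lemma Sw.bef_split' {p p' : α → α} {u v : α} (h : Sw p p' u v) (huv : u ≠ v) {x y z : α}
    (hxu : InOrb p x u) (hxv : InOrb p x v) (hy : InOrb p' x y)
    (hyz : Bef p x y z) : Bef p' x y z := by
  obtain ⟨T, hT0, hT, hinj, hmod⟩ := exists_minper h.per h.inj x
  obtain ⟨a, haT, ha⟩ := hmod u hxu
  obtain ⟨b, hbT, hb⟩ := hmod v hxv
  rcases lt_trichotomy a b with h1 | h1 | h1
  · exact h.bef_split hT h1 hbT ha hb hinj hmod hy hyz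
  · exfalso; apply huv; rw [← ha, ← hb, h1]
  · exact h.swap.bef_split hT h1 haT hb ha hinj hmod hy hyz

/-- merge: if `u` is on the orbit of `x` and `v` is not then both are on the orbit of `p'` -/
lemma Sw.merge {p p' : α → α} {u v : α} (h : Sw p p' u v) {x : α} (hxu : InOrb p x u)
    (hxv : ¬ InOrb p x v) : InOrb p' x u ∧ InOrb p' x v := by
  obtain ⟨T, hT0, hT, hinj, hmod⟩ := exists_minper h.per h.inj x
  obtain ⟨a, haT, ha⟩ := hmod u hxu
  have hno : ∀ k < a, p^[k] x ≠ u ∧ p^[k] x ≠ v := by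
    intro k hk
    constructor
    · rw [← ha]
      intro h1
      have := hinj _ _ (by omega) (by omega) h1
      omega
    · intro h1
      exact hxv ⟨k, h1⟩
  have hag := h.agree hno a le_rfl
  rw [ha] at hag
  refine ⟨⟨a, hag⟩, ?_⟩
  -- the cycle of `v`
  obtain ⟨S, hS0, hS, hinj2, -⟩ := exists_minper h.per h.inj v
  have hvu : ∀ k, p^[k] v ≠ u := by
    intro k hk
    apply hxv
    -- `u` on the orbit of `v`, hence `v` on the orbit of `u`
    obtain ⟨S', hS'0, hS', -, hmod'⟩ := exists_minper h.per h.inj v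
    obtain ⟨k', hk', hk''⟩ := hmod' u ⟨k, hk⟩
    refine ⟨(S' - k') + a, ?_⟩
    rw [Function.iterate_add_apply, ha, ← hk'', ← Function.iterate_add_apply,
      Nat.sub_add_cancel hk'.le, hS']
  have hcy : ∀ m, m + 1 ≤ S → p'^[a + 1 + m] x = p^[m + 1] v := by
    intro m
    induction m with
    | zero =>
      intro _
      rw [Nat.add_zero, Function.iterate_succ_apply', hag, h.hu]
      rfl
    | succ m ih =>
      intro hm
      have h0 : p^[m + 1] v ≠ v := by
        intro h1
        have := hinj2 (m + 1) 0 (by omega) hS0 h1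
        omega
      rw [← Nat.add_assoc, Function.iterate_succ_apply', ih (by omega), h.off _ (hvu _) h0,
        ← Function.iterate_succ_apply' (f := p)]
  refine ⟨a + 1 + (S - 1), ?_⟩
  rw [hcy _ (by omega), Nat.sub_add_cancel (by omega), hS]

/-- **The order does not change**: `y`, `z` on the orbits of `x` under `p` and under `p'`. -/
theorem Sw.bef {p p' : α → α} {u v : α} (h : Sw p p' u v) (huv : u ≠ v) {x y z : α}
    (hz : InOrb p x z) (hy' : InOrb p' x y) (hz' : InOrb p' x z)
    (hyz : Bef p x y z) : Bef p' x y z := by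
  by_cases hxu : InOrb p x u
  · by_cases hxv : InOrb p x v
    · exact h.bef_split' huv hxu hxv hy' hyz
    · obtain ⟨h1, h2⟩ := h.merge hxu hxv
      by_contra hcon
      rcases bef_or hy' hz' hyz.ne with h3 | h3
      · exact hcon h3
      · exact hyz.not (h.symm.bef_split' huv h1 h2 hz h3)
  · by_cases hxv : InOrb p x v
    · obtain ⟨h1, h2⟩ := h.swap.merge hxv hxu
      by_contra hcon
      rcases bef_or hy' hz' hyz.ne with h3 | h3
      · exact hcon h3
      · exact hyz.not (h.symm.bef_split' huv h2 h1 hz h3)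
    · obtain ⟨i, hi, hi'⟩ := hyz
      have hag := h.agree (x := x) (n := i) fun k _ => ⟨fun h1 => hxu ⟨k, h1⟩, fun h1 => hxv ⟨k, h1⟩⟩
      exact ⟨i, by rw [hag i le_rfl, hi], fun k hk => by rw [hag k hk]; exact hi' k hk⟩

/-- **Excursion.** If `c` is on the orbit of `x` under `p`, not under `p'`, then it is met before
every point `d` of the orbit under `p'` which is met after `u` or after `v`. -/
theorem Sw.excursion {p p' : α → α} {u v : α} (h : Sw p p' u v) (huv : u ≠ v) {x c d : α}
    (hc : InOrb p x c) (hc' : ¬ InOrb p' x c) (hd' : InOrb p' x d) (hud : Bef p x u d)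
    (hd : InOrb p x d) : Bef p x c d := by
  obtain ⟨T, hT0, hT, hinj, hmod⟩ := exists_minper h.per h.inj x
  have hxu : InOrb p x u := hud.inOrb
  have hxv : InOrb p x v := by
    by_contra hxv
    apply hc'
    obtain ⟨h1, h2⟩ := h.merge hxu hxv
    -- every point of the orbit under `p` is on the orbit under `p'`
    have key : ∀ n, InOrb p' x (p^[n] x) := by
      intro n
      induction n with
      | zero => exact ⟨0, rfl⟩
      | succ n ih =>
        rw [Function.iterate_succ_apply']
        by_cases h3 : p^[n] x = u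
        · obtain ⟨m, hm⟩ := h2
          exact ⟨m + 1, by rw [Function.iterate_succ_apply', hm, h.hv, h3]⟩
        · obtain ⟨m, hm⟩ := ih
          refine ⟨m + 1, ?_⟩
          rw [Function.iterate_succ_apply', hm]
          exact h.off _ h3 fun h4 => hxv ⟨n, h4⟩
    obtain ⟨n, rfl⟩ := hc
    exact key n
  obtain ⟨a, haT, ha⟩ := hmod u hxu
  obtain ⟨b, hbT, hb⟩ := hmod v hxv
  obtain ⟨i, hiT, hi⟩ := hmod c hc
  obtain ⟨j, hjT, hj⟩ := hmod d hd
  have haj : a < j := by
    obtain ⟨a', ha', h1⟩ := hud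
    by_contra hcon
    by_cases h2 : a ≤ a'
    · exact h1 j (by omega) hj
    · have := hinj a a' haT (by omega) (ha.trans ha'.symm)
      omega
  have hid : i < j := by
    rcases lt_trichotomy a b with h1 | h1 | h1
    · have h2 := h.split_time hT h1 hbT ha hb hinj hd' hjT hj
      by_contra hcon
      apply hc'
      rw [← hi]
      exact h.split_mem h1 hbT ha hb hinj hiT (Or.inr (by omega))
    · exfalso; apply huv; rw [← ha, ← hb, h1]
    · have h2 := h.swap.split_time hT h1 haT hb ha hinj hd' hjT hj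
      by_contra hcon
      apply hc'
      rw [← hi]
      exact h.swap.split_mem h1 haT hb ha hinj hiT (Or.inr (by omega))
  refine ⟨i, hi, fun k hk h1 => ?_⟩
  have := hinj k j (by omega) hjT (h1.trans hj.symm)
  omega

/-- A point `w` met before `u` and before `v` is met before every point `c` which is not on the orbit
under `p'`. -/
lemma Sw.before {p p' : α → α} {u v : α} (h : Sw p p' u v) {x w c : α}
    (hc' : ¬ InOrb p' x c) {i : ℕ} (hi : p^[i] x = w)
    (hn : ∀ k < i, p^[k] x ≠ u ∧ p^[k] x ≠ v) : Bef p x w c := by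
  refine ⟨i, hi, fun k hk h1 => hc' ⟨k, ?_⟩⟩
  rw [h.agree hn k hk, h1]

end generic

/-! ### Interfaces -/

open Pool.Agent.H75.TwoArm Pool.Agent.H75.Four Pool.Agent.H99.NC Pool.Agent.H69.Q1
open Pool.Agent.H75.TwoArm.StrandAux hiding vx_nxC
open Pool.Agent.H39.Q1.VisAux (exists_period)

/-- a corner is determined by its vertex and its face -/
lemma corner_ext {c c' : ℤ × ℤ} (h : vx c = vx c') (h' : fi c = fi c') : c = c' := by
  obtain ⟨a, b⟩ := c
  obtain ⟨a', b'⟩ := c'
  unfold vx at h
  unfold fi at h'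
  simp only [Prod.mk.injEq] at h h' ⊢
  omega

lemma plab_iff {w : Finset (ℤ × ℤ)} {e z : ℤ × ℤ} (he : (e.1 + e.2) % 2 = 1) :
    plab z = e ↔ z = nx w (zu e) ∨ z = nx w (zv e) := by
  obtain ⟨o1, o2, o3, o4, -, -⟩ := opc_zu he
  constructor
  · intro h
    have h1 : lab (pv w z) = e := by rw [lab_pv, h]
    rcases eq_zu_or_zv he h1 with h2 | h2
    · left; rw [← h2, nx_pv]
    · right; rw [← h2, nx_pv]
  · rintro (rfl | rfl)
    · rw [← lab_pv w, pv_nx, o3]
    · rw [← lab_pv w, pv_nx, o4]

lemma nx_erase (M : Finset (ℤ × ℤ)) {e : ℤ × ℤ} (he : (e.1 + e.2) % 2 = 1) (heM : e ∈ M) :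
    nx (M.erase e) (zv e) = nx M (zu e) ∧ nx (M.erase e) (zu e) = nx M (zv e) := by
  obtain ⟨o1, o2, o3, o4, -, -⟩ := opc_zu he
  unfold nx
  rw [o3, o4, if_neg (notMem_erase e M), if_pos heM, if_neg (notMem_erase e M), if_pos heM,
    FOtherAux.nxC_eq_nxO, FOtherAux.nxC_eq_nxO, o1, o2]
  exact ⟨rfl, rfl⟩

/-- Closing an open label. -/
lemma sw_erase {M : Finset (ℤ × ℤ)} {e : ℤ × ℤ} (he : (e.1 + e.2) % 2 = 1) (heM : e ∈ M) :
    Sw (pv M) (pv (M.erase e)) (nx M (zu e)) (nx M (zv e)) ∧ nx M (zu e) ≠ nx M (zv e) := by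
  obtain ⟨o1, o2, o3, o4, o5, o6⟩ := opc_zu he
  obtain ⟨h1, h2⟩ := nx_erase M he heM
  refine ⟨⟨pv_inj _, pv_inj _, exists_period M, exists_period _, ?_, ?_, ?_⟩, ?_⟩
  · intro w hw1 hw2
    refine pv_eq_of ?_
    rw [mem_erase]
    have : plab w ≠ e := fun h => by
      rcases (plab_iff (w := M) he).1 h with h3 | h3
      · exact hw1 h3
      · exact hw2 h3
    exact ⟨fun h => h.2, fun h => ⟨this, h⟩⟩
  · rw [pv_nx, ← h1, pv_nx]
  · rw [pv_nx, ← h2, pv_nx]
  · intro h
    have h3 := congrArg (pv M) h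
    rw [pv_nx, pv_nx] at h3
    have h4 := congrArg vx h3
    rw [o5, o6] at h4
    unfold eu ev at h4
    simp only [Prod.mk.injEq] at h4
    omega

/-- **Order lemma.** `T ⊆ M`; `x`, `y`, `z` have vertices joined in `T` and faces joined by labels
outside `M`. Then the order of `y`, `z` on the interface of `x` is the same for `M` and for `T`. -/
theorem bef_mono {T F : Finset (ℤ × ℤ)} {x y z : ℤ × ℤ} : ∀ (M : Finset (ℤ × ℤ)), T ⊆ M →
    (∀ e ∈ M, (e.1 + e.2) % 2 = 1) →
    Co T (vx x) (vx y) → Co T (vx x) (vx z) → Co (du F M) (fi x) (fi y) →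
    Co (du F M) (fi x) (fi z) → Bef (pv M) x y z → Bef (pv T) x y z := by
  intro M
  induction M using Finset.strongInduction with
  | H M ih =>
    intro hTM hodd hy hz fy fz h
    by_cases hM : M = T
    · rw [← hM]; exact h
    · obtain ⟨e, heM, heT⟩ : ∃ e ∈ M, e ∉ T := by
        by_contra hcon
        push Not at hcon
        exact hM (Subset.antisymm hcon hTM)
      have he := hodd e heM
      have hT' : T ⊆ M.erase e := fun a ha => mem_erase.2 ⟨fun h1 => heT (h1 ▸ ha), hTM ha⟩
      obtain ⟨hs, hne⟩ := sw_erase he heM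
      have f' : du F M ⊆ du F (M.erase e) := du_anti (erase_subset _ _)
      refine ih _ (erase_ssubset heM) hT' (fun a ha => hodd a (mem_of_mem_erase ha)) hy hz
        (fy.mono f') (fz.mono f') ?_
      refine hs.bef hne ?_ ?_ ?_ h
      · exact inOrb_pv_iff.2 (inOrb_of_co _ (hz.mono hTM) fz)
      · exact inOrb_pv_iff.2 (inOrb_of_co _ (hy.mono hT') (fy.mono f'))
      · exact inOrb_pv_iff.2 (inOrb_of_co _ (hz.mono hT') (fz.mono f'))

/-- the order lemma as an equivalence -/
theorem bef_iff {T F M : Finset (ℤ × ℤ)} {x y z : ℤ × ℤ} (hTM : T ⊆ M)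
    (hodd : ∀ e ∈ M, (e.1 + e.2) % 2 = 1) (hy : Co T (vx x) (vx y)) (hz : Co T (vx x) (vx z))
    (fy : Co (du F M) (fi x) (fi y)) (fz : Co (du F M) (fi x) (fi z)) :
    Bef (pv M) x y z ↔ Bef (pv T) x y z := by
  refine ⟨bef_mono M hTM hodd hy hz fy fz, fun h => ?_⟩
  have h1 : InOrb (pv M) x y := inOrb_pv_iff.2 (inOrb_of_co _ (hy.mono hTM) fy)
  have h2 : InOrb (pv M) x z := inOrb_pv_iff.2 (inOrb_of_co _ (hz.mono hTM) fz)
  rcases bef_or h1 h2 h.ne with h3 | h3
  · exact h3
  · exact absurd (bef_mono M hTM hodd hz hy fz fy h3) h.not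

end Pool.Agent.H5.M7
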