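import Mathlib
import Pool.Agent.H5.M7.Order
import Pool.Agent.H42.MJ.Contour
import Pool.Agent.H28.Q1.InvD

set_option autoImplicit false

/-! # Cutting a discrete domain along a set of vertices

`X : DDomain`, `N` a set of vertices. `CutC X N` : combinatorial cut data. `CutC.dom` : the component
of `X.α.1` in `X.V \ N` as a discrete domain, with the same starting corner and a new final corner
next to `N`. `CutC.dual_of`, `CutC.wired_of` : the corners of the contour of `X` which belong to the
new domain are on the same boundary arc. -/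

namespace Pool.Agent.H5.M7

open Pool.Agent.H81.Q1
open Pool.Agent.H69.Q1 (lb lb_injOn vx_cor cor_surjective cor_injective plab_cor corner_edge_mem
  edges_sub lb_mk)
open Pool.Agent.H75.Perc (pv vx Co InOrb)
open Pool.Agent.H75.TwoArm (plab fi du)
open Pool.Agent.H42.MJ (faceStep_symm faceStep_turn face_follow orbit_outer)

/-! ### Faces -/

lemma faceStep_mono {E E' : Set (Sym2 (ℤ × ℤ))} (h : E' ⊆ E) {f g : ℤ × ℤ}
    (hfg : faceStep E f g) : faceStep E' f g := by
  unfold faceStep at hfg ⊢
  rcases hfg with ⟨h1, h2⟩ | ⟨h1, h2⟩ | ⟨h1, h2⟩ | ⟨h1, h2⟩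
  · exact Or.inl ⟨h1, fun h3 => h2 (h h3)⟩
  · exact Or.inr (Or.inl ⟨h1, fun h3 => h2 (h h3)⟩)
  · exact Or.inr (Or.inr (Or.inl ⟨h1, fun h3 => h2 (h h3)⟩))
  · exact Or.inr (Or.inr (Or.inr ⟨h1, fun h3 => h2 (h h3)⟩))

lemma isOuter_mono {E E' : Set (Sym2 (ℤ × ℤ))} (h : E' ⊆ E) {c : Corner} (hc : IsOuter E c) :
    IsOuter E' c := by
  intro n
  obtain ⟨g, h1, h2⟩ := hc n
  exact ⟨g, Relation.ReflTransGen.mono (fun _ _ hs => faceStep_mono h hs) _ _ h1, h2⟩

lemma isOuter_of_step {E : Set (Sym2 (ℤ × ℤ))} {c c' : Corner}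
    (h : Relation.ReflTransGen (faceStep E) c.face c'.face) (hc : IsOuter E c') : IsOuter E c := by
  intro n
  obtain ⟨g, h1, h2⟩ := hc n
  exact ⟨g, h.trans h1, h2⟩

/-- the faces around a vertex none of whose edges is in `E` -/
lemma faces_around {E : Set (Sym2 (ℤ × ℤ))} {v : ℤ × ℤ} (h : ∀ q : ZMod 4, Corner.edge (v, q) ∉ E)
    (q q' : ZMod 4) : Relation.ReflTransGen (faceStep E) (Corner.face (v, q))
      (Corner.face (v, q')) := by
  have key : ∀ (q : ZMod 4) (n : ℕ), Relation.ReflTransGen (faceStep E) (Corner.face (v, q))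
      (Corner.face (v, q + n)) := by
    intro q n
    induction n with
    | zero => simpa using Relation.ReflTransGen.refl
    | succ n ih =>
      refine ih.tail ?_
      have h1 := faceStep_turn (h (q + n + 1))
      rw [add_sub_cancel_right] at h1
      rw [Nat.cast_succ, ← add_assoc]
      exact h1
  obtain ⟨n, hn⟩ : ∃ n : ℕ, q' = q + n := ⟨(q' - q).val, by rw [ZMod.natCast_zmod_val]; ring⟩
  rw [hn]
  exact key q n

/-! ### The cut -/

section

variable (X : DDomain) (N : Set (ℤ × ℤ))

/-- The component of the initial vertex off `N`. -/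
def cutV : Set (ℤ × ℤ) := {v | Relation.ReflTransGen (fun x y => s(x, y) ∈ X.E ∧ y ∉ N) X.α.1 v}

/-- The edges of the domain inside the component. -/
def cutE : Set (Sym2 (ℤ × ℤ)) := {e | e ∈ X.E ∧ ∀ v ∈ e, v ∈ cutV X N}

/-- joined inside `N` by edges of the domain -/
def JN (u v : ℤ × ℤ) : Prop := Relation.ReflTransGen (fun x y => s(x, y) ∈ X.E ∧ y ∈ N) u v

end

variable {X : DDomain} {N : Set (ℤ × ℤ)}

lemma cutE_sub : cutE X N ⊆ X.E := fun _ h => h.1

lemma cutV_sub : cutV X N ⊆ X.V := by
  intro v hv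
  induction hv with
  | refl => exact X.memα
  | tail _ h _ => exact (X.subE h.1).2 _ (by simp)

lemma cutV_cons {u v : ℤ × ℤ} (hu : u ∈ cutV X N) (h : s(u, v) ∈ X.E) (hv : v ∉ N) :
    v ∈ cutV X N := Relation.ReflTransGen.tail hu ⟨h, hv⟩

/-- Combinatorial cut data. -/
structure CutC (X : DDomain) (N : Set (ℤ × ℤ)) where
  /-- the start is not in `N` -/
  hα : X.α.1 ∉ N
  /-- every vertex of `N` is joined inside `N` to the outer boundary -/
  comp : ∀ w ∈ N, w ∈ X.V → ∃ g : Corner, IsOuter X.E g ∧ JN X N w g.1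
  /-- the new final corner -/
  β : Corner
  hβV : β.1 ∈ cutV X N
  hβE : β.edge ∈ X.E
  hβN : β.1 + dir β.2 ∈ N
  /-- a corner of the wired arc joined to `β` inside `N` -/
  g1 : Corner
  /-- a corner of the dual arc joined to `β` inside `N` -/
  g2 : Corner
  hg1 : g1 ∈ X.wired
  hg2 : g2 ∈ X.dual
  jg1 : JN X N (β.1 + dir β.2) g1.1
  jg2 : JN X N (β.1 + dir β.2) g2.1
  ne : X.α.1 ≠ β.1

namespace CutC

variable (C : CutC X N)

include C in
lemma not_mem {v : ℤ × ℤ} (hv : v ∈ cutV X N) : v ∉ N := by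
  rcases (Relation.ReflTransGen.cases_tail hv) with h | ⟨_, -, h⟩
  · rw [h]; exact C.hα
  · exact h.2

omit C in
lemma JN_mem {w v : ℤ × ℤ} (hw : w ∈ N) (h : JN X N w v) : v ∈ N := by
  rcases (Relation.ReflTransGen.cases_tail h) with h | ⟨_, -, h⟩
  · rw [h]; exact hw
  · exact h.2

include C in
/-- the edges at a vertex of `N` are not in the new domain -/
lemma edge_N {w : ℤ × ℤ} (hw : w ∈ N) (q : ZMod 4) : Corner.edge (w, q) ∉ cutE X N := by
  rintro ⟨-, h⟩
  exact C.not_mem (h w (by unfold Corner.edge; simp)) hw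

include C in
lemma face_N {w v : ℤ × ℤ} (hw : w ∈ N) (h : JN X N w v) (q q' : ZMod 4) :
    Relation.ReflTransGen (faceStep (cutE X N)) (Corner.face (w, q)) (Corner.face (v, q')) := by
  induction h generalizing q' with
  | refl => exact faces_around (fun q => C.edge_N hw q) q q'
  | @tail b c hb hbc ih =>
    obtain ⟨p, hp⟩ := Pool.Agent.H42.MJ.z2_adj_iff.1 (subZ2 X hbc.1)
    have h1 : Corner.face (b, p) = Corner.face (c, p + 1) := by
      have hp' : c = b + dir p := hp
      rw [hp']; exact face_follow.symm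
    refine (ih p).trans ?_
    rw [h1]
    exact faces_around (fun q => C.edge_N hbc.2 q) _ _

include C in
lemma noHole {c : Corner} (hc : c.1 ∈ cutV X N) (he : c.edge ∉ cutE X N) :
    IsOuter (cutE X N) c := by
  by_cases h : c.edge ∈ X.E
  · have hw : c.1 + dir c.2 ∈ N := by
      by_contra hw
      apply he
      refine ⟨h, ?_⟩
      intro v hv
      unfold Corner.edge at hv h
      rcases Sym2.mem_iff.1 hv with rfl | rfl
      · exact hc
      · exact cutV_cons hc h hw
    have hwV : c.1 + dir c.2 ∈ X.V := (X.subE h).2 _ (by unfold Corner.edge; simp)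
    obtain ⟨g, hg, hj⟩ := C.comp _ hw hwV
    refine isOuter_of_step ?_ (isOuter_mono cutE_sub hg)
    have h1 : c.face = Corner.face (c.1 + dir c.2, c.2 + 1) := face_follow.symm
    rw [h1]
    exact C.face_N hw hj _ _
  · exact isOuter_mono cutE_sub (X.noHole c (cutV_sub hc) h)

/-- **The cut domain.** -/
def dom : DDomain where
  V := cutV X N
  E := cutE X N
  finV := X.finV.subset cutV_sub
  subE := fun e he => ⟨(X.subE he.1).1, he.2⟩
  conn := by
    have key : ∀ v ∈ cutV X N,
        Relation.ReflTransGen (fun x y => s(x, y) ∈ cutE X N) X.α.1 v := by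
      intro v hv
      induction hv with
      | refl => exact Relation.ReflTransGen.refl
      | @tail b c hb hbc ih =>
        refine ih.tail ⟨hbc.1, ?_⟩
        intro v hv
        rcases Sym2.mem_iff.1 hv with rfl | rfl
        · exact hb
        · exact Relation.ReflTransGen.tail hb hbc
    intro u hu v hv
    refine Relation.ReflTransGen.trans ?_ (key v hv)
    have : Std.Symm (fun x y : ℤ × ℤ => s(x, y) ∈ cutE X N) :=
      ⟨fun x y h => by rw [Sym2.eq_swap]; exact h⟩
    exact Std.Symm.symm _ _ (key u hu)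
  noHole := fun c hc he => C.noHole hc he
  α := X.α
  β := C.β
  memα := Relation.ReflTransGen.refl
  memβ := C.hβV
  outα := isOuter_mono cutE_sub X.outα
  outβ := C.noHole C.hβV fun h => C.not_mem (h.2 _ (by unfold Corner.edge; simp)) C.hβN
  ne := C.ne

@[simp] lemma dom_V : C.dom.V = cutV X N := rfl
@[simp] lemma dom_E : C.dom.E = cutE X N := rfl
@[simp] lemma dom_α : C.dom.α = X.α := rfl
@[simp] lemma dom_β : C.dom.β = C.β := rfl

end CutC

end Pool.Agent.H5.M7
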