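import Mathlib
import Pool.Agent.H5.M7.CutDom

set_option autoImplicit false

/-! # The boundary arcs of a cut domain

`CutC.dual_of`, `CutC.wired_of` : the corners of the contour of `X` which belong to the cut domain are
on the same boundary arc of the cut domain. -/

namespace Pool.Agent.H5.M7

open Pool.Agent.H81.Q1
open Pool.Agent.H69.Q1 (lb lb_injOn vx_cor cor_surjective cor_injective plab_cor corner_edge_mem
  edges_sub lb_mk inOrb_of_co inOrb_pv_iff du_mono_left du_anti)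
open Pool.Agent.H75.Perc (pv nx vx Co InOrb)
open Pool.Agent.H75.TwoArm (plab fi du)
open Pool.Agent.H75.Four (zu zv)

/-! ### More on the order -/

section generic

variable {α : Type*}

lemma Bef.trans {p : α → α} {x y z w : α} (h : Bef p x y z) (h' : Bef p x z w) : Bef p x y w := by
  obtain ⟨i, hi, hi'⟩ := h
  obtain ⟨j, hj, hj'⟩ := h'
  refine ⟨i, hi, fun k hk => hj' k ?_⟩
  by_contra hcon
  exact hi' j (by omega) hj

/-- rotation of the order -/
lemma bef_rot {p : α → α} (hper : ∀ x, ∃ T, 0 < T ∧ p^[T] x = x) (hinj : Function.Injective p)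
    {a b c : α} (hab : InOrb p a b) (hne : a ≠ b) (hcb : c ≠ b) :
    Bef p b c a ↔ InOrb p a c ∧ Bef p a b c := by
  obtain ⟨T, hT0, hT, hin, hmod⟩ := exists_minper hper hinj a
  obtain ⟨tb, htb, hb⟩ := hmod b hab
  have htb0 : 0 < tb := by
    rcases Nat.eq_zero_or_pos tb with h | h
    · exfalso; apply hne; rw [← hb, h]; rfl
    · exact h
  constructor
  · rintro ⟨i, hi, hi'⟩
    have hac : InOrb p a c := ⟨i + tb, by rw [Function.iterate_add_apply, hb, hi]⟩
    refine ⟨hac, ?_⟩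
    obtain ⟨tc, htc, hc⟩ := hmod c hac
    have h1 : tb < tc := by
      by_cases h2 : tb + i < T
      · have h3 := hin (tb + i) tc h2 htc (by
          rw [Nat.add_comm, Function.iterate_add_apply, hb, hi, hc])
        have h4 : i ≠ 0 := by
          rintro rfl
          exact hcb hi.symm
        omega
      · exfalso
        refine hi' (T - tb) (by omega) ?_
        rw [← hb, ← Function.iterate_add_apply, Nat.sub_add_cancel htb.le, hT]
    refine ⟨tb, hb, fun k hk h2 => ?_⟩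
    have := hin k tc (by omega) htc (h2.trans hc.symm)
    omega
  · rintro ⟨hac, j, hj, hj'⟩
    obtain ⟨tc, htc, hc⟩ := hmod c hac
    have h1 : tb < tc := by
      by_contra hcon
      by_cases h2 : tb ≤ j
      · exact hj' tc (by omega) hc
      · have := hin j tb (by omega) htb (hj.trans hb.symm)
        omega
    refine ⟨tc - tb, ?_, fun k hk h2 => ?_⟩
    · rw [← hb, ← Function.iterate_add_apply, Nat.sub_add_cancel h1.le, hc]
    · rw [← hb, ← Function.iterate_add_apply] at h2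
      have := hin (k + tb) 0 (by omega) hT0 h2
      omega

end generic

/-! ### The arcs of a discrete domain -/

section arcs

variable (X : DDomain)


lemma mem_dual_iff {c : Corner} :
    c ∈ X.dual ↔ c = X.β ∨ Bef (pv (LabE X)) (Pool.Agent.H69.Q1.cor X.α) (Pool.Agent.H69.Q1.cor c) (Pool.Agent.H69.Q1.cor X.β) := by
  constructor
  · rintro ⟨i, hi, rfl⟩
    by_cases h : (next X.E)^[i] X.α = X.β
    · exact Or.inl h
    · refine Or.inr ⟨i, (cor_contour X _ i).symm, fun k hk => ?_⟩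
      rw [← cor_contour]
      intro h1
      have h2 := cor_injective h1
      rcases hk.lt_or_eq with h3 | h3
      · exact hi k h3 h2
      · rw [h3] at h2; exact h h2
  · rintro (rfl | ⟨i, hi, hi'⟩)
    · classical
      have hex : ∃ i, (next X.E)^[i] X.α = X.β :=
        Pool.Agent.H42.MJ.orbit_outer X X.memα X.memβ X.outα X.outβ
      exact ⟨Nat.find hex, fun j hj => Nat.find_min hex hj, (Nat.find_spec hex).symm⟩
    · refine ⟨i, fun j hj h => hi' j hj.le (by rw [← cor_contour, h]), ?_⟩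
      rw [← cor_contour] at hi
      exact (cor_injective hi).symm

lemma mem_wired_iff' {c : Corner} :
    c ∈ X.wired ↔ c = X.α ∨ Bef (pv (LabE X)) (Pool.Agent.H69.Q1.cor X.β) (Pool.Agent.H69.Q1.cor c) (Pool.Agent.H69.Q1.cor X.α) := by
  constructor
  · rintro ⟨i, hi, rfl⟩
    by_cases h : (next X.E)^[i] X.β = X.α
    · exact Or.inl h
    · refine Or.inr ⟨i, (cor_contour X _ i).symm, fun k hk => ?_⟩
      rw [← cor_contour]
      intro h1
      have h2 := cor_injective h1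
      rcases hk.lt_or_eq with h3 | h3
      · exact hi k h3 h2
      · rw [h3] at h2; exact h h2
  · rintro (rfl | ⟨i, hi, hi'⟩)
    · classical
      have hex : ∃ i, (next X.E)^[i] X.β = X.α :=
        Pool.Agent.H42.MJ.orbit_outer X X.memβ X.memα X.outβ X.outα
      exact ⟨Nat.find hex, fun j hj => Nat.find_min hex hj, (Nat.find_spec hex).symm⟩
    · refine ⟨i, fun j hj h => hi' j hj.le (by rw [← cor_contour, h]), ?_⟩
      rw [← cor_contour] at hi
      exact (cor_injective hi).symm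

lemma cor_αβ : Pool.Agent.H69.Q1.cor X.α ≠ Pool.Agent.H69.Q1.cor X.β := fun h => X.ne (by rw [cor_injective h])

lemma inOrb_αβ : InOrb (pv (LabE X)) (Pool.Agent.H69.Q1.cor X.α) (Pool.Agent.H69.Q1.cor X.β) :=
  inOrb_outer X X.memα X.memβ X.outα X.outβ

lemma mem_wired_iff {c : Corner} (hα : c ≠ X.α) :
    c ∈ X.wired ↔ c = X.β ∨ (InOrb (pv (LabE X)) (Pool.Agent.H69.Q1.cor X.α) (Pool.Agent.H69.Q1.cor c) ∧
      Bef (pv (LabE X)) (Pool.Agent.H69.Q1.cor X.α) (Pool.Agent.H69.Q1.cor X.β) (Pool.Agent.H69.Q1.cor c)) := by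
  rw [mem_wired_iff']
  by_cases hβ : c = X.β
  · subst hβ
    refine ⟨fun _ => Or.inl rfl, fun _ => Or.inr ⟨0, rfl, fun k hk => ?_⟩⟩
    rw [Nat.le_zero.1 hk]
    exact (cor_αβ X).symm
  · have h1 := bef_rot (p := pv (LabE X)) (Pool.Agent.H39.Q1.VisAux.exists_period _)
      (Pool.Agent.H69.Q1.pv_inj _) (inOrb_αβ X) (cor_αβ X) (c := Pool.Agent.H69.Q1.cor c)
      (fun h => hβ (cor_injective h))
    constructor
    · rintro (h | h)
      · exact absurd h hα
      · exact Or.inr (h1.1 h)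
    · rintro (h | h)
      · exact absurd h hβ
      · exact Or.inr (h1.2 h)

/-- outer corners are on one of the two arcs -/
lemma outer_mem {c : Corner} (hc : c.1 ∈ X.V) (ho : IsOuter X.E c) : c ∈ X.dual ∨ c ∈ X.wired := by
  by_cases hα : c = X.α
  · right; rw [mem_wired_iff']; exact Or.inl hα
  · by_cases hβ : c = X.β
    · left; rw [mem_dual_iff]; exact Or.inl hβ
    · have h1 := inOrb_outer X X.memα hc X.outα ho
      rcases bef_or h1 (inOrb_αβ X) (fun h => hβ (cor_injective h)) with h | h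
      · left; rw [mem_dual_iff]; exact Or.inr h
      · right; rw [mem_wired_iff X hα]; exact Or.inr ⟨h1, h⟩

lemma not_both {c : Corner} (h : c ∈ X.dual) (h' : c ∈ X.wired) : c = X.α ∨ c = X.β := by
  by_contra hcon
  push Not at hcon
  rw [mem_dual_iff] at h
  rw [mem_wired_iff X hcon.1] at h'
  exact (h.resolve_left hcon.2).not (h'.resolve_left hcon.2).2

/-- the corners of the arcs are outer corners -/
lemma outer_of_dual {c : Corner} (h : c ∈ X.dual) : IsOuter X.E c ∧ c.1 ∈ X.V := by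
  obtain ⟨i, -, rfl⟩ := h
  refine ⟨Pool.Agent.H42.MJ.outer_iter X.outα i, ?_⟩
  induction i with
  | zero => exact X.memα
  | succ i ih =>
    rw [Function.iterate_succ_apply']
    unfold next
    split_ifs with h1
    · exact (X.subE h1).2 _ (by unfold Corner.edge; simp)
    · exact ih

lemma outer_of_wired {c : Corner} (h : c ∈ X.wired) : IsOuter X.E c ∧ c.1 ∈ X.V := by
  obtain ⟨i, -, rfl⟩ := h
  refine ⟨Pool.Agent.H42.MJ.outer_iter X.outβ i, ?_⟩
  induction i with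
  | zero => exact X.memβ
  | succ i ih =>
    rw [Function.iterate_succ_apply']
    unfold next
    split_ifs with h1
    · exact (X.subE h1).2 _ (by unfold Corner.edge; simp)
    · exact ih

end arcs

/-! ### The cut -/


variable {X : DDomain} {N : Set (ℤ × ℤ)}

/-- the labels of the edges with both ends in `N` -/
noncomputable def KN (X : DDomain) (N : Set (ℤ × ℤ)) : Finset (ℤ × ℤ) :=
  @Finset.filter _ (fun l => ∃ e ∈ X.E, lb e = l ∧ ∀ v ∈ e, v ∈ N) (Classical.decPred _) (LabE X)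

lemma mem_KN {l : ℤ × ℤ} : l ∈ KN X N ↔ ∃ e ∈ X.E, lb e = l ∧ ∀ v ∈ e, v ∈ N := by
  unfold KN
  rw [@Finset.mem_filter _ _ (Classical.decPred _), mem_LabE]
  constructor
  · rintro ⟨-, h⟩; exact h
  · rintro ⟨e, he, h1, h2⟩; exact ⟨⟨e, he, h1⟩, e, he, h1, h2⟩

lemma ad_lab {L : Finset (ℤ × ℤ)} {x y : ℤ × ℤ} (h : s(x, y) ∈ Z2.edgeSet) (hL : lb s(x, y) ∈ L) :
    Pool.Agent.H75.Perc.Ad L x y := by
  refine ⟨?_, hL⟩
  have h3 := Pool.Agent.H69.Q1.isUnit_of_adj h
  unfold Pool.Agent.H75.Perc.IsUnit4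
  simp only [Prod.ext_iff, Prod.fst_sub, Prod.snd_sub, Prod.fst_add, Prod.snd_add] at h3 ⊢
  omega

lemma co_KN {w v : ℤ × ℤ} (hw : w ∈ N) (h : JN X N w v) : Co (KN X N) w v := by
  induction h with
  | refl => exact Co.refl _ _
  | @tail b c hb hbc ih =>
    refine ih.tail (ad_lab (subZ2 X hbc.1) (mem_KN.2 ⟨_, hbc.1, rfl, ?_⟩))
    intro v hv
    rcases Sym2.mem_iff.1 hv with rfl | rfl
    · exact CutC.JN_mem hw hb
    · exact hbc.2

namespace CutC

variable (C : CutC X N)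

lemma LabE_sub : LabE C.dom ⊆ LabE X := by
  intro l hl
  obtain ⟨e, he, h⟩ := (mem_LabE _).1 hl
  exact (mem_LabE _).2 ⟨e, he.1, h⟩

/-- label of the edge crossed at the new final corner -/
def ef : ℤ × ℤ := lb C.β.edge

lemma plab_β : plab (Pool.Agent.H69.Q1.cor C.β) = C.ef := plab_cor _

lemma ef_not_dom : C.ef ∉ LabE C.dom := by
  intro h
  rw [ef, lb_mem_LabE _ (corner_edge_mem _)] at h
  exact C.not_mem (h.2 _ (by unfold Corner.edge; simp)) C.hβN

lemma ef_not_KN : C.ef ∉ KN X N := by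
  intro h
  obtain ⟨e, he, h1, h2⟩ := mem_KN.1 h
  rw [ef] at h1
  have h3 := lb_injOn (subZ2 X he) (corner_edge_mem _) h1
  rw [h3] at h2
  exact C.not_mem C.hβV (h2 _ (by unfold Corner.edge; simp))

/-- the auxiliary set without `ef` -/
noncomputable def T0 : Finset (ℤ × ℤ) := LabE C.dom ∪ KN X N

/-- the auxiliary set with `ef` -/
noncomputable def T1 : Finset (ℤ × ℤ) := insert C.ef C.T0

lemma T1_sub : C.T1 ⊆ LabE X := by
  intro l hl
  rw [T1, Finset.mem_insert, T0, Finset.mem_union] at hl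
  rcases hl with rfl | h | h
  · rw [ef, lb_mem_LabE _ (corner_edge_mem _)]; exact C.hβE
  · exact C.LabE_sub h
  · obtain ⟨e, he, h1, -⟩ := mem_KN.1 h
    exact (mem_LabE _).2 ⟨e, he, h1⟩

lemma ef_T0 : C.ef ∉ C.T0 := by
  rw [T0, Finset.mem_union, not_or]
  exact ⟨C.ef_not_dom, C.ef_not_KN⟩

lemma T1_erase : C.T1.erase C.ef = C.T0 := Finset.erase_insert C.ef_T0

/-- the vertices of the contour of the cut domain -/
lemma vx_iter (n : ℕ) : vx ((pv (LabE C.dom))^[n] (Pool.Agent.H69.Q1.cor X.α)) ∈ cutV X N := by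
  have h := Pool.Agent.H39.Q1.side_open (LabE C.dom) (Pool.Agent.H69.Q1.cor X.α) (Nat.zero_le n)
  refine Pool.Agent.H28.Q1.mem_V_of_co C.dom (u := X.α.1) C.dom.memα ?_
  rw [← vx_cor]
  exact h.mono Finset.inter_subset_left

include C in
/-- a label with both ends in `N` is not met from a vertex of the cut domain -/
lemma not_KN_of_vx {z : ℤ × ℤ} (hz : vx z ∈ cutV X N) : plab z ∉ KN X N := by
  obtain ⟨c, rfl⟩ := cor_surjective z
  rw [vx_cor] at hz
  rw [plab_cor]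
  intro h
  obtain ⟨e, he, h1, h2⟩ := mem_KN.1 h
  have h3 := lb_injOn (subZ2 X he) (corner_edge_mem _) h1
  rw [h3] at h2
  exact C.not_mem hz (h2 _ (by unfold Corner.edge; simp))

lemma iter_T0 (n : ℕ) : (pv C.T0)^[n] (Pool.Agent.H69.Q1.cor X.α) = (pv (LabE C.dom))^[n] (Pool.Agent.H69.Q1.cor X.α) := by
  refine Pool.Agent.H28.Q1.iter_congr (m := n) (fun k _ => ?_) n le_rfl
  rw [T0, Finset.mem_union]
  exact ⟨fun h => h.resolve_right (C.not_KN_of_vx (C.vx_iter k)), Or.inl⟩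

lemma bef_T0 {y z : ℤ × ℤ} :
    Bef (pv C.T0) (Pool.Agent.H69.Q1.cor X.α) y z ↔ Bef (pv (LabE C.dom)) (Pool.Agent.H69.Q1.cor X.α) y z := by
  unfold Bef
  simp only [C.iter_T0]

lemma inOrb_T0 {y : ℤ × ℤ} :
    InOrb (pv C.T0) (Pool.Agent.H69.Q1.cor X.α) y ↔ InOrb (pv (LabE C.dom)) (Pool.Agent.H69.Q1.cor X.α) y := by
  unfold InOrb
  simp only [C.iter_T0]

/-- a corner of the contour with label `ef` is the new final corner -/
lemma eq_β {z : ℤ × ℤ} (hz : vx z ∈ cutV X N) (h : plab z = C.ef) : z = Pool.Agent.H69.Q1.cor C.β := by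
  obtain ⟨c, rfl⟩ := cor_surjective z
  rw [vx_cor] at hz
  rw [plab_cor, ef] at h
  have h3 := lb_injOn (corner_edge_mem _) (corner_edge_mem _) h
  unfold Corner.edge at h3
  rcases Sym2.eq_iff.1 h3 with ⟨h1, h2⟩ | ⟨h1, h2⟩
  · rw [h1] at h2
    have h4 := Pool.Agent.H42.MJ.dir_injective (add_left_cancel h2)
    rw [show c = C.β from Prod.ext h1 h4]
  · exfalso
    rw [h1] at hz
    exact C.not_mem hz C.hβN

/-- the faces of outer corners are joined outside -/
lemma faces {c : Corner} (ho : IsOuter X.E c) :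
    ∃ F : Finset (ℤ × ℤ), Co (du F (LabE X)) (fi (Pool.Agent.H69.Q1.cor X.α)) (fi (Pool.Agent.H69.Q1.cor c)) :=
  exists_du_of_dCo (dCo_outer X X.outα ho)

lemma co_T0 {v : ℤ × ℤ} (hv : v ∈ cutV X N) : Co C.T0 (vx (Pool.Agent.H69.Q1.cor X.α)) v := by
  rw [vx_cor]
  exact (co_LabE C.dom C.dom.memα hv).mono Finset.subset_union_left

lemma co_T1 {g : Corner} (h : JN X N (C.β.1 + dir C.β.2) g.1) :
    Co C.T1 (vx (Pool.Agent.H69.Q1.cor X.α)) (vx (Pool.Agent.H69.Q1.cor g)) := by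
  have h1 : Co C.T1 (vx (Pool.Agent.H69.Q1.cor X.α)) C.β.1 := (C.co_T0 C.hβV).mono (Finset.subset_insert _ _)
  have h2 : Co C.T1 C.β.1 (C.β.1 + dir C.β.2) := by
    refine Relation.ReflTransGen.single (ad_lab (corner_edge_mem C.β) ?_)
    exact Finset.mem_insert_self _ _
  have h3 : Co C.T1 (C.β.1 + dir C.β.2) g.1 := (co_KN C.hβN h).mono
    (Finset.subset_union_right.trans (Finset.subset_insert _ _))
  rw [vx_cor g]
  exact (h1.trans h2).trans h3

lemma sw : Sw (pv C.T1) (pv C.T0) (nx C.T1 (zu C.ef)) (nx C.T1 (zv C.ef)) ∧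
    nx C.T1 (zu C.ef) ≠ nx C.T1 (zv C.ef) := by
  have he : (C.ef.1 + C.ef.2) % 2 = 1 := Pool.Agent.H69.Q1.odd_lb (corner_edge_mem _)
  have h := sw_erase he (M := C.T1) (Finset.mem_insert_self _ _)
  rwa [C.T1_erase] at h

lemma odd_ef : (C.ef.1 + C.ef.2) % 2 = 1 := Pool.Agent.H69.Q1.odd_lb (corner_edge_mem _)

/-- corners of `N` are not on the contour of the cut domain -/
lemma not_orb {g : Corner} (hg : g.1 ∈ N) : ¬ InOrb (pv C.T0) (Pool.Agent.H69.Q1.cor X.α) (Pool.Agent.H69.Q1.cor g) := by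
  rw [C.inOrb_T0]
  rintro ⟨n, hn⟩
  have h := C.vx_iter n
  rw [hn, vx_cor] at h
  exact C.not_mem h hg

/-- a corner of the contour of the cut domain before the final corner avoids both special corners -/
lemma special {n : ℕ} (hn : (pv (LabE C.dom))^[n] (Pool.Agent.H69.Q1.cor X.α) ≠ Pool.Agent.H69.Q1.cor C.β) :
    (pv C.T0)^[n] (Pool.Agent.H69.Q1.cor X.α) ≠ nx C.T1 (zu C.ef) ∧ (pv C.T0)^[n] (Pool.Agent.H69.Q1.cor X.α) ≠ nx C.T1 (zv C.ef) := by
  rw [C.iter_T0]
  constructor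
  · intro h
    exact hn (C.eq_β (C.vx_iter n) ((plab_iff C.odd_ef).2 (Or.inl h)))
  · intro h
    exact hn (C.eq_β (C.vx_iter n) ((plab_iff C.odd_ef).2 (Or.inr h)))

lemma β_special : Pool.Agent.H69.Q1.cor C.β = nx C.T1 (zu C.ef) ∨ Pool.Agent.H69.Q1.cor C.β = nx C.T1 (zv C.ef) :=
  (plab_iff C.odd_ef).1 C.plab_β

variable {c : Corner}

lemma inOrb_dom (hc : c.1 ∈ cutV X N) (ho : IsOuter X.E c) :
    InOrb (pv (LabE C.dom)) (Pool.Agent.H69.Q1.cor X.α) (Pool.Agent.H69.Q1.cor c) :=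
  inOrb_outer C.dom C.dom.memα hc C.dom.outα (isOuter_mono cutE_sub ho)

/-- **Dual corners come before the new final corner.** -/
theorem bef_of_dual (hc : c.1 ∈ cutV X N) (ho : IsOuter X.E c) (hβ : c ≠ C.β)
    (hd : c ∈ X.dual) : Bef (pv (LabE C.dom)) (Pool.Agent.H69.Q1.cor X.α) (Pool.Agent.H69.Q1.cor c) (Pool.Agent.H69.Q1.cor C.β) := by
  by_contra hcon
  have hcN := C.not_mem hc
  have hg1N : C.g1.1 ∈ N := JN_mem C.hβN C.jg1
  have hg1α : C.g1 ≠ X.α := fun h => C.hα (h ▸ hg1N)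
  have hcg : c ≠ C.g1 := fun h => hcN (h ▸ hg1N)
  obtain ⟨og1, mg1⟩ := outer_of_wired X C.hg1
  -- order in `X`
  have h1 : Bef (pv (LabE X)) (Pool.Agent.H69.Q1.cor X.α) (Pool.Agent.H69.Q1.cor c) (Pool.Agent.H69.Q1.cor C.g1) := by
    rw [mem_dual_iff] at hd
    have hw := (mem_wired_iff X hg1α).1 C.hg1
    rcases hd with hd | hd
    · rcases hw with hw | hw
      · exact absurd (hd.trans hw.symm) hcg
      · rw [hd]; exact hw.2
    · rcases hw with hw | hw
      · rw [hw]; exact hd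
      · exact hd.trans hw.2
  -- order in `T1`
  obtain ⟨F1, hF1⟩ := faces ho
  obtain ⟨F2, hF2⟩ := faces (X := X) og1
  have c1 : Co C.T1 (vx (Pool.Agent.H69.Q1.cor X.α)) (vx (Pool.Agent.H69.Q1.cor c)) := by
    rw [vx_cor c]
    exact (C.co_T0 hc).mono (Finset.subset_insert _ _)
  have c2 := C.co_T1 C.jg1
  have f1 : Co (du (F1 ∪ F2) (LabE X)) (fi (Pool.Agent.H69.Q1.cor X.α)) (fi (Pool.Agent.H69.Q1.cor c)) :=
    hF1.mono (du_mono_left Finset.subset_union_left)
  have f2 : Co (du (F1 ∪ F2) (LabE X)) (fi (Pool.Agent.H69.Q1.cor X.α)) (fi (Pool.Agent.H69.Q1.cor C.g1)) :=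
    hF2.mono (du_mono_left Finset.subset_union_right)
  have h2 := bef_mono (LabE X) C.T1_sub (fun e he => odd_LabE X he) c1 c2 f1 f2 h1
  -- the other order
  have o1 := C.inOrb_dom hc ho
  have o2 : InOrb (pv (LabE C.dom)) (Pool.Agent.H69.Q1.cor X.α) (Pool.Agent.H69.Q1.cor C.β) := inOrb_αβ C.dom
  have h3 : Bef (pv (LabE C.dom)) (Pool.Agent.H69.Q1.cor X.α) (Pool.Agent.H69.Q1.cor C.β) (Pool.Agent.H69.Q1.cor c) :=
    (bef_or o1 o2 (fun h => hβ (cor_injective h))).resolve_left hcon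
  classical
  -- first visit of the final corner
  have hex : ∃ i, (pv (LabE C.dom))^[i] (Pool.Agent.H69.Q1.cor X.α) = Pool.Agent.H69.Q1.cor C.β := o2
  have hs := Nat.find_spec hex
  have hm := fun k => Nat.find_min hex (m := k)
  set i := Nat.find hex
  obtain ⟨j, hj, hj'⟩ := h3
  have hij : i ≤ j := Nat.find_min' hex hj
  obtain ⟨hsw, hne⟩ := C.sw
  have hag : ∀ k ≤ i, (pv C.T1)^[k] (Pool.Agent.H69.Q1.cor X.α) = (pv C.T0)^[k] (Pool.Agent.H69.Q1.cor X.α) :=
    hsw.symm.agree fun k hk => C.special (hm k hk)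
  have h4 : Bef (pv C.T1) (Pool.Agent.H69.Q1.cor X.α) (Pool.Agent.H69.Q1.cor C.β) (Pool.Agent.H69.Q1.cor c) := by
    refine ⟨i, by rw [hag i le_rfl, C.iter_T0, hs], fun k hk => ?_⟩
    rw [hag k hk, C.iter_T0]
    exact hj' k (by omega)
  have o3 : InOrb (pv C.T1) (Pool.Agent.H69.Q1.cor X.α) (Pool.Agent.H69.Q1.cor C.g1) := inOrb_pv_iff.2 (inOrb_of_co _ c2
    (f2.mono (du_anti C.T1_sub)))
  have o4 : InOrb (pv C.T1) (Pool.Agent.H69.Q1.cor X.α) (Pool.Agent.H69.Q1.cor c) := inOrb_pv_iff.2 (inOrb_of_co _ c1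
    (f1.mono (du_anti C.T1_sub)))
  have h5 : Bef (pv C.T1) (Pool.Agent.H69.Q1.cor X.α) (Pool.Agent.H69.Q1.cor C.g1) (Pool.Agent.H69.Q1.cor c) := by
    rcases C.β_special with h6 | h6
    · rw [h6] at h4
      exact hsw.excursion hne o3 (C.not_orb hg1N) (C.inOrb_T0.2 o1) h4 o4
    · rw [h6] at h4
      exact hsw.swap.excursion hne.symm o3 (C.not_orb hg1N) (C.inOrb_T0.2 o1) h4 o4
  exact h2.not h5

/-- **Wired corners come after the new final corner.** -/
theorem bef_of_wired (hc : c.1 ∈ cutV X N) (ho : IsOuter X.E c) (hβ : c ≠ C.β) (hα : c ≠ X.α)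
    (hd : c ∈ X.wired) : Bef (pv (LabE C.dom)) (Pool.Agent.H69.Q1.cor X.α) (Pool.Agent.H69.Q1.cor C.β) (Pool.Agent.H69.Q1.cor c) := by
  by_contra hcon
  have hcN := C.not_mem hc
  have hg2N : C.g2.1 ∈ N := JN_mem C.hβN C.jg2
  have hcg : c ≠ C.g2 := fun h => hcN (h ▸ hg2N)
  obtain ⟨og2, mg2⟩ := outer_of_dual X C.hg2
  -- order in `X`
  have h1 : Bef (pv (LabE X)) (Pool.Agent.H69.Q1.cor X.α) (Pool.Agent.H69.Q1.cor C.g2) (Pool.Agent.H69.Q1.cor c) := by
    have hw := (mem_dual_iff X).1 C.hg2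
    rw [mem_wired_iff X hα] at hd
    rcases hd with hd | hd
    · rcases hw with hw | hw
      · exact absurd (hd.trans hw.symm) hcg
      · rw [hd]; exact hw
    · rcases hw with hw | hw
      · rw [hw]; exact hd.2
      · exact hw.trans hd.2
  -- order in `T1`
  obtain ⟨F1, hF1⟩ := faces ho
  obtain ⟨F2, hF2⟩ := faces (X := X) og2
  have c1 : Co C.T1 (vx (Pool.Agent.H69.Q1.cor X.α)) (vx (Pool.Agent.H69.Q1.cor c)) := by
    rw [vx_cor c]
    exact (C.co_T0 hc).mono (Finset.subset_insert _ _)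
  have c2 := C.co_T1 C.jg2
  have f1 : Co (du (F1 ∪ F2) (LabE X)) (fi (Pool.Agent.H69.Q1.cor X.α)) (fi (Pool.Agent.H69.Q1.cor c)) :=
    hF1.mono (du_mono_left Finset.subset_union_left)
  have f2 : Co (du (F1 ∪ F2) (LabE X)) (fi (Pool.Agent.H69.Q1.cor X.α)) (fi (Pool.Agent.H69.Q1.cor C.g2)) :=
    hF2.mono (du_mono_left Finset.subset_union_right)
  have h2 := bef_mono (LabE X) C.T1_sub (fun e he => odd_LabE X he) c2 c1 f2 f1 h1
  have o1 := C.inOrb_dom hc ho
  have o2 : InOrb (pv (LabE C.dom)) (Pool.Agent.H69.Q1.cor X.α) (Pool.Agent.H69.Q1.cor C.β) := inOrb_αβ C.dom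
  have h3 : Bef (pv (LabE C.dom)) (Pool.Agent.H69.Q1.cor X.α) (Pool.Agent.H69.Q1.cor c) (Pool.Agent.H69.Q1.cor C.β) :=
    (bef_or o2 o1 (fun h => hβ (cor_injective h.symm))).resolve_left hcon
  obtain ⟨j, hj, hj'⟩ := h3
  obtain ⟨hsw, hne⟩ := C.sw
  have hag : ∀ k ≤ j, (pv C.T1)^[k] (Pool.Agent.H69.Q1.cor X.α) = (pv C.T0)^[k] (Pool.Agent.H69.Q1.cor X.α) :=
    hsw.symm.agree fun k hk => C.special (hj' k hk.le)
  refine h2.not ⟨j, by rw [hag j le_rfl, C.iter_T0, hj], fun k hk h4 => ?_⟩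
  rw [hag k hk] at h4
  exact C.not_orb hg2N ⟨k, h4⟩

theorem dual_of (hc : c.1 ∈ cutV X N) (ho : IsOuter X.E c) (hd : c ∈ X.dual) :
    c ∈ C.dom.dual := by
  rw [mem_dual_iff]
  by_cases hβ : c = C.β
  · exact Or.inl hβ
  · exact Or.inr (C.bef_of_dual hc ho hβ hd)

theorem wired_of (hc : c.1 ∈ cutV X N) (ho : IsOuter X.E c) (hd : c ∈ X.wired) :
    c ∈ C.dom.wired := by
  by_cases hα : c = X.α
  · rw [mem_wired_iff']; exact Or.inl hα
  · rw [mem_wired_iff C.dom hα]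
    by_cases hβ : c = C.β
    · exact Or.inl hβ
    · exact Or.inr ⟨C.inOrb_dom hc ho, C.bef_of_wired hc ho hβ hα hd⟩

/-- **Exactness.** -/
theorem dual_iff (hc : c.1 ∈ cutV X N) (ho : IsOuter X.E c) (hβ : c ≠ C.β) (hα : c ≠ X.α) :
    c ∈ C.dom.dual ↔ c ∈ X.dual := by
  refine ⟨fun h => ?_, C.dual_of hc ho⟩
  rcases outer_mem X (cutV_sub hc) ho with h1 | h1
  · exact h1
  · rcases not_both C.dom h (C.wired_of hc ho h1) with h2 | h2
    · exact absurd h2 hα
    · exact absurd h2 hβ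

theorem wired_iff (hc : c.1 ∈ cutV X N) (ho : IsOuter X.E c) (hβ : c ≠ C.β) (hα : c ≠ X.α) :
    c ∈ C.dom.wired ↔ c ∈ X.wired := by
  refine ⟨fun h => ?_, C.wired_of hc ho⟩
  rcases outer_mem X (cutV_sub hc) ho with h1 | h1
  · rcases not_both C.dom (C.dual_of hc ho h1) h with h2 | h2
    · exact absurd h2 hα
    · exact absurd h2 hβ
  · exact h1

end CutC

end Pool.Agent.H5.M7
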